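import Pool.Agent.CX.Defs
import Pool.Agent.JD.S7

/-!
# [CX-C1] the archimedean periods

PROOF. For an embedding `s : F →+* ℂ`: `‖s (jF F a)‖ = ‖emb a‖` (`s ∘ jF` is a ring homomorphism `Eis → ℂ`; `s (ω)` is a primitive cube root of unity, `w` or `conj w`; `CU.norm_embedding_KK` is this for `KK`: apply it to the infinite place of `KK` given by `s ∘ algebraMap`, or copy its proof). No place of `F` is real (`s(ω) ∉ ℝ`; `CU.not_isReal_KK`), so `archPeriod = 2 complexArea (ED (s (jF D)))`
`= √3 Om² / ‖4 s (jF D)‖^(1/3)` (`JD.complexArea_ED`, see `JD.period_ED` in JD/S7.lean). The number of infinite places is `finrank KK F`: all complex, `finrank ℚ F = 2 * #places` (`NumberField.InfinitePlace.card_add_two_mul_card_eq_rank`, `nrRealPlaces = 0`), `finrank ℚ F = 2 * finrank KK F` (tower, `finrank ℚ KK = 2`).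
-/

set_option autoImplicit false

open NumberField IsDedekindDomain
open scoped Classical ComplexConjugate

namespace CX

open CM27 CMT NAB CF JD
open CU (la om eE)

theorem C1_not_real (F : Type) [Field F] [NumberField F] [Algebra KK F] (v : InfinitePlace F) :
    ¬ v.IsReal := fun h => CU.not_isReal_KK _ (h.comap (algebraMap KK F))

theorem C1_card (F : Type) [Field F] [NumberField F] [Algebra KK F] :
    Fintype.card (InfinitePlace F) = Module.finrank KK F := by
  have h1 := InfinitePlace.sum_mult_eq (K := F)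
  have h2 : ∀ w : InfinitePlace F, w.mult = 2 := by
    intro w
    rw [InfinitePlace.mult, if_neg (C1_not_real F w)]
  simp only [h2] at h1
  rw [Finset.sum_const, Finset.card_univ, smul_eq_mul, ← Module.finrank_mul_finrank ℚ KK F,
    CF.d2_finrank_KK] at h1
  omega

theorem C1_one {F : Type} [Field F] [NumberField F] [Algebra KK F] {D : Eis} (hD : D ≠ 0)
    (v : InfinitePlace F) : SBSD.archPeriod (ED (jF F D)) v =
      √3 * Om ^ 2 / ‖emb (4 * D)‖ ^ ((1 : ℝ) / 3) := by
  have h0 : ∀ a : Eis, ‖v.embedding (jF F a)‖ = ‖emb a‖ := by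
    intro a
    rw [jF_apply, jK_apply]
    exact CU.norm_embedding_KK (v.embedding.comp (algebraMap KK F)) a
  have hne2 : v.embedding (jF F D) ≠ 0 := by
    rw [← norm_ne_zero_iff, h0, norm_ne_zero_iff, ← map_zero emb]
    exact fun h0 => hD (emb_injective h0)
  have h5 : ‖4 * v.embedding (jF F D)‖ = ‖emb (4 * D)‖ := by
    rw [norm_mul, h0, map_mul, norm_mul]
    congr 1
    have h6 : emb (4 : Eis) = 4 := map_ofNat emb 4
    rw [h6]
  unfold SBSD.archPeriod
  rw [dif_neg (C1_not_real F v), ED_map, complexArea_ED _ hne2, h5]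
  ring

theorem arch (F : Type) [Field F] [NumberField F] [Algebra KK F] {D : Eis} (hD : D ≠ 0) :
    ∏ v : InfinitePlace F, SBSD.archPeriod (ED (jF F D)) v =
      (√3 * Om ^ 2 / ‖emb (4 * D)‖ ^ ((1 : ℝ) / 3)) ^ Module.finrank KK F := by
  rw [Finset.prod_congr rfl fun v _ => C1_one (F := F) hD v, Finset.prod_const, Finset.card_univ, C1_card]

theorem arch_K {D : Eis} (hD : D ≠ 0) :
    ∏ v : InfinitePlace KK, SBSD.archPeriod (ED (jK D)) v = √3 * Om ^ 2 / ‖emb (4 * D)‖ ^ ((1 : ℝ) / 3) := by
  have h := arch KK hD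
  rw [Module.finrank_self, pow_one] at h
  exact h

end CX
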