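import Pool.Agent.CX.L0

/-!
# [CX-C2] the Néron factor at a place not above 6

PROOF. `loc_form`: `D = c⁶ π^i D'`, `v(c) = exp (-j)`, `(ED D).baseChange = C • (ED (π^i D')).map`, `C.u = c⁻¹` (`six_smul`, `JD.ED_map`). If `T` is a minimal change of `(ED D).baseChange`, then `T * C` is a change of `(ED (π^i D')).map` to a minimal one, so (`min_i`) `v(T.u) v(C.u) = 1`, `v(T.u) = v(c) = exp (-j)`, and `neron = ‖T.u‖⁻¹ = nv^j` (norm from valuation: `ISO.isoc_norm`, `JG.neron_u`).
If `-6 < od ≤ 0` then `0 ≤ 6 j + i < 6`, `0 ≤ i ≤ 5`, so `j = 0`.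
-/

set_option autoImplicit false

open NumberField IsDedekindDomain
open scoped Classical ComplexConjugate

namespace CX

open CM27 CMT NAB CF JD
open CU (la om eE)

theorem neron_ne6 {k : Type} [Field k] [NumberField k] (v : HeightOneSpectrum (𝓞 k)) (h6 : (6 : 𝓞 k) ∉ v.asIdeal) {D : k} (hD : D ≠ 0) :
    ∃ j : ℤ, SBSD.neron (ED D) v = (TH.nv v : ℝ) ^ j ∧ (-6 < TWR.od v D → TWR.od v D ≤ 0 → j = 0) := by
  obtain ⟨π, D', i, c, j, hπ, hD', hi, hc, hDeq, hvc, hod⟩ := loc_form v h6 hD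
  obtain ⟨C, hCu, hCeq⟩ := six_smul c (algebraMap (v.adicCompletionIntegers k) (v.adicCompletion k) (π ^ i * D')) hc
  refine ⟨j, ?_, fun h1 h2 => by omega⟩
  have hW : (ED D).baseChange (v.adicCompletion k) =
      C • (ED (π ^ i * D')).map (algebraMap (v.adicCompletionIntegers k) (v.adicCompletion k)) := by
    rw [WeierstrassCurve.baseChange, ED_map, ED_map, hDeq, hCeq]
  have hspec := (((ED D).baseChange (v.adicCompletion k)).exists_isMinimal
        (v.adicCompletionIntegers k)).choose_spec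
  unfold SBSD.neron
  generalize (((ED D).baseChange (v.adicCompletion k)).exists_isMinimal
        (v.adicCompletionIntegers k)).choose = T at hspec ⊢
  rw [hW, ← mul_smul] at hspec
  have h1 := min_i (v.adicCompletionIntegers k) (v.adicCompletion k) (six_unit v h6) π D' hπ hD' i hi (T * C) hspec
  have h2 := ISO.isoc_norm v h1
  have h3 : (((T * C).u : (v.adicCompletion k)ˣ) : v.adicCompletion k) = (T.u : v.adicCompletion k) * c⁻¹ := by
    rw [← hCu]
    rfl
  have hc0 : ‖c‖ ≠ 0 := norm_ne_zero_iff.2 hc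
  rw [h3, norm_mul, norm_inv, mul_inv_eq_one₀ hc0] at h2
  have h5 : (WithZero.exp (-j) : WithZero (Multiplicative ℤ)) = WithZero.exp (-1 : ℤ) ^ j := by
    rw [← WithZero.exp_zsmul]
    congr 1
    simp
  rw [h2, FinitePlace.norm_def, hvc, h5, map_zpow₀, JG.sgb_toNNReal]
  push_cast
  rw [inv_zpow, inv_inv]
  rfl

end CX
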