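import Pool.Agent.CX.Defs
import Pool.Agent.MP_9ab903_nt.TH.B0a
import Pool.Agent.MP_9ab903_nt.TH.P14a
import Pool.Agent.MP_9ab903_nt.TH.B1c

/-!
# [CX-L3] the prime below and representation by units

PROOF. `exists_unit_rep`: `u₀ ∈ k` with `od v u₀ = od v t / j` (`v.valuation_surjective`), `t / u₀ ^ j` has valuation `1` at `v`, so it is `a / b`, `a, b ∈ 𝓞 k ∖ v` (`HeightOneSpectrum.exists_primeCompl_mul_eq_of_integer` as in JD/L0.lean; `TWR.unit_rep` (PF1) is the case `j = 2`), `u = u₀ / b`, `t' = a b ^ (j - 1)`.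
`exists_below`: `e⁻¹(v)` is a prime ideal of the principal ideal domain `Eis`, not zero (it contains the prime number in `v`), `= (b)`, `b ∤ 6`; a primary associate of `b` exists (`Primary`: see the proof of `JG.places`, or how `JD`/`CM27` get primary generators); the residue field `𝓞 k / v` is a finite extension of
`Eis / b`, of order `N(b) ^ f` (`TH.psv_spec` in TH/B0 does this with `p7 ∣ b - 1` instead of `Primary b`). `nv_mod6`: `N(b) ≡ 1 mod 6` for a prime `b ∤ 6` (`N(b) = p ≡ 1 mod 3` or `p²`; `TH.b1c_norm_mod`, `TH.b1c_norm_odd`).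
-/

set_option autoImplicit false

open NumberField IsDedekindDomain
open scoped Classical ComplexConjugate

namespace CX

open CM27 CMT NAB CF JD
open CU (la om eE)

section
variable {k : Type} [Field k] [NumberField k] (e : Eis →+* 𝓞 k) (v : HeightOneSpectrum (𝓞 k))

theorem exists_unit_rep {j : ℕ} (hj : 0 < j) {t : k} (ht : t ≠ 0) (h : (j : ℤ) ∣ TWR.od v t) :
    ∃ (t' : 𝓞 k) (u : k), u ≠ 0 ∧ t' ∉ v.asIdeal ∧ t = u ^ j * (t' : k) := by
  obtain ⟨m, hm⟩ := h
  obtain ⟨z, hz⟩ := v.valuation_surjective k (WithZero.exp m)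
  have hz0 : z ≠ 0 := by
    rintro rfl
    rw [map_zero] at hz
    exact WithZero.exp_ne_zero hz.symm
  have hzo : TWR.od v z = m := by
    rw [TWR.od, hz, WithZero.log_exp]
  have hzj : z ^ j ≠ 0 := pow_ne_zero _ hz0
  obtain ⟨y, hy⟩ : ∃ y : k, y = t / z ^ j := ⟨_, rfl⟩
  have hy0 : y ≠ 0 := by rw [hy]; exact div_ne_zero ht hzj
  have hyv : v.valuation k y = 1 := by
    have h1 : TWR.od v y = 0 := by
      rw [hy, div_eq_mul_inv, TWR.od_mul v ht (inv_ne_zero hzj), TWR.od_inv, TWR.od_pow, hzo, hm]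
      ring
    rw [TWR.val_eq_exp v hy0, h1, WithZero.exp_zero]
  obtain ⟨c, s, hc, hs, hct⟩ := TH.p1_frac_unit v hyv
  have hs0 : s ≠ 0 := by
    rintro rfl
    exact hs (Ideal.zero_mem _)
  have hsF : (s : k) ≠ 0 := RingOfIntegers.coe_ne_zero_iff.2 hs0
  refine ⟨c * s ^ (j - 1), z / s, div_ne_zero hz0 hsF, ?_, ?_⟩
  · intro hmem
    rcases v.isPrime.mem_or_mem hmem with h1 | h1
    · exact hc h1
    · exact hs (v.isPrime.mem_of_pow_mem _ h1)
  · change t = (z / s) ^ j * ((c : k) * (s : k) ^ (j - 1))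
    have hty : t = y * z ^ j := by rw [hy]; exact (div_mul_cancel₀ _ hzj).symm
    have hsj : (s : k) ^ j = s * (s : k) ^ (j - 1) := by
      rw [← pow_succ']
      congr 1
      omega
    rw [hct, div_pow, hty, hsj]
    have hsj1 : (s : k) ^ (j - 1) ≠ 0 := pow_ne_zero _ hsF
    field_simp

variable (h6 : (6 : 𝓞 k) ∉ v.asIdeal)
include e h6

theorem exists_below : ∃ (b : Eis) (f : ℕ), Primary b ∧ Prime b ∧ ¬ b ∣ 6 ∧ e b ∈ v.asIdeal ∧ 0 < f ∧ TH.nv v = b.norm.natAbs ^ f := by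
  have := CM27.eis_isDomain
  obtain ⟨b, hb, hbv⟩ := TH.exists_below e v
  have h6b : ∀ {c : Eis}, e c ∈ v.asIdeal → ¬ c ∣ 6 := by
    rintro c hc ⟨r, hr⟩
    apply h6
    have h1 := congrArg e hr
    rw [map_ofNat, map_mul] at h1
    rw [h1]
    exact Ideal.mul_mem_right _ _ hc
  have h3 : ¬ b ∣ 3 := by
    intro h
    exact h6b hbv (h.trans ⟨2, by norm_num⟩)
  obtain ⟨b', hb', hp, ha⟩ := TH.exists_primary b hb h3
  have hb'v : e b' ∈ v.asIdeal := (TH.comap_prime e v hb hbv b').2 ha.dvd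
  obtain ⟨f, hf, hn⟩ := TH.nv_pow e v hb' hb'v
  exact ⟨b', f, hp, hb', h6b hb'v, hb'v, hf, hn⟩

theorem nv_mod6 : TH.nv v % 6 = 1 := by
  have h3 : (3 : 𝓞 k) ∉ v.asIdeal := by
    intro h
    apply h6
    have h1 : (6 : 𝓞 k) = 2 * 3 := by norm_num
    rw [h1]
    exact Ideal.mul_mem_left _ _ h
  have h2 : (2 : 𝓞 k) ∉ v.asIdeal := by
    intro h
    apply h6
    have h1 : (6 : 𝓞 k) = 3 * 2 := by norm_num
    rw [h1]
    exact Ideal.mul_mem_left _ _ h
  have hm := TH.nv_mod e v h3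
  have := v.isMaximal
  let _ : Field (𝓞 k ⧸ v.asIdeal) := Ideal.Quotient.field v.asIdeal
  have := finite_quot v
  have h2k : (2 : 𝓞 k ⧸ v.asIdeal) ≠ 0 := fun h => h2 ((NAB.two_quot v).1 h)
  have ho := NAB.odd_card (𝓞 k ⧸ v.asIdeal) h2k
  have ho2 : TH.nv v % 2 = 1 := Nat.odd_iff.1 ho
  omega
end

end CX
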