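import Pool.Agent.CX.C2
import Pool.Agent.CX.L3

/-!
# [CX-C3a] the product of the Néron factors

`Rp r`: `r` is a positive rational number prime to 6. PROOF. `ISO.neron_finite`: finitely many `v` with `neron ≠ 1`; for `v ∤ 6` `neron = nv^j` (`neron_ne6`), `nv v = p^f` for the prime number `p ∈ v`, `p ∤ 6`, so `(nv v : ℚ)^j` is positive and prime to 6. Split the finprod (`finprod_mul_distrib`, factors
`if 6 ∈ v then neron else 1` and `if 6 ∈ v then 1 else neron`; both have finite support); the second one is a product of finitely many numbers `Rp`. `kap6_pos`: all Néron factors are norms of nonzero elements, inverted.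
-/

set_option autoImplicit false

open NumberField IsDedekindDomain
open scoped Classical ComplexConjugate

namespace CX

open CM27 CMT NAB CF JD
open CU (la om eE)

/-- the product of the Néron factors over 6 -/
noncomputable def kap6 (D : Eis) : ℝ :=
  ∏ᶠ v : HeightOneSpectrum (𝓞 KK), if (6 : 𝓞 KK) ∈ v.asIdeal then SBSD.neron (ED (jK D)) v else 1

/-- a positive rational number prime to 6 -/
def Rp (r : ℚ) : Prop := 0 < r ∧ padicValRat 2 r = 0 ∧ padicValRat 3 r = 0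

theorem c3a_one : Rp 1 := ⟨one_pos, by simp, by simp⟩

theorem c3a_mul {a b : ℚ} (ha : Rp a) (hb : Rp b) : Rp (a * b) := by
  have : Fact (Nat.Prime 2) := ⟨Nat.prime_two⟩
  have : Fact (Nat.Prime 3) := ⟨Nat.prime_three⟩
  refine ⟨mul_pos ha.1 hb.1, ?_, ?_⟩
  · rw [padicValRat.mul ha.1.ne' hb.1.ne', ha.2.1, hb.2.1, add_zero]
  · rw [padicValRat.mul ha.1.ne' hb.1.ne', ha.2.2, hb.2.2, add_zero]

theorem c3a_inv {a : ℚ} (ha : Rp a) : Rp a⁻¹ := by
  have : Fact (Nat.Prime 2) := ⟨Nat.prime_two⟩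
  have : Fact (Nat.Prime 3) := ⟨Nat.prime_three⟩
  refine ⟨inv_pos.2 ha.1, ?_, ?_⟩
  · rw [padicValRat.inv, ha.2.1, neg_zero]
  · rw [padicValRat.inv, ha.2.2, neg_zero]

theorem c3a_pow {a : ℚ} (ha : Rp a) (n : ℕ) : Rp (a ^ n) := by
  induction n with
  | zero => rw [pow_zero]; exact c3a_one
  | succ n ih => rw [pow_succ]; exact c3a_mul ih ha

theorem c3a_zpow {a : ℚ} (ha : Rp a) (n : ℤ) : Rp (a ^ n) := by
  cases n with
  | ofNat n => rw [Int.ofNat_eq_natCast, zpow_natCast]; exact c3a_pow ha n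
  | negSucc n => rw [zpow_negSucc]; exact c3a_inv (c3a_pow ha _)

theorem c3a_prod {ι : Type*} (s : Finset ι) (f : ι → ℚ) (h : ∀ i ∈ s, Rp (f i)) : Rp (∏ i ∈ s, f i) := by
  induction s using Finset.induction_on with
  | empty => rw [Finset.prod_empty]; exact c3a_one
  | insert a s ha ih =>
    rw [Finset.prod_insert ha]
    exact c3a_mul (h a (Finset.mem_insert_self a s)) (ih fun i hi => h i (Finset.mem_insert_of_mem hi))

theorem c3a_nv_ne {k : Type} [Field k] [NumberField k] (v : HeightOneSpectrum (𝓞 k)) : TH.nv v ≠ 0 := by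
  unfold TH.nv
  have : Finite (𝓞 k ⧸ v.asIdeal) := Ideal.finiteQuotientOfFreeOfNeBot _ v.ne_bot
  exact Nat.card_pos.ne'

theorem c3a_nv_dvd {k : Type} [Field k] [NumberField k] (v : HeightOneSpectrum (𝓞 k)) {p : ℕ} (hp : p.Prime)
    (h : p ∣ TH.nv v) : (p : 𝓞 k) ∈ v.asIdeal := by
  have : Fact p.Prime := ⟨hp⟩
  have : Finite (𝓞 k ⧸ v.asIdeal) := Ideal.finiteQuotientOfFreeOfNeBot _ v.ne_bot
  obtain ⟨x, hx⟩ := exists_prime_addOrderOf_dvd_card' (G := 𝓞 k ⧸ v.asIdeal) p h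
  have h1 : p • x = 0 := by rw [← hx]; exact addOrderOf_nsmul_eq_zero x
  have h2 : x ≠ 0 := by
    rintro rfl
    rw [addOrderOf_zero] at hx
    exact hp.one_lt.ne hx
  have : v.asIdeal.IsPrime := v.isPrime
  have h3 : ((p : 𝓞 k ⧸ v.asIdeal)) * x = 0 := by rw [← nsmul_eq_mul]; exact h1
  have h4 : (p : 𝓞 k ⧸ v.asIdeal) = 0 := (mul_eq_zero.1 h3).resolve_right h2
  rw [← Ideal.Quotient.eq_zero_iff_mem, map_natCast]
  exact h4

theorem c3a_nv {k : Type} [Field k] [NumberField k] (v : HeightOneSpectrum (𝓞 k)) (h6 : (6 : 𝓞 k) ∉ v.asIdeal) :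
    Rp (TH.nv v : ℚ) := by
  refine ⟨Nat.cast_pos.2 (Nat.pos_of_ne_zero (c3a_nv_ne v)), ?_, ?_⟩
  · rw [padicValRat.of_nat]
    have : ¬ 2 ∣ TH.nv v := by
      intro h
      apply h6
      have h1 := c3a_nv_dvd v Nat.prime_two h
      have h2 : (6 : 𝓞 k) = 3 * ((2 : ℕ) : 𝓞 k) := by push_cast; norm_num
      rw [h2]
      exact Ideal.mul_mem_left _ _ h1
    rw [padicValNat.eq_zero_of_not_dvd this]
    rfl
  · rw [padicValRat.of_nat]
    have : ¬ 3 ∣ TH.nv v := by
      intro h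
      apply h6
      have h1 := c3a_nv_dvd v Nat.prime_three h
      have h2 : (6 : 𝓞 k) = 2 * ((3 : ℕ) : 𝓞 k) := by push_cast; norm_num
      rw [h2]
      exact Ideal.mul_mem_left _ _ h1
    rw [padicValNat.eq_zero_of_not_dvd this]
    rfl

theorem c3a_delta {k : Type} [Field k] [NumberField k] {D : k} (hD : D ≠ 0) : (ED D).Δ ≠ 0 := by
  have h1 : (ED D).Δ = -432 * D ^ 2 := by
    simp only [ED, WeierstrassCurve.Δ, WeierstrassCurve.b₂, WeierstrassCurve.b₄, WeierstrassCurve.b₆, WeierstrassCurve.b₈]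
    ring
  rw [h1]
  exact mul_ne_zero (by norm_num) (pow_ne_zero _ hD)

theorem fin_neron {k : Type} [Field k] [NumberField k] {D : k} (hD : D ≠ 0) : ∃ r : ℚ, Rp r ∧
    ∏ᶠ v : HeightOneSpectrum (𝓞 k), SBSD.neron (ED D) v =
      (∏ᶠ v : HeightOneSpectrum (𝓞 k), if (6 : 𝓞 k) ∈ v.asIdeal then SBSD.neron (ED D) v else 1) * r := by
  have hf := ISO.neron_finite (ED D) (c3a_delta hD)
  set g : HeightOneSpectrum (𝓞 k) → ℝ := fun v => if (6 : 𝓞 k) ∈ v.asIdeal then SBSD.neron (ED D) v else 1 with hg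
  set h : HeightOneSpectrum (𝓞 k) → ℝ := fun v => if (6 : 𝓞 k) ∈ v.asIdeal then 1 else SBSD.neron (ED D) v with hh
  have hgh : ∀ v, SBSD.neron (ED D) v = g v * h v := by
    intro v
    by_cases h6 : (6 : 𝓞 k) ∈ v.asIdeal
    · simp only [hg, hh, if_pos h6, mul_one]
    · simp only [hg, hh, if_neg h6, one_mul]
  have hgs : (Function.mulSupport g).Finite := by
    refine hf.subset fun v hv => ?_
    by_contra hc
    have hc' : SBSD.neron (ED D) v = 1 := not_not.1 hc
    apply hv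
    simp only [hg, hc', ite_self]
  have hhs : (Function.mulSupport h).Finite := by
    refine hf.subset fun v hv => ?_
    by_contra hc
    have hc' : SBSD.neron (ED D) v = 1 := not_not.1 hc
    apply hv
    simp only [hh, hc', ite_self]
  have h1 : ∏ᶠ v : HeightOneSpectrum (𝓞 k), SBSD.neron (ED D) v = (∏ᶠ v, g v) * ∏ᶠ v, h v := by
    rw [← finprod_mul_distrib hgs hhs]
    exact finprod_congr hgh
  have h2 : ∀ v, ∃ r : ℚ, Rp r ∧ h v = (r : ℝ) := by
    intro v
    by_cases h6 : (6 : 𝓞 k) ∈ v.asIdeal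
    · exact ⟨1, c3a_one, by simp only [hh, if_pos h6, Rat.cast_one]⟩
    · obtain ⟨j, hj, -⟩ := neron_ne6 v h6 hD
      refine ⟨(TH.nv v : ℚ) ^ j, c3a_zpow (c3a_nv v h6) j, ?_⟩
      simp only [hh, if_neg h6, hj]
      push_cast
      rfl
  choose r hr1 hr2 using h2
  refine ⟨∏ v ∈ hhs.toFinset, r v, c3a_prod _ _ fun v _ => hr1 v, ?_⟩
  rw [h1, finprod_eq_prod_of_mulSupport_toFinset_subset (s := hhs.toFinset) h hhs (Finset.Subset.refl _)]
  push_cast
  congr 1
  exact Finset.prod_congr rfl fun v _ => hr2 v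

theorem kap6_pos {D : Eis} (hD : D ≠ 0) : 0 < kap6 D := by
  unfold kap6
  refine finprod_induction (p := fun x : ℝ => 0 < x) one_pos (fun x y hx hy => mul_pos hx hy) fun v => ?_
  by_cases h6 : (6 : 𝓞 KK) ∈ v.asIdeal
  · rw [if_pos h6]
    unfold SBSD.neron
    refine inv_pos.2 (norm_pos_iff.2 ?_)
    exact Units.ne_zero _
  · rw [if_neg h6]
    exact one_pos

end CX
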