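import Pool.Agent.CX.T2

/-!
# [CX-T5] Néron factors at the places over 6

PROOF. `SBSD.neron W v = ‖u‖⁻¹`, `u` of a minimal change `T` of `W.baseChange K_v`. `φ` transports minimal changes to minimal changes (`T.map φ` is minimal over `w`: `WeierstrassCurve.IsMinimal` is about valuations of discriminants of integral changes; or use `ISO.exists_model` + `ISO.ISOa_u`: any two minimal changes have `u` of the same valuation), so `w (u_w) = w (φ u_v) = v (u_v)` (`tr_val`), and the norm is
`‖x‖ = nv ^ (log of the valuation)` (`ISO.isoc_norm`: norm from valuation; `tr_nv`).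
-/

set_option autoImplicit false

open NumberField IsDedekindDomain
open scoped Classical ComplexConjugate

namespace CX

open CM27 CMT NAB CF JD
open CU (la om eE)

section
variable {A A' K K' : Type} [CommRing A] [IsDomain A] [IsDiscreteValuationRing A] [Field K] [Algebra A K] [IsFractionRing A K]
  [CommRing A'] [IsDomain A'] [IsDiscreteValuationRing A'] [Field K'] [Algebra A' K'] [IsFractionRing A' K']
  (ψ : A ≃+* A') (φ : K ≃+* K') (hc : ∀ a : A, φ (algebraMap A K a) = algebraMap A' K' (ψ a))
include hc

/-- [T5] helper -/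
theorem t5_le {x y : K} (hy : y ≠ 0)
    (h : (IsDiscreteValuationRing.maximalIdeal A).valuation K x ≤ (IsDiscreteValuationRing.maximalIdeal A).valuation K y) :
    (IsDiscreteValuationRing.maximalIdeal A').valuation K' (φ x) ≤ (IsDiscreteValuationRing.maximalIdeal A').valuation K' (φ y) := by
  have h1 : (IsDiscreteValuationRing.maximalIdeal A).valuation K (x / y) ≤ 1 := by
    rw [map_div₀]
    exact div_le_one_of_le₀ h zero_le
  obtain ⟨r, hr⟩ := IsDiscreteValuationRing.exists_lift_of_le_one h1
  have h2 : x = algebraMap A K r * y := by rw [hr, div_mul_cancel₀ _ hy]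
  rw [h2, map_mul, map_mul, hc]
  exact mul_le_of_le_one_left' (HeightOneSpectrum.valuation_le_one _ _)

omit [IsDomain A] [IsDiscreteValuationRing A] [IsFractionRing A K] [IsDomain A'] [IsDiscreteValuationRing A'] [IsFractionRing A' K'] in
/-- [T5] helper -/
theorem t5_int (M : WeierstrassCurve K) (hM : WeierstrassCurve.IsIntegral A M) :
    WeierstrassCurve.IsIntegral A' (M.map (φ : K →+* K')) := by
  obtain ⟨I, hI⟩ := hM
  refine ⟨I.map (ψ : A →+* A'), ?_⟩
  rw [hI]
  have h1 : ((algebraMap A' K').comp (ψ : A →+* A')) = (φ : K →+* K').comp (algebraMap A K) := by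
    ext a
    exact (hc a).symm
  rw [WeierstrassCurve.baseChange, WeierstrassCurve.baseChange, WeierstrassCurve.map_map, WeierstrassCurve.map_map, h1]

/-- [T5] helper -/
theorem t5_min (M : WeierstrassCurve K) (hΔ : M.Δ ≠ 0) (hM : M.IsMinimal A) : (M.map (φ : K →+* K')).IsMinimal A' := by
  have hMi : WeierstrassCurve.IsIntegral A M := inferInstance
  have hMi' := t5_int ψ φ hc M hMi
  have hc' : ∀ a : A', φ.symm (algebraMap A' K' a) = algebraMap A K (ψ.symm a) := by
    intro a
    rw [RingEquiv.symm_apply_eq, hc, RingEquiv.apply_symm_apply]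
  refine ⟨⟨?_, fun C' hC' _ => ?_⟩⟩
  · show WeierstrassCurve.IsIntegral A' ((1 : WeierstrassCurve.VariableChange K') • M.map (φ : K →+* K'))
    rw [one_smul]
    exact hMi'
  · have e1 : C' = (C'.map (φ.symm : K' →+* K)).map (φ : K →+* K') := by
      rw [WeierstrassCurve.VariableChange.map_map]
      have : (φ : K →+* K').comp (φ.symm : K' →+* K) = RingHom.id K' := by
        ext a
        simp
      rw [this, WeierstrassCurve.VariableChange.map_id]
    have e2 : C' • M.map (φ : K →+* K') = ((C'.map (φ.symm : K' →+* K)) • M).map (φ : K →+* K') := by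
      rw [← WeierstrassCurve.map_variableChange, ← e1]
    have e3 : (((C'.map (φ.symm : K' →+* K)) • M).map (φ : K →+* K')).map (φ.symm : K' →+* K) =
        (C'.map (φ.symm : K' →+* K)) • M := by
      rw [WeierstrassCurve.map_map]
      have : (φ.symm : K' →+* K).comp (φ : K →+* K') = RingHom.id K := by
        ext a
        simp
      rw [this, WeierstrassCurve.map_id]
    have h1 : WeierstrassCurve.IsIntegral A ((C'.map (φ.symm : K' →+* K)) • M) := by
      have h2 := t5_int ψ.symm φ.symm hc' (C' • M.map (φ : K →+* K')) hC'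
      rw [e2, e3] at h2
      exact h2
    have h3 := ISO.ISOa_le A M hM _ h1
    have h4 := t5_le ψ φ hc hΔ h3
    rw [← Subtype.coe_le_coe]
    have f1 : ((WeierstrassCurve.valuation_Δ_aux A' ((1 : WeierstrassCurve.VariableChange K') • M.map (φ : K →+* K')) :
        { v : WithZero (Multiplicative ℤ) // v ≤ 1 }) : WithZero (Multiplicative ℤ)) =
        (IsDiscreteValuationRing.maximalIdeal A').valuation K' (M.map (φ : K →+* K')).Δ := by
      rw [one_smul]
      exact WeierstrassCurve.valuation_Δ_aux_eq_of_isIntegral A' _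
    have f2 : ((WeierstrassCurve.valuation_Δ_aux A' (C' • M.map (φ : K →+* K')) :
        { v : WithZero (Multiplicative ℤ) // v ≤ 1 }) : WithZero (Multiplicative ℤ)) =
        (IsDiscreteValuationRing.maximalIdeal A').valuation K' (C' • M.map (φ : K →+* K')).Δ :=
      WeierstrassCurve.valuation_Δ_aux_eq_of_isIntegral A' _
    refine f2.le.trans (le_trans ?_ f1.ge)
    rw [e2, WeierstrassCurve.map_Δ, WeierstrassCurve.map_Δ]
    exact h4
end

/-- [T5] helper -/
theorem t5_norm {F : Type} [Field F] [NumberField F] [Algebra KK F] {v : HeightOneSpectrum (𝓞 KK)} {w : HeightOneSpectrum (𝓞 F)}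
    {φ : v.adicCompletion KK →+* w.adicCompletion F} (h : Below v w φ) (hs : Function.Surjective φ) (x : v.adicCompletion KK) :
    ‖φ x‖ = ‖x‖ := by
  rw [FinitePlace.norm_def, FinitePlace.norm_def]
  have h1 := tr_val h hs x
  have h2 : Ideal.absNorm w.asIdeal = Ideal.absNorm v.asIdeal := tr_nv h hs
  rw [h1]
  simp only [h2]

theorem tr_neron {F : Type} [Field F] [NumberField F] [Algebra KK F] {v : HeightOneSpectrum (𝓞 KK)} {w : HeightOneSpectrum (𝓞 F)}
    {φ : v.adicCompletion KK →+* w.adicCompletion F} (h : Below v w φ) (hs : Function.Surjective φ) {D : Eis} (hD : D ≠ 0) :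
    SBSD.neron (ED (jF F D)) w = SBSD.neron (ED (jK D)) v := by
  obtain ⟨ψ, hψ⟩ := tr_ring h hs
  have hΔ0 : (ED (jK D)).Δ ≠ 0 := by
    rw [JD.ED_Δ]
    refine mul_ne_zero (by norm_num) (pow_ne_zero 2 fun h => hD ?_)
    exact jK_inj (by rw [h, map_zero])
  have hΔv := ISO.isoc_delta (L := v.adicCompletion KK) (ED (jK D)) hΔ0
  have hbij : Function.Bijective φ := ⟨φ.injective, hs⟩
  have hc : ∀ a : v.adicCompletionIntegers KK, (RingEquiv.ofBijective φ hbij) (algebraMap _ (v.adicCompletion KK) a) =
      algebraMap (w.adicCompletionIntegers F) (w.adicCompletion F) (ψ a) := fun a => (hψ a).symm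
  have hE : (ED (jF F D)).baseChange (w.adicCompletion F) = ((ED (jK D)).baseChange (v.adicCompletion KK)).map φ := by
    rw [WeierstrassCurve.baseChange, WeierstrassCurve.baseChange, JD.ED_map, JD.ED_map, JD.ED_map, h.comm]
    rfl
  have h1 := (((ED (jK D)).baseChange (v.adicCompletion KK)).exists_isMinimal (v.adicCompletionIntegers KK)).choose_spec
  have h2 := (((ED (jF F D)).baseChange (w.adicCompletion F)).exists_isMinimal (w.adicCompletionIntegers F)).choose_spec
  unfold SBSD.neron
  generalize (((ED (jK D)).baseChange (v.adicCompletion KK)).exists_isMinimal (v.adicCompletionIntegers KK)).choose = T at h1 ⊢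
  generalize (((ED (jF F D)).baseChange (w.adicCompletion F)).exists_isMinimal (w.adicCompletionIntegers F)).choose = T' at h2 ⊢
  have hΔT : (T • (ED (jK D)).baseChange (v.adicCompletion KK)).Δ ≠ 0 := by
    rw [WeierstrassCurve.variableChange_Δ]
    exact mul_ne_zero (pow_ne_zero _ (Units.ne_zero _)) hΔv
  have h3 := t5_min ψ (RingEquiv.ofBijective φ hbij) hc _ hΔT h1
  have h4 : (T • (ED (jK D)).baseChange (v.adicCompletion KK)).map
      ((RingEquiv.ofBijective φ hbij : v.adicCompletion KK ≃+* w.adicCompletion F) : v.adicCompletion KK →+* w.adicCompletion F) =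
      T.map φ • (ED (jF F D)).baseChange (w.adicCompletion F) := by
    have h5 : ((RingEquiv.ofBijective φ hbij : v.adicCompletion KK ≃+* w.adicCompletion F) : v.adicCompletion KK →+* w.adicCompletion F) = φ := rfl
    rw [h5, hE, WeierstrassCurve.map_variableChange]
  rw [h4] at h3
  have hΔw : ((ED (jF F D)).baseChange (w.adicCompletion F)).Δ ≠ 0 := by
    rw [hE, WeierstrassCurve.map_Δ]
    exact (_root_.map_ne_zero _).2 hΔv
  have h2' : (T' • ((1 : WeierstrassCurve.VariableChange (w.adicCompletion F)) • (ED (jF F D)).baseChange (w.adicCompletion F))).IsMinimal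
      (w.adicCompletionIntegers F) := by
    rw [one_smul]
    exact h2
  have h6 := ISO.minimal_u (w.adicCompletionIntegers F) ((ED (jF F D)).baseChange (w.adicCompletion F)) hΔw 1 (T.map φ) T' h3 h2'
  have h7 : (((1 : WeierstrassCurve.VariableChange (w.adicCompletion F)).u : (w.adicCompletion F)ˣ) : w.adicCompletion F) = 1 := rfl
  have h8 : (((T.map φ).u : (w.adicCompletion F)ˣ) : w.adicCompletion F) = φ (T.u : v.adicCompletion KK) := rfl
  rw [h7, h8, map_one, mul_one] at h6
  have hT' : (T'.u : w.adicCompletion F) ≠ 0 := T'.u.ne_zero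
  have h9 : (IsDiscreteValuationRing.maximalIdeal (w.adicCompletionIntegers F)).valuation (w.adicCompletion F)
      (φ (T.u : v.adicCompletion KK) / (T'.u : w.adicCompletion F)) = 1 := by
    rw [map_div₀, h6, div_self]
    exact (Valuation.ne_zero_iff _).2 hT'
  have h10 := ISO.isoc_norm w h9
  rw [norm_div, div_eq_one_iff_eq (norm_ne_zero_iff.2 hT'), t5_norm h hs] at h10
  rw [h10]

end CX
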