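import Pool.Agent.CX.Defs

/-!
# [CX-L6] the Galois group of a Kummer extension

`dl δ χ = ∏ δ_i ^ χ_i`. PROOF. `dl_pow`: `pow`. `dl_ne`: `δ_i ≠ 0` since `d_i ≠ 0`. `root_eis`: an `l`-th root of unity of `F` is in `{± 1}` resp. `{1, ω, ω²}` (`x² - 1`, `(x - 1)(x² + x + 1)`, `x² + x + 1 = (x - ω)(x - ω²)`). `kum_galois`: `F` is the splitting field of `∏ (X^l - d_i)` (`IsGalois.of_separable_splitting_field`), or: `F` is
generated by elements with separable minimal polynomial which splits in `F` (`IntermediateField` / `isGalois` of adjoin; the conjugates of `δ_i` are `ζ δ_i`). `kum_act`: `σ (δ_i)^l = δ_i^l` (`σ` fixes `jF`), so `σ δ_i / δ_i` is a root of unity. `kum_ext`: the set where `σ = τ` is an intermediate field containing all `δ_i`.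
`kum_card`: `IsGalois.card_aut_eq_finrank`. `dl_add`: `(χ + χ').val + l ε_i = χ_i.val + χ'_i.val` with `ε_i ∈ {0, 1}` (`ZMod.val_add`), `c = ∏ d_i ^ ε_i`, `dl (χ) dl (χ') = dl (χ + χ') jF c`, `dx χ dx χ' = dx (χ + χ') c^l`.
-/

set_option autoImplicit false

open NumberField IsDedekindDomain
open scoped Classical ComplexConjugate

namespace CX

open CM27 CMT NAB CF JD
open CU (la om eE)

/-- `δ_χ` -/
def dl {l n : ℕ} {F : Type} [Field F] (δ : Fin n → F) (χ : Fin n → ZMod l) : F := ∏ i, δ i ^ (χ i).val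

theorem l6_om {F : Type} [Field F] [Algebra KK F] : jF F om ^ 2 + jF F om + 1 = 0 := by
  have h : om ^ 2 + om + 1 = 0 := by decide
  have h2 := congrArg (jF F) h
  simpa only [map_add, map_pow, map_one, map_zero] using h2

theorem l6_root3 {F : Type} [Field F] [Algebra KK F] {x : F} (h : x ^ 3 = 1) : x = 1 ∨ x = jF F om ∨ x = jF F om ^ 2 := by
  have ho := l6_om (F := F)
  have h1 : (x - 1) * ((x - jF F om) * (x - jF F om ^ 2)) = 0 := by
    linear_combination h + (x - 1) * (-x + jF F om - 1) * ho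
  rcases mul_eq_zero.1 h1 with h2 | h2
  · exact Or.inl (sub_eq_zero.1 h2)
  · rcases mul_eq_zero.1 h2 with h3 | h3
    · exact Or.inr (Or.inl (sub_eq_zero.1 h3))
    · exact Or.inr (Or.inr (sub_eq_zero.1 h3))

theorem l6_om3 {F : Type} [Field F] [Algebra KK F] : jF F om ^ 3 = 1 := by
  have ho := l6_om (F := F)
  linear_combination (jF F om - 1) * ho

theorem l6_prim {F : Type} [Field F] [NumberField F] [Algebra KK F] {l : ℕ} (hl : l = 2 ∨ l = 3) :
    ∃ ζ : F, IsPrimitiveRoot ζ l := by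
  rcases hl with rfl | rfl
  · exact ⟨-1, IsPrimitiveRoot.neg_one 0 (by norm_num)⟩
  · refine ⟨jF F om, ?_⟩
    have h1 : jF F om ≠ 1 := by
      intro h
      have ho := l6_om (F := F)
      rw [h] at ho
      have h3 : (3 : F) = 0 := by linear_combination ho
      exact absurd h3 (by norm_num)
    have h2 : orderOf (jF F om) = 3 := orderOf_eq_prime l6_om3 h1
    rw [← h2]
    exact IsPrimitiveRoot.orderOf _

section
variable {F : Type} [Field F] [NumberField F] [Algebra KK F] {l n : ℕ} {d : Fin n → Eis} {δ : Fin n → F} (hl : l = 2 ∨ l = 3)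

theorem dl_pow (hK : Kum l n d δ) (χ : Fin n → ZMod l) : dl δ χ ^ l = jF F (dx d χ) := by
  unfold dl dx
  rw [← Finset.prod_pow, map_prod]
  apply Finset.prod_congr rfl
  intro i _
  rw [← pow_mul, mul_comm, pow_mul, hK.pow, map_pow]

theorem l6_dne (hl : l = 2 ∨ l = 3) (hK : Kum l n d δ) (i : Fin n) : δ i ≠ 0 := by
  intro h0
  have h1 := hK.pow i
  have hl0 : l ≠ 0 := by rcases hl with rfl | rfl <;> norm_num
  rw [h0, zero_pow hl0] at h1
  exact hK.ne i (jF_inj F (h1.symm.trans (map_zero (jF F)).symm))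

theorem dl_ne (hl : l = 2 ∨ l = 3) (hK : Kum l n d δ) (χ : Fin n → ZMod l) : dl δ χ ≠ 0 := by
  unfold dl
  exact Finset.prod_ne_zero_iff.2 (fun i _ => pow_ne_zero _ (l6_dne hl hK i))

theorem dx_ne (hK : Kum l n d δ) (χ : Fin n → ZMod l) : dx d χ ≠ 0 := by
  have : IsDomain Eis := CM27.eis_isDomain
  unfold dx
  exact Finset.prod_ne_zero_iff.2 (fun i _ => pow_ne_zero _ (hK.ne i))

theorem dx_add [NeZero l] (hK : Kum l n d δ) (χ χ' : Fin n → ZMod l) : ∃ c : Eis, c ≠ 0 ∧ dx d χ * dx d χ' = dx d (χ + χ') * c ^ l ∧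
    dl δ χ * dl δ χ' = dl δ (χ + χ') * jF F c := by
  have : IsDomain Eis := CM27.eis_isDomain
  have hε : ∀ i, ∃ ε : ℕ, (χ i).val + (χ' i).val = ((χ + χ') i).val + l * ε := by
    intro i
    refine ⟨((χ i).val + (χ' i).val) / l, ?_⟩
    rw [Pi.add_apply, ZMod.val_add]
    exact (Nat.mod_add_div _ _).symm
  choose ε hε using hε
  refine ⟨∏ i, d i ^ ε i, Finset.prod_ne_zero_iff.2 (fun i _ => pow_ne_zero _ (hK.ne i)), ?_, ?_⟩
  · unfold dx
    rw [← Finset.prod_pow, ← Finset.prod_mul_distrib, ← Finset.prod_mul_distrib]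
    apply Finset.prod_congr rfl
    intro i _
    rw [← pow_add, hε, pow_add, pow_mul, ← pow_mul, ← pow_mul, mul_comm l]
  · unfold dl
    rw [map_prod, ← Finset.prod_mul_distrib, ← Finset.prod_mul_distrib]
    apply Finset.prod_congr rfl
    intro i _
    rw [← pow_add, hε, pow_add, pow_mul, hK.pow, map_pow]

theorem dx_zero : dx d (0 : Fin n → ZMod l) = 1 := by
  unfold dx
  apply Finset.prod_eq_one
  intro i _
  rw [Pi.zero_apply, ZMod.val_zero, pow_zero]

theorem dx_single [NeZero l] (i : Fin n) (j : ZMod l) : dx d (Pi.single i j) = d i ^ j.val := by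
  unfold dx
  rw [Finset.prod_eq_single i]
  · rw [Pi.single_eq_same]
  · intro k _ hk
    rw [Pi.single_eq_of_ne hk, ZMod.val_zero, pow_zero]
  · intro h
    exact absurd (Finset.mem_univ i) h

include hl in
theorem root_eis {x : F} (hx : x ^ l = 1) : ∃ z : Eis, z ^ l = 1 ∧ x = jF F z := by
  rcases hl with rfl | rfl
  · have h1 : (x - 1) * (x + 1) = 0 := by linear_combination hx
    rcases mul_eq_zero.1 h1 with h | h
    · exact ⟨1, one_pow 2, by rw [map_one]; exact sub_eq_zero.1 h⟩
    · exact ⟨-1, neg_one_sq, by rw [map_neg, map_one]; exact eq_neg_of_add_eq_zero_left h⟩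
  · rcases l6_root3 hx with h | h | h
    · exact ⟨1, one_pow 3, by rw [map_one]; exact h⟩
    · exact ⟨om, by decide, h⟩
    · exact ⟨om ^ 2, by decide, by rw [map_pow]; exact h⟩

include hl in
theorem kum_galois (hK : Kum l n d δ) : IsGalois KK F := by
  have hn : Normal KK F := by
    refine { isAlgebraic := Algebra.IsAlgebraic.isAlgebraic, splits' := fun x => ?_ }
    apply IntermediateField.splits_of_mem_adjoin (F := KK) (K := F) (L := F) (S := Set.range δ)
    · rintro _ ⟨i, rfl⟩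
      refine ⟨Algebra.IsIntegral.isIntegral _, ?_⟩
      obtain ⟨ζ, hζ⟩ := l6_prim (F := F) hl
      have h1 := X_pow_sub_C_splits_of_isPrimitiveRoot hζ (hK.pow i)
      have hl0 : 0 < l := by rcases hl with rfl | rfl <;> norm_num
      have h2 : minpoly KK (δ i) ∣ (Polynomial.X ^ l - Polynomial.C (jK (d i))) := by
        apply minpoly.dvd
        rw [map_sub, map_pow, Polynomial.aeval_X, Polynomial.aeval_C, hK.pow i]
        exact sub_self _
      have h3 : (Polynomial.X ^ l - Polynomial.C (jK (d i))).map (algebraMap KK F) =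
          Polynomial.X ^ l - Polynomial.C (jF F (d i)) := by
        rw [Polynomial.map_sub, Polynomial.map_pow, Polynomial.map_X, Polynomial.map_C]
        rfl
      refine h1.of_dvd ?_ ?_
      · exact (Polynomial.monic_X_pow_sub_C _ hl0.ne').ne_zero
      · rw [← h3]
        exact Polynomial.map_dvd _ h2
    · rw [hK.top]
      exact IntermediateField.mem_top
  exact { }

include hl in
theorem kum_card (hK : Kum l n d δ) : Nat.card (F ≃ₐ[KK] F) = l ^ n := by
  have := kum_galois hl hK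
  rw [IsGalois.card_aut_eq_finrank, hK.rank]

include hl in
theorem kum_act (hK : Kum l n d δ) (σ : F ≃ₐ[KK] F) (χ : Fin n → ZMod l) : ∃ z : Eis, z ^ l = 1 ∧ σ (dl δ χ) = jF F z * dl δ χ := by
  have h0 := dl_ne hl hK χ
  have h1 : (σ (dl δ χ) / dl δ χ) ^ l = 1 := by
    rw [div_pow, ← map_pow, dl_pow hK]
    have : σ (jF F (dx d χ)) = jF F (dx d χ) := σ.commutes (jK (dx d χ))
    rw [this]
    apply div_self
    rw [← dl_pow hK]
    exact pow_ne_zero _ h0
  obtain ⟨z, hz1, hz2⟩ := root_eis hl h1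
  refine ⟨z, hz1, ?_⟩
  rw [← hz2, div_mul_cancel₀ _ h0]

theorem kum_ext (hK : Kum l n d δ) (σ τ : F ≃ₐ[KK] F) (h : ∀ i, σ (δ i) = τ (δ i)) : σ = τ := by
  apply AlgEquiv.ext
  intro x
  have hx : x ∈ IntermediateField.adjoin KK (Set.range δ) := by
    rw [hK.top]; exact IntermediateField.mem_top
  induction hx using IntermediateField.adjoin_induction with
  | mem y hy =>
    obtain ⟨i, rfl⟩ := hy
    exact h i
  | algebraMap y => rw [AlgEquiv.commutes, AlgEquiv.commutes]
  | add y z hy hz h1 h2 => rw [map_add, map_add, h1, h2]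
  | inv y hy h1 => rw [map_inv₀, map_inv₀, h1]
  | mul y z hy hz h1 h2 => rw [map_mul, map_mul, h1, h2]
end

end CX
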