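import Pool.Agent.CX.Defs

/-!
# [CX-L7c] e, f, g in a Galois extension (Mathlib)

PROOF. Mathlib (NumberTheory/RamificationInertia/Galois.lean, RingTheory/RamificationInertia): `Ideal.ncard_primesOver_mul_ramificationIdxIn_mul_inertiaDegIn` (`g (e f) = #G`), `Ideal.card_stabilizer_eq` (`#stabilizer = e f`), `ramificationIdxIn_eq_ramificationIdx`, `inertiaDegIn_eq_inertiaDeg`, with `G = F ≃ₐ[KK] F`
acting on `𝓞 F` (`IsGaloisGroup`, as in these files: `Gal(L/K)` and `galRestrict`). `nv w = nv v ^ f`: `NAB.relNorm_prime` (MP_9ab903_nt/NAB/QR6.lean) with `f = inertiaDeg`, or `Ideal.absNorm_pow_inertiaDeg`. Values: `HeightOneSpectrum.valuation_liesOver` (used in JD/L0.lean): `v.valuation K x ^ e = w.valuation F x`.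
`primesOver`: the map `w ↦ w.asIdeal` is a bijection from `{w | und KK w = v}` to `v.asIdeal.primesOver (𝓞 F)`. The last statement: an automorphism `σ` (as a map of `F`) is in the stabilizer of `w` if and only if it maps `{x ∈ F | w(x) < 1}` into itself (finite order; `𝓞 F ∩ {w < 1} = w`, and `x ∈ F` with `w x < 1` is `a / b`, `a ∈ w`, `b ∉ w`,
`σ b ∉ w` since `σ⁻¹ w ⊆ w`).
-/

set_option autoImplicit false

open NumberField IsDedekindDomain
open scoped Classical ComplexConjugate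

namespace CX

open CM27 CMT NAB CF JD
open CU (la om eE)

section
variable {F : Type} [Field F] [NumberField F] [Algebra KK F]

theorem l7c_coe (σ : F ≃ₐ[KK] F) (a : 𝓞 F) : ((σ • a : 𝓞 F) : F) = σ (a : F) := rfl

theorem l7c_over (w : HeightOneSpectrum (𝓞 F)) : w.asIdeal.LiesOver (und KK w).asIdeal := ⟨rfl⟩

theorem l7c_img (v : HeightOneSpectrum (𝓞 KK)) :
    (fun w : HeightOneSpectrum (𝓞 F) => w.asIdeal) '' {w | und KK w = v} = v.asIdeal.primesOver (𝓞 F) := by
  ext P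
  constructor
  · rintro ⟨w, hw, rfl⟩
    have hw' : und KK w = v := hw
    subst hw'
    exact ⟨w.isPrime, ⟨rfl⟩⟩
  · rintro ⟨hP, hl⟩
    have hP0 : P ≠ ⊥ := Ideal.ne_bot_of_liesOver_of_ne_bot v.ne_bot P
    refine ⟨⟨P, hP, hP0⟩, ?_, rfl⟩
    show und KK _ = v
    apply HeightOneSpectrum.ext
    exact hl.over.symm

theorem l7c_card (v : HeightOneSpectrum (𝓞 KK)) :
    {w : HeightOneSpectrum (𝓞 F) | und KK w = v}.ncard = (v.asIdeal.primesOver (𝓞 F)).ncard := by
  rw [← l7c_img v]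
  symm
  apply Set.ncard_image_of_injective
  intro a b hab
  exact HeightOneSpectrum.ext hab

open scoped Pointwise in
theorem l7c_stab (w : HeightOneSpectrum (𝓞 F)) (σ : F ≃ₐ[KK] F) :
    (∀ x : F, w.valuation F x < 1 → w.valuation F (σ x) < 1) ↔ σ ∈ MulAction.stabilizer (F ≃ₐ[KK] F) w.asIdeal := by
  rw [MulAction.mem_stabilizer_iff]
  constructor
  · intro h
    have h1 : ∀ a : 𝓞 F, a ∈ w.asIdeal → σ • a ∈ w.asIdeal := by
      intro a ha
      have h2 := h (algebraMap (𝓞 F) F a) ((w.valuation_lt_one_iff_mem a).2 ha)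
      exact (w.valuation_lt_one_iff_mem (K := F) (σ • a)).1 h2
    have h3 : w.asIdeal = w.asIdeal.comap (MulSemiringAction.toRingHom (F ≃ₐ[KK] F) (𝓞 F) σ) := by
      have hm := w.isMaximal
      have hp := w.isPrime
      exact hm.eq_of_le (Ideal.IsPrime.ne_top (Ideal.comap_isPrime _ _)) (fun a ha => h1 a ha)
    ext x
    rw [Ideal.mem_pointwise_smul_iff_inv_smul_mem, h3, Ideal.mem_comap, ← h3]
    show σ • (σ⁻¹ • x) ∈ w.asIdeal ↔ x ∈ w.asIdeal
    rw [smul_inv_smul]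
  · intro h x hx
    obtain ⟨n, d, hnd⟩ := w.exists_primeCompl_mul_eq_of_integer x hx.le
    have hd : w.valuation F (algebraMap (𝓞 F) F d) = 1 := by
      rw [w.valuation_eq_one_iff_notMem]
      exact d.2
    have hn : (n : 𝓞 F) ∈ w.asIdeal := by
      rw [← w.valuation_lt_one_iff_mem (K := F)]
      show w.valuation F (algebraMap (𝓞 F) F n) < 1
      rw [← hnd, map_mul, hd, mul_one]
      exact hx
    have hiff : ∀ y : 𝓞 F, σ • y ∈ w.asIdeal ↔ y ∈ w.asIdeal := by
      intro y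
      have h2 : σ • y ∈ σ • w.asIdeal ↔ y ∈ w.asIdeal := Ideal.smul_mem_pointwise_smul_iff
      rw [h] at h2
      exact h2
    have hσn : (σ • n) ∈ w.asIdeal := (hiff n).2 hn
    have hσd : (σ • (d : 𝓞 F)) ∉ w.asIdeal := fun h2 => d.2 ((hiff _).1 h2)
    have h3 : σ x * algebraMap (𝓞 F) F (σ • (d : 𝓞 F)) = algebraMap (𝓞 F) F (σ • n) := by
      have h4 := congrArg σ hnd
      rw [map_mul] at h4
      exact h4
    have h5 : w.valuation F (algebraMap (𝓞 F) F (σ • (d : 𝓞 F))) = 1 := by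
      rw [w.valuation_eq_one_iff_notMem]
      exact hσd
    have h6 : w.valuation F (algebraMap (𝓞 F) F (σ • n)) < 1 := (w.valuation_lt_one_iff_mem _).2 hσn
    rw [← h3, map_mul, h5, mul_one] at h6
    exact h6

end

theorem efg {F : Type} [Field F] [NumberField F] [Algebra KK F] [IsGalois KK F] (v : HeightOneSpectrum (𝓞 KK)) :
    ∃ e f g : ℕ, 0 < e ∧ 0 < f ∧ 0 < g ∧ g * (e * f) = Module.finrank KK F ∧
      {w : HeightOneSpectrum (𝓞 F) | und KK w = v}.ncard = g ∧ (v.asIdeal.primesOver (𝓞 F)).ncard = g ∧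
      ∀ w : HeightOneSpectrum (𝓞 F), und KK w = v → TH.nv w = TH.nv v ^ f ∧
        (∀ x : KK, x ≠ 0 → TWR.od w (algebraMap KK F x) = e * TWR.od v x) ∧
        (v.asIdeal.map (algebraMap (𝓞 KK) (𝓞 F)) ≤ w.asIdeal ^ 2 ↔ 2 ≤ e) ∧
        Nat.card {σ : F ≃ₐ[KK] F // ∀ x : F, w.valuation F x < 1 → w.valuation F (σ x) < 1} = e * f := by
  have hgal := Ideal.ncard_primesOver_mul_ramificationIdxIn_mul_inertiaDegIn v.asIdeal (𝓞 F) (F ≃ₐ[KK] F)
  rw [IsGalois.card_aut_eq_finrank] at hgal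
  have hpos : 0 < Module.finrank KK F := Module.finrank_pos
  rw [← hgal] at hpos
  have hg : 0 < (v.asIdeal.primesOver (𝓞 F)).ncard := Nat.pos_of_mul_pos_right hpos
  have hef : 0 < v.asIdeal.ramificationIdxIn (𝓞 F) * v.asIdeal.inertiaDegIn (𝓞 F) := Nat.pos_of_mul_pos_left hpos
  refine ⟨v.asIdeal.ramificationIdxIn (𝓞 F), v.asIdeal.inertiaDegIn (𝓞 F), (v.asIdeal.primesOver (𝓞 F)).ncard,
    Nat.pos_of_mul_pos_right hef, Nat.pos_of_mul_pos_left hef, hg, hgal, l7c_card v, rfl, ?_⟩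
  intro w hw
  subst hw
  have := l7c_over (F := F) w
  have := w.isPrime
  have := (und KK w).isPrime
  have he : (und KK w).asIdeal.ramificationIdxIn (𝓞 F) = (und KK w).asIdeal.ramificationIdx' w.asIdeal := by
    rw [Ideal.ramificationIdxIn_eq_ramificationIdx (und KK w).asIdeal w.asIdeal (F ≃ₐ[KK] F),
      Ideal.ramificationIdx'_eq_ramificationIdx _ _ (und KK w).ne_bot]
  refine ⟨?_, ?_, ?_, ?_⟩
  · have := w.isMaximal
    have := (und KK w).isMaximal
    rw [Ideal.inertiaDegIn_eq_inertiaDeg (und KK w).asIdeal w.asIdeal (F ≃ₐ[KK] F)]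
    have h1 := Ideal.relNorm_eq_pow_of_isMaximal w.asIdeal (und KK w).asIdeal
    have h4 := Ideal.absNorm_relNorm (R := 𝓞 KK) (S := 𝓞 F) w.asIdeal
    rw [h1, map_pow, absNorm_eq_card, absNorm_eq_card] at h4
    exact h4.symm
  · intro x hx
    have h1 := HeightOneSpectrum.valuation_liesOver F (und KK w) w x
    rw [he]
    unfold TWR.od
    rw [← h1, WithZero.log_pow, nsmul_eq_mul]
  · rw [he]
    have h1 : (und KK w).asIdeal.map (algebraMap (𝓞 KK) (𝓞 F)) ≤ w.asIdeal := by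
      rw [Ideal.map_le_iff_le_comap]
      exact le_rfl
    rw [← Ideal.ramificationIdx'_ne_one_iff h1]
    have h2 : (und KK w).asIdeal.ramificationIdx' w.asIdeal ≠ 0 :=
      Ideal.IsDedekindDomain.ramificationIdx'_ne_zero_of_liesOver w.asIdeal (und KK w).ne_bot
    omega
  · rw [← Ideal.card_stabilizer_eq (G := F ≃ₐ[KK] F) (und KK w).asIdeal w.asIdeal]
    exact Nat.card_congr (Equiv.subtypeEquivRight (l7c_stab w))

end CX
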