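import Pool.Agent.CX.Defs

/-!
# [CX-T2] the isomorphism of the completions

PROOF. `tr_und`: for `x ∈ KK` with `v x ≤ 1` we have `w x ≤ 1` (`h.int`, `h.comm`), so the valuation ring of `v` is contained in that of `v' = und KK w`; both are maximal subrings (discrete valuation rings): take `π ∈ KK` with `v π = exp (-1)`: if `v' ≠ v` there is `a ∈ 𝓞 KK`, `a ∈ v'`, `a ∉ v` (both ideals are maximal): `v (a⁻¹) = 1` but `w (a⁻¹) > 1`. Contradiction.
`tr_val`: `φ` is bijective; for a unit `x` (`v x = 1`) `w (φ x) ≤ 1` and `w (φ x⁻¹) ≤ 1`, so `w (φ x) = 1`. With `v π = exp (-1)`, `w (φ π) = exp (-e)`, `e ≥ 1` (`π ∈ KK` in `v = und w`: `w π < 1`); every `x ≠ 0` is `π^a u`, so `w (φ x) = exp (-e a)`; `φ` is onto and `w` takes the value `exp (-1)`: `e = 1`. `tr_nv`: the residue fields of `v`, `w` (of the completions) are isomorphic by `tr_ring`, and have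
`nv` elements (see `TH.LCW_Ep` / JD/S6 for `Nat.card (ResidueField (adicCompletionIntegers)) = nv`); or: every `a ∈ 𝓞 F` is `φ y`, `v y ≤ 1`, `y ≡ b mod v`, `b ∈ 𝓞 KK` (density), so `𝓞 KK → 𝓞 F / w` is onto with kernel `v`. `tr_ring`: restrict `φ` (`tr_val`).
-/

set_option autoImplicit false

open NumberField IsDedekindDomain
open scoped Classical ComplexConjugate

namespace CX

open CM27 CMT NAB CF JD
open CU (la om eE)

section
variable {F : Type} [Field F] [NumberField F] [Algebra KK F] {v : HeightOneSpectrum (𝓞 KK)} {w : HeightOneSpectrum (𝓞 F)}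
  {φ : v.adicCompletion KK →+* w.adicCompletion F} (h : Below v w φ) (hs : Function.Surjective φ)
include h

theorem tr_und : und KK w = v := by
  apply HeightOneSpectrum.ext
  refine (und KK w).isMaximal.eq_of_le v.isPrime.ne_top ?_
  intro a ha
  rw [mem_und] at ha
  by_contra hav
  have e1 : Valued.v (algebraMap KK (v.adicCompletion KK) (algebraMap (𝓞 KK) KK a)) =
      v.valuation KK (algebraMap (𝓞 KK) KK a) :=
    HeightOneSpectrum.valuedAdicCompletion_eq_valuation' v _
  have hv1 : Valued.v (algebraMap KK (v.adicCompletion KK) (algebraMap (𝓞 KK) KK a)) =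
      (1 : WithZero (Multiplicative ℤ)) := by
    rw [e1]
    refine le_antisymm (v.valuation_le_one a) (not_lt.1 fun hlt => hav ?_)
    exact (v.valuation_lt_one_iff_mem a).1 hlt
  have h1 : Valued.v (algebraMap KK (v.adicCompletion KK) (algebraMap (𝓞 KK) KK a))⁻¹ ≤
      (1 : WithZero (Multiplicative ℤ)) := by
    rw [map_inv₀, hv1, inv_one]
  have h2 := h.int _ h1
  rw [map_inv₀, h.comm, map_inv₀] at h2
  have h3 := HeightOneSpectrum.valuedAdicCompletion_eq_valuation' w
    (algebraMap KK F (algebraMap (𝓞 KK) KK a))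
  have h4 : w.valuation F (algebraMap KK F (algebraMap (𝓞 KK) KK a)) < 1 := by
    rw [← IsScalarTower.algebraMap_apply (𝓞 KK) KK F a, IsScalarTower.algebraMap_apply (𝓞 KK) (𝓞 F) F a]
    exact (w.valuation_lt_one_iff_mem _).2 ha
  have h5 : Valued.v (algebraMap F (w.adicCompletion F) (algebraMap KK F (algebraMap (𝓞 KK) KK a))) <
    (1 : WithZero (Multiplicative ℤ)) := (le_of_eq h3).trans_lt h4
  have h6 : Valued.v (algebraMap F (w.adicCompletion F) (algebraMap KK F (algebraMap (𝓞 KK) KK a))) ≠
      (0 : WithZero (Multiplicative ℤ)) := by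
    rw [map_ne_zero, map_ne_zero, map_ne_zero]
    intro h7
    rw [h7, map_zero, map_zero] at hv1
    exact zero_ne_one hv1
  exact absurd h2 (not_le.2 ((one_lt_inv₀ (zero_lt_iff.2 h6)).2 h5))

theorem T2_unit {x : v.adicCompletion KK} (hx : Valued.v x = (1 : WithZero (Multiplicative ℤ))) :
    Valued.v (φ x) = (1 : WithZero (Multiplicative ℤ)) := by
  have h1 := h.int x hx.le
  have h2 := h.int x⁻¹ (by rw [map_inv₀, hx, inv_one])
  rw [map_inv₀, map_inv₀] at h2
  have h0 : Valued.v (φ x) ≠ (0 : WithZero (Multiplicative ℤ)) := by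
    rw [map_ne_zero, map_ne_zero]
    rintro rfl
    rw [map_zero] at hx
    exact zero_ne_one hx
  refine le_antisymm h1 (not_lt.1 fun hlt => ?_)
  exact absurd h2 (not_le.2 ((one_lt_inv₀ (zero_lt_iff.2 h0)).2 hlt))

theorem T2_pow : ∃ e : ℕ, ∀ x : v.adicCompletion KK,
    (Valued.v (φ x) : WithZero (Multiplicative ℤ)) = Valued.v x ^ e := by
  have hl : w.asIdeal.LiesOver v.asIdeal := by
    rw [← tr_und h]
    exact ⟨rfl⟩
  refine ⟨v.asIdeal.ramificationIdx' w.asIdeal, fun x => ?_⟩
  by_cases hx : x = 0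
  · have he : v.asIdeal.ramificationIdx' w.asIdeal ≠ 0 := by
      intro he
      obtain ⟨π, hπ, hπ0⟩ := Submodule.exists_mem_ne_zero_of_ne_bot v.ne_bot
      have h1 := HeightOneSpectrum.valuation_liesOver F v w (algebraMap (𝓞 KK) KK π)
      rw [he, pow_zero] at h1
      have h4 : w.valuation F (algebraMap KK F (algebraMap (𝓞 KK) KK π)) < 1 := by
        rw [← IsScalarTower.algebraMap_apply (𝓞 KK) KK F π,
          IsScalarTower.algebraMap_apply (𝓞 KK) (𝓞 F) F π]
        refine (w.valuation_lt_one_iff_mem _).2 ?_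
        rw [← mem_und, tr_und h]
        exact hπ
      exact absurd h1 h4.ne'
    rw [hx, map_zero, map_zero, map_zero, zero_pow he]
  obtain ⟨k, hk⟩ := HeightOneSpectrum.valuation_surjective KK v (Valued.v x)
  have e1 : Valued.v (algebraMap KK (v.adicCompletion KK) k) = v.valuation KK k :=
    HeightOneSpectrum.valuedAdicCompletion_eq_valuation' v _
  have hvx : (Valued.v x : WithZero (Multiplicative ℤ)) ≠ 0 := (map_ne_zero _).2 hx
  have hk0 : algebraMap KK (v.adicCompletion KK) k ≠ 0 := by
    intro h0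
    rw [h0, map_zero, hk] at e1
    exact hvx e1.symm
  have hu : Valued.v (x / algebraMap KK (v.adicCompletion KK) k) =
      (1 : WithZero (Multiplicative ℤ)) := by
    rw [map_div₀, e1, hk, div_self hvx]
  have e2 : φ x = φ (x / algebraMap KK (v.adicCompletion KK) k) *
      algebraMap F (w.adicCompletion F) (algebraMap KK F k) := by
    rw [← h.comm, ← map_mul, div_mul_cancel₀ _ hk0]
  rw [e2, map_mul, T2_unit h hu, one_mul]
  have h3 := HeightOneSpectrum.valuedAdicCompletion_eq_valuation' w (algebraMap KK F k)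
  refine Eq.trans h3 ?_
  rw [← HeightOneSpectrum.valuation_liesOver F v w k, hk]

include hs

theorem tr_val (x : v.adicCompletion KK) : (Valued.v (φ x) : WithZero (Multiplicative ℤ)) = Valued.v x := by
  obtain ⟨e, he⟩ := T2_pow h
  have he1 : e = 1 := by
    obtain ⟨π, hπ⟩ := w.valuation_exists_uniformizer F
    obtain ⟨y, hy⟩ := hs (algebraMap F (w.adicCompletion F) π)
    have h3 := HeightOneSpectrum.valuedAdicCompletion_eq_valuation' w π
    have h4 : (Valued.v (φ y) : WithZero (Multiplicative ℤ)) = WithZero.exp (-1 : ℤ) := by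
      rw [hy]
      exact h3.trans hπ
    have h5 := he y
    rw [h4] at h5
    have hy0 : (Valued.v y : WithZero (Multiplicative ℤ)) ≠ 0 := by
      intro h0
      rw [h0] at h5
      rcases Nat.eq_zero_or_pos e with h6 | h6
      · rw [h6, pow_zero, ← WithZero.exp_zero, WithZero.exp_inj] at h5
        norm_num at h5
      · rw [zero_pow h6.ne'] at h5
        exact WithZero.exp_ne_zero h5
    rw [← WithZero.exp_log hy0, ← WithZero.exp_nsmul, WithZero.exp_inj] at h5
    have h6 : (e : ℤ) ∣ 1 := by
      rw [nsmul_eq_mul] at h5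
      refine ⟨-WithZero.log (Valued.v y), ?_⟩
      linarith
    have h7 := Int.natAbs_dvd_natAbs.2 h6
    simpa using h7
  rw [he x, he1, pow_one]

theorem T2_ring : ∃ ψ : v.adicCompletionIntegers KK ≃+* w.adicCompletionIntegers F,
    ∀ x : v.adicCompletionIntegers KK, ((ψ x : w.adicCompletionIntegers F) : w.adicCompletion F) = φ (x : v.adicCompletion KK) := by
  have hm : ∀ x : v.adicCompletion KK, x ∈ v.adicCompletionIntegers KK ↔
      φ x ∈ w.adicCompletionIntegers F := by
    intro x
    rw [HeightOneSpectrum.mem_adicCompletionIntegers, HeightOneSpectrum.mem_adicCompletionIntegers,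
      tr_val h hs]
  let f : v.adicCompletionIntegers KK →+* w.adicCompletionIntegers F :=
    { toFun := fun x => ⟨φ x, (hm x).1 x.2⟩
      map_one' := Subtype.ext (by simp)
      map_mul' := fun x y => Subtype.ext (by simp)
      map_zero' := Subtype.ext (by simp)
      map_add' := fun x y => Subtype.ext (by simp) }
  have hf : ∀ x, ((f x : w.adicCompletionIntegers F) : w.adicCompletion F) =
    φ (x : v.adicCompletion KK) := fun _ => rfl
  have hb : Function.Bijective f := by
    constructor
    · intro x y hxy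
      have h1 : φ (x : v.adicCompletion KK) = φ (y : v.adicCompletion KK) := by
        rw [← hf, ← hf, hxy]
      exact Subtype.ext (φ.injective h1)
    · intro y
      obtain ⟨x, hx⟩ := hs (y : w.adicCompletion F)
      exact ⟨⟨x, (hm x).2 (by rw [hx]; exact y.2)⟩, Subtype.ext (by rw [hf]; exact hx)⟩
  exact ⟨RingEquiv.ofBijective f hb, hf⟩

theorem tr_nv : TH.nv w = TH.nv v := by
  obtain ⟨ψ, -⟩ := T2_ring h hs
  unfold TH.nv
  rw [← (CM27.card_residue F w).1, ← (CM27.card_residue KK v).1]
  exact (Nat.card_congr (IsLocalRing.ResidueField.mapEquiv ψ).toEquiv).symm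

theorem tr_ring : ∃ ψ : v.adicCompletionIntegers KK ≃+* w.adicCompletionIntegers F,
    ∀ x : v.adicCompletionIntegers KK, ((ψ x : w.adicCompletionIntegers F) : w.adicCompletion F) = φ (x : v.adicCompletion KK) :=
  T2_ring h hs
end

end CX
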