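import Pool.Agent.CX.T1
import Pool.Agent.CX.T2
import Pool.Agent.CX.L6
import Pool.Agent.CX.L7c

/-!
# [CX-T6] the number of places over a place above 6

PROOF. `kum_galois`, `efg` for `v`: `e, f, g`, `g e f = finrank = l^n`; `NAB.exists_above v`: `w₀`, `6 ∈ w₀`; `JD.exists_Below w₀`, `surj_six`, `tr_und`, `tr_nv`: `nv w₀ = nv v`, so `f = 1` (`nv v > 1`); `tr_val` for an element of `KK` with `od v = -1`: `e = 1`. So `g = l^n`. `six_unram`: `e = 1`.
-/

set_option autoImplicit false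

open NumberField IsDedekindDomain
open scoped Classical ComplexConjugate

namespace CX

open CM27 CMT NAB CF JD
open CU (la om eE)

/-- [T6] helper -/
theorem t6_below {F : Type} [Field F] [NumberField F] [Algebra KK F] {l m n : ℕ} {d : Fin n → Eis} {δ : Fin n → F} {D : Eis}
    (hD : Dat0 l m D d) (hK : Kum l n d δ) (v : HeightOneSpectrum (𝓞 KK)) (h6 : (6 : 𝓞 KK) ∈ v.asIdeal)
    (w : HeightOneSpectrum (𝓞 F)) (hw : und KK w = v) :
    ∃ φ : v.adicCompletion KK →+* w.adicCompletion F, Below v w φ ∧ Function.Surjective φ := by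
  have h6w : (6 : 𝓞 F) ∈ w.asIdeal := by
    have h1 : (6 : 𝓞 KK) ∈ (und KK w).asIdeal := by
      rw [hw]
      exact h6
    rw [mem_und, map_ofNat] at h1
    exact h1
  obtain ⟨v', φ, h⟩ := JD.exists_Below w
  have hv : v' = v := (tr_und h).symm.trans hw
  subst hv
  exact ⟨φ, h, surj_six hD hK v' w h6w φ h⟩

/-- [T6] helper -/
theorem t6_nv (v : HeightOneSpectrum (𝓞 KK)) : 1 < TH.nv v := by
  have h := NumberField.HeightOneSpectrum.one_lt_absNorm v
  exact h

/-- [T6] helper -/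
theorem t6_val {F : Type} [Field F] [NumberField F] [Algebra KK F] {v : HeightOneSpectrum (𝓞 KK)} {w : HeightOneSpectrum (𝓞 F)}
    {φ : v.adicCompletion KK →+* w.adicCompletion F} (h : Below v w φ) (hs : Function.Surjective φ) (x : KK) :
    w.valuation F (algebraMap KK F x) = v.valuation KK x := by
  have h1 := HeightOneSpectrum.valuedAdicCompletion_eq_valuation' w (algebraMap KK F x)
  have h2 := HeightOneSpectrum.valuedAdicCompletion_eq_valuation' v x
  have h3 := tr_val h hs (algebraMap KK (v.adicCompletion KK) x)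
  rw [h.comm] at h3
  exact (h1.symm.trans h3).trans h2

/-- [T6] helper -/
theorem t6_efg {F : Type} [Field F] [NumberField F] [Algebra KK F] {l m n : ℕ} {d : Fin n → Eis} {δ : Fin n → F} {D : Eis}
    (hD : Dat0 l m D d) (hK : Kum l n d δ) (v : HeightOneSpectrum (𝓞 KK)) (h6 : (6 : 𝓞 KK) ∈ v.asIdeal) :
    {w : HeightOneSpectrum (𝓞 F) | und KK w = v}.ncard = l ^ n ∧ (v.asIdeal.primesOver (𝓞 F)).ncard = l ^ n ∧
      ∀ w : HeightOneSpectrum (𝓞 F), und KK w = v → ¬ v.asIdeal.map (algebraMap (𝓞 KK) (𝓞 F)) ≤ w.asIdeal ^ 2 := by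
  have : IsGalois KK F := kum_galois hD.lm.2 hK
  obtain ⟨e, f, g, he, hf, hg, hefg, hg1, hg2, hw⟩ := efg (F := F) v
  obtain ⟨w₀, hw₀⟩ := exists_above (F := F) v
  obtain ⟨φ, h, hs⟩ := t6_below hD hK v h6 w₀ hw₀
  obtain ⟨hnv, hod, -, -⟩ := hw w₀ hw₀
  have hf1 : f = 1 := by
    rw [tr_nv h hs] at hnv
    have h1 : TH.nv v ^ 1 = TH.nv v ^ f := by rw [pow_one]; exact hnv
    exact (Nat.pow_right_injective (t6_nv v) h1).symm
  have he1 : e = 1 := by
    obtain ⟨π, hπ⟩ := v.valuation_exists_uniformizer KK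
    have hπ0 : π ≠ 0 := by
      intro h0
      rw [h0, map_zero] at hπ
      exact WithZero.exp_ne_zero hπ.symm
    have h1 := hod π hπ0
    have h2 : TWR.od w₀ (algebraMap KK F π) = TWR.od v π := by
      unfold TWR.od
      rw [t6_val h hs]
    have h3 : TWR.od v π = -1 := by
      unfold TWR.od
      rw [hπ, WithZero.log_exp]
    rw [h2, h3] at h1
    have h4 : (e : ℤ) = 1 := by linarith
    exact_mod_cast h4
  subst hf1
  subst he1
  have hgl : g = l ^ n := by
    rw [← hK.rank, ← hefg]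
    ring
  refine ⟨hg1.trans hgl, hg2.trans hgl, fun w hw' hle => ?_⟩
  have h5 := (hw w hw').2.2.1.1 hle
  omega

section
variable {F : Type} [Field F] [NumberField F] [Algebra KK F] {l m n : ℕ} {d : Fin n → Eis} {δ : Fin n → F} {D : Eis}
  (hD : Dat0 l m D d) (hK : Kum l n d δ) (v : HeightOneSpectrum (𝓞 KK)) (h6 : (6 : 𝓞 KK) ∈ v.asIdeal)
include hD hK h6

theorem count_six : {w : HeightOneSpectrum (𝓞 F) | und KK w = v}.ncard = l ^ n ∧ (v.asIdeal.primesOver (𝓞 F)).ncard = l ^ n := by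
  exact ⟨(t6_efg hD hK v h6).1, (t6_efg hD hK v h6).2.1⟩

theorem six_unram (w : HeightOneSpectrum (𝓞 F)) (hw : und KK w = v) :
    ¬ v.asIdeal.map (algebraMap (𝓞 KK) (𝓞 F)) ≤ w.asIdeal ^ 2 := by
  exact (t6_efg hD hK v h6).2.2 w hw
end

end CX
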