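import Pool.Agent.CX.L0

/-!
# [CX-T7] the twists are isomorphic at the places above 6

PROOF. `c_χ = ∏ c_i^(χ_i)` in `K_v` with `c_i^l = d_i` (`hD.loc`): `c_χ^l = d_χ`, `d_χ^m = c_χ^6`, `v (c_χ) = 1` since `eE (d_i) ∉ v` (`hD.cop`). `six_smul`: `(ED (D d_χ^m)).baseChange = ED (c_χ^6 D) = C • (ED D).baseChange`, `C.u = c_χ⁻¹`. `ISO.tamagawa_smul'`, `ISO.localPoly_smul`; Néron: `ISO.minimal_u` (the `u` of minimal changes differ by `C.u`, of valuation `1`) and `ISO.isoc_norm`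
(equal valuations give equal norms).
-/

set_option autoImplicit false

open NumberField IsDedekindDomain
open scoped Classical ComplexConjugate

namespace CX

open CM27 CMT NAB CF JD
open CU (la om eE)

/-- [T7] helper -/
theorem t7_bc (v : HeightOneSpectrum (𝓞 KK)) (x : KK) :
    (ED x).baseChange (v.adicCompletion KK) = ED (algebraMap KK (v.adicCompletion KK) x) := by
  rw [WeierstrassCurve.baseChange]
  exact JD.ED_map _ _

/-- [T7] helper -/
theorem t7_norm (v : HeightOneSpectrum (𝓞 KK)) (x : Eis) (hx : eE x ∉ v.asIdeal) :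
    ‖algebraMap KK (v.adicCompletion KK) (jK x)‖ = 1 := by
  have h := (FinitePlace.norm_eq_one_iff_notMem KK v (eE x)).2 hx
  exact h

/-- [T7] helper -/
theorem t7_root {l m n : ℕ} {d : Fin n → Eis} {D : Eis} (hD : Dat0 l m D d) (v : HeightOneSpectrum (𝓞 KK)) (h6 : (6 : 𝓞 KK) ∈ v.asIdeal)
    (χ : Fin n → ZMod l) : ∃ c : v.adicCompletion KK, ‖c‖ = 1 ∧ c ^ l = algebraMap KK (v.adicCompletion KK) (jK (dx d χ)) := by
  choose c hc using hD.loc v h6
  refine ⟨∏ i, c i ^ (χ i).val, ?_, ?_⟩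
  · rw [norm_prod]
    refine Finset.prod_eq_one fun i _ => ?_
    have h1 : ‖c i‖ ^ l = 1 := by
      rw [← norm_pow, hc i]
      exact t7_norm v (d i) (hD.cop v h6 i)
    have hl : l ≠ 0 := by
      rcases hD.lm.2 with h | h <;> omega
    have h2 : ‖c i‖ = 1 := (pow_eq_one_iff_of_nonneg (norm_nonneg _) hl).1 h1
    rw [norm_pow, h2, one_pow]
  · rw [← Finset.prod_pow, dx, map_prod, map_prod]
    refine Finset.prod_congr rfl fun i _ => ?_
    rw [map_pow, map_pow, ← hc i, ← pow_mul, ← pow_mul, mul_comm]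

/-- [T7] helper -/
theorem t7_bcx {l m n : ℕ} {d : Fin n → Eis} {D : Eis} (hD : Dat0 l m D d) (v : HeightOneSpectrum (𝓞 KK)) (h6 : (6 : 𝓞 KK) ∈ v.asIdeal)
    (χ : Fin n → ZMod l) : ∃ C : WeierstrassCurve.VariableChange (v.adicCompletion KK), ‖(C.u : v.adicCompletion KK)‖ = 1 ∧
      (ED (jK (D * dx d χ ^ m))).baseChange (v.adicCompletion KK) = C • (ED (jK D)).baseChange (v.adicCompletion KK) := by
  obtain ⟨c, hc1, hc⟩ := t7_root hD v h6 χ
  have hc0 : c ≠ 0 := by
    intro h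
    rw [h, norm_zero] at hc1
    exact zero_ne_one hc1
  obtain ⟨C, hC, hE⟩ := six_smul c (algebraMap KK (v.adicCompletion KK) (jK D)) hc0
  refine ⟨C, ?_, ?_⟩
  · rw [hC, norm_inv, hc1, inv_one]
  · rw [t7_bc, t7_bc, ← hE]
    congr 1
    rw [map_mul, map_mul, map_pow, map_pow, ← hc, ← pow_mul, hD.lm.1, mul_comm]

theorem six_twist {l m n : ℕ} {d : Fin n → Eis} {D : Eis} (hD : Dat0 l m D d) (v : HeightOneSpectrum (𝓞 KK)) (h6 : (6 : 𝓞 KK) ∈ v.asIdeal)
    (χ : Fin n → ZMod l) :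
    SBSD.tam (ED (jK (D * dx d χ ^ m))) v = SBSD.tam (ED (jK D)) v ∧
    SBSD.neron (ED (jK (D * dx d χ ^ m))) v = SBSD.neron (ED (jK D)) v ∧
    ((ED (jK (D * dx d χ ^ m))).baseChange (v.adicCompletion KK)).localPolynomial (v.adicCompletionIntegers KK) =
      ((ED (jK D)).baseChange (v.adicCompletion KK)).localPolynomial (v.adicCompletionIntegers KK) := by
  obtain ⟨C, hC1, hC⟩ := t7_bcx hD v h6 χ
  have hΔ0 : (ED (jK D)).Δ ≠ 0 := by
    rw [JD.ED_Δ]
    refine mul_ne_zero (by norm_num) (pow_ne_zero 2 fun h => hD.ne0 ?_)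
    exact jK_inj (by rw [h, map_zero])
  have hΔ := ISO.isoc_delta (L := v.adicCompletion KK) (ED (jK D)) hΔ0
  refine ⟨?_, ?_, ?_⟩
  · unfold SBSD.tam
    rw [hC, ISO.tamagawa_smul' _ _ hΔ]
  · have h1 := (((ED (jK D)).baseChange (v.adicCompletion KK)).exists_isMinimal (v.adicCompletionIntegers KK)).choose_spec
    have h2 := (((ED (jK (D * dx d χ ^ m))).baseChange (v.adicCompletion KK)).exists_isMinimal (v.adicCompletionIntegers KK)).choose_spec
    unfold SBSD.neron
    generalize (((ED (jK D)).baseChange (v.adicCompletion KK)).exists_isMinimal (v.adicCompletionIntegers KK)).choose = T at h1 ⊢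
    generalize (((ED (jK (D * dx d χ ^ m))).baseChange (v.adicCompletion KK)).exists_isMinimal (v.adicCompletionIntegers KK)).choose = T' at h2 ⊢
    rw [hC] at h2
    have h3 := ISO.minimal_u (v.adicCompletionIntegers KK) ((ED (jK D)).baseChange (v.adicCompletion KK)) hΔ C T T' h1 h2
    have hc0 : (C.u : v.adicCompletion KK) ≠ 0 := C.u.ne_zero
    have hT' : (T'.u : v.adicCompletion KK) ≠ 0 := T'.u.ne_zero
    have hT : (T.u : v.adicCompletion KK) ≠ 0 := T.u.ne_zero
    have h4 : (IsDiscreteValuationRing.maximalIdeal (v.adicCompletionIntegers KK)).valuation (v.adicCompletion KK)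
        ((T.u : v.adicCompletion KK) / ((T'.u : v.adicCompletion KK) * C.u)) = 1 := by
      rw [map_div₀, map_mul, h3, div_self]
      exact mul_ne_zero ((Valuation.ne_zero_iff _).2 hT') ((Valuation.ne_zero_iff _).2 hc0)
    have h5 := ISO.isoc_norm v h4
    rw [norm_div, norm_mul, div_eq_one_iff_eq (mul_ne_zero (norm_ne_zero_iff.2 hT') (norm_ne_zero_iff.2 hc0)), hC1, mul_one] at h5
    rw [h5]
  · rw [hC, ISO.localPoly_smul _ _ hΔ]

end CX
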