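import Pool.Agent.CX.C1
import Pool.Agent.CX.C3a
import Pool.Agent.CX.T5
import Pool.Agent.CX.T6
import Pool.Agent.CX.T7

/-!
# [CX-C3] the periods

PROOF. `per_K`: `SBSD.period = ∏ arch * ∏ᶠ neron`; `arch_K` for `D d_χ^m ≠ 0`, `fin_neron`, and `neron` at `v ∣ 6` is that of `D` (`six_twist`). `per_F`: `arch`, `hK.rank`, `fin_neron` over `F`; the places of `F` above 6 lie over the places of `KK` above 6 (`6 ∈ w ↔ 6 ∈ und KK w`, `NAB.mem_und`), `l^n` over each (`count_six`), with `neron = neron_v` (`tr_neron` with `JD.exists_Below`, `surj_six`, `tr_und`):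
`∏ᶠ_w (if 6 ∈ w ..) = ∏_{v ∣ 6} ∏_{w ∣ v} neron_v = ∏_{v ∣ 6} neron_v^(l^n) = kap6^(l^n)`. The two places of `KK` over 6 are the ones of `2` and `λ` (a finite set; finitely many places contain `6`: the same finiteness as in `ISO.neron_finite`, or `HeightOneSpectrum` finiteness of the support).
-/

set_option autoImplicit false

open NumberField IsDedekindDomain
open scoped Classical ComplexConjugate

namespace CX

open CM27 CMT NAB CF JD
open CU (la om eE)

/-- finitely many places over 6 -/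
theorem c3_fin (k : Type) [Field k] [NumberField k] : {v : HeightOneSpectrum (𝓞 k) | (6 : 𝓞 k) ∈ v.asIdeal}.Finite := by
  have h0 : Ideal.span {(6 : 𝓞 k)} ≠ ⊥ := by
    rw [Ne, Ideal.span_singleton_eq_bot]
    norm_num
  refine (Ideal.finite_factors h0).subset fun v hv => ?_
  rw [Set.mem_ofPred_eq] at hv ⊢
  rw [Ideal.dvd_iff_le, Ideal.span_singleton_le_iff_mem]
  exact hv

theorem c3_dx_ne {l n : ℕ} {d : Fin n → Eis} (hd : ∀ i, d i ≠ 0) (χ : Fin n → ZMod l) : dx d χ ≠ 0 :=
  by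
  have : IsDomain Eis := CM27.eis_isDomain
  exact Finset.prod_ne_zero_iff.2 fun i _ => pow_ne_zero _ (hd i)

section
variable {F : Type} [Field F] [NumberField F] [Algebra KK F] {l m n : ℕ} {d : Fin n → Eis} {δ : Fin n → F} {D : Eis}

theorem c3_jK {a : Eis} (ha : a ≠ 0) : jK a ≠ 0 := by
  intro h
  apply ha
  have h1 : (eE a : 𝓞 KK) = 0 := by
    rw [jK_apply] at h
    exact (RingOfIntegers.coe_eq_zero_iff).1 h
  exact (map_eq_zero_iff _ (eE : Eis ≃+* 𝓞 KK).injective).1 h1

theorem per_K (hD : Dat0 l m D d) (hK : Kum l n d δ) (χ : Fin n → ZMod l) : ∃ r : ℚ, Rp r ∧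
    SBSD.period (ED (jK (D * dx d χ ^ m))) =
      √3 * Om ^ 2 / ‖emb (4 * (D * dx d χ ^ m))‖ ^ ((1 : ℝ) / 3) * kap6 D * r := by
  have : IsDomain Eis := CM27.eis_isDomain
  have hne : D * dx d χ ^ m ≠ 0 := mul_ne_zero hD.ne0 (pow_ne_zero _ (c3_dx_ne hK.ne χ))
  obtain ⟨r, hr, h1⟩ := fin_neron (k := KK) (c3_jK hne)
  refine ⟨r, hr, ?_⟩
  unfold SBSD.period
  rw [arch_K hne, h1, mul_assoc]
  congr 2
  unfold kap6
  refine finprod_congr fun v => ?_
  by_cases h6 : (6 : 𝓞 KK) ∈ v.asIdeal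
  · rw [if_pos h6, if_pos h6, (six_twist hD v h6 χ).2.1]
  · rw [if_neg h6, if_neg h6]

theorem per_F (hD : Dat0 l m D d) (hK : Kum l n d δ) : ∃ r : ℚ, Rp r ∧ SBSD.period (ED (jF F D)) =
    (√3 * Om ^ 2 / ‖emb (4 * D)‖ ^ ((1 : ℝ) / 3) * kap6 D) ^ (l ^ n) * r := by
  have hne : jF F D ≠ 0 := by
    rw [jF_apply]
    exact (map_ne_zero_iff _ (algebraMap KK F).injective).2 (c3_jK hD.ne0)
  obtain ⟨r, hr, h1⟩ := fin_neron (k := F) hne
  refine ⟨r, hr, ?_⟩
  unfold SBSD.period
  rw [arch F hD.ne0, h1, hK.rank, mul_pow, mul_assoc]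
  congr 2
  set SF := (c3_fin F).toFinset with hSF
  set SK := (c3_fin KK).toFinset with hSK
  have hl0 : 0 < l ^ n := by
    rcases hD.lm.2 with h' | h'
    · rw [h']; positivity
    · rw [h']; positivity
  have h2 : ∏ᶠ w : HeightOneSpectrum (𝓞 F), (if (6 : 𝓞 F) ∈ w.asIdeal then SBSD.neron (ED (jF F D)) w else 1) =
      ∏ w ∈ SF, SBSD.neron (ED (jF F D)) w := by
    rw [finprod_eq_prod_of_mulSupport_subset (s := SF)]
    · refine Finset.prod_congr rfl fun w hw => ?_
      rw [hSF, Set.Finite.mem_toFinset] at hw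
      exact if_pos hw
    · intro w hw
      rw [hSF, Set.Finite.coe_toFinset]
      by_contra h6
      exact hw (if_neg h6)
  have h3 : kap6 D = ∏ v ∈ SK, SBSD.neron (ED (jK D)) v := by
    unfold kap6
    rw [finprod_eq_prod_of_mulSupport_subset (s := SK)]
    · refine Finset.prod_congr rfl fun w hw => ?_
      rw [hSK, Set.Finite.mem_toFinset] at hw
      exact if_pos hw
    · intro w hw
      rw [hSK, Set.Finite.coe_toFinset]
      by_contra h6
      exact hw (if_neg h6)
  have h6und : ∀ w : HeightOneSpectrum (𝓞 F), (6 : 𝓞 F) ∈ w.asIdeal ↔ (6 : 𝓞 KK) ∈ (und KK w).asIdeal := by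
    intro w
    rw [NAB.mem_und, map_ofNat]
  rw [h2, h3, ← Finset.prod_pow]
  rw [← Finset.prod_fiberwise_of_maps_to (s := SF) (t := SK) (g := fun w => und KK w)]
  · refine Finset.prod_congr rfl fun v hv => ?_
    rw [hSK, Set.Finite.mem_toFinset] at hv
    have hc := (count_six hD hK v hv).1
    rw [← hc]
    have h4 : ∀ w ∈ SF.filter (fun w => und KK w = v), SBSD.neron (ED (jF F D)) w = SBSD.neron (ED (jK D)) v := by
      intro w hw
      rw [Finset.mem_filter] at hw
      obtain ⟨v', φ, hφ⟩ := JD.exists_Below (F := F) w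
      have h6w : (6 : 𝓞 F) ∈ w.asIdeal := by
        have := hw.1
        rw [hSF, Set.Finite.mem_toFinset] at this
        exact this
      have hv' : v' = v := by
        rw [← tr_und hφ, hw.2]
      subst hv'
      exact tr_neron hφ (surj_six hD hK v' w h6w φ hφ) hD.ne0
    rw [Finset.prod_congr rfl h4, Finset.prod_const]
    congr 1
    rw [← Set.ncard_coe_finset]
    congr 1
    ext w
    rw [Finset.mem_coe, Finset.mem_filter, hSF, Set.Finite.mem_toFinset, Set.mem_ofPred_eq, Set.mem_ofPred_eq]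
    constructor
    · exact fun h => h.2
    · exact fun h => ⟨by rw [h6und, h]; exact hv, h⟩
  · intro w hw
    rw [hSK, Set.Finite.mem_toFinset, Set.mem_ofPred_eq, ← h6und]
    rw [hSF, Set.Finite.mem_toFinset] at hw
    exact hw
end

end CX
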