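import Pool.Agent.CX.D1a

/-!
# [CX-D1] the discriminant of a Kummer extension up to squares

PROOF. (a) There are exactly `l^n` ring homomorphisms `s : F →+* ℂ` with `s ∘ jF = emb` (`AlgHom.card` over `KK`, with `ℂ` as a `KK`-algebra by the subfield inclusion; `emb a = (jK a : ℂ)`; `Module.finrank = l^n`), index them by `Fin n → ZMod l`; `det_kum`: `Δ₀ = det (s_g (δ_χ)) ≠ 0`, so the `δ_χ` are linearly independent over `KK`, a basis of `F` over `KK`.
(b) Discriminants over `ℚ`: the elements `δ_χ, ω δ_χ` are a basis of `F` over `ℚ`; the embeddings of `F` in `ℂ` are the `s_g` and `conj ∘ s_g`. As in `NG.h2a_disc` (MP_9ab903_nt/NG/H2a.lean: block matrix `[[s δ, w s δ], [conj (s δ), conj (w s δ)]]`) the absolute value of the discriminant of this basis is `3^N ‖Δ₀‖⁴`, `N = l^n` (`Algebra.discr_eq_det_embeddingsMatrixReindex_pow_two`).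
(c) `|disc (basis)| = |discr F| ρ²`, `ρ ∈ ℚ`, `ρ ≠ 0` the determinant of the change to an integral basis (`Algebra.discr_of_matrix_vecMul`, `NumberField.coe_discr`, `Algebra.discr_of_isIntegral..`). So `√|discr F| = 3^(N/2) ‖Δ₀‖² / |ρ|` and `√3^N = 3^(N/2)`; `r = (l^n)^(l^n) / |ρ|`.
Alternative to (b), (c): a relative version of `NG.exists_del`, `NG.del_disc` (basis `θ_i` of `𝓞 F` over `ℤ[ω]`, `|discr F| = 3^N ‖det (s θ)‖⁴`); these are for `F : IntermediateField ℚ ℂ`; `det (s δ_χ) = det (s θ) * (s-image of the determinant over KK)`, and `‖emb c‖² ∈ ℚ`.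
-/

set_option autoImplicit false

open NumberField IsDedekindDomain
open scoped Classical ComplexConjugate

namespace CX

open CM27 CMT NAB CF JD
open CU (la om eE)

/-- the block determinant -/
theorem d1_det {n : Type*} [Fintype n] [DecidableEq n] (A B : Matrix n n ℂ) (x y : ℂ) :
    (Matrix.fromBlocks A B (x • A) (y • B)).det = (y - x) ^ Fintype.card n * (A.det * B.det) := by
  have h1 : Matrix.fromBlocks A B (x • A) (y • B) =
      Matrix.fromBlocks (1 : Matrix n n ℂ) 1 (x • (1 : Matrix n n ℂ)) (y • (1 : Matrix n n ℂ)) *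
        Matrix.fromBlocks A 0 0 B := by
    rw [Matrix.fromBlocks_multiply]
    simp
  rw [h1, Matrix.det_mul, Matrix.det_fromBlocks_one₁₁, Matrix.det_fromBlocks_zero₂₁, mul_one,
    ← sub_smul, Matrix.det_smul, Matrix.det_one, mul_one]

theorem d1_ww : (conj w - w) ^ 2 = -3 := by
  have h5 : conj w = -1 - w := by
    apply Complex.ext
    · rw [Complex.conj_re, Complex.sub_re, w_re]
      simp
      norm_num
    · rw [Complex.conj_im, Complex.sub_im]
      simp
  have h6 := w_sq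
  rw [h5]
  linear_combination 4 * h6

theorem d1_wc : (starRingEnd ℂ) w ≠ w := by
  intro h
  have h1 := congrArg Complex.im h
  rw [Complex.conj_im, w_im] at h1
  have h3 : 0 < √3 := by positivity
  linarith

theorem d1_om : emb om = w := by
  rw [emb_apply]
  simp [om]

/-- the embeddings over `emb` -/
theorem d1_embs {F : Type} [Field F] [NumberField F] [Algebra KK F] {l n : ℕ} [NeZero l] {d : Fin n → Eis} {δ : Fin n → F}
    (hK : Kum l n d δ) : ∃ s : (Fin n → ZMod l) → (F →+* ℂ), (∀ g (a : Eis), s g (jF F a) = emb a) ∧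
      Function.Injective s := by
  have hpos : 0 < Module.finrank KK F := by
    rw [hK.rank]
    exact pow_pos (Nat.pos_of_ne_zero (NeZero.ne l)) n
  have : Module.Finite KK F := Module.finite_of_finrank_pos hpos
  have : Algebra.IsSeparable KK F := inferInstance
  have hc : Fintype.card (F →ₐ[KK] ℂ) = Fintype.card (Fin n → ZMod l) := by
    rw [AlgHom.card, hK.rank, Fintype.card_fun, ZMod.card, Fintype.card_fin]
  let e : (Fin n → ZMod l) ≃ (F →ₐ[KK] ℂ) := Fintype.equivOfCardEq hc.symm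
  refine ⟨fun g => (e g : F →ₐ[KK] ℂ).toRingHom, fun g a => ?_, fun g h hgh => ?_⟩
  · have h1 : (e g : F →ₐ[KK] ℂ) (algebraMap KK F (jK a)) = algebraMap KK ℂ (jK a) := AlgHom.commutes (e g) (jK a)
    exact h1.trans (CU.eE_coe a)
  · apply e.injective
    apply AlgHom.ext
    intro x
    exact congrArg (fun f : F →+* ℂ => f x) hgh

/-- the discriminant of the basis `δ_χ, ω δ_χ` -/
theorem d1_discr {F : Type} [Field F] [NumberField F] [Algebra KK F] {l n : ℕ} [NeZero l] (s : (Fin n → ZMod l) → (F →+* ℂ)) (hs : ∀ g (a : Eis), s g (jF F a) = emb a)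
    (hsi : Function.Injective s) (hrk : Module.finrank ℚ F = 2 * l ^ n) (θ : (Fin n → ZMod l) → F) :
    |((Algebra.discr ℚ (Sum.elim θ fun χ => jF F om * θ χ) : ℚ) : ℝ)| =
      3 ^ (l ^ n) * ‖Matrix.det (Matrix.of fun g χ : Fin n → ZMod l => s g (θ χ))‖ ^ 4 := by
  have hcard : Fintype.card (Fin n → ZMod l) = l ^ n := by
    rw [Fintype.card_fun, ZMod.card, Fintype.card_fin]
  set b : (Fin n → ZMod l) ⊕ (Fin n → ZMod l) → F := Sum.elim θ fun χ => jF F om * θ χ with hb
  set A : Matrix (Fin n → ZMod l) (Fin n → ZMod l) ℂ := Matrix.of fun i j => s j (θ i) with hA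
  have hAT : Matrix.det (Matrix.of fun j i => s j (θ i)) = A.det := by
    rw [← Matrix.det_transpose]
    rfl
  set B : Matrix (Fin n → ZMod l) (Fin n → ZMod l) ℂ := (starRingEnd ℂ).mapMatrix A with hB
  have hBd : B.det = conj A.det := by rw [hB, ← RingHom.map_det]
  have hwc := d1_wc
  have hfix : ∀ g, s g (jF F om) = w := fun g => (hs g om).trans d1_om
  -- the embeddings
  let σ : (Fin n → ZMod l) ⊕ (Fin n → ZMod l) → (F →ₐ[ℚ] ℂ) := Sum.elim (fun j => (s j).toRatAlgHom)
    (fun j => ((starRingEnd ℂ).comp (s j)).toRatAlgHom)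
  have s0 : ∀ j x, σ (Sum.inl j) x = s j x := fun j x => rfl
  have s1 : ∀ j x, σ (Sum.inr j) x = conj (s j x) := fun j x => rfl
  have hinj : Function.Injective σ := by
    rintro (i | i) (j | j) hij
    · congr 1
      apply hsi
      ext x
      exact congrArg (fun f : F →ₐ[ℚ] ℂ => f x) hij
    · exfalso
      have h3 : s i (jF F om) = conj (s j (jF F om)) :=
        congrArg (fun f : F →ₐ[ℚ] ℂ => f (jF F om)) hij
      rw [hfix, hfix] at h3
      exact hwc h3.symm
    · exfalso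
      have h3 : conj (s i (jF F om)) = s j (jF F om) :=
        congrArg (fun f : F →ₐ[ℚ] ℂ => f (jF F om)) hij
      rw [hfix, hfix] at h3
      exact hwc h3
    · congr 1
      apply hsi
      ext x
      apply (starRingEnd ℂ).injective
      exact congrArg (fun f : F →ₐ[ℚ] ℂ => f x) hij
  have hbij : Function.Bijective σ := by
    rw [Fintype.bijective_iff_injective_and_card]
    refine ⟨hinj, ?_⟩
    rw [AlgHom.card, hrk, Fintype.card_sum, hcard]
    ring
  let e : (Fin n → ZMod l) ⊕ (Fin n → ZMod l) ≃ (F →ₐ[ℚ] ℂ) := Equiv.ofBijective σ hbij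
  have he : ∀ j, e j = σ j := fun j => rfl
  have h4 := Algebra.discr_eq_det_embeddingsMatrixReindex_pow_two ℚ ℂ b e
  have hmat : Algebra.embeddingsMatrixReindex ℚ ℂ b e =
      Matrix.fromBlocks A B (w • A) (conj w • B) := by
    ext i j
    have hij : Algebra.embeddingsMatrixReindex ℚ ℂ b e i j = σ j (b i) := rfl
    rw [hij]
    rcases i with i | i <;> rcases j with j | j
    · rw [s0]
      rfl
    · rw [s1]
      rfl
    · rw [s0]
      have e1 : b (Sum.inr i) = jF F om * θ i := rfl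
      rw [e1, map_mul, hfix]
      rfl
    · rw [s1]
      have e1 : b (Sum.inr i) = jF F om * θ i := rfl
      rw [e1, map_mul, hfix, map_mul]
      rfl
  rw [hmat, d1_det, hBd, hcard] at h4
  have hw3 := d1_ww
  rw [hAT]
  have h8 : A.det * conj A.det = ((‖A.det‖ ^ 2 : ℝ) : ℂ) := by
    rw [Complex.mul_conj, Complex.normSq_eq_norm_sq]
  have h10 : (((Algebra.discr ℚ b : ℚ) : ℝ) : ℂ) = (algebraMap ℚ ℂ) (Algebra.discr ℚ b) := by
    rw [eq_ratCast]
    push_cast
    rfl
  have h11 : ((conj w - w) ^ (l ^ n) * (A.det * conj A.det)) ^ 2 =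
      (-3) ^ (l ^ n) * (A.det * conj A.det) ^ 2 := by
    rw [← hw3, mul_pow, ← pow_mul, ← pow_mul, mul_comm (l ^ n) 2]
  rw [← h10, h11, h8] at h4
  have h12 : |((Algebra.discr ℚ b : ℚ) : ℝ)| = ‖(((Algebra.discr ℚ b : ℚ) : ℝ) : ℂ)‖ := by
    rw [Complex.norm_real, Real.norm_eq_abs]
  rw [h12, h4, norm_mul, norm_pow, norm_pow, norm_neg, Complex.norm_real, Real.norm_eq_abs,
    abs_of_nonneg (by positivity)]
  norm_num
  ring

theorem disc_rat {F : Type} [Field F] [NumberField F] [Algebra KK F] {l m n : ℕ} [NeZero l] {d : Fin n → Eis} {δ : Fin n → F}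
    (hl : l = 2 ∨ l = 3) (hm : l * m = 6) (hK : Kum l n d δ) : ∃ r : ℚ, 0 < r ∧
    √|(discr F : ℝ)| = r * √3 ^ (l ^ n) * ∏ χ : Fin n → ZMod l, ‖emb (dx d χ)‖ ^ ((m : ℝ) / 3) := by
  obtain ⟨s, hs, hinj⟩ := d1_embs hK
  have hrk : Module.finrank ℚ F = 2 * l ^ n := by
    have h1 := Module.finrank_mul_finrank ℚ KK F
    have h2 : Module.finrank ℚ KK = 2 := by
      have h3 := IsCyclotomicExtension.finrank (K := ℚ) (n := 3) KK (Polynomial.cyclotomic.irreducible_rat (by norm_num))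
      rw [h3]
      rfl
    rw [← h1, h2, hK.rank]
  have hdet := det_kum hl hm hK s hs hinj
  set P : ℝ := ∏ χ : Fin n → ZMod l, ‖emb (dx d χ)‖ ^ ((m : ℝ) / 3) with hP
  have hPpos : 0 < P := by
    refine Finset.prod_pos fun χ _ => ?_
    apply Real.rpow_pos_of_pos
    rw [norm_pos_iff]
    intro h
    exact dx_ne hK χ (emb_injective (by rw [h, map_zero]))
  set Δ : ℂ := Matrix.det (Matrix.of fun g χ : Fin n → ZMod l => s g (dl δ χ)) with hΔ
  have hd := d1_discr s hs hinj hrk (dl δ)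
  set v : (Fin n → ZMod l) ⊕ (Fin n → ZMod l) → F := Sum.elim (dl δ) fun χ => jF F om * dl δ χ with hv
  have hl0 : (0 : ℝ) < l := by
    have : 0 < l := by omega
    exact_mod_cast this
  have hΔpos : 0 < ‖Δ‖ ^ 2 := by
    rw [hdet]
    positivity
  -- the change of basis
  have hcc : Fintype.card ((Fin n → ZMod l) ⊕ (Fin n → ZMod l)) = Fintype.card (Module.Free.ChooseBasisIndex ℤ (𝓞 F)) := by
    rw [Fintype.card_sum, Fintype.card_fun, ZMod.card, Fintype.card_fin,
      ← Module.finrank_eq_card_basis (integralBasis F), hrk]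
    ring
  let f : Module.Free.ChooseBasisIndex ℤ (𝓞 F) ≃ (Fin n → ZMod l) ⊕ (Fin n → ZMod l) := Fintype.equivOfCardEq hcc.symm
  let b : Module.Basis ((Fin n → ZMod l) ⊕ (Fin n → ZMod l)) ℚ F := (integralBasis F).reindex f
  have h1 : Algebra.discr ℚ b = (discr F : ℚ) := by
    rw [NumberField.coe_discr, Module.Basis.coe_reindex, Algebra.discr_reindex]
  have h2 := Algebra.discr_of_matrix_vecMul (A := ℚ) b (b.toMatrix v)
  rw [Module.Basis.toMatrix_map_vecMul, h1] at h2
  set ρ : ℚ := (b.toMatrix v).det with hρ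
  have h3 : |((Algebra.discr ℚ v : ℚ) : ℝ)| = (ρ : ℝ) ^ 2 * |(discr F : ℝ)| := by
    rw [h2]
    push_cast
    rw [abs_mul, abs_of_nonneg (sq_nonneg _)]
  have h4 : (ρ : ℝ) ^ 2 * |(discr F : ℝ)| = 3 ^ (l ^ n) * ‖Δ‖ ^ 4 := by rw [← h3, hd]
  have hρ0 : ρ ≠ 0 := by
    intro h
    rw [h] at h4
    have h5 : (0 : ℝ) < 3 ^ (l ^ n) * ‖Δ‖ ^ 4 := by
      have : ‖Δ‖ ^ 4 = (‖Δ‖ ^ 2) ^ 2 := by ring
      rw [this]
      positivity
    rw [← h4] at h5
    simp at h5
  have hρp : 0 < |(ρ : ℝ)| := abs_pos.2 (by exact_mod_cast hρ0)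
  refine ⟨((l : ℚ) ^ n) ^ (l ^ n) / |ρ|, ?_, ?_⟩
  · have : (0 : ℚ) < l := by exact_mod_cast (by omega : 0 < l)
    have : 0 < |ρ| := abs_pos.2 hρ0
    positivity
  · have h5 : |(discr F : ℝ)| = (√3 ^ (l ^ n) * ‖Δ‖ ^ 2 / |(ρ : ℝ)|) ^ 2 := by
      rw [div_pow, mul_pow, ← pow_mul, mul_comm (l ^ n) 2, pow_mul, Real.sq_sqrt (by norm_num), sq_abs,
        eq_div_iff (by positivity)]
      linear_combination h4
    rw [h5, Real.sqrt_sq (by positivity), hdet]
    push_cast
    ring

end CX
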