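import Pool.Agent.CX.L6

/-!
# [CX-D1a] the determinant of the embeddings of the Kummer generators

PROOF. Let `s : G → (F →+* ℂ)` be the `l^n` embeddings over `emb` (`hs`: they extend `emb` and are different). `ζ_g(χ) = s_g(δ_χ) / s₀(δ_χ)` for a fixed `g₀`: `= ∏ (s_g δ_i / s₀ δ_i)^(χ_i.val)`, each `s_g δ_i / s₀ δ_i` an `l`-th root of unity of `ℂ` (`hK.pow`, `hs`).
Row orthogonality: `∑_χ ζ_g(χ) conj ζ_h(χ) = ∏_i ∑_{j : ZMod l} (z_i)^(j.val)` (`Finset.prod_univ_sum`, `Fintype.piFinset_univ`), `z_i` the quotient of the two roots (conj = inverse), `∑_{j < l} z^j = 0` for `z ≠ 1`, `z^l = 1`; `= l` for `z = 1`; if `g ≠ h` some `z_i ≠ 1` (the embeddings agree on `KK` and are different, `hK.top`). So `Z Zᴴ = l^n • 1` for `Z = (ζ_g(χ))`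
(reindexed to a square matrix by `r : G ≃ (Fin n → ZMod l)`), `|det Z|² = (l^n)^(l^n)`. `det (s_g(δ_χ)) = det Z * ∏_χ s₀(δ_χ)` (`Matrix.det_mul_row` / column scaling), `‖s₀ δ_χ‖^l = ‖emb (d_χ)‖` (`dl_pow`), so `‖s₀ δ_χ‖² = ‖emb d_χ‖^(2/l) = ‖emb d_χ‖^(m/3)` (`2/l = m/3`).
-/

set_option autoImplicit false

open NumberField IsDedekindDomain
open scoped Classical ComplexConjugate

namespace CX

open CM27 CMT NAB CF JD
open CU (la om eE)

/-- two embeddings over `emb` which agree at the generators are equal -/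
theorem d1a_ext {F : Type} [Field F] [NumberField F] [Algebra KK F] {l n : ℕ} {d : Fin n → Eis} {δ : Fin n → F}
    (hK : Kum l n d δ) (s t : F →+* ℂ) (hs : ∀ a : Eis, s (jF F a) = emb a) (ht : ∀ a : Eis, t (jF F a) = emb a)
    (h : ∀ i, s (δ i) = t (δ i)) : s = t := by
  have hKK : ∀ x : KK, s (algebraMap KK F x) = t (algebraMap KK F x) := by
    intro x
    obtain ⟨a, b, -, hx⟩ := IsFractionRing.div_surjective (A := 𝓞 KK) x
    have ha : s (algebraMap KK F (algebraMap (𝓞 KK) KK a)) = t (algebraMap KK F (algebraMap (𝓞 KK) KK a)) := by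
      have h1 := hs (eE.symm a)
      have h2 := ht (eE.symm a)
      have h3 : jF F (eE.symm a) = algebraMap KK F (algebraMap (𝓞 KK) KK a) := by
        rw [jF_apply, jK_apply, RingEquiv.apply_symm_apply]
      rw [← h3, h1, h2]
    have hb : s (algebraMap KK F (algebraMap (𝓞 KK) KK b)) = t (algebraMap KK F (algebraMap (𝓞 KK) KK b)) := by
      have h1 := hs (eE.symm b)
      have h2 := ht (eE.symm b)
      have h3 : jF F (eE.symm b) = algebraMap KK F (algebraMap (𝓞 KK) KK b) := by
        rw [jF_apply, jK_apply, RingEquiv.apply_symm_apply]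
      rw [← h3, h1, h2]
    rw [← hx, map_div₀, map_div₀, map_div₀, ha, hb]
  apply RingHom.ext
  intro x
  have hx : x ∈ IntermediateField.adjoin KK (Set.range δ) := by
    rw [hK.top]
    exact IntermediateField.mem_top
  induction hx using IntermediateField.adjoin_induction with
  | mem y hy =>
    obtain ⟨i, rfl⟩ := hy
    exact h i
  | algebraMap y => exact hKK y
  | add y z _ _ hy hz => rw [map_add, map_add, hy, hz]
  | inv y _ hy => rw [map_inv₀, map_inv₀, hy]
  | mul y z _ _ hy hz => rw [map_mul, map_mul, hy, hz]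

theorem d1a_sum {l : ℕ} [NeZero l] (hl : l = 2 ∨ l = 3) {z : ℂ} (hz : z ^ l = 1) :
    ∑ j : ZMod l, z ^ j.val = if z = 1 then (l : ℂ) else 0 := by
  split_ifs with h
  · rw [h]
    simp [ZMod.card]
  · have h0 : z - 1 ≠ 0 := sub_ne_zero.2 h
    rcases hl with rfl | rfl
    · have h1 : ∑ j : ZMod 2, z ^ j.val = 1 + z := by
        have e : ∑ j : ZMod 2, z ^ j.val = ∑ j : Fin 2, z ^ (j : ℕ) := rfl
        rw [e, Fin.sum_univ_two]
        simp
      rw [h1]
      have h2 : (z - 1) * (1 + z) = 0 := by linear_combination hz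
      exact (mul_eq_zero.1 h2).resolve_left h0
    · have h1 : ∑ j : ZMod 3, z ^ j.val = 1 + z + z ^ 2 := by
        have e : ∑ j : ZMod 3, z ^ j.val = ∑ j : Fin 3, z ^ (j : ℕ) := rfl
        rw [e, Fin.sum_univ_three]
        simp
      rw [h1]
      have h2 : (z - 1) * (1 + z + z ^ 2) = 0 := by linear_combination hz
      exact (mul_eq_zero.1 h2).resolve_left h0

theorem d1a_conj {l : ℕ} (hl : l = 2 ∨ l = 3) {z : ℂ} (hz : z ^ l = 1) : z * conj z = 1 := by
  have h0 : l ≠ 0 := by omega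
  have h1 : ‖z‖ = 1 := Complex.norm_eq_one_of_pow_eq_one hz h0
  rw [Complex.mul_conj, Complex.normSq_eq_norm_sq, h1]
  simp

theorem det_kum {F : Type} [Field F] [NumberField F] [Algebra KK F] {l m n : ℕ} [NeZero l] {d : Fin n → Eis} {δ : Fin n → F}
    (hl : l = 2 ∨ l = 3) (hm : l * m = 6) (hK : Kum l n d δ) (s : (Fin n → ZMod l) → (F →+* ℂ)) (hs : ∀ g (a : Eis), s g (jF F a) = emb a)
    (hinj : Function.Injective s) :
    ‖Matrix.det (Matrix.of fun g χ : Fin n → ZMod l => s g (dl δ χ))‖ ^ 2 =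
      ((l : ℝ) ^ n) ^ (l ^ n) * ∏ χ : Fin n → ZMod l, ‖emb (dx d χ)‖ ^ ((m : ℝ) / 3) := by
  -- the roots of unity
  have hδ0 : ∀ g i, s g (δ i) ≠ 0 := by
    intro g i h
    have h1 : (s g (δ i)) ^ l = emb (d i) := by
      rw [← map_pow, hK.pow i, hs]
    rw [h, zero_pow (by omega)] at h1
    exact hK.ne i (emb_injective (by rw [← h1, map_zero]))
  set u : (Fin n → ZMod l) → Fin n → ℂ := fun g i => s g (δ i) / s 0 (δ i) with hu
  have hul : ∀ g i, u g i ^ l = 1 := by
    intro g i
    simp only [hu]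
    rw [div_pow, ← map_pow, ← map_pow, hK.pow i, hs, hs, div_self]
    intro h
    exact hK.ne i (emb_injective (by rw [h, map_zero]))
  set Z : Matrix (Fin n → ZMod l) (Fin n → ZMod l) ℂ := Matrix.of fun g χ => ∏ i, u g i ^ (χ i).val with hZ
  have hZZ : Z * Z.conjTranspose = ((l : ℂ) ^ n) • (1 : Matrix (Fin n → ZMod l) (Fin n → ZMod l) ℂ) := by
    ext g h
    rw [Matrix.mul_apply]
    have e1 : ∀ χ : Fin n → ZMod l, Z g χ * Z.conjTranspose χ h = ∏ i, (u g i * conj (u h i)) ^ (χ i).val := by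
      intro χ
      rw [Matrix.conjTranspose_apply]
      simp only [hZ, Matrix.of_apply]
      rw [Complex.star_def, map_prod, ← Finset.prod_mul_distrib]
      refine Finset.prod_congr rfl fun i _ => ?_
      rw [map_pow, mul_pow]
    rw [Finset.sum_congr rfl fun χ _ => e1 χ]
    have e2 : ∑ χ : Fin n → ZMod l, ∏ i, (u g i * conj (u h i)) ^ (χ i).val =
        ∏ i, ∑ j : ZMod l, (u g i * conj (u h i)) ^ j.val := by
      rw [Finset.prod_univ_sum, Fintype.piFinset_univ]
    rw [e2]
    have e3 : ∀ i, (u g i * conj (u h i)) ^ l = 1 := by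
      intro i
      rw [mul_pow, hul, ← map_pow, hul, map_one, mul_one]
    rw [Finset.prod_congr rfl fun i _ => d1a_sum hl (e3 i)]
    by_cases hgh : g = h
    · subst hgh
      rw [Matrix.smul_apply, Matrix.one_apply_eq, smul_eq_mul, mul_one]
      have e4 : ∀ i ∈ (Finset.univ : Finset (Fin n)), (if u g i * conj (u g i) = 1 then (l : ℂ) else 0) = l := by
        intro i _
        rw [if_pos (d1a_conj hl (hul g i))]
      rw [Finset.prod_congr rfl e4, Finset.prod_const, Finset.card_univ, Fintype.card_fin]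
    · rw [Matrix.smul_apply, Matrix.one_apply_ne hgh, smul_zero]
      have e5 : ∃ i, u g i * conj (u h i) ≠ 1 := by
        by_contra hcon
        push Not at hcon
        apply hgh
        apply hinj
        apply d1a_ext hK (s g) (s h) (hs g) (hs h)
        intro i
        have h1 := hcon i
        have h2 := d1a_conj hl (hul h i)
        have h3 : conj (u h i) ≠ 0 := right_ne_zero_of_mul_eq_one h2
        have h4 : u g i = u h i := mul_right_cancel₀ h3 (h1.trans h2.symm)
        simp only [hu] at h4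
        exact (div_left_inj' (hδ0 0 i)).1 h4
      obtain ⟨i, hi⟩ := e5
      exact Finset.prod_eq_zero (Finset.mem_univ i) (if_neg hi)
  have hcard : Fintype.card (Fin n → ZMod l) = l ^ n := by
    rw [Fintype.card_fun, ZMod.card, Fintype.card_fin]
  have hdetZ : ‖Z.det‖ ^ 2 = ((l : ℝ) ^ n) ^ (l ^ n) := by
    have h1 := congrArg Matrix.det hZZ
    rw [Matrix.det_mul, Matrix.det_conjTranspose, Matrix.det_smul, Matrix.det_one, mul_one, hcard] at h1
    have h2 := congrArg norm h1
    rw [norm_mul, norm_star, norm_pow, norm_pow, Complex.norm_natCast] at h2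
    rw [sq, h2]
  have hM : (Matrix.of fun g χ : Fin n → ZMod l => s g (dl δ χ)) =
      Matrix.of fun g χ : Fin n → ZMod l => s 0 (dl δ χ) * Z g χ := by
    ext g χ
    simp only [Matrix.of_apply, hZ, hu, dl]
    rw [map_prod, map_prod, ← Finset.prod_mul_distrib]
    refine Finset.prod_congr rfl fun i _ => ?_
    rw [map_pow, map_pow, div_pow, mul_div_cancel₀ _ (pow_ne_zero _ (hδ0 0 i))]
  have hprod : ∀ χ : Fin n → ZMod l, ‖s 0 (dl δ χ)‖ ^ 2 = ‖emb (dx d χ)‖ ^ ((m : ℝ) / 3) := by
    intro χ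
    have h1 : ‖s 0 (dl δ χ)‖ ^ l = ‖emb (dx d χ)‖ := by
      rw [← norm_pow, ← map_pow, dl_pow hK, hs]
    rw [← h1, ← Real.rpow_natCast, ← Real.rpow_natCast, ← Real.rpow_mul (norm_nonneg _)]
    congr 1
    have h2 : (l : ℝ) * m = 6 := by exact_mod_cast hm
    push_cast
    linarith
  have hM2 : Matrix.det (Matrix.of fun g χ : Fin n → ZMod l => s g (dl δ χ)) =
      (∏ χ : Fin n → ZMod l, s 0 (dl δ χ)) * Z.det := by
    rw [hM]
    exact Matrix.det_mul_row _ _
  rw [hM2, norm_mul, mul_pow, hdetZ, mul_comm, norm_prod, ← Finset.prod_pow]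
  congr 1
  exact Finset.prod_congr rfl fun χ _ => hprod χ

end CX
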