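import Pool.Agent.CX.T6
import Pool.Agent.MP_9ab903_nt.TH.C15

/-!
# [CX-D2] the valuation of the discriminant

PROOF. `NumberField.natAbs_discr_eq_absNorm_differentIdeal_mul_natAbs_discr_pow` (Mathlib, Discriminant/Different.lean) for `K = KK`, `L = F`: `|discr F| = absNorm (differentIdeal (𝓞 KK) (𝓞 F)) * |discr KK|^(finrank)`, `|discr KK| = 3`, `finrank = l^n`. `N = absNorm (different)`. If `l ∣ N` then a prime ideal `w ∣ l` of `𝓞 F` divides the different ideal (`l ∣ absNorm I` implies that a prime of residue characteristic `l`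
divides `I`), so `w` is ramified over `KK` (`not_dvd_differentIdeal_iff` / `dvd_differentIdeal_iff`), i.e. `v.map ≤ w²` for `v = und KK w ∋ 6`, against `six_unram` (the link between `IsUnramifiedAt` and `map ≤ w²`: `Ideal.ramificationIdx`, `isUnramifiedAt_iff...`; TTF/TU use such translations).
-/

set_option autoImplicit false

open NumberField IsDedekindDomain
open scoped Classical ComplexConjugate

namespace CX

open CM27 CMT NAB CF JD
open CU (la om eE)

theorem disc_val {F : Type} [Field F] [NumberField F] [Algebra KK F] {l m n : ℕ} {d : Fin n → Eis} {δ : Fin n → F} {D : Eis}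
    (hD : Dat0 l m D d) (hK : Kum l n d δ) :
    ∃ N : ℕ, ¬ l ∣ N ∧ (discr F).natAbs = 3 ^ (l ^ n) * N := by
  have h4 := NumberField.natAbs_discr_eq_absNorm_differentIdeal_mul_natAbs_discr_pow KK (𝓞 KK) F (𝓞 F)
  rw [hK.rank, TH.c15_discr_KK, mul_comm] at h4
  refine ⟨_, ?_, h4⟩
  intro h
  have hlp : l.Prime := by
    rcases hD.lm.2 with h' | h'
    · rw [h']; exact Nat.prime_two
    · rw [h']; exact Nat.prime_three
  obtain ⟨P, hP, h6, h7⟩ := Ideal.exists_isMaximal_dvd_of_dvd_absNorm' hlp _ h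
  refine not_dvd_differentIdeal_iff.2 ?_ h7
  have h8 : (l : 𝓞 F) ∈ P := by
    have h9 : (l : ℤ) ∈ P.under ℤ := by
      rw [h6]
      exact Ideal.mem_span_singleton_self _
    rw [Ideal.under_def, Ideal.mem_comap, map_natCast] at h9
    exact h9
  have hP0 : P ≠ ⊥ := by
    rintro rfl
    rw [Ideal.mem_bot] at h8
    exact hlp.ne_zero (Nat.cast_eq_zero.1 h8)
  have hvl : (l : 𝓞 KK) ∈ P.under (𝓞 KK) := by
    change algebraMap (𝓞 KK) (𝓞 F) l ∈ P
    rwa [map_natCast]
  have hv6 : (6 : 𝓞 KK) ∈ P.under (𝓞 KK) := by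
    have h1 : (6 : 𝓞 KK) = (m : 𝓞 KK) * (l : 𝓞 KK) := by
      rw [← Nat.cast_mul, mul_comm m l, hD.lm.1]
      norm_num
    rw [h1]
    exact Ideal.mul_mem_left _ _ hvl
  have hv0 : P.under (𝓞 KK) ≠ ⊥ := by
    intro h
    rw [h, Ideal.mem_bot] at hvl
    exact hlp.ne_zero (Nat.cast_eq_zero.1 hvl)
  refine Ideal.ramificationIdx_eq_one_iff.1 ?_
  rw [← Ideal.ramificationIdx'_eq_ramificationIdx (P.under (𝓞 KK)) P hv0]
  by_contra hne
  rw [← ne_eq, Ideal.ramificationIdx'_ne_one_iff Ideal.map_comap_le] at hne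
  exact six_unram hD hK (und KK ⟨P, hP.isPrime, hP0⟩) hv6 ⟨P, hP.isPrime, hP0⟩ rfl hne

end CX
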