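import Pool.Agent.CX.C3
import Pool.Agent.CX.D1
import Pool.Agent.CX.D2

/-!
# [CX-D3] periods and discriminants together

PROOF. `per_K`, `per_F`, `disc_rat`. `‖4 D d_χ^m‖^(1/3) = ‖4 D‖^(1/3) ‖d_χ‖^(m/3)` (`Real.mul_rpow`, `emb` multiplicative). So `∏_χ period_χ = (√3 Om² / ‖4D‖^(1/3) kap6)^(l^n) ∏ r_χ / ∏ ‖d_χ‖^(m/3)`, `√|discr F| = r √3^(l^n) ∏ ‖d_χ‖^(m/3)`, `|discr KK| = 3`, period_F `= (..)^(l^n) r_F`: `ρ = r ∏ r_χ / r_F`. `padicValRat l r = 0`: square `disc_rat`: `|discr F| = r² 3^N ∏ ‖d_χ‖^(2m/3)`, with `disc_val`: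
`N' = r² ∏ ‖d_χ‖^(2m/3)`; the third power: `N'^3 = r^6 ∏ (‖d_χ‖²)^m = r^6 ∏ (norm d_χ)^m` (`norm_emb_sq`), `norm d_χ` is prime to `l`: `l ∣ norm (d_χ)` would give `eE (d_i) ∈ v` for some `i` and the `v` over `l` (`hD.cop`; `l` is `2` (prime of `Eis`) or `3 = -ω² λ²`; `norm d = d * star d`, a prime dividing `star d`: the primes `2`, `λ` are associated to their conjugates).
-/

set_option autoImplicit false

open NumberField IsDedekindDomain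
open scoped Classical ComplexConjugate

namespace CX

open CM27 CMT NAB CF JD
open CU (la om eE)

theorem d3_prime {l m n : ℕ} {d : Fin n → Eis} {D : Eis} (hD : Dat0 l m D d) : l.Prime := by
  rcases hD.lm.2 with h | h
  · rw [h]; exact Nat.prime_two
  · rw [h]; exact Nat.prime_three

theorem d3_place {l m n : ℕ} {d : Fin n → Eis} {D : Eis} (hD : Dat0 l m D d) :
    ∃ v : HeightOneSpectrum (𝓞 KK), (l : 𝓞 KK) ∈ v.asIdeal := by
  have hl := d3_prime hD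
  have h1 : Ideal.span {(l : 𝓞 KK)} ≠ ⊤ := by
    rw [Ne, Ideal.span_singleton_eq_top]
    intro h
    have h2 : IsUnit ((eE : Eis ≃+* 𝓞 KK) (l : Eis)) := by rw [map_natCast]; exact h
    rw [MulEquiv.isUnit_map] at h2
    obtain ⟨x, hx⟩ := h2.exists_right_inv
    have h3 := congrArg QuadraticAlgebra.re hx
    rw [QuadraticAlgebra.re_mul, QuadraticAlgebra.re_natCast, QuadraticAlgebra.im_natCast, QuadraticAlgebra.re_one] at h3
    have h4 : (l : ℤ) * x.re = 1 := by linarith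
    have h5 : (l : ℤ) ∣ 1 := ⟨x.re, h4.symm⟩
    have h6 := Int.natCast_dvd_natCast.1 (by simpa using h5 : (l : ℤ) ∣ ((1 : ℕ) : ℤ))
    exact hl.one_lt.ne' (Nat.dvd_one.1 h6)
  obtain ⟨M, hM, hM2⟩ := Ideal.exists_le_maximal _ h1
  have h3 : (l : 𝓞 KK) ∈ M := hM2 (Ideal.mem_span_singleton_self _)
  refine ⟨⟨M, hM.isPrime, ?_⟩, h3⟩
  rintro rfl
  rw [Ideal.mem_bot] at h3
  exact hl.ne_zero (Nat.cast_eq_zero.1 h3)

theorem d3_norm {l m n : ℕ} {d : Fin n → Eis} {D : Eis} (hD : Dat0 l m D d) (i : Fin n) :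
    ¬ (l : ℤ) ∣ (d i).norm := by
  intro h
  obtain ⟨v, hv⟩ := d3_place hD
  have h6 : ∀ I : Ideal (𝓞 KK), (l : 𝓞 KK) ∈ I → (6 : 𝓞 KK) ∈ I := by
    intro I hI
    have h1 : (6 : 𝓞 KK) = (m : 𝓞 KK) * (l : 𝓞 KK) := by
      rw [← Nat.cast_mul, mul_comm m l, hD.lm.1]
      norm_num
    rw [h1]
    exact Ideal.mul_mem_left _ _ hI
  let σ : 𝓞 KK ≃+* 𝓞 KK := ((eE : Eis ≃+* 𝓞 KK).symm.trans (starRingAut (R := Eis))).trans eE
  have hσ : ∀ a : Eis, σ (eE a) = eE (star a) := by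
    intro a
    change eE (starRingAut ((eE : Eis ≃+* 𝓞 KK).symm (eE a))) = _
    rw [RingEquiv.symm_apply_apply]
    rfl
  have hv' : v.asIdeal.comap (σ : 𝓞 KK →+* 𝓞 KK) ≠ ⊥ := by
    intro h0
    have h1 : (l : 𝓞 KK) ∈ v.asIdeal.comap (σ : 𝓞 KK →+* 𝓞 KK) := by
      rw [Ideal.mem_comap, map_natCast]
      exact hv
    rw [h0, Ideal.mem_bot] at h1
    exact (d3_prime hD).ne_zero (Nat.cast_eq_zero.1 h1)
  let v' : HeightOneSpectrum (𝓞 KK) := ⟨v.asIdeal.comap (σ : 𝓞 KK →+* 𝓞 KK), Ideal.IsPrime.comap _, hv'⟩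
  have h1 := hD.cop v (h6 _ hv) i
  have h2 : eE (d i) ∉ v'.asIdeal := by
    refine hD.cop v' (h6 _ ?_) i
    change (l : 𝓞 KK) ∈ v.asIdeal.comap (σ : 𝓞 KK →+* 𝓞 KK)
    rw [Ideal.mem_comap, map_natCast]
    exact hv
  have h3 : eE (star (d i)) ∉ v.asIdeal := by
    intro hc
    apply h2
    change eE (d i) ∈ v.asIdeal.comap (σ : 𝓞 KK →+* 𝓞 KK)
    rw [Ideal.mem_comap]
    change σ (eE (d i)) ∈ v.asIdeal
    rw [hσ]
    exact hc
  obtain ⟨c, hc⟩ := h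
  have h4 : d i * star (d i) = (l : Eis) * (c : Eis) := by
    rw [← QuadraticAlgebra.algebraMap_norm_eq_mul_star, hc, map_mul]
    simp
  have h5 : eE (d i) * eE (star (d i)) ∈ v.asIdeal := by
    rw [← map_mul, h4, map_mul, map_natCast]
    exact Ideal.mul_mem_right _ _ hv
  rcases v.isPrime.mem_or_mem h5 with h7 | h7
  · exact h1 h7
  · exact h3 h7

theorem d3_norm_dx {l m n : ℕ} {d : Fin n → Eis} {D : Eis} (hD : Dat0 l m D d) (χ : Fin n → ZMod l) :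
    ¬ (l : ℤ) ∣ (dx d χ).norm := by
  have hl : Prime (l : ℤ) := Nat.prime_iff_prime_int.1 (d3_prime hD)
  unfold dx
  rw [map_prod]
  intro h
  obtain ⟨i, -, hi⟩ := hl.exists_mem_finset_dvd h
  rw [map_pow] at hi
  exact d3_norm hD i (hl.dvd_of_dvd_pow hi)

theorem d3_emb_sq (a : Eis) : ‖emb a‖ ^ 2 = (a.norm : ℝ) := by
  rw [← Complex.normSq_eq_norm_sq, normSq_emb]

/-- the valuation of `r` -/
theorem d3_val {F : Type} [Field F] [NumberField F] [Algebra KK F] {l m n : ℕ} [NeZero l] {d : Fin n → Eis} {δ : Fin n → F} {D : Eis}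
    (hD : Dat0 l m D d) (hK : Kum l n d δ) {r : ℚ} (hr : 0 < r)
    (h : √|(discr F : ℝ)| = r * √3 ^ (l ^ n) * ∏ χ : Fin n → ZMod l, ‖emb (dx d χ)‖ ^ ((m : ℝ) / 3)) :
    padicValRat l r = 0 := by
  have hl : Fact l.Prime := ⟨d3_prime hD⟩
  obtain ⟨N, hN, hdisc⟩ := disc_val hD hK
  have h1 : |(discr F : ℝ)| = 3 ^ (l ^ n) * (N : ℝ) := by
    have : |(discr F : ℝ)| = ((discr F).natAbs : ℝ) := by
      rw [Nat.cast_natAbs, Int.cast_abs]
    rw [this, hdisc]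
    push_cast
    ring
  have h2 : |(discr F : ℝ)| = (r * √3 ^ (l ^ n) * ∏ χ : Fin n → ZMod l, ‖emb (dx d χ)‖ ^ ((m : ℝ) / 3)) ^ 2 := by
    rw [← h, Real.sq_sqrt (abs_nonneg _)]
  have h3 : (√3 ^ (l ^ n)) ^ 2 = (3 : ℝ) ^ (l ^ n) := by
    rw [← pow_mul, mul_comm, pow_mul, Real.sq_sqrt (by norm_num)]
  have h4 : (N : ℝ) = (r : ℝ) ^ 2 * (∏ χ : Fin n → ZMod l, ‖emb (dx d χ)‖ ^ ((m : ℝ) / 3)) ^ 2 := by
    have h30 : (3 : ℝ) ^ (l ^ n) ≠ 0 := by positivity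
    apply mul_left_cancel₀ h30
    rw [← h1, h2, mul_pow, mul_pow, h3]
    ring
  have h5 : (∏ χ : Fin n → ZMod l, ‖emb (dx d χ)‖ ^ ((m : ℝ) / 3)) ^ 6 =
      ∏ χ : Fin n → ZMod l, ((dx d χ).norm : ℝ) ^ m := by
    rw [← Finset.prod_pow]
    refine Finset.prod_congr rfl fun χ _ => ?_
    rw [← d3_emb_sq, ← Real.rpow_natCast, ← Real.rpow_mul (norm_nonneg _), ← pow_mul, ← Real.rpow_natCast]
    congr 1
    push_cast
    ring
  have h6 : ((N : ℚ)) ^ 3 = r ^ 6 * ∏ χ : Fin n → ZMod l, ((dx d χ).norm : ℚ) ^ m := by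
    have h7 : (N : ℝ) ^ 3 = (r : ℝ) ^ 6 * ∏ χ : Fin n → ZMod l, ((dx d χ).norm : ℝ) ^ m := by
      rw [← h5, h4]
      ring
    have h8 : (((N : ℚ) ^ 3 : ℚ) : ℝ) = ((r ^ 6 * ∏ χ : Fin n → ZMod l, ((dx d χ).norm : ℚ) ^ m : ℚ) : ℝ) := by
      push_cast
      exact h7
    exact_mod_cast h8
  have hnorm : ∀ χ : Fin n → ZMod l, ((dx d χ).norm : ℚ) ≠ 0 := by
    intro χ hc
    apply d3_norm_dx hD χ
    rw [Int.cast_eq_zero.1 hc]
    exact dvd_zero _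
  have hprod : (∏ χ : Fin n → ZMod l, ((dx d χ).norm : ℚ) ^ m) ≠ 0 :=
    Finset.prod_ne_zero_iff.2 fun χ _ => pow_ne_zero _ (hnorm χ)
  have hNz : padicValRat l (N : ℚ) = 0 := by
    rw [padicValRat.of_nat, padicValNat.eq_zero_of_not_dvd hN]
    rfl
  have hpz : ∀ s : Finset (Fin n → ZMod l), padicValRat l (∏ χ ∈ s, ((dx d χ).norm : ℚ) ^ m) = 0 := by
    intro s
    induction s using Finset.induction_on with
    | empty => rw [Finset.prod_empty, padicValRat.one]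
    | insert a s ha ih =>
      rw [Finset.prod_insert ha, padicValRat.mul (pow_ne_zero _ (hnorm a))
        (Finset.prod_ne_zero_iff.2 fun χ _ => pow_ne_zero _ (hnorm χ)), ih, padicValRat.pow,
        padicValRat.of_int, padicValInt.eq_zero_of_not_dvd (d3_norm_dx hD a)]
      simp
  have h9 := congrArg (padicValRat l) h6
  have hN0 : (N : ℚ) ≠ 0 := by
    intro hc
    apply hN
    rw [Nat.cast_eq_zero.1 hc]
    exact dvd_zero _
  rw [padicValRat.pow, hNz, padicValRat.mul (pow_ne_zero _ hr.ne') hprod, padicValRat.pow, hpz] at h9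
  have h10 : (6 : ℤ) * padicValRat l r = 0 := by
    have := h9.symm
    push_cast at this
    linarith
  rcases mul_eq_zero.1 h10 with h11 | h11
  · exact absurd h11 (by norm_num)
  · exact h11

theorem period_all {F : Type} [Field F] [NumberField F] [Algebra KK F] {l m n : ℕ} [NeZero l] {d : Fin n → Eis} {δ : Fin n → F} {D : Eis}
    (hD : Dat0 l m D d) (hK : Kum l n d δ) : ∃ ρ : ℚ, 0 < ρ ∧ padicValRat l ρ = 0 ∧
    √|(discr F : ℝ)| * ∏ χ : Fin n → ZMod l, SBSD.period (ED (jK (D * dx d χ ^ m))) =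
      ρ * √|(discr KK : ℝ)| ^ (l ^ n) * SBSD.period (ED (jF F D)) := by
  have hl : Fact l.Prime := ⟨d3_prime hD⟩
  have hRp : ∀ r : ℚ, Rp r → padicValRat l r = 0 := by
    intro r hr
    rcases hD.lm.2 with h | h
    · rw [h]; exact hr.2.1
    · rw [h]; exact hr.2.2
  obtain ⟨r, hr, hdr⟩ := disc_rat (m := m) hD.lm.2 hD.lm.1 hK
  obtain ⟨rF, hrF, hpF⟩ := per_F hD hK
  choose s hs hps using fun χ => per_K hD hK χ
  set A : ℝ := √3 * Om ^ 2 / ‖emb (4 * D)‖ ^ ((1 : ℝ) / 3) * kap6 D with hA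
  have hne : ∀ χ : Fin n → ZMod l, ‖emb (dx d χ)‖ ≠ 0 := by
    intro χ
    rw [norm_ne_zero_iff]
    exact (map_ne_zero_iff _ emb_injective).2 (c3_dx_ne hK.ne χ)
  have h1 : ∀ χ : Fin n → ZMod l, SBSD.period (ED (jK (D * dx d χ ^ m))) * ‖emb (dx d χ)‖ ^ ((m : ℝ) / 3) = A * s χ := by
    intro χ
    rw [hps χ, hA]
    have h2 : ‖emb (4 * (D * dx d χ ^ m))‖ ^ ((1 : ℝ) / 3) =
        ‖emb (4 * D)‖ ^ ((1 : ℝ) / 3) * ‖emb (dx d χ)‖ ^ ((m : ℝ) / 3) := by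
      rw [← mul_assoc, map_mul, map_pow, norm_mul, norm_pow, Real.mul_rpow (norm_nonneg _) (by positivity),
        ← Real.rpow_natCast, ← Real.rpow_mul (norm_nonneg _)]
      congr 2
      ring
    rw [h2]
    have h3 : ‖emb (dx d χ)‖ ^ ((m : ℝ) / 3) ≠ 0 :=
      (Real.rpow_pos_of_pos (lt_of_le_of_ne (norm_nonneg _) (hne χ).symm) _).ne'
    field_simp
  have hcard : (Finset.univ : Finset (Fin n → ZMod l)).card = l ^ n := by
    rw [Finset.card_univ, Fintype.card_fun, ZMod.card, Fintype.card_fin]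
  have h4 : (∏ χ : Fin n → ZMod l, SBSD.period (ED (jK (D * dx d χ ^ m)))) *
      ∏ χ : Fin n → ZMod l, ‖emb (dx d χ)‖ ^ ((m : ℝ) / 3) = A ^ (l ^ n) * ∏ χ : Fin n → ZMod l, (s χ : ℝ) := by
    rw [← Finset.prod_mul_distrib, Finset.prod_congr rfl fun χ _ => h1 χ, Finset.prod_mul_distrib, Finset.prod_const, hcard]
  have h5 : √|(discr KK : ℝ)| = √3 := by
    have : |(discr KK : ℝ)| = ((discr KK).natAbs : ℝ) := by
      rw [Nat.cast_natAbs, Int.cast_abs]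
    rw [this, TH.c15_discr_KK]
    norm_num
  have hRs : Rp (∏ χ : Fin n → ZMod l, s χ) := c3a_prod _ _ fun χ _ => hs χ
  have hq := c3a_mul hRs (c3a_inv hrF)
  refine ⟨r * ((∏ χ : Fin n → ZMod l, s χ) * rF⁻¹), mul_pos hr hq.1, ?_, ?_⟩
  · rw [padicValRat.mul hr.ne' hq.1.ne', hRp _ hq, d3_val hD hK hr hdr, add_zero]
  · have hrF0 : (rF : ℝ) ≠ 0 := by exact_mod_cast hrF.1.ne'
    rw [hdr, h5, hpF]
    push_cast
    calc (r : ℝ) * √3 ^ (l ^ n) * (∏ χ : Fin n → ZMod l, ‖emb (dx d χ)‖ ^ ((m : ℝ) / 3)) *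
          ∏ χ : Fin n → ZMod l, SBSD.period (ED (jK (D * dx d χ ^ m)))
        = (r : ℝ) * √3 ^ (l ^ n) * ((∏ χ : Fin n → ZMod l, SBSD.period (ED (jK (D * dx d χ ^ m)))) *
          ∏ χ : Fin n → ZMod l, ‖emb (dx d χ)‖ ^ ((m : ℝ) / 3)) := by ring
      _ = (r : ℝ) * √3 ^ (l ^ n) * (A ^ (l ^ n) * ∏ χ : Fin n → ZMod l, (s χ : ℝ)) := by rw [h4]
      _ = (r : ℝ) * ((∏ χ : Fin n → ZMod l, (s χ : ℝ)) * (rF : ℝ)⁻¹) * √3 ^ (l ^ n) * (A ^ (l ^ n) * rF) := by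
          field_simp

end CX
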