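import Pool.Agent.JD.L0
import Pool.Agent.MP_9ab903_nt.TH.B1
import Pool.Agent.MP_9ab903_nt.NAB.EU3
import Pool.Agent.ISO.Sha

/-!
# [CX] the conjecture modulo `l` over the abelian extensions of `ℚ(ω)` of exponent `l`: definitions

`l = 2` or `l = 3`, `m = 6 / l`; `K = ℚ(ω)` is `KK`; `E` is an elliptic curve over `K` with `j = 0`, `E = ED (jK D) : y² = x³ + D`.
`F / K` is abelian of exponent `l`: `F = K(δ₁, …, δₙ)`, `δᵢ ^ l = dᵢ ∈ ℤ[ω]`, `[F : K] = l ^ n`. The characters `χ` of the Galois group of `F / K` correspond to the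
`d_χ = ∏ dᵢ ^ χᵢ`, `χ : Fin n → ZMod l`, and the twist of `E` by `χ` is `ED (jK (D * d_χ ^ m))`.
-/

set_option autoImplicit false

open NumberField IsDedekindDomain
open scoped Classical

namespace CX

open CM27 CF JD
open CU (la om eE)

/-- `E` has no point of order `l` over the completion at `v`. -/
def NoPt (l : ℕ) {L : Type} [Field L] [NumberField L] (E : WeierstrassCurve L) (v : HeightOneSpectrum (𝓞 L)) : Prop :=
  ∀ P : (E.baseChange (v.adicCompletion L)).toAffine.Point, l • P = 0 → P = 0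

/-- No point of order `l`, no Tamagawa number divisible by `l` (this is `J2F.PrimeL`). -/
def PL (l : ℕ) {K : Type} [Field K] [NumberField K] (E : WeierstrassCurve K) : Prop :=
  (∀ P : E.toAffine.Point, l • P = 0 → P = 0) ∧
    ∀ v : HeightOneSpectrum (𝓞 K), ¬ l ∣ SBSD.tam E v

/-- No point of order `l` over the field. -/
def Np (l : ℕ) {K : Type} [Field K] (E : WeierstrassCurve K) : Prop :=
  ∀ P : E.toAffine.Point, l • P = 0 → P = 0

/-- The Tamagawa numbers are prime to `l`. -/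
def Tp (l : ℕ) {K : Type} [Field K] [NumberField K] (E : WeierstrassCurve K) : Prop :=
  ∀ v : HeightOneSpectrum (𝓞 K), ¬ l ∣ SBSD.tam E v

/-- `D` is nonzero and not divisible by the sixth power of a prime (this is `JZR.SixthPowerFree`). -/
def Sf (D : Eis) : Prop := D ≠ 0 ∧ ∀ q : Eis, Prime q → ¬ q ^ 6 ∣ D

/-- `F / K` is a finite abelian extension of exponent `l` in which the two primes of `K` over `6` split completely, and `E` has no point
of order `l` over `K_v` for each prime `v` of `K` which ramifies in `F`. -/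
structure Nice (l : ℕ) (E : WeierstrassCurve KK) (F : Type) [Field F] [NumberField F] [Algebra KK F] : Prop where
  galois : IsGalois KK F
  comm : ∀ σ τ : F ≃ₐ[KK] F, σ * τ = τ * σ
  exponent : ∀ σ : F ≃ₐ[KK] F, σ ^ l = 1
  split : ∀ v : HeightOneSpectrum (𝓞 KK), (6 : 𝓞 KK) ∈ v.asIdeal →
    (v.asIdeal.primesOver (𝓞 F)).ncard = Module.finrank KK F
  ramified : ∀ (v : HeightOneSpectrum (𝓞 KK)) (P : HeightOneSpectrum (𝓞 F)),
    v.asIdeal.map (algebraMap (𝓞 KK) (𝓞 F)) ≤ P.asIdeal ^ 2 → NoPt l E v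

/-- The group of points is finite and the Tate–Shafarevich group has no element of order `l`. -/
def Fs (l : ℕ) {L : Type} [Field L] [NumberField L] (W : WeierstrassCurve L) : Prop :=
  Finite W.toAffine.Point ∧ ∀ x : SBSD.Sha W, l • x = 0 → x = 0

/-- `d_χ` -/
def dx {l n : ℕ} (d : Fin n → Eis) (χ : Fin n → ZMod l) : Eis := ∏ i, d i ^ (χ i).val

/-- `F = K(δ₁, …, δₙ)`, `δᵢ ^ l = dᵢ`, `[F : K] = l ^ n`. -/
structure Kum (l n : ℕ) {F : Type} [Field F] [NumberField F] [Algebra KK F] (d : Fin n → Eis) (δ : Fin n → F) : Prop where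
  pow : ∀ i, δ i ^ l = jF F (d i)
  ne : ∀ i, d i ≠ 0
  top : IntermediateField.adjoin KK (Set.range δ) = ⊤
  rank : Module.finrank KK F = l ^ n

/-- The data for the curve `E = ED (jK D)` over `K`, `l * m = 6`: `D ≠ 0`; the `dᵢ` are prime to `6` and `l`-th powers in the completions over `6`. -/
structure Dat0 (l m : ℕ) (D : Eis) {n : ℕ} (d : Fin n → Eis) : Prop where
  lm : l * m = 6 ∧ (l = 2 ∨ l = 3)
  ne0 : D ≠ 0
  cop : ∀ v : HeightOneSpectrum (𝓞 KK), (6 : 𝓞 KK) ∈ v.asIdeal → ∀ i, eE (d i) ∉ v.asIdeal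
  loc : ∀ v : HeightOneSpectrum (𝓞 KK), (6 : 𝓞 KK) ∈ v.asIdeal → ∀ i, ∃ c : v.adicCompletion KK,
    c ^ l = algebraMap KK (v.adicCompletion KK) (jK (d i))

/-- Moreover `E` has no point of order `l` over `K`, and no point of order `l` over `K_v` for the prime divisors `v` of the `dᵢ`
(`D` is not an `m`-th power in `K_v`). -/
structure Dat (l m : ℕ) (D : Eis) {n : ℕ} (d : Fin n → Eis) : Prop extends Dat0 l m D d where
  prim : Np l (ED (jK D))
  npt : ∀ (v : HeightOneSpectrum (𝓞 KK)) i, eE (d i) ∈ v.asIdeal → ∀ x : v.adicCompletion KK,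
    x ^ m ≠ algebraMap KK (v.adicCompletion KK) (jK D)

/-- The value, with the assertion `A` on the divisibility by `l`. -/
def LA (l : ℕ) {L : Type} [Field L] [NumberField L] (W : WeierstrassCurve L) (A : Prop) : Prop :=
  ∃ Λ : ℂ → ℂ, SBSD2.IsEntireLSeries W Λ ∧
    ∃ q : ℚ, Λ 1 * (√|(discr L : ℝ)| : ℝ) = q * SBSD.period W ∧ 0 ≤ padicValRat l q ∧
      ((q ≠ 0 ∧ padicValRat l q = 0) ↔ A)

/-- The conjecture modulo `l` without the orders of the torsion subgroup and the Tamagawa numbers. -/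
def LV (l : ℕ) {L : Type} [Field L] [NumberField L] (W : WeierstrassCurve L) : Prop :=
  ∃ Λ : ℂ → ℂ, SBSD2.IsEntireLSeries W Λ ∧
    ∃ q : ℚ, Λ 1 * (√|(discr L : ℝ)| : ℝ) = q * SBSD.period W ∧ 0 ≤ padicValRat l q ∧
      ((q ≠ 0 ∧ padicValRat l q = 0) ↔ Fs l W)

/-- `x` is the Frobenius number of `y² = x³ + D` at `v`, `v ∤ 6`, if the curve has good reduction at `v`: `D = c⁶ D'`, `D'` a unit at `v`, `Nv = N(b) ^ f` for the primary
prime `b` below `v`, `x = s ζ b ^ f` with the quadratic symbol `s` of `D'` and the cubic symbol `ζ` of `4 D'`. -/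
def Fr {k : Type} [Field k] [NumberField k] (e : Eis →+* 𝓞 k) (v : HeightOneSpectrum (𝓞 k)) (D : k) (x : Eis) : Prop :=
  ∃ (b s ζ : Eis) (f : ℕ) (D' : 𝓞 k) (c : k), Primary b ∧ Prime b ∧ e b ∈ v.asIdeal ∧ 0 < f ∧ TH.nv v = b.norm.natAbs ^ f ∧
    c ≠ 0 ∧ D = c ^ 6 * (D' : k) ∧ D' ∉ v.asIdeal ∧ (s = 1 ∨ s = -1) ∧ ζ ^ 3 = 1 ∧
    D' ^ ((TH.nv v - 1) / 2) - e s ∈ v.asIdeal ∧ (4 * D') ^ ((TH.nv v - 1) / 3) - e ζ ∈ v.asIdeal ∧ x = s * ζ * b ^ f

/-- `z` is the `l`-th power symbol of `t` at `v`, `v ∤ l`: `t = u ^ l t'`, `t'` a unit at `v`, `t' ^ ((Nv - 1) / l) ≡ z`. -/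
def Sy {k : Type} [Field k] [NumberField k] (l : ℕ) (e : Eis →+* 𝓞 k) (v : HeightOneSpectrum (𝓞 k)) (t : k) (z : Eis) : Prop :=
  z ^ l = 1 ∧ ∃ (t' : 𝓞 k) (u : k), u ≠ 0 ∧ t' ∉ v.asIdeal ∧ t = u ^ l * (t' : k) ∧
    t' ^ ((TH.nv v - 1) / l) - e z ∈ v.asIdeal

/-- `ℤ[ω] → 𝓞 KK` as a ring homomorphism -/
noncomputable def eK : Eis →+* 𝓞 KK := (eE : Eis →+* 𝓞 KK)

/-- `ℤ[ω] → 𝓞 F` -/
noncomputable def eO (F : Type) [Field F] [NumberField F] [Algebra KK F] : Eis →+* 𝓞 F :=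
  (algebraMap (𝓞 KK) (𝓞 F)).comp eK

theorem eK_coe (a : Eis) : ((eK a : 𝓞 KK) : KK) = jK a := rfl

theorem eO_coe {F : Type} [Field F] [NumberField F] [Algebra KK F] (a : Eis) : ((eO F a : 𝓞 F) : F) = jF F a := by
  rw [jF_apply, jK_apply]
  exact (IsScalarTower.algebraMap_apply (𝓞 KK) (𝓞 F) F (eE a)).symm.trans (IsScalarTower.algebraMap_apply (𝓞 KK) KK F (eE a))

end CX
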