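import Pool.Agent.CX.L6

/-!
# [CX-K1] Kummer theory: eigenvectors

PROOF. `G = F ≃ₐ[KK] F` is a finite commutative group of exponent `l`; `KK` contains the `l`-th roots of unity. For a homomorphism `χ : G →* KKˣ` and `x ∈ F` put `e_χ(x) = ∑_τ χ(τ)⁻¹ τ x`; `σ e_χ(x) = χ(σ) e_χ(x)`, so `e_χ(x)^l` is fixed by `G` (`χ(σ)^l = χ(σ^l) = 1`), hence in `KK`. If `σ e_χ(x) = e_χ(x)` for all `χ`, `x`, then summing over `χ`: `∑_χ e_χ(x) = #G x` (for `τ ≠ 1` there is `χ₀` with `χ₀(τ) ≠ 1`: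
Mathlib `CommGroup.exists_apply_ne_one_of_hasEnoughRootsOfUnity` (NumberTheory/MulChar/Duality or GroupTheory/FiniteAbelian/Duality), so `∑_χ χ(τ)⁻¹ = 0`), so `σ x = x` for all `x`, `σ = 1`. (For `G` as a `CommGroup` use a local instance built from `hc`.) Alternative without duality: `F` is a sum of common eigenspaces of the commuting finite-order operators `σ ∈ G` (`X^l - 1` splits with simple roots; Mathlib
`Module.End` simultaneous diagonalisation), and a common eigenvector `y` with `σ y ≠ y` exists since `σ ≠ 1`.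
-/

set_option autoImplicit false

open NumberField IsDedekindDomain
open scoped Classical ComplexConjugate

namespace CX

open CM27 CMT NAB CF JD
open CU (la om eE)

/-- `∑ u^i τ^i x` -/
noncomputable def K1_E {K F : Type} [Field K] [Field F] [Algebra K F] (l : ℕ) (u : K) (τ : F ≃ₐ[K] F) (x : F) : F :=
  ∑ i ∈ Finset.range l, algebraMap K F (u ^ i) * (τ ^ i) x

section
variable {K F : Type} [Field K] [Field F] [Algebra K F] {l : ℕ}

theorem K1_eig (u : K) (hu : u ^ l = 1) (τ : F ≃ₐ[K] F) (hτ : τ ^ l = 1) (x : F) :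
    algebraMap K F u * τ (K1_E l u τ x) = K1_E l u τ x := by
  have h1 : algebraMap K F u * τ (K1_E l u τ x) =
      ∑ i ∈ Finset.range l, algebraMap K F (u ^ (i + 1)) * (τ ^ (i + 1)) x := by
    unfold K1_E
    rw [map_sum, Finset.mul_sum]
    refine Finset.sum_congr rfl fun i _ => ?_
    rw [map_mul, AlgEquiv.commutes, ← mul_assoc, ← map_mul, ← pow_succ', pow_succ' τ]
    rfl
  have h2 := Finset.sum_range_succ (fun i => algebraMap K F (u ^ i) * (τ ^ i) x) l
  have h3 := Finset.sum_range_succ' (fun i => algebraMap K F (u ^ i) * (τ ^ i) x) l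
  rw [h1]
  unfold K1_E
  rw [hu, hτ] at h2
  rw [pow_zero, pow_zero] at h3
  exact add_right_cancel (h3.symm.trans h2)

theorem K1_lin (u c : K) (τ : F ≃ₐ[K] F) (x : F) :
    K1_E l u τ (algebraMap K F c * x) = algebraMap K F c * K1_E l u τ x := by
  unfold K1_E
  rw [Finset.mul_sum]
  refine Finset.sum_congr rfl fun i _ => ?_
  rw [map_mul, AlgEquiv.commutes]
  ring

theorem K1_comm (u : K) (τ ρ : F ≃ₐ[K] F) (hc : ρ * τ = τ * ρ) (x : F) :
    ρ (K1_E l u τ x) = K1_E l u τ (ρ x) := by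
  unfold K1_E
  rw [map_sum]
  refine Finset.sum_congr rfl fun i _ => ?_
  rw [map_mul, AlgEquiv.commutes]
  have h : ρ * τ ^ i = τ ^ i * ρ := (Commute.pow_right hc i)
  have h2 : ρ ((τ ^ i) x) = (ρ * τ ^ i) x := rfl
  rw [h2, h]
  rfl

theorem K1_sum (ζ : K) (hζ : ∀ i, 0 < i → i < l → ∑ j ∈ Finset.range l, (ζ ^ j) ^ i = 0) (τ : F ≃ₐ[K] F) (x : F) :
    ∑ j ∈ Finset.range l, K1_E l (ζ ^ j) τ x = (l : F) * x := by
  unfold K1_E
  rw [Finset.sum_comm]
  rcases Nat.eq_zero_or_pos l with h0 | h0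
  · subst h0
    simp
  rw [Finset.sum_eq_single 0]
  · simp
  · intro i hi hi0
    rw [← Finset.sum_mul, ← map_sum, hζ i (Nat.pos_of_ne_zero hi0) (Finset.mem_range.1 hi), map_zero, zero_mul]
  · intro h
    exact absurd (Finset.mem_range.2 h0) h

theorem K1_main (ζ : K) (hζl : ζ ^ l = 1) (hζ : ∀ i, 0 < i → i < l → ∑ j ∈ Finset.range l, (ζ ^ j) ^ i = 0)
    (hl : (l : F) ≠ 0) (hc : ∀ σ τ : F ≃ₐ[K] F, σ * τ = τ * σ) (he : ∀ σ : F ≃ₐ[K] F, σ ^ l = 1)
    (S : Finset (F ≃ₐ[K] F)) (σ : F ≃ₐ[K] F) (v : K) (x : F) (hx : x ≠ 0) (hv : algebraMap K F v * σ x = x) :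
    ∃ y : F, y ≠ 0 ∧ algebraMap K F v * σ y = y ∧
      ∀ τ ∈ S, ∃ u : K, u ^ l = 1 ∧ algebraMap K F u * τ y = y := by
  induction S using Finset.induction_on with
  | empty => exact ⟨x, hx, hv, by simp⟩
  | insert τ S _ ih =>
    obtain ⟨y, hy, hy1, hy2⟩ := ih
    have h1 : ∃ j ∈ Finset.range l, K1_E l (ζ ^ j) τ y ≠ 0 := by
      by_contra hcon
      push Not at hcon
      have h2 := K1_sum ζ hζ τ y
      rw [Finset.sum_eq_zero hcon] at h2
      exact mul_ne_zero hl hy h2.symm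
    obtain ⟨j, _, hj⟩ := h1
    have hz : (ζ ^ j) ^ l = 1 := by rw [← pow_mul, mul_comm, pow_mul, hζl, one_pow]
    have hk : ∀ (ρ : F ≃ₐ[K] F) (w : K), algebraMap K F w * ρ y = y →
        algebraMap K F w * ρ (K1_E l (ζ ^ j) τ y) = K1_E l (ζ ^ j) τ y := by
      intro ρ w hw
      rw [K1_comm _ τ ρ (hc ρ τ), ← K1_lin, hw]
    refine ⟨K1_E l (ζ ^ j) τ y, hj, hk σ v hy1, ?_⟩
    intro ρ hρ
    rcases Finset.mem_insert.1 hρ with h | h
    · subst h
      exact ⟨ζ ^ j, hz, K1_eig _ hz _ (he _) y⟩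
    · obtain ⟨u, hu, hu2⟩ := hy2 ρ h
      exact ⟨u, hu, hk ρ u hu2⟩

end

theorem K1_root {l : ℕ} (hl : l = 2 ∨ l = 3) : ∃ ζ : KK, ζ ^ l = 1 ∧
    (∀ i, 0 < i → i < l → ∑ j ∈ Finset.range l, (ζ ^ j) ^ i = 0) ∧ ∀ i, 0 < i → i < l → ζ ^ i ≠ 1 := by
  rcases hl with rfl | rfl
  · refine ⟨-1, by norm_num, ?_, ?_⟩
    · intro i h1 h2
      interval_cases i
      simp [Finset.sum_range_succ]
    · intro i h1 h2
      interval_cases i
      norm_num
  · have h0 : (jK om) ^ 2 + jK om + 1 = 0 := by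
      rw [← map_pow, ← map_one jK, ← map_add, ← map_add, show om ^ 2 + om + 1 = 0 by decide, map_zero]
    have h3 : (jK om) ^ 3 = 1 := by linear_combination (jK om - 1) * h0
    have hne : jK om ≠ 1 := by
      intro h
      rw [h] at h0
      norm_num at h0
    refine ⟨jK om, h3, ?_, ?_⟩
    · intro i h1 h2
      interval_cases i
      · simp only [Finset.sum_range_succ, Finset.range_zero, Finset.sum_empty]
        linear_combination h0
      · simp only [Finset.sum_range_succ, Finset.range_zero, Finset.sum_empty]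
        linear_combination h0 + (jK om) * h3
    · intro i h1 h2
      interval_cases i
      · rw [pow_one]
        exact hne
      · intro h
        rw [h] at h0
        have h4 : jK om = -2 := by linear_combination h0
        rw [h4] at h
        norm_num at h

theorem exists_eigen {F : Type} [Field F] [NumberField F] [Algebra KK F] {l : ℕ} (hl : l = 2 ∨ l = 3) (hG : IsGalois KK F)
    (hc : ∀ σ τ : F ≃ₐ[KK] F, σ * τ = τ * σ) (he : ∀ σ : F ≃ₐ[KK] F, σ ^ l = 1) (σ : F ≃ₐ[KK] F) (hσ : σ ≠ 1) :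
    ∃ (y : F) (a : KK), y ≠ 0 ∧ y ^ l = algebraMap KK F a ∧ σ y ≠ y := by
  obtain ⟨ζ, hζl, hζ, hζ1⟩ := K1_root hl
  have hl0 : l ≠ 0 := by rcases hl with rfl | rfl <;> norm_num
  have hlF : (l : F) ≠ 0 := by exact_mod_cast hl0
  have : FiniteDimensional KK F := by
    have h1 : IsScalarTower ℚ KK F := IsScalarTower.of_algebraMap_eq' (Subsingleton.elim _ _)
    exact FiniteDimensional.right ℚ KK F
  obtain ⟨z, hz⟩ : ∃ z, σ z ≠ z := by
    by_contra hcon
    push Not at hcon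
    exact hσ (AlgEquiv.ext hcon)
  have h1 : ∃ j, 0 < j ∧ j < l ∧ K1_E l (ζ ^ j) σ z ≠ 0 := by
    by_contra hcon
    push Not at hcon
    have h2 := K1_sum ζ hζ σ z
    rw [Finset.sum_eq_single 0 (fun j hj hj0 => hcon j (Nat.pos_of_ne_zero hj0) (Finset.mem_range.1 hj))
      (fun h => absurd (Finset.mem_range.2 (Nat.pos_of_ne_zero hl0)) h)] at h2
    have h3 := K1_eig (ζ ^ 0) (by rw [pow_zero, one_pow]) σ (he σ) z
    rw [h2, pow_zero, map_one, one_mul, map_mul, map_natCast] at h3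
    exact hz (mul_left_cancel₀ hlF h3)
  obtain ⟨j, hj0, hjl, hj⟩ := h1
  have hzj : (ζ ^ j) ^ l = 1 := by rw [← pow_mul, mul_comm, pow_mul, hζl, one_pow]
  obtain ⟨y, hy, hy1, hy2⟩ := K1_main ζ hζl hζ hlF hc he Finset.univ σ (ζ ^ j) _ hj
    (K1_eig _ hzj σ (he σ) z)
  have h4 : y ^ l ∈ (⊥ : IntermediateField KK F) := by
    rw [IsGalois.mem_bot_iff_fixed]
    intro τ
    obtain ⟨u, hu, hu2⟩ := hy2 τ (Finset.mem_univ _)
    have h5 : (algebraMap KK F u * τ y) ^ l = y ^ l := by rw [hu2]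
    rw [mul_pow, ← map_pow, hu, map_one, one_mul, ← map_pow] at h5
    exact h5
  obtain ⟨a, ha⟩ := IntermediateField.mem_bot.1 h4
  refine ⟨y, a, hy, ha.symm, ?_⟩
  intro h6
  rw [h6] at hy1
  have h7 : algebraMap KK F (ζ ^ j) = 1 := by
    apply mul_right_cancel₀ hy
    rw [hy1, one_mul]
  rw [← map_one (algebraMap KK F)] at h7
  exact hζ1 j hj0 hjl ((algebraMap KK F).injective h7)

end CX
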