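import Pool.Agent.CX.K1

/-!
# [CX-K2] Kummer theory: generators

PROOF. Induction: for every intermediate field `M ≠ ⊤` generated by `y_1, …, y_i` with `y_j^l ∈ KK` and `[M : KK] = l^i` there is `σ ≠ 1` fixing `M` (Galois correspondence, `IntermediateField.fixingSubgroup`), and `y` with `y^l ∈ KK`, `σ y ≠ y` (`exists_eigen`), so `y ∉ M`; `X^l - a` has no root in `M` (a root is `ζ y`, `ζ ∈ KK`), so it is irreducible over `M` (`X_pow_sub_C_irreducible_iff_of_prime`) and
`[M(y) : M] = l`. The degrees are bounded by `[F : KK]`, so we reach `⊤` (strong induction on `finrank KK F - l^i`). Normalisation: `a_i = y_i^l ∈ KK` is `d_i c_i^l` with `d_i ∈ Eis` not divisible by the `l`-th power of a prime, `c_i ∈ KK`: `a = x / z = x z^(l-1) / z^l`, and `Eis` is a unique factorisation domain (pull out maximal `l`-th powers: induction on the norm: if `q^l ∣ d` replace `d` by `d / q^l`);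
`δ_i = y_i / c_i`.
-/

set_option autoImplicit false

open NumberField IsDedekindDomain
open scoped Classical ComplexConjugate

namespace CX

open CM27 CMT NAB CF JD
open CU (la om eE)

theorem k2_free {l : ℕ} (hl : 0 < l) (d : Eis) (hd : d ≠ 0) : ∃ d' c : Eis, d = d' * c ^ l ∧ c ≠ 0 ∧ ∀ q : Eis, Prime q → ¬ q ^ l ∣ d' := by
  have hdom : IsDomain Eis := eis_isDomain
  have hpid : IsPrincipalIdealRing Eis := eis_pid
  induction d using (wellFounded_dvdNotUnit (α := Eis)).induction with
  | _ d ih =>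
    by_cases hq : ∃ q : Eis, Prime q ∧ q ^ l ∣ d
    · obtain ⟨q, hqp, e, he⟩ := hq
      have he0 : e ≠ 0 := by rintro rfl; exact hd (by rw [he, mul_zero])
      have hnu : ¬ IsUnit (q ^ l) := fun hu => hqp.not_isUnit ((isUnit_pow_iff hl.ne').mp hu)
      obtain ⟨d', c, h1, h2, h3⟩ := ih e ⟨he0, q ^ l, hnu, by rw [he, mul_comm]⟩ he0
      exact ⟨d', q * c, by rw [he, h1]; ring, mul_ne_zero hqp.ne_zero h2, h3⟩
    · push Not at hq
      exact ⟨d, 1, by ring, one_ne_zero, hq⟩

theorem k2_norm {l : ℕ} (hl : 0 < l) (a : KK) (ha : a ≠ 0) : ∃ (d : Eis) (c : KK), a = jK d * c ^ l ∧ c ≠ 0 ∧ d ≠ 0 ∧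
    ∀ q : Eis, Prime q → ¬ q ^ l ∣ d := by
  have hdom : IsDomain Eis := eis_isDomain
  obtain ⟨x, z, hz, hxz⟩ := IsFractionRing.div_surjective (A := 𝓞 KK) a
  have hz0 : z ≠ 0 := nonZeroDivisors.ne_zero hz
  obtain ⟨x', rfl⟩ := eE.surjective x
  obtain ⟨z', rfl⟩ := eE.surjective z
  have hz1 : z' ≠ 0 := by rintro rfl; exact hz0 (map_zero _)
  have hx1 : x' ≠ 0 := by
    rintro rfl
    apply ha
    rw [← hxz, map_zero, map_zero, zero_div]
  have h0 : x' * z' ^ (l - 1) ≠ 0 := mul_ne_zero hx1 (pow_ne_zero _ hz1)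
  obtain ⟨d', c, h1, h2, h3⟩ := k2_free hl _ h0
  have hd' : d' ≠ 0 := by rintro rfl; exact h0 (by rw [h1, zero_mul])
  have hjz : jK z' ≠ 0 := by
    rw [jK_apply]
    intro h
    apply hz0
    exact (map_eq_zero_iff _ (FaithfulSMul.algebraMap_injective (𝓞 KK) KK)).mp h
  have hjc : jK c ≠ 0 := by
    rw [jK_apply]
    intro h
    apply h2
    have := (map_eq_zero_iff _ (FaithfulSMul.algebraMap_injective (𝓞 KK) KK)).mp h
    exact (map_eq_zero_iff _ eE.injective).mp this
  refine ⟨d', jK c / jK z', ?_, div_ne_zero hjc hjz, hd', h3⟩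
  have e1 : a = jK x' / jK z' := by
    rw [← hxz, jK_apply, jK_apply]
  have e2 : jK x' * jK z' ^ (l - 1) = jK d' * jK c ^ l := by
    rw [← map_pow, ← map_mul, h1, map_mul, map_pow]
  have e3 : jK z' ^ l = jK z' ^ (l - 1) * jK z' := by
    rw [← pow_succ, Nat.sub_add_cancel hl]
  rw [e1, div_pow, ← mul_div_assoc, ← e2, e3, mul_comm (jK x'), mul_div_mul_left _ _ (pow_ne_zero _ hjz)]

theorem k2_step {F : Type} [Field F] [NumberField F] [Algebra KK F] {l : ℕ} (hl : l = 2 ∨ l = 3) (hG : IsGalois KK F)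
    (hc : ∀ σ τ : F ≃ₐ[KK] F, σ * τ = τ * σ) (he : ∀ σ : F ≃ₐ[KK] F, σ ^ l = 1)
    (n : ℕ) (y : Fin n → F) (hr : Module.finrank KK (IntermediateField.adjoin KK (Set.range y)) = l ^ n)
    (ht : IntermediateField.adjoin KK (Set.range y) ≠ ⊤) :
    ∃ (y' : F) (a : KK), y' ≠ 0 ∧ y' ^ l = algebraMap KK F a ∧
      Module.finrank KK (IntermediateField.adjoin KK (Set.range (Fin.snoc (α := fun _ => F) y y'))) = l ^ (n + 1) := by
  set M := IntermediateField.adjoin KK (Set.range y) with hM
  have hfs : M.fixingSubgroup ≠ ⊥ := by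
    intro h
    apply ht
    have := IsGalois.fixedField_fixingSubgroup M
    rw [h, IntermediateField.fixedField_bot] at this
    exact this.symm
  obtain ⟨⟨σ, hσ⟩, hs⟩ := Subgroup.ne_bot_iff_exists_ne_one.mp hfs
  have hσ1 : σ ≠ 1 := fun h => hs (Subtype.ext h)
  obtain ⟨y', a, hy0, hya, hσy⟩ := exists_eigen hl hG hc he σ hσ1
  refine ⟨y', a, hy0, hya, ?_⟩
  have hy'M : y' ∉ M := fun h => hσy ((IntermediateField.mem_fixingSubgroup_iff M σ).mp hσ y' h)
  have hlp : l.Prime := by rcases hl with rfl | rfl <;> norm_num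
  have hirr : Irreducible (Polynomial.X ^ l - Polynomial.C (algebraMap KK M a)) := by
    apply X_pow_sub_C_irreducible_of_prime hlp
    intro b hb
    have hb' : ((b : M) : F) ^ l = y' ^ l := by
      rw [hya]
      have := congrArg (algebraMap M F) hb
      rw [map_pow, ← IsScalarTower.algebraMap_apply KK M F] at this
      exact this
    have hb0 : ((b : M) : F) ≠ 0 := by
      intro h
      rw [h, zero_pow hlp.ne_zero] at hb'
      exact (pow_ne_zero l hy0) hb'.symm
    have h1 : (y' / (b : F)) ^ l = 1 := by rw [div_pow, hb', div_self (pow_ne_zero _ hy0)]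
    obtain ⟨z, hz, hz'⟩ := root_eis hl h1
    apply hy'M
    have : y' = jF F z * (b : F) := by rw [← hz']; field_simp
    rw [this, jF_apply]
    exact M.mul_mem (M.algebraMap_mem _) b.2
  have hmin : minpoly M y' = Polynomial.X ^ l - Polynomial.C (algebraMap KK M a) := by
    symm
    apply minpoly.eq_of_irreducible_of_monic hirr
    · rw [map_sub, map_pow, Polynomial.aeval_X, Polynomial.aeval_C, ← IsScalarTower.algebraMap_apply KK M F, hya, sub_self]
    · exact Polynomial.monic_X_pow_sub_C _ hlp.ne_zero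
  have hint : IsIntegral M y' := Algebra.IsIntegral.isIntegral y'
  have h2 : Module.finrank M (IntermediateField.adjoin M {y'}) = l := by
    rw [IntermediateField.adjoin.finrank hint, hmin, Polynomial.natDegree_X_pow_sub_C]
  have h3 : (IntermediateField.adjoin M {y'}).restrictScalars KK = IntermediateField.adjoin KK (Set.range (Fin.snoc (α := fun _ => F) y y')) := by
    rw [hM, IntermediateField.adjoin_adjoin_left, Fin.range_snoc, Set.union_singleton]
  have h4 := Module.finrank_mul_finrank KK M (IntermediateField.adjoin M {y'})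
  rw [hr, h2] at h4
  rw [← h3, pow_succ, h4]
  rfl

theorem k2_gen {F : Type} [Field F] [NumberField F] [Algebra KK F] {l : ℕ} (hl : l = 2 ∨ l = 3) (hG : IsGalois KK F)
    (hc : ∀ σ τ : F ≃ₐ[KK] F, σ * τ = τ * σ) (he : ∀ σ : F ≃ₐ[KK] F, σ ^ l = 1) (k : ℕ) :
    ∀ (n : ℕ) (y : Fin n → F), Module.finrank KK F ≤ n + k → (∀ i, y i ≠ 0 ∧ ∃ a : KK, y i ^ l = algebraMap KK F a) →
      Module.finrank KK (IntermediateField.adjoin KK (Set.range y)) = l ^ n →
      ∃ (n' : ℕ) (y' : Fin n' → F), (∀ i, y' i ≠ 0 ∧ ∃ a : KK, y' i ^ l = algebraMap KK F a) ∧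
        IntermediateField.adjoin KK (Set.range y') = ⊤ ∧ Module.finrank KK F = l ^ n' := by
  have hl1 : 1 < l := by rcases hl with rfl | rfl <;> norm_num
  induction k with
  | zero =>
    intro n y hk h1 h2
    by_cases ht : IntermediateField.adjoin KK (Set.range y) = ⊤
    · refine ⟨n, y, h1, ht, ?_⟩
      rw [ht, IntermediateField.finrank_top'] at h2
      exact h2
    · exfalso
      obtain ⟨y', a, -, -, h3⟩ := k2_step hl hG hc he n y h2 ht
      have h5 := Nat.lt_pow_self hl1 (n := n)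
      have h6 := Submodule.finrank_le (Subalgebra.toSubmodule (IntermediateField.adjoin KK (Set.range y)).toSubalgebra)
      have h7 : Module.finrank KK (IntermediateField.adjoin KK (Set.range y)) ≤ Module.finrank KK F := h6
      rw [h2] at h7
      omega
  | succ k ih =>
    intro n y hk h1 h2
    by_cases ht : IntermediateField.adjoin KK (Set.range y) = ⊤
    · refine ⟨n, y, h1, ht, ?_⟩
      rw [ht, IntermediateField.finrank_top'] at h2
      exact h2
    · obtain ⟨y', a, hy0, hya, h3⟩ := k2_step hl hG hc he n y h2 ht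
      refine ih (n + 1) (Fin.snoc (α := fun _ => F) y y') (by omega) ?_ h3
      intro i
      refine Fin.lastCases ?_ (fun j => ?_) i
      · rw [Fin.snoc_last]
        exact ⟨hy0, a, hya⟩
      · rw [Fin.snoc_castSucc]
        exact h1 j

theorem exists_kum {F : Type} [Field F] [NumberField F] [Algebra KK F] {l : ℕ} (hl : l = 2 ∨ l = 3) (hG : IsGalois KK F)
    (hc : ∀ σ τ : F ≃ₐ[KK] F, σ * τ = τ * σ) (he : ∀ σ : F ≃ₐ[KK] F, σ ^ l = 1) :
    ∃ (n : ℕ) (d : Fin n → Eis) (δ : Fin n → F), Kum l n d δ ∧ ∀ i, ∀ q : Eis, Prime q → ¬ q ^ l ∣ d i := by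
  have hl0 : 0 < l := by rcases hl with rfl | rfl <;> norm_num
  obtain ⟨n, y, h1, h2, h3⟩ := k2_gen hl hG hc he (Module.finrank KK F) 0 (fun i => i.elim0) (by omega) (fun i => i.elim0)
    (by
      have : Set.range (fun i : Fin 0 => (i.elim0 : F)) = ∅ := Set.range_eq_empty _
      rw [this, IntermediateField.adjoin_empty, IntermediateField.finrank_bot, pow_zero])
  choose hy0 a ha using h1
  have ha0 : ∀ i, a i ≠ 0 := by
    intro i h
    have := ha i
    rw [h, map_zero] at this
    exact hy0 i (pow_eq_zero_iff hl0.ne' |>.mp this)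
  have hn := fun i => k2_norm hl0 (a i) (ha0 i)
  choose d c hdc hc0 hd0 hq using hn
  have hcF : ∀ i, algebraMap KK F (c i) ≠ 0 := fun i h => hc0 i ((map_eq_zero_iff _ (algebraMap KK F).injective).mp h)
  refine ⟨n, d, fun i => y i / algebraMap KK F (c i), ⟨?_, hd0, ?_, h3⟩, hq⟩
  · intro i
    rw [div_pow, ha i, hdc i, map_mul, map_pow, mul_div_assoc, div_self (pow_ne_zero _ (hcF i)), mul_one, jF_apply]
  · rw [eq_top_iff, ← h2, IntermediateField.adjoin_le_iff]
    rintro _ ⟨i, rfl⟩
    have e1 : y i = (y i / algebraMap KK F (c i)) * algebraMap KK F (c i) := by field_simp [hcF i]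
    rw [e1]
    refine mul_mem (IntermediateField.subset_adjoin _ _ ⟨i, rfl⟩) (IntermediateField.algebraMap_mem _ _)

end CX
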