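import Pool.Agent.CX.L6
import Pool.Agent.CX.L7c

/-!
# [CX-K3a] ramified and split primes of a Kummer extension

PROOF. `kum_ramified`: `efg` (`kum_galois`): `e`; `v ∋ eE (d_i)`, `v = (q)`, `q ∣ d_i`, `q^l ∤ d_i`: `od v (d_i) = -a`, `1 ≤ a < l`; `l od w (δ_i) = e od v (d_i)` (`hK.pow`), so `l ∣ e`, `e ≥ 2`, any `w` over `v` (`NAB.exists_above`). `kum_split`: `efg`: `g = finrank`, so `e = f = 1`, so no `v.map ≤ P²` (then `und KK P = v` by maximality); `JD.exists_Below w` for a `w` over `v` gives `φ`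
(the place `v'` there is `und KK w = v`: `tr_und` of row T2, or repeat the short argument), and `e = f = 1` implies that `φ` is surjective (helper45's file CXS.S7 has this), or directly: for `a ∈ 𝓞 F` and every `j` there is `b ∈ 𝓞 KK` with `a ≡ b mod w^j` (induction on `j`: residue fields equal, a uniformiser of `v` is one of `w`), so `δ_i ∈ 𝓞 F` is a limit of elements of `𝓞 KK`, `φ(K_v)` is closed; `δ_i = φ(c)`, `c^l = d_i`
(`h.comm`, injectivity of `φ`).
-/

set_option autoImplicit false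

open NumberField IsDedekindDomain
open scoped Classical ComplexConjugate

namespace CX

open CM27 CMT NAB CF JD
open CU (la om eE)

theorem k3a_isAdic (F : Type) [Field F] [NumberField F] (v : HeightOneSpectrum (𝓞 F)) : IsAdic (IsLocalRing.maximalIdeal (v.adicCompletionIntegers F)) := by
  set O := v.adicCompletionIntegers F with hO
  have hint : (Valued.v : Valuation (v.adicCompletion F) _).Integers O :=
    Valuation.valuationSubring.integers _
  obtain ⟨ϖ, hϖ⟩ := IsDiscreteValuationRing.exists_irreducible O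
  have hm : IsLocalRing.maximalIdeal O = Ideal.span {ϖ} := hϖ.maximalIdeal_eq
  have hpow : ∀ n, (IsLocalRing.maximalIdeal O) ^ n = Ideal.span {ϖ ^ n} := by
    intro n
    rw [hm, Ideal.span_singleton_pow]
  have hϖ0 : (Valued.v ((ϖ : O) : v.adicCompletion F)) ≠ 0 := by
    rw [Valuation.ne_zero_iff]
    intro h
    exact hϖ.ne_zero (Subtype.ext h)
  rw [isAdic_iff]
  constructor
  · intro n
    have h0 : ((IsLocalRing.maximalIdeal O ^ n : Ideal O) : Set O) ∈ nhds (0 : O) := by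
      rw [nhds_subtype_eq_comap]
      refine Filter.mem_comap.2 ⟨{x | Valued.v x < Valued.v (((ϖ ^ n : O)) : v.adicCompletion F)},
        ?_, ?_⟩
      · rw [ZeroMemClass.coe_zero, Valued.mem_nhds_zero]
        refine ⟨Units.mk0 (Valued.v.restrict (((ϖ ^ n : O)) : v.adicCompletion F)) ?_, ?_⟩
        · rw [Ne, Valuation.restrict_eq_zero_iff]
          have : (((ϖ ^ n : O)) : v.adicCompletion F) = ((ϖ : O) : v.adicCompletion F) ^ n := rfl
          rw [this, map_pow]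
          exact pow_ne_zero _ hϖ0
        · intro x hx
          exact (Valuation.restrict_lt_iff _).1 hx
      · intro x hx
        rw [hpow, SetLike.mem_coe, Ideal.mem_span_singleton]
        exact (hint.dvd_iff_le).2 (le_of_lt hx)
    exact ((IsLocalRing.maximalIdeal O ^ n : Ideal O).toAddSubgroup).isOpen_of_mem_nhds h0
  · intro s hs
    rw [nhds_subtype_eq_comap] at hs
    obtain ⟨t, ht, hts⟩ := Filter.mem_comap.1 hs
    rw [ZeroMemClass.coe_zero, Valued.mem_nhds_zero] at ht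
    obtain ⟨γ, hγ⟩ := ht
    have hϖ1 : Valued.v ((ϖ : O) : v.adicCompletion F) < 1 := by
      have h1 : ϖ ∈ IsLocalRing.maximalIdeal O := by
        rw [hm]; exact Ideal.mem_span_singleton_self ϖ
      exact (Valuation.mem_maximalIdeal_iff _ _).1 h1
    obtain ⟨n, hn⟩ := exists_pow_lt₀ hϖ1
      (Units.mk0 (MonoidWithZeroHom.ValueGroup₀.embedding γ.1)
        (by
          intro h
          exact γ.ne_zero (MonoidWithZeroHom.ValueGroup₀.embedding_injective
            (h.trans (map_zero _).symm))))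
    refine ⟨n, fun y hy => hts (hγ ?_)⟩
    rw [hpow, SetLike.mem_coe, Ideal.mem_span_singleton] at hy
    show Valued.v.restrict ((y : O) : v.adicCompletion F) < γ.1
    rw [Valuation.restrict_lt_iff_lt_embedding]
    refine lt_of_le_of_lt ((hint.dvd_iff_le).1 hy) ?_
    have : ((algebraMap O (v.adicCompletion F)) (ϖ ^ n)) = ((ϖ : O) : v.adicCompletion F) ^ n := rfl
    rw [this, map_pow]
    exact hn

theorem k3a_complete (v : HeightOneSpectrum (𝓞 KK)) :
    IsAdicComplete (IsLocalRing.maximalIdeal (v.adicCompletionIntegers KK)) (v.adicCompletionIntegers KK) := by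
  have h1 : CompleteSpace (v.adicCompletionIntegers KK) := by
    have : IsClosed ((v.adicCompletionIntegers KK : Set (v.adicCompletion KK))) :=
      Valued.isClosed_valuationSubring _
    exact this.completeSpace_coe
  exact (k3a_isAdic KK v).isAdicComplete_iff.2 ⟨h1, inferInstance⟩

theorem k3a_root (v : HeightOneSpectrum (𝓞 KK)) (l : ℕ) (d : 𝓞 KK) (b : ℕ → 𝓞 KK) (h1 : ∀ j, b (j + 1) - b j ∈ v.asIdeal ^ j)
    (h2 : ∀ j, b j ^ l - d ∈ v.asIdeal ^ j) :
    ∃ c : v.adicCompletion KK, c ^ l = algebraMap KK (v.adicCompletion KK) (d : KK) := by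
  set O := v.adicCompletionIntegers KK with hO
  set I := IsLocalRing.maximalIdeal O with hI
  have hcomp : IsAdicComplete I O := k3a_complete v
  have hmap : ∀ x : 𝓞 KK, x ∈ v.asIdeal → algebraMap (𝓞 KK) O x ∈ I := by
    intro x hx
    refine (Valuation.mem_maximalIdeal_iff _ _).2 ?_
    have h3 := HeightOneSpectrum.valuedAdicCompletion_eq_valuation' (K := KK) v (x : KK)
    refine lt_of_eq_of_lt h3 ?_
    exact (val_lt_iff x v).2 hx
  have hmapI : v.asIdeal.map (algebraMap (𝓞 KK) O) ≤ I := Ideal.map_le_iff_le_comap.2 hmap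
  have hpow : ∀ (j : ℕ) (x : 𝓞 KK), x ∈ v.asIdeal ^ j → algebraMap (𝓞 KK) O x ∈ I ^ j := by
    intro j x hx
    have h3 : algebraMap (𝓞 KK) O x ∈ (v.asIdeal ^ j).map (algebraMap (𝓞 KK) O) := Ideal.mem_map_of_mem _ hx
    rw [Ideal.map_pow] at h3
    exact Ideal.pow_right_mono hmapI j h3
  have hdiff : ∀ m k : ℕ, b (m + k) - b m ∈ v.asIdeal ^ m := by
    intro m k
    induction k with
    | zero => rw [add_zero, sub_self]; exact Ideal.zero_mem _
    | succ k ih =>
      have e : b (m + (k + 1)) - b m = (b (m + k + 1) - b (m + k)) + (b (m + k) - b m) := by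
        rw [← add_assoc]; ring
      rw [e]
      exact Ideal.add_mem _ (Ideal.pow_le_pow_right (Nat.le_add_right m k) (h1 (m + k))) ih
  obtain ⟨L, hL⟩ := IsPrecomplete.prec (I := I) (M := O) inferInstance (f := fun j => algebraMap (𝓞 KK) O (b j)) (by
    intro m n hmn
    obtain ⟨k, rfl⟩ := Nat.exists_eq_add_of_le hmn
    refine SModEq.symm (SModEq.sub_mem.2 ?_)
    rw [smul_eq_mul, Ideal.mul_top, ← map_sub]
    exact hpow m _ (hdiff m k))
  have hL2 : L ^ l = algebraMap (𝓞 KK) O d := by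
    rw [← sub_eq_zero]
    apply IsHausdorff.haus (I := I) (M := O) inferInstance
    intro n
    refine SModEq.sub_mem.2 ?_
    rw [smul_eq_mul, Ideal.mul_top, sub_zero]
    have h3 := SModEq.sub_mem.1 (hL n)
    rw [smul_eq_mul, Ideal.mul_top] at h3
    have h4 : (algebraMap (𝓞 KK) O (b n)) ^ l - L ^ l ∈ I ^ n := by
      obtain ⟨c, hc⟩ := sub_dvd_pow_sub_pow (algebraMap (𝓞 KK) O (b n)) L l
      rw [hc]
      exact Ideal.mul_mem_right _ _ h3
    have h5 : (algebraMap (𝓞 KK) O (b n)) ^ l - algebraMap (𝓞 KK) O d ∈ I ^ n := by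
      rw [← map_pow, ← map_sub]
      exact hpow n _ (h2 n)
    have h6 := Ideal.sub_mem _ h5 h4
    have e : (algebraMap (𝓞 KK) O (b n)) ^ l - algebraMap (𝓞 KK) O d - ((algebraMap (𝓞 KK) O (b n)) ^ l - L ^ l) =
      L ^ l - algebraMap (𝓞 KK) O d := by ring
    rwa [e] at h6
  exact ⟨(L : v.adicCompletion KK), congrArg (fun x : O => (x : v.adicCompletion KK)) hL2⟩

theorem k3a_mem {k : Type} [Field k] [NumberField k] (v : HeightOneSpectrum (𝓞 k)) {x : 𝓞 k} (hx : x ≠ 0) (j : ℕ) :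
    x ∈ v.asIdeal ^ j ↔ TWR.od v (x : k) ≤ -(j : ℤ) := by
  rw [← HeightOneSpectrum.intValuation_le_pow_iff_mem, ← HeightOneSpectrum.valuation_of_algebraMap (K := k),
    TWR.val_eq_exp v (RingOfIntegers.coe_ne_zero_iff.2 hx), WithZero.exp_le_exp]

theorem k3a_coe {F : Type} [Field F] [NumberField F] [Algebra KK F] (x : 𝓞 KK) :
    ((algebraMap (𝓞 KK) (𝓞 F) x : 𝓞 F) : F) = algebraMap KK F (x : KK) :=
  ((IsScalarTower.algebraMap_apply (𝓞 KK) KK F x).symm.trans (IsScalarTower.algebraMap_apply (𝓞 KK) (𝓞 F) F x)).symm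

theorem k3a_und_mem {F : Type} [Field F] [NumberField F] [Algebra KK F] (w : HeightOneSpectrum (𝓞 F))
    (he : ∀ x : KK, x ≠ 0 → TWR.od w (algebraMap KK F x) = TWR.od (und KK w) x) (x : 𝓞 KK) (j : ℕ) :
    algebraMap (𝓞 KK) (𝓞 F) x ∈ w.asIdeal ^ j ↔ x ∈ (und KK w).asIdeal ^ j := by
  by_cases hx : x = 0
  · rw [hx, map_zero]
    exact ⟨fun _ => Ideal.zero_mem _, fun _ => Ideal.zero_mem _⟩
  · have h1 : algebraMap (𝓞 KK) (𝓞 F) x ≠ 0 := fun h => hx ((map_eq_zero_iff _ (FaithfulSMul.algebraMap_injective (𝓞 KK) (𝓞 F))).mp h)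
    rw [k3a_mem w h1, k3a_mem _ hx, k3a_coe, he _ (RingOfIntegers.coe_ne_zero_iff.2 hx)]

theorem k3a_res {F : Type} [Field F] [NumberField F] [Algebra KK F] (w : HeightOneSpectrum (𝓞 F))
    (hf : TH.nv w = TH.nv (und KK w)) (c : 𝓞 F) : ∃ b : 𝓞 KK, c - algebraMap (𝓞 KK) (𝓞 F) b ∈ w.asIdeal := by
  have hle : (und KK w).asIdeal ≤ w.asIdeal.comap (algebraMap (𝓞 KK) (𝓞 F)) := fun x hx => hx
  set φ := Ideal.quotientMap w.asIdeal (algebraMap (𝓞 KK) (𝓞 F)) hle with hφ
  have hinj : Function.Injective φ := Ideal.quotientMap_injective' (fun x hx => hx)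
  have hfin : Finite (𝓞 F ⧸ w.asIdeal) := Ideal.finiteQuotientOfFreeOfNeBot _ w.ne_bot
  have hbij := Function.Injective.bijective_of_nat_card_le hinj (le_of_eq hf)
  obtain ⟨β, hβ⟩ := hbij.2 (Ideal.Quotient.mk w.asIdeal c)
  obtain ⟨b, rfl⟩ := Ideal.Quotient.mk_surjective β
  rw [hφ, Ideal.quotientMap_mk] at hβ
  exact ⟨b, Ideal.Quotient.eq.mp hβ.symm⟩

theorem k3a_dense {F : Type} [Field F] [NumberField F] [Algebra KK F] (w : HeightOneSpectrum (𝓞 F))
    (he : ∀ x : KK, x ≠ 0 → TWR.od w (algebraMap KK F x) = TWR.od (und KK w) x)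
    (hf : TH.nv w = TH.nv (und KK w)) (a : 𝓞 F) (j : ℕ) : ∃ b : 𝓞 KK, a - algebraMap (𝓞 KK) (𝓞 F) b ∈ w.asIdeal ^ j := by
  induction j with
  | zero => exact ⟨0, by rw [pow_zero, Ideal.one_eq_top]; exact Submodule.mem_top⟩
  | succ j ih =>
    obtain ⟨b, hb⟩ := ih
    obtain ⟨ϖ, hϖ⟩ := (und KK w).intValuation_exists_uniformizer
    have hϖ0 : ϖ ≠ 0 := by
      rintro rfl
      rw [map_zero] at hϖ
      exact WithZero.exp_ne_zero hϖ.symm
    have hod : ∀ i : ℕ, (ϖ ^ j ∈ (und KK w).asIdeal ^ i ↔ i ≤ j) := by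
      intro i
      rw [k3a_mem _ (pow_ne_zero _ hϖ0)]
      have h1 : TWR.od (und KK w) (((ϖ ^ j : 𝓞 KK) : 𝓞 KK) : KK) = -(j : ℤ) := by
        have h2 : (((ϖ ^ j : 𝓞 KK) : 𝓞 KK) : KK) = (ϖ : KK) ^ j := rfl
        have h3 : TWR.od (und KK w) (ϖ : KK) = -1 := by
          rw [TWR.od, HeightOneSpectrum.valuation_of_algebraMap, hϖ, WithZero.log_exp]
        rw [h2, TWR.od_pow, h3]
        ring
      rw [h1]
      omega
    have h1 : algebraMap (𝓞 KK) (𝓞 F) (ϖ ^ j) ∈ w.asIdeal ^ j := (k3a_und_mem w he _ _).2 ((hod j).2 le_rfl)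
    have h2 : algebraMap (𝓞 KK) (𝓞 F) (ϖ ^ j) ∉ w.asIdeal ^ (j + 1) := fun h =>
      absurd ((hod (j + 1)).1 ((k3a_und_mem w he _ _).1 h)) (by omega)
    obtain ⟨c, r, hr, hc⟩ := Ideal.exists_mul_add_mem_pow_succ w.ne_bot _ _ h1 h2 hb
    obtain ⟨b', hb'⟩ := k3a_res w hf c
    refine ⟨b + ϖ ^ j * b', ?_⟩
    have e : a - algebraMap (𝓞 KK) (𝓞 F) (b + ϖ ^ j * b') =
        r + algebraMap (𝓞 KK) (𝓞 F) (ϖ ^ j) * (c - algebraMap (𝓞 KK) (𝓞 F) b') := by
      rw [map_add, map_mul]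
      linear_combination -hc
    rw [e]
    refine Ideal.add_mem _ hr ?_
    rw [pow_succ]
    exact Ideal.mul_mem_mul h1 hb'

/-- the prime below is determined -/
theorem k3a_und {F : Type} [Field F] [NumberField F] [Algebra KK F] (v : HeightOneSpectrum (𝓞 KK)) (P : HeightOneSpectrum (𝓞 F))
    (h : v.asIdeal.map (algebraMap (𝓞 KK) (𝓞 F)) ≤ P.asIdeal ^ 2) : und KK P = v := by
  apply HeightOneSpectrum.ext
  have h1 : v.asIdeal ≤ (und KK P).asIdeal := by
    intro x hx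
    rw [mem_und]
    exact Ideal.pow_le_self two_ne_zero (h (Ideal.mem_map_of_mem _ hx))
  exact (v.isMaximal.eq_of_le (und KK P).isPrime.ne_top h1).symm

section
variable {F : Type} [Field F] [NumberField F] [Algebra KK F] {l n : ℕ} {d : Fin n → Eis} {δ : Fin n → F} (hl : l = 2 ∨ l = 3) (hK : Kum l n d δ)
include hl hK

theorem kum_ramified (hf : ∀ i, ∀ q : Eis, Prime q → ¬ q ^ l ∣ d i) (v : HeightOneSpectrum (𝓞 KK)) (i : Fin n) (hv : eE (d i) ∈ v.asIdeal) :
    ∃ P : HeightOneSpectrum (𝓞 F), v.asIdeal.map (algebraMap (𝓞 KK) (𝓞 F)) ≤ P.asIdeal ^ 2 := by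
  have hdom : IsDomain Eis := eis_isDomain
  have hpid : IsPrincipalIdealRing Eis := eis_pid
  have hlp : l.Prime := by rcases hl with rfl | rfl <;> norm_num
  have hgal := kum_galois hl hK
  obtain ⟨e, f, g, he0, -, -, -, -, -, hw⟩ := efg (F := F) v
  obtain ⟨w, hwv⟩ := NAB.exists_above (k := KK) (F := F) v
  obtain ⟨-, hod, hram, -⟩ := hw w hwv
  refine ⟨w, hram.2 ?_⟩
  have hdi := hK.ne i
  have hdi' : eE (d i) ≠ 0 := fun h => hdi ((map_eq_zero_iff _ eE.injective).mp h)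
  have hjK : jK (d i) ≠ 0 := by
    rw [jK_apply]
    exact RingOfIntegers.coe_ne_zero_iff.2 hdi'
  -- the order of `d i`
  obtain ⟨q, hq, hvq⟩ : ∃ q : Eis, Prime q ∧ v.asIdeal = Ideal.span {eE q} := CU.gen v
  have h1 : TWR.od v (jK (d i)) ≤ -1 := by
    have := (k3a_mem v hdi' 1).1 (by rw [pow_one]; exact hv)
    rw [jK_apply]
    exact_mod_cast this
  have h2 : ¬ TWR.od v (jK (d i)) ≤ -(l : ℤ) := by
    intro h
    rw [jK_apply] at h
    have h3 := (k3a_mem v hdi' l).2 h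
    rw [hvq, Ideal.span_singleton_pow, Ideal.mem_span_singleton, ← map_pow] at h3
    obtain ⟨c, hc⟩ := h3
    obtain ⟨c', rfl⟩ := eE.surjective c
    rw [← map_mul] at hc
    exact hf i q hq ⟨c', eE.injective hc⟩
  have h3 : (l : ℤ) ∣ (e : ℤ) * TWR.od v (jK (d i)) := by
    rw [← hod _ hjK, ← jF_apply, ← hK.pow i, TWR.od_pow]
    exact dvd_mul_right _ _
  rcases (Nat.prime_iff_prime_int.mp hlp).dvd_or_dvd h3 with h4 | h4
  · have h5 : l ∣ e := Int.natCast_dvd_natCast.mp h4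
    exact hlp.two_le.trans (Nat.le_of_dvd he0 h5)
  · exfalso
    obtain ⟨c, hc⟩ := h4
    have hl0 : (0 : ℤ) < l := by exact_mod_cast hlp.pos
    have h5 : c < 0 := by
      by_contra h6
      push Not at h6
      have := mul_nonneg hl0.le h6
      omega
    apply h2
    rw [hc]
    nlinarith

theorem kum_split (v : HeightOneSpectrum (𝓞 KK)) (hv : (v.asIdeal.primesOver (𝓞 F)).ncard = Module.finrank KK F) (i : Fin n) :
    (¬ ∃ P : HeightOneSpectrum (𝓞 F), v.asIdeal.map (algebraMap (𝓞 KK) (𝓞 F)) ≤ P.asIdeal ^ 2) ∧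
    ∃ c : v.adicCompletion KK, c ^ l = algebraMap KK (v.adicCompletion KK) (jK (d i)) := by
  have hl0 : 0 < l := by rcases hl with rfl | rfl <;> norm_num
  have hgal := kum_galois hl hK
  obtain ⟨e, f, g, he0, hf0, hg0, hefg, -, hg, hw⟩ := efg (F := F) v
  have h1 : e * f = 1 := by
    have h2 : g * (e * f) = g * 1 := by rw [hefg, mul_one, ← hv, hg]
    exact Nat.eq_of_mul_eq_mul_left hg0 h2
  have he1 : e = 1 := Nat.eq_one_of_mul_eq_one_right h1
  have hf1 : f = 1 := Nat.eq_one_of_mul_eq_one_left h1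
  subst he1 hf1
  constructor
  · rintro ⟨P, hP⟩
    have h2 := (hw P (k3a_und v P hP)).2.2.1.1 hP
    omega
  · obtain ⟨w, rfl⟩ := NAB.exists_above (k := KK) (F := F) v
    obtain ⟨hnv, hod, -, -⟩ := hw w rfl
    rw [pow_one] at hnv
    have hod' : ∀ x : KK, x ≠ 0 → TWR.od w (algebraMap KK F x) = TWR.od (und KK w) x := by
      intro x hx
      rw [hod x hx]
      push_cast
      ring
    have hint : IsIntegral ℤ (δ i) := by
      apply IsIntegral.of_pow hl0
      rw [hK.pow i, ← eO_coe]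
      exact RingOfIntegers.isIntegral_coe _
    obtain ⟨a, ha⟩ : ∃ a : 𝓞 F, (a : F) = δ i := ⟨⟨_, hint⟩, rfl⟩
    have ha2 : a ^ l = algebraMap (𝓞 KK) (𝓞 F) (eE (d i)) := by
      apply RingOfIntegers.ext
      change (a : F) ^ l = _
      rw [ha, hK.pow i, k3a_coe, jF_apply, jK_apply]
    choose b hb using fun j => k3a_dense w hod' hnv a j
    obtain ⟨c, hc⟩ := k3a_root (und KK w) l (eE (d i)) b (by
      intro j
      rw [← k3a_und_mem w hod', map_sub]
      have h3 := Ideal.sub_mem _ (hb j) (Ideal.pow_le_pow_right (Nat.le_succ j) (hb (j + 1)))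
      have e : a - algebraMap (𝓞 KK) (𝓞 F) (b j) - (a - algebraMap (𝓞 KK) (𝓞 F) (b (j + 1))) =
        algebraMap (𝓞 KK) (𝓞 F) (b (j + 1)) - algebraMap (𝓞 KK) (𝓞 F) (b j) := by ring
      rwa [e] at h3) (by
      intro j
      rw [← k3a_und_mem w hod', map_sub, map_pow, ← ha2]
      obtain ⟨c, hc⟩ := sub_dvd_pow_sub_pow a (algebraMap (𝓞 KK) (𝓞 F) (b j)) l
      have h4 : a ^ l - algebraMap (𝓞 KK) (𝓞 F) (b j) ^ l ∈ w.asIdeal ^ j := by
        rw [hc]
        exact Ideal.mul_mem_right _ _ (hb j)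
      have h5 := (w.asIdeal ^ j).neg_mem h4
      rwa [neg_sub] at h5)
    exact ⟨c, by rw [hc, jK_apply]⟩
end

end CX
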