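import Pool.Agent.CX.Defs

/-!
# [CX-M2] points of order 2 and 3

PROOF. `L` has characteristic 0, `o² + o + 1 = 0`. `l = 2`, `m = 3`: `2 P = 0`, `P = (x, y) ≠ 0` iff `y = 0` iff `x³ = -D` (`WeierstrassCurve.Affine.Point`: `P = -P`); `D = (-x)³`, and from `D = c³` the point `(-c, 0)`. `l = 3`, `m = 2`: `3 P = 0` iff `2 P = - P` iff (duplication: `x(2P) = x`) `x (x³ + 4 D) = 0`; `x = 0`: `y² = D`; `x³ = -4 D`: `y² = -3 D`, `-3 = (2 o + 1)²`, so `D = (y / (2 o + 1))²`.
Conversely `D = c²`: the point `(0, c)` has order 3 (tangent of slope 0). The library has these facts: `JT.NoTwo`, JT/FT.lean, JT/P*.lean (`2 P = 0`), `JG.clG_iff`/JGL (`3 P = 0`), `JD.Z*`, CU/C10c.lean; `JT.cl2_iff`, `JGL.clG_iff` use `noTwo`/`noThree` lemmas which can be copied for a general field.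
-/

set_option autoImplicit false

open NumberField IsDedekindDomain
open scoped Classical ComplexConjugate

namespace CX

open CM27 CMT NAB CF JD
open CU (la om eE)

private theorem M2_negY {L : Type} [Field L] (D x y : L) : (ED D).toAffine.negY x y = -y := by
  simp [WeierstrassCurve.Affine.negY, ED]

private theorem M2_two {L : Type} [Field L] [CharZero L] {D : L} (hD : D ≠ 0) :
    (∀ P : (ED D).toAffine.Point, 2 • P = 0 → P = 0) ↔ ∀ x : L, x ^ 3 ≠ D := by
  constructor
  · intro h x hx
    have hns : (ED D).toAffine.Nonsingular (-x) 0 := by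
      rw [ED_nonsingular two_ne_zero three_ne_zero hD, ← hx]
      ring
    have h1 := h (WeierstrassCurve.Affine.Point.some _ _ hns) (by
      rw [two_nsmul]
      apply WeierstrassCurve.Affine.Point.add_self_of_Y_eq
      rw [M2_negY, neg_zero])
    exact WeierstrassCurve.Affine.Point.some_ne_zero _ h1
  · intro h P hP
    rcases P with _ | ⟨x, y, hns⟩
    · rfl
    · exfalso
      rw [two_nsmul] at hP
      by_cases hy : y = (ED D).toAffine.negY x y
      · rw [M2_negY] at hy
        have hy0 : y = 0 := by
          have : (2 : L) * y = 0 := by linear_combination hy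
          exact (mul_eq_zero.1 this).resolve_left two_ne_zero
        have h2 := (ED_nonsingular two_ne_zero three_ne_zero hD x y).1 hns
        apply h (-x)
        rw [hy0] at h2
        linear_combination h2
      · rw [WeierstrassCurve.Affine.Point.add_self_of_Y_ne hy] at hP
        exact WeierstrassCurve.Affine.Point.some_ne_zero _ hP

private theorem M2_three {L : Type} [Field L] [CharZero L] {D : L} (hD : D ≠ 0)
    (ho : ∃ o : L, o ^ 2 + o + 1 = 0) :
    (∀ P : (ED D).toAffine.Point, 3 • P = 0 → P = 0) ↔ ∀ x : L, x ^ 2 ≠ D := by
  constructor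
  · intro h c hc
    have hc0 : c ≠ 0 := by
      rintro rfl
      apply hD
      rw [← hc]
      ring
    have hns : (ED D).toAffine.Nonsingular 0 c := by
      rw [ED_nonsingular two_ne_zero three_ne_zero hD, ← hc]
      ring
    have hy : c ≠ (ED D).toAffine.negY 0 c := by
      rw [M2_negY]
      intro h1
      apply hc0
      have : (2 : L) * c = 0 := by linear_combination h1
      exact (mul_eq_zero.1 this).resolve_left two_ne_zero
    have h1 := h (WeierstrassCurve.Affine.Point.some _ _ hns) (by
      have e : 3 • (WeierstrassCurve.Affine.Point.some _ _ hns) =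
          (WeierstrassCurve.Affine.Point.some _ _ hns) + (WeierstrassCurve.Affine.Point.some _ _ hns) +
            (WeierstrassCurve.Affine.Point.some _ _ hns) := by
        rw [succ_nsmul, two_nsmul]
      rw [e, WeierstrassCurve.Affine.Point.add_self_of_Y_ne hy]
      have hs : (ED D).toAffine.slope 0 0 c c = 0 := by
        rw [WeierstrassCurve.Affine.slope_of_Y_ne rfl hy]
        simp [ED]
      apply WeierstrassCurve.Affine.Point.add_of_Y_eq
      · rw [hs]
        simp [WeierstrassCurve.Affine.addX, ED]
      · rw [hs]
        simp [WeierstrassCurve.Affine.addY, WeierstrassCurve.Affine.negAddY,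
          WeierstrassCurve.Affine.addX, WeierstrassCurve.Affine.negY, ED])
    exact WeierstrassCurve.Affine.Point.some_ne_zero _ h1
  · intro h P hP
    obtain ⟨o, ho⟩ := ho
    rcases P with _ | ⟨x, y, hns⟩
    · rfl
    · exfalso
      have hyx := (ED_nonsingular two_ne_zero three_ne_zero hD x y).1 hns
      have e : (WeierstrassCurve.Affine.Point.some _ _ hns) + (WeierstrassCurve.Affine.Point.some _ _ hns) =
          -(WeierstrassCurve.Affine.Point.some _ _ hns) := by
        rw [succ_nsmul, two_nsmul] at hP
        exact eq_neg_of_add_eq_zero_left hP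
      by_cases hy : y = (ED D).toAffine.negY x y
      · rw [WeierstrassCurve.Affine.Point.add_self_of_Y_eq hy] at e
        have e2 := neg_eq_zero.1 e.symm
        exact WeierstrassCurve.Affine.Point.some_ne_zero _ e2
      · rw [WeierstrassCurve.Affine.Point.add_self_of_Y_ne hy,
          WeierstrassCurve.Affine.Point.neg_some] at e
        have e1 := (WeierstrassCurve.Affine.Point.some.injEq _ _ _ _ _ _).mp e
        have hx := e1.1
        have hy' : y - -y ≠ 0 := by
          rw [M2_negY] at hy
          exact sub_ne_zero.2 hy
        have hy0 : y ≠ 0 := by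
          rintro rfl
          apply hy'
          ring
        rw [WeierstrassCurve.Affine.slope_of_Y_ne rfl hy] at hx
        simp only [WeierstrassCurve.Affine.addX, M2_negY] at hx
        simp only [ED] at hx
        have h3 : x * (x ^ 3 + 4 * D) = 0 := by
          have h4 : (3 * x ^ 2) ^ 2 = 3 * x * (y - -y) ^ 2 := by
            field_simp at hx
            linear_combination hx
          have h5 : 9 * x ^ 4 = 12 * x * (x ^ 3 + D) := by
            rw [← hyx]
            linear_combination h4
          have h6 : (3 : L) * (x * (x ^ 3 + 4 * D)) = 0 := by linear_combination -h5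
          exact (mul_eq_zero.1 h6).resolve_left three_ne_zero
        rcases mul_eq_zero.1 h3 with h4 | h4
        · apply h y
          rw [hyx, h4]
          ring
        · have h5 : (2 * o + 1) ^ 2 = (-3 : L) := by linear_combination 4 * ho
          have h6 : (2 * o + 1 : L) ≠ 0 := by
            intro h7
            rw [h7] at h5
            have : (3 : L) = 0 := by linear_combination h5
            exact three_ne_zero this
          apply h (y / (2 * o + 1))
          rw [div_pow, h5, hyx, div_eq_iff (by norm_num)]
          linear_combination h4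

theorem noPt_iff {L : Type} [Field L] [CharZero L] {D : L} (hD : D ≠ 0) (ho : ∃ o : L, o ^ 2 + o + 1 = 0) {l m : ℕ} (hl : l = 2 ∨ l = 3)
    (hm : l * m = 6) : (∀ P : (ED D).toAffine.Point, l • P = 0 → P = 0) ↔ ∀ x : L, x ^ m ≠ D := by
  rcases hl with rfl | rfl
  · obtain rfl : m = 3 := by omega
    exact M2_two hD
  · obtain rfl : m = 2 := by omega
    exact M2_three hD ho

end CX
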