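import Pool.Agent.CX.K2
import Pool.Agent.CX.K3a
import Pool.Agent.CX.M2

/-!
# [CX-K3] from the hypotheses on the field to the data

PROOF. `cop`: `v ∋ 6` and `eE (d_i) ∈ v` contradicts `kum_ramified` and `kum_split` (`hN.split`); `loc`: `kum_split`; `npt`: `kum_ramified`, `hN.ramified`, `noPt_iff` over `K_v` (`(ED (jK D)).baseChange = ED (algebraMap (jK D))`, `JD.ED_map`; `jK om`).
-/

set_option autoImplicit false

open NumberField IsDedekindDomain
open scoped Classical ComplexConjugate

namespace CX

open CM27 CMT NAB CF JD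
open CU (la om eE)

theorem dat_of_nice {F : Type} [Field F] [NumberField F] [Algebra KK F] {l n : ℕ} {d : Fin n → Eis} {δ : Fin n → F} (hl : l = 2 ∨ l = 3)
    (hK : Kum l n d δ) {m : ℕ} (hm : l * m = 6) {D : Eis} (hD : D ≠ 0) (hP : Np l (ED (jK D))) (hN : Nice l (ED (jK D)) F)
    (hf : ∀ i, ∀ q : Eis, Prime q → ¬ q ^ l ∣ d i) : Dat l m D d := by
  refine ⟨⟨⟨hm, hl⟩, hD, ?_, ?_⟩, hP, ?_⟩
  · intro v h6 i hi
    exact (kum_split hl hK v (hN.split v h6) i).1 (kum_ramified hl hK hf v i hi)
  · intro v h6 i
    exact (kum_split hl hK v (hN.split v h6) i).2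
  · intro v i hi
    obtain ⟨P, hP'⟩ := kum_ramified hl hK hf v i hi
    have h1 := hN.ramified v P hP'
    have hinj : Function.Injective (algebraMap KK (v.adicCompletion KK)) :=
      (algebraMap KK (v.adicCompletion KK)).injective
    have hch : CharZero (v.adicCompletion KK) := charZero_of_injective_algebraMap hinj
    have hD0 : algebraMap KK (v.adicCompletion KK) (jK D) ≠ 0 := by
      intro h0
      rw [map_eq_zero_iff _ hinj, map_eq_zero_iff _ jK_inj] at h0
      exact hD h0
    have ho : ∃ o : v.adicCompletion KK, o ^ 2 + o + 1 = 0 := by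
      refine ⟨algebraMap KK (v.adicCompletion KK) (jK om), ?_⟩
      have h2 : (om ^ 2 + om + 1 : Eis) = 0 := by
        decide
      rw [← map_pow, ← map_add, ← map_pow, ← map_add, ← map_one (algebraMap KK (v.adicCompletion KK)),
        ← map_one jK, ← map_add, ← map_add, h2, map_zero, map_zero]
    refine (noPt_iff hD0 ho hl hm).1 ?_
    unfold NoPt at h1
    unfold WeierstrassCurve.baseChange at h1
    rw [ED_map] at h1
    exact h1

end CX
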