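import Pool.Agent.CX.Defs
import Pool.Agent.JG.SQ

/-!
# [CX-L0] the normal form at a place not above 6

PROOF. `A = v.adicCompletionIntegers k` is a DVR; `π` irreducible (`IsDiscreteValuationRing.exists_irreducible`), `Valued.v π = exp (-1)` (`JG.sgb_val`). Every `z ≠ 0` of the completion is `π ^ a * u`, `a : ℤ`, `u` a unit of `A`
(`Valued.v z = exp (-a)`, divide). For `z = D`: `a = 6 j + i`, `0 ≤ i ≤ 5`, `c = π ^ j`, `D' = u`. `TWR.od v D = log (v.valuation k D) = -a` (`HeightOneSpectrum.valuedAdicCompletion_eq_valuation'`). `6` is a unit of `A`: its valuation is `1` (`HeightOneSpectrum.intValuation`,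
`6 ∉ v.asIdeal`), compare `JG.svb_unit` and its neighbours.
`six_smul`: `C = ⟨Units.mk0 c⁻¹ _, 0, 0, 0⟩`: `(C • W).a₆ = C.u⁻⁶ a₆` (`WeierstrassCurve.variableChange_def`, `ext`). `min_i`: the argument at the beginning of the proof of `JG.tam_p'` (JG/ST.lean, `hu`), or of `JD.min_all`: `CMT.unit_of_lt A _ 0 ...`
with `Δ = -432 D ^ 2`, `v(Δ) = 2 i < 12`.
-/

set_option autoImplicit false

open NumberField IsDedekindDomain
open scoped Classical ComplexConjugate

namespace CX

open CM27 CMT NAB CF JD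
open CU (la om eE)

theorem six_smul {L : Type} [Field L] (c x : L) (hc : c ≠ 0) :
    ∃ C : WeierstrassCurve.VariableChange L, (C.u : L) = c⁻¹ ∧ ED (c ^ 6 * x) = C • ED x := by
  refine ⟨⟨Units.mk0 c⁻¹ (inv_ne_zero hc), 0, 0, 0⟩, rfl, ?_⟩
  have hu : (((Units.mk0 c⁻¹ (inv_ne_zero hc))⁻¹ : Lˣ) : L) = c := by
    rw [Units.val_inv_eq_inv_val, Units.val_mk0, inv_inv]
  rw [WeierstrassCurve.variableChange_def]
  unfold ED
  ext
  · simp
  · simp
  · simp
  · simp
  · simp

section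
variable (A : Type) [CommRing A] [IsDomain A] [IsDiscreteValuationRing A] (K : Type) [Field K] [Algebra A K] [IsFractionRing A K]

theorem min_i (h6 : IsUnit (6 : A)) (π D' : A) (hπ : Irreducible π) (hD : IsUnit D') (i : ℕ) (hi : i ≤ 5)
    (T : WeierstrassCurve.VariableChange K) (hT : (T • (ED (π ^ i * D')).map (algebraMap A K)).IsMinimal A) :
    (IsDiscreteValuationRing.maximalIdeal A).valuation K (T.u : K) = 1 :=
  JG.unit_p' h6 π D' hπ hD i hi T hT
end

section
variable {k : Type} [Field k] [NumberField k] (v : HeightOneSpectrum (𝓞 k)) (h6 : (6 : 𝓞 k) ∉ v.asIdeal)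
include h6

theorem six_unit : IsUnit (6 : v.adicCompletionIntegers k) := by
  refine HeightOneSpectrum.adicCompletionIntegers.isUnit_iff_valued_eq_one.2 ?_
  have h1 : ((6 : v.adicCompletionIntegers k) : v.adicCompletion k) =
      ((algebraMap (𝓞 k) k 6 : k) : v.adicCompletion k) := by
    have h2 : algebraMap (𝓞 k) k 6 = 6 := map_ofNat _ 6
    have h3 : algebraMap k (v.adicCompletion k) 6 = 6 := map_ofNat _ 6
    rw [h2]
    exact h3.symm
  rw [h1, HeightOneSpectrum.valuedAdicCompletion_eq_valuation', HeightOneSpectrum.valuation_of_algebraMap]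
  refine le_antisymm (v.intValuation_le_one 6) (not_lt.1 fun h2 => h6 ?_)
  exact (v.intValuation_lt_one_iff_mem 6).1 h2

theorem loc_form {D : k} (hD : D ≠ 0) : ∃ (π D' : v.adicCompletionIntegers k) (i : ℕ) (c : v.adicCompletion k) (j : ℤ),
    Irreducible π ∧ IsUnit D' ∧ i ≤ 5 ∧ c ≠ 0 ∧
    algebraMap k (v.adicCompletion k) D = c ^ 6 * algebraMap (v.adicCompletionIntegers k) (v.adicCompletion k) (π ^ i * D') ∧
    Valued.v c = WithZero.exp (-j) ∧ TWR.od v D = -(6 * j + i) := by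
  have _ := h6
  obtain ⟨π, hπ⟩ := IsDiscreteValuationRing.exists_irreducible (v.adicCompletionIntegers k)
  have hvπ := JG.sgb_val k v π hπ
  have hD1 : v.valuation k D ≠ 0 := (Valuation.ne_zero_iff _).2 hD
  obtain ⟨n, hn⟩ : ∃ n : ℤ, n = TWR.od v D := ⟨_, rfl⟩
  have hexp : v.valuation k D = WithZero.exp n := by
    rw [hn, TWR.od, WithZero.exp_log hD1]
  have hvD : Valued.v (algebraMap k (v.adicCompletion k) D) = WithZero.exp n := by
    rw [← hexp]
    exact HeightOneSpectrum.valuedAdicCompletion_eq_valuation' v D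
  have hi0 : 0 ≤ (-n) % 6 := Int.emod_nonneg _ (by norm_num)
  have hi6 : (-n) % 6 < 6 := Int.emod_lt_of_pos _ (by norm_num)
  have hdiv : 6 * ((-n) / 6) + (-n) % 6 = -n := Int.mul_ediv_add_emod (-n) 6
  obtain ⟨i, hi⟩ : ∃ i : ℕ, (i : ℤ) = (-n) % 6 := ⟨((-n) % 6).toNat, Int.toNat_of_nonneg hi0⟩
  obtain ⟨j, hj⟩ : ∃ j : ℤ, j = (-n) / 6 := ⟨_, rfl⟩
  rw [← hi, ← hj] at hdiv
  have hπ0 : (π : v.adicCompletion k) ≠ 0 := by
    intro h0
    rw [h0, map_zero] at hvπ
    exact WithZero.exp_ne_zero hvπ.symm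
  have hc0 : (π : v.adicCompletion k) ^ j ≠ 0 := zpow_ne_zero j hπ0
  have hvc : Valued.v ((π : v.adicCompletion k) ^ j) = WithZero.exp (-j) := by
    rw [map_zpow₀, hvπ, ← WithZero.exp_zsmul]
    congr 1
    rw [smul_eq_mul]
    ring
  obtain ⟨w, hw⟩ : ∃ w : v.adicCompletion k, w = algebraMap k (v.adicCompletion k) D /
      (((π : v.adicCompletion k) ^ j) ^ 6 * (π : v.adicCompletion k) ^ i) := ⟨_, rfl⟩
  have hden : ((π : v.adicCompletion k) ^ j) ^ 6 * (π : v.adicCompletion k) ^ i ≠ 0 :=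
    mul_ne_zero (pow_ne_zero _ hc0) (pow_ne_zero _ hπ0)
  have hvw : Valued.v w = 1 := by
    rw [hw, map_div₀, hvD, map_mul, map_pow, map_pow, hvc, hvπ, ← WithZero.exp_nsmul,
      ← WithZero.exp_nsmul, ← WithZero.exp_add, ← WithZero.exp_sub, ← WithZero.exp_zero]
    congr 1
    rw [nsmul_eq_mul, nsmul_eq_mul]
    push_cast
    linarith
  refine ⟨π, ⟨w, hvw.le⟩, i, (π : v.adicCompletion k) ^ j, j, hπ, ?_, by omega, hc0, ?_, hvc, ?_⟩
  · exact HeightOneSpectrum.adicCompletionIntegers.isUnit_iff_valued_eq_one.2 hvw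
  · rw [map_mul, map_pow]
    have e1 : algebraMap (v.adicCompletionIntegers k) (v.adicCompletion k) π =
      (π : v.adicCompletion k) := rfl
    have e2 : algebraMap (v.adicCompletionIntegers k) (v.adicCompletion k) ⟨w, hvw.le⟩ = w := rfl
    rw [e1, e2, ← mul_assoc, hw, mul_div_cancel₀ _ hden]
  · rw [← hn]
    linarith
end

end CX
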