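import Pool.Agent.CX.L0
import Pool.Agent.MP_9ab903_nt.TH.B2

/-!
# [CX-L1] the local polynomial at a place of good reduction

PROOF. `D = c⁶ D'` with `D' ∈ 𝓞 k` a unit at `v`: `(ED D).baseChange = ED (c⁶ D') = C • (ED (algebraMap (𝓞 k) A D')).map` (`six_smul`, `JD.ED_map`), `Δ = -432 D'²` is a unit of `A = v.adicCompletionIntegers k` (`six_unit`), so `JG.good_poly` (or `ISO.ISOb_good`)
gives the polynomial with `a = q + 1 - #ED(D' mod v)(κ)`, `κ` the residue field of `A`, `q = #κ`. `κ` is `𝓞 k / v` : `q = TH.nv v` (the proofs of `TH.LCW_Ep` (TH/B2.lean) and `JD.s6b_good` (JD/S6.lean) contain these identifications; the ring homomorphism `r : Eis → κ` is `residue ∘ algebraMap ∘ e`,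
`r b = 0`). Number of points: `TH.card_Wd` (`TH.Wd = JD.ED` by `rfl`; `q % 3 = 1` since `3 ∣ N b - 1`, `TH.b1c_norm_mod`) with the character `χ` of `TH.jacobi_pow` (`jacobiSum χ χ = -emb (b ^ f)`, and `χ a = emb ζ` if `a ^ ((q - 1)/3) = r ζ`): `χ (4 D') = emb ζ`,
`quadraticChar κ D' = s` (`quadraticChar_eq_pow_of_char_ne_two'`, `D' ^ (q / 2) = s`, `q` odd, `(q - 1)/2 = q / 2`). So `#ED(κ) = q + 1 - (emb (s ζ b^f) + conj ..)`. `c = q = N(b) ^ f = emb x * conj (emb x)` (`s² = 1`, `emb ζ * conj (emb ζ) = 1`: `JD.s6b_norm_one`).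
-/

set_option autoImplicit false

open NumberField IsDedekindDomain
open scoped Classical ComplexConjugate

namespace CX

open CM27 CMT NAB CF JD
open CU (la om eE)

theorem L1_card (b : Eis) (hb : Prime b) (hp : Primary b) (h3 : ¬ b ∣ 3) (κ : Type) [Field κ] [Finite κ]
    (h2 : (2 : κ) ≠ 0) (r : Eis →+* κ) (hr : r b = 0) (f : ℕ) (hf : 0 < f)
    (hk : Nat.card κ = b.norm.natAbs ^ f) (D : κ) (hD : D ≠ 0) (s ζ : Eis) (hs : s = 1 ∨ s = -1)
    (hζ : ζ ^ 3 = 1) (h1 : D ^ ((Nat.card κ - 1) / 2) = r s)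
    (h4 : (4 * D) ^ ((Nat.card κ - 1) / 3) = r ζ) :
    (Nat.card (ED D).toAffine.Point : ℂ) =
      Nat.card κ + 1 - (emb (s * ζ * b ^ f) + conj (emb (s * ζ * b ^ f))) := by
  have : Fintype κ := Fintype.ofFinite κ
  have hmod : b.norm.natAbs % 3 = 1 := TH.b1c_norm_mod b hb h3
  have hq3 : Nat.card κ % 3 = 1 := by
    rw [hk, Nat.pow_mod, hmod, one_pow, Nat.one_mod]
  obtain ⟨χ, hχ3, hχJ, hχ⟩ := TH.jacobi_pow b hb h3 hp κ r hr f hf hk
  have h44 : (4 : κ) = 2 * 2 := by norm_num
  have h4D : 4 * D ≠ 0 := by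
    rw [h44]
    exact mul_ne_zero (mul_ne_zero h2 h2) hD
  have hχ4 := hχ (4 * D) ζ h4D hζ h4
  have hcard : (Nat.card (ED D).toAffine.Point : ℂ) = Nat.card κ + 1 +
      ((quadraticChar κ D : ℤ) : ℂ) * (χ (4 * D) * jacobiSum χ χ +
        conj (χ (4 * D) * jacobiSum χ χ)) := TH.card_Wd κ hq3 h2 D hD χ hχ3
  have hrc : ringChar κ ≠ 2 := by
    intro h5
    apply h2
    have h6 := (ringChar.spec κ 2).2 (by rw [h5])
    exact_mod_cast h6
  have hodd : Nat.card κ % 2 = 1 := by
    rw [Nat.card_eq_fintype_card]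
    exact FiniteField.odd_card_of_char_ne_two hrc
  have hhalf : (Nat.card κ - 1) / 2 = Fintype.card κ / 2 := by
    rw [← Nat.card_eq_fintype_card]
    omega
  have hqc := quadraticChar_eq_pow_of_char_ne_two' hrc D
  rw [← hhalf, h1] at hqc
  have hne : (1 : κ) ≠ -1 := by
    intro h5
    apply h2
    linear_combination h5
  have hqs : ((quadraticChar κ D : ℤ) : ℂ) = emb s := by
    rcases quadraticChar_dichotomy hD with h5 | h5
    · rcases hs with h6 | h6
      · rw [h5, h6, map_one, Int.cast_one]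
      · exfalso
        rw [h5, h6, map_neg, map_one, Int.cast_one] at hqc
        exact hne hqc
    · rcases hs with h6 | h6
      · exfalso
        rw [h5, h6, map_one, Int.cast_neg, Int.cast_one] at hqc
        exact hne hqc.symm
      · rw [h5, h6, map_neg, map_one, Int.cast_neg, Int.cast_one]
  have hconj : conj (emb s) = emb s := by
    rcases hs with h6 | h6
    · rw [h6, map_one, map_one]
    · rw [h6, map_neg, map_one, map_neg, map_one]
  rw [hcard, hqs, hχ4, hχJ, map_mul emb, map_mul emb, map_mul conj, map_mul conj, map_mul conj, hconj, map_neg]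
  ring

theorem fr_poly {k : Type} [Field k] [NumberField k] (e : Eis →+* 𝓞 k) (v : HeightOneSpectrum (𝓞 k)) (h6 : (6 : 𝓞 k) ∉ v.asIdeal)
    {D : k} {x : Eis} (h : Fr e v D x) : ∃ a c : ℤ,
    ((ED D).baseChange (v.adicCompletion k)).localPolynomial (v.adicCompletionIntegers k) =
      1 - Polynomial.C a * Polynomial.X + Polynomial.C c * Polynomial.X ^ 2 ∧
    (a : ℂ) = emb x + conj (emb x) ∧ (c : ℂ) = emb x * conj (emb x) := by
  obtain ⟨b, s, ζ, f, D', c, hp, hb, hbv, hf, hnv, hc, hD, hD', hs, hζ, h2, h3, rfl⟩ := h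
  obtain ⟨hcq, hfin⟩ := CM27.card_residue k v
  have hb3 : ¬ b ∣ 3 := by
    rintro ⟨y, hy⟩
    apply h6
    have h7 : (6 : 𝓞 k) = 2 * e y * e b := by
      rw [mul_assoc, ← map_mul, mul_comm y b, ← hy, map_ofNat]
      norm_num
    rw [h7]
    exact v.asIdeal.mul_mem_left _ hbv
  have hκ : Nat.card (IsLocalRing.ResidueField (v.adicCompletionIntegers k)) = b.norm.natAbs ^ f := by
    rw [hcq]
    exact hnv
  have hker : ∀ y : 𝓞 k, (IsLocalRing.residue (v.adicCompletionIntegers k))
      (algebraMap (𝓞 k) (v.adicCompletionIntegers k) y) = 0 ↔ y ∈ v.asIdeal := by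
    intro y
    rw [← (CMT.residue_completion k v).2, RingHom.mem_ker]
    rfl
  obtain ⟨r, hr⟩ : ∃ r : Eis →+* IsLocalRing.ResidueField (v.adicCompletionIntegers k),
      r = (IsLocalRing.residue (v.adicCompletionIntegers k)).comp
        ((algebraMap (𝓞 k) (v.adicCompletionIntegers k)).comp e) := ⟨_, rfl⟩
  have hre : ∀ y, r y = (IsLocalRing.residue (v.adicCompletionIntegers k))
      (algebraMap (𝓞 k) (v.adicCompletionIntegers k) (e y)) := by
    intro y
    rw [hr]
    rfl
  have hrb : r b = 0 := by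
    rw [hre, hker]
    exact hbv
  have hu6 : IsUnit (6 : v.adicCompletionIntegers k) := six_unit v h6
  have hu2 : IsUnit (2 : v.adicCompletionIntegers k) := isUnit_of_dvd_unit ⟨3, by norm_num⟩ hu6
  have hr2 : (2 : IsLocalRing.ResidueField (v.adicCompletionIntegers k)) ≠ 0 := by
    have h7 : (2 : IsLocalRing.ResidueField (v.adicCompletionIntegers k)) =
        IsLocalRing.residue (v.adicCompletionIntegers k) 2 := (map_ofNat _ 2).symm
    rw [h7]
    exact (hu2.map _).ne_zero
  have hDu : IsUnit (algebraMap (𝓞 k) (v.adicCompletionIntegers k) D') := isUnit_completion' k v _ hD'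
  obtain ⟨δ, hδ⟩ : ∃ δ, δ = (IsLocalRing.residue (v.adicCompletionIntegers k))
      (algebraMap (𝓞 k) (v.adicCompletionIntegers k) D') := ⟨_, rfl⟩
  have hδ0 : δ ≠ 0 := by
    rw [hδ]
    exact (hDu.map _).ne_zero
  have hnvκ : TH.nv v = Nat.card (IsLocalRing.ResidueField (v.adicCompletionIntegers k)) := by
    rw [hκ, hnv]
  have h2' : δ ^ ((Nat.card (IsLocalRing.ResidueField (v.adicCompletionIntegers k)) - 1) / 2) = r s := by
    have h7 := (hker _).2 h2
    rw [map_sub, map_sub, map_pow, map_pow, sub_eq_zero, ← hδ, hnvκ] at h7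
    rw [hre]
    exact h7
  have h3' : (4 * δ) ^ ((Nat.card (IsLocalRing.ResidueField (v.adicCompletionIntegers k)) - 1) / 3) = r ζ := by
    have h7 := (hker _).2 h3
    rw [map_sub, map_sub, map_pow, map_pow, map_mul, map_mul, map_ofNat, map_ofNat, sub_eq_zero, ← hδ,
      hnvκ] at h7
    rw [hre]
    exact h7
  have hcard := L1_card b hb hp hb3 (IsLocalRing.ResidueField (v.adicCompletionIntegers k)) hr2 r hrb f hf hκ
    δ hδ0 s ζ hs hζ h2' h3'
  have hc' : algebraMap k (v.adicCompletion k) c ≠ 0 := by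
    rw [Ne, map_eq_zero]
    exact hc
  obtain ⟨C, -, hC⟩ := six_smul (algebraMap k (v.adicCompletion k) c)
    (algebraMap (v.adicCompletionIntegers k) (v.adicCompletion k)
      (algebraMap (𝓞 k) (v.adicCompletionIntegers k) D')) hc'
  have hbc : (ED D).baseChange (v.adicCompletion k) =
      C • (ED (algebraMap (𝓞 k) (v.adicCompletionIntegers k) D')).map
        (algebraMap (v.adicCompletionIntegers k) (v.adicCompletion k)) := by
    rw [ED_map, ← hC, WeierstrassCurve.baseChange, ED_map, hD, map_mul, map_pow]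
    rfl
  have hJ : IsUnit (ED (algebraMap (𝓞 k) (v.adicCompletionIntegers k) D')).Δ := by
    rw [ED_Δ, show (-432 : v.adicCompletionIntegers k) *
      (algebraMap (𝓞 k) (v.adicCompletionIntegers k) D') ^ 2 =
      -(6 ^ 3 * 2 * (algebraMap (𝓞 k) (v.adicCompletionIntegers k) D') ^ 2) by ring]
    exact (((hu6.pow 3).mul hu2).mul (hDu.pow 2)).neg
  refine ⟨_, _, by rw [hbc]; exact JG.good_poly hJ C, ?_, ?_⟩
  · rw [ED_map, ← hδ, Int.cast_sub, Int.cast_add, Int.cast_natCast, Int.cast_one, Int.cast_natCast, hcard]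
    ring
  · have e1 : emb s * conj (emb s) = 1 := by
      rcases hs with h7 | h7
      · rw [h7, map_one, map_one, one_mul]
      · rw [h7, map_neg, map_one, map_neg, map_one]
        ring
    have e2 := s6b_norm_one three_ne_zero hζ
    have e3 := CU.emb_mul_conj b
    rw [Int.cast_natCast, hκ, Nat.cast_pow, ← e3, map_mul, map_mul, map_pow, map_mul, map_mul, map_pow]
    have e4 : (emb b * conj (emb b)) ^ f = emb b ^ f * conj (emb b) ^ f := mul_pow _ _ _
    linear_combination e4 - (emb b ^ f * conj (emb b) ^ f) * (emb ζ * conj (emb ζ)) * e1 -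
      (emb b ^ f * conj (emb b) ^ f) * e2

end CX
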