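import Pool.Agent.CX.T3
import Pool.Agent.CX.T6
import Pool.Agent.CX.T7

/-!
# [CX-L10] the local identity at the places above 6

PROOF. For `w ∈ S`: `6 ∈ w`, `JD.exists_Below w` gives `v', φ`, `surj_six`, `tr_und`: `v' = v`; `f w := 1`; `tr_nv`; `Polynomial.expand_one`; `tr_poly` with `W = ED (jK D)` (`(ED (jK D)).baseChange F = ED (jF F D)`: `JD.ED_map`): every factor on the left is the factor of `ED (jK D)` at `v`, there are `l^n` of them (`count_six`; `S` as a set is `{w | und w = v}`,
`Set.ncard_coe_finset`); on the right every factor is the same (`six_twist`) and there are `l^n` of them (`Fintype.card_fun`, `ZMod.card`).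
-/

set_option autoImplicit false

open NumberField IsDedekindDomain
open scoped Classical ComplexConjugate

namespace CX

open CM27 CMT NAB CF JD
open CU (la om eE)

/-- [L10] helper -/
theorem l10_below {F : Type} [Field F] [NumberField F] [Algebra KK F] {l m n : ℕ} {d : Fin n → Eis} {δ : Fin n → F} {D : Eis}
    (hD : Dat0 l m D d) (hK : Kum l n d δ) (v : HeightOneSpectrum (𝓞 KK)) (h6 : (6 : 𝓞 KK) ∈ v.asIdeal)
    (w : HeightOneSpectrum (𝓞 F)) (hw : und KK w = v) :
    ∃ φ : v.adicCompletion KK →+* w.adicCompletion F, Below v w φ ∧ Function.Surjective φ := by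
  have h6w : (6 : 𝓞 F) ∈ w.asIdeal := by
    have h1 : (6 : 𝓞 KK) ∈ (und KK w).asIdeal := by
      rw [hw]
      exact h6
    rw [mem_und, map_ofNat] at h1
    exact h1
  obtain ⟨v', φ, h⟩ := JD.exists_Below w
  have hv : v' = v := (tr_und h).symm.trans hw
  subst hv
  exact ⟨φ, h, surj_six hD hK v' w h6w φ h⟩

theorem loc_six {F : Type} [Field F] [NumberField F] [Algebra KK F] {l m n : ℕ} [NeZero l] {d : Fin n → Eis} {δ : Fin n → F} {D : Eis}
    (hD : Dat0 l m D d) (hK : Kum l n d δ) (v : HeightOneSpectrum (𝓞 KK)) (h6 : (6 : 𝓞 KK) ∈ v.asIdeal)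
    (S : Finset (HeightOneSpectrum (𝓞 F))) (hS : ∀ w, w ∈ S ↔ und KK w = v) :
    ∃ f : HeightOneSpectrum (𝓞 F) → ℕ, (∀ w ∈ S, 0 < f w ∧ TH.nv w = TH.nv v ^ f w) ∧
    ∏ w ∈ S, Polynomial.expand ℤ (f w)
      (((ED (jF F D)).baseChange (w.adicCompletion F)).localPolynomial (w.adicCompletionIntegers F)) =
    ∏ χ : Fin n → ZMod l, ((ED (jK (D * dx d χ ^ m))).baseChange (v.adicCompletion KK)).localPolynomial
      (v.adicCompletionIntegers KK) := by
  have hb : ∀ w ∈ S, ∃ φ : v.adicCompletion KK →+* w.adicCompletion F, Below v w φ ∧ Function.Surjective φ :=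
    fun w hw => l10_below hD hK v h6 w ((hS w).1 hw)
  refine ⟨fun _ => 1, fun w hw => ?_, ?_⟩
  · obtain ⟨φ, h, hs⟩ := hb w hw
    exact ⟨one_pos, by rw [pow_one, tr_nv h hs]⟩
  · have h1 : ∀ w ∈ S, Polynomial.expand ℤ 1
        (((ED (jF F D)).baseChange (w.adicCompletion F)).localPolynomial (w.adicCompletionIntegers F)) =
        ((ED (jK D)).baseChange (v.adicCompletion KK)).localPolynomial (v.adicCompletionIntegers KK) := by
      intro w hw
      obtain ⟨φ, h, hs⟩ := hb w hw
      rw [Polynomial.expand_one, tr_poly h hs hD.ne0]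
    rw [Finset.prod_congr rfl h1, Finset.prod_congr rfl fun χ _ => (six_twist hD v h6 χ).2.2, Finset.prod_const, Finset.prod_const]
    congr 1
    have h2 : (S : Set (HeightOneSpectrum (𝓞 F))) = {w | und KK w = v} := by
      ext w
      exact hS w
    rw [← Set.ncard_coe_finset, h2, (count_six hD hK v h6).1, Finset.card_univ, Fintype.card_eq_nat_card, Nat.card_fun,
      Nat.card_zmod, Nat.card_fin]

end CX
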