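import Pool.Agent.CX.Defs

/-!
# [CX-L11] a product of L-functions from the local identities

PROOF. Model: `TH.IL_step` (TH/B3.lean), `QTF.LCW_bij` (QTF/Q.lean) and CMT (MP_dfae13_nt/T/TE2.lean). Both sides are multiplicative (`isMultiplicative_LCW`, a finite product of multiplicative functions), so it is enough to compare `loc p` for every prime number `p` (as in `TH.IL_step`: `CF`/`CMT` lemma that a multiplicative function is determined by its `loc p`).
`loc p (LCW K W) = ∏ (over the places v above p) map (loc p (fW K W v))` (`loc_LCW`, `loc_LFunctionW`), and for `nv v = p^a`: `map (loc p (fW K W v)) * ((localPolynomial).map.expand a as a power series) = 1` (general form of `loc_fW`; for the polynomial `P`, `P(0) = 1`, `fW = ofPowerSeries (p^a) (invOfUnit P 1)`, `loc_ofPowerSeries`-type lemmas used in `loc_fW`; constant coefficient `1`: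
`constantCoeff_localPowerSeries'`). Let `T` be the finite set of the places of `KK` above `p`, `S_v` the finite set of the places of `F` above `v ∈ T` (they exist: finitely many primes above `p`, see TH/B3); `nv w = p^(a f w)`: `expand (a f w) = expand a ∘ expand (f w)`; so the inverse of the left side is `∏_{v ∈ T} expand a (∏_{w ∈ S_v} expand (f w) P_w) = ∏_{v ∈ T} expand a (∏_i P_(v,i))`,
the inverse of the right side (`CF` `ar_uniq`).
-/

set_option autoImplicit false

open NumberField IsDedekindDomain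
open scoped Classical ComplexConjugate

namespace CX

open CM27 CMT NAB CF JD
open CU (la om eE)

theorem l11_coe (P : Polynomial ℤ) {p a : ℕ} (hp : p.Prime) (ha : 0 < a) :
    loc p (ArithmeticFunction.ofPowerSeries (p ^ a) (P : PowerSeries ℤ)) =
      ((Polynomial.expand ℤ a P : Polynomial ℤ) : PowerSeries ℤ) := by
  have hq : 1 < p ^ a := Nat.one_lt_pow ha.ne' hp.one_lt
  ext k
  rw [coeff_loc, Polynomial.coeff_coe, Polynomial.coeff_expand ha]
  by_cases hk : a ∣ k
  · obtain ⟨j, rfl⟩ := hk
    rw [if_pos (dvd_mul_right a j), Nat.mul_div_cancel_left j ha, pow_mul,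
      ArithmeticFunction.ofPowerSeries_apply_pow hq, Polynomial.coeff_coe]
  · rw [if_neg hk, ArithmeticFunction.ofPowerSeries_apply hq, Function.extend_apply', Pi.zero_apply]
    rintro ⟨j, hj⟩
    change (p ^ a) ^ j = p ^ k at hj
    rw [← pow_mul] at hj
    exact hk ⟨j, (Nat.pow_right_injective hp.two_le hj).symm⟩

section
variable {K : Type} [Field K] [NumberField K] (W : WeierstrassCurve K) (v : HeightOneSpectrum (𝓞 K))

theorem l11_cc : PowerSeries.constantCoeff (((W.baseChange (v.adicCompletion K)).localPolynomial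
    (v.adicCompletionIntegers K) : Polynomial ℤ) : PowerSeries ℤ) = 1 := by
  unfold WeierstrassCurve.localPolynomial
  split_ifs <;> simp

theorem l11_fW {p a : ℕ} (hp : p.Prime) (ha : 0 < a) (hq : TH.nv v = p ^ a) :
    loc p (fW K W v) * ((Polynomial.expand ℤ a ((W.baseChange (v.adicCompletion K)).localPolynomial
      (v.adicCompletionIntegers K)) : Polynomial ℤ) : PowerSeries ℤ) = 1 := by
  have h1 : Nat.card (IsLocalRing.ResidueField (v.adicCompletionIntegers K)) = p ^ a :=
    (card_residue K v).1.trans hq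
  have h2 : fW K W v = ArithmeticFunction.ofPowerSeries (p ^ a) (PowerSeries.invOfUnit
      (((W.baseChange (v.adicCompletion K)).localPolynomial (v.adicCompletionIntegers K) : Polynomial ℤ) : PowerSeries ℤ) 1) := by
    unfold fW WeierstrassCurve.localEulerFactor WeierstrassCurve.localPowerSeries
    rw [h1]
  rw [h2, ← l11_coe _ hp ha, ← loc_mul hp, ← map_mul, PowerSeries.invOfUnit_mul, map_one, loc_one hp]
  rw [l11_cc W v]
  rfl

theorem l11_fin (K : Type) [Field K] [NumberField K] {p : ℕ} (hp : p.Prime) :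
    {v : HeightOneSpectrum (𝓞 K) | (p : 𝓞 K) ∈ v.asIdeal}.Finite := by
  have h30 : Ideal.span {(p : 𝓞 K)} ≠ 0 := by
    rw [Ne, Ideal.zero_eq_bot, Ideal.span_singleton_eq_bot]
    exact_mod_cast hp.ne_zero
  refine (Ideal.finite_factors h30).subset ?_
  intro v hv
  exact Ideal.dvd_span_singleton.2 hv

end

theorem l11_mult {ι : Type} (s : Finset ι) (V : ι → WeierstrassCurve KK) :
    (∏ i ∈ s, LCW KK (V i)).IsMultiplicative := by
  induction s using Finset.induction_on with
  | empty =>
    rw [Finset.prod_empty]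
    exact ArithmeticFunction.isMultiplicative_one
  | insert a s ha ih =>
    rw [Finset.prod_insert ha]
    exact (isMultiplicative_LCW KK (V a)).mul ih

theorem lcw_of_loc {F : Type} [Field F] [NumberField F] [Algebra KK F] {ι : Type} [Fintype ι] (W : WeierstrassCurve F)
    (V : ι → WeierstrassCurve KK)
    (h : ∀ (v : HeightOneSpectrum (𝓞 KK)) (S : Finset (HeightOneSpectrum (𝓞 F))), (∀ w, w ∈ S ↔ und KK w = v) →
      ∃ f : HeightOneSpectrum (𝓞 F) → ℕ, (∀ w ∈ S, 0 < f w ∧ TH.nv w = TH.nv v ^ f w) ∧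
      ∏ w ∈ S, Polynomial.expand ℤ (f w) ((W.baseChange (w.adicCompletion F)).localPolynomial (w.adicCompletionIntegers F)) =
        ∏ i, ((V i).baseChange (v.adicCompletion KK)).localPolynomial (v.adicCompletionIntegers KK)) :
    LCW F W = ∏ i, LCW KK (V i) := by
  rw [ArithmeticFunction.IsMultiplicative.eq_iff_eq_on_prime_powers _
    (isMultiplicative_LCW F W) _ (l11_mult Finset.univ V)]
  intro p i hp
  rw [← coeff_loc, ← coeff_loc]
  congr 1
  have hfinF := l11_fin F hp
  have hfink := l11_fin KK hp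
  set SF := hfinF.toFinset with hSF
  set Sk := hfink.toFinset with hSk
  have memF : ∀ v : HeightOneSpectrum (𝓞 F), v ∈ SF ↔ (p : 𝓞 F) ∈ v.asIdeal := fun v => by
    simp [hSF]
  have memk : ∀ v : HeightOneSpectrum (𝓞 KK), v ∈ Sk ↔ (p : 𝓞 KK) ∈ v.asIdeal := fun v => by
    simp [hSk]
  have hund : ∀ w : HeightOneSpectrum (𝓞 F), und KK w ∈ Sk ↔ w ∈ SF := by
    intro w
    rw [memk, memF, mem_und, map_natCast]
  have hdF : ∀ v : HeightOneSpectrum (𝓞 F), ∃ n : ℕ, v ∈ SF → 0 < n ∧ TH.nv v = p ^ n := by
    intro v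
    by_cases hv : v ∈ SF
    · obtain ⟨n, h1, h2⟩ := CF.ar_card F v p hp ((memF v).1 hv)
      exact ⟨n, fun _ => ⟨h1, h2⟩⟩
    · exact ⟨0, fun h => absurd h hv⟩
  choose dF hdF using hdF
  have hdk : ∀ v : HeightOneSpectrum (𝓞 KK), ∃ n : ℕ, v ∈ Sk → 0 < n ∧ TH.nv v = p ^ n := by
    intro v
    by_cases hv : v ∈ Sk
    · obtain ⟨n, h1, h2⟩ := CF.ar_card KK v p hp ((memk v).1 hv)
      exact ⟨n, fun _ => ⟨h1, h2⟩⟩
    · exact ⟨0, fun h => absurd h hv⟩
  choose dk hdk using hdk
  rw [loc_LCW, loc_LFunctionW F W hp SF (fun v hv => (memF v).2 hv), loc_prod hp]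
  have hR : ∀ i, loc p (LCW KK (V i)) =
      PowerSeries.map (Int.castRingHom ℂ) (∏ v ∈ Sk, loc p (fW KK (V i) v)) := fun i => by
    rw [loc_LCW, loc_LFunctionW KK (V i) hp Sk (fun v hv => (memk v).2 hv)]
  simp only [hR]
  rw [← map_prod]
  congr 1
  have LF : (∏ w ∈ SF, loc p (fW F W w)) * (∏ w ∈ SF, ((Polynomial.expand ℤ (dF w)
      ((W.baseChange (w.adicCompletion F)).localPolynomial (w.adicCompletionIntegers F)) : Polynomial ℤ) : PowerSeries ℤ)) = 1 := by
    rw [← Finset.prod_mul_distrib]
    exact Finset.prod_eq_one fun w hw => l11_fW W w hp (hdF w hw).1 (hdF w hw).2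
  have LK : (∏ i, ∏ v ∈ Sk, loc p (fW KK (V i) v)) * (∏ i, ∏ v ∈ Sk, ((Polynomial.expand ℤ (dk v)
      (((V i).baseChange (v.adicCompletion KK)).localPolynomial (v.adicCompletionIntegers KK)) : Polynomial ℤ) :
        PowerSeries ℤ)) = 1 := by
    rw [← Finset.prod_mul_distrib]
    refine Finset.prod_eq_one fun i _ => ?_
    rw [← Finset.prod_mul_distrib]
    exact Finset.prod_eq_one fun v hv => l11_fW (V i) v hp (hdk v hv).1 (hdk v hv).2
  refine CF.ar_uniq LF ?_
  have key : (∏ w ∈ SF, Polynomial.expand ℤ (dF w)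
      ((W.baseChange (w.adicCompletion F)).localPolynomial (w.adicCompletionIntegers F))) =
      ∏ i, ∏ v ∈ Sk, Polynomial.expand ℤ (dk v)
      (((V i).baseChange (v.adicCompletion KK)).localPolynomial (v.adicCompletionIntegers KK)) := by
    rw [Finset.prod_comm, ← Finset.prod_fiberwise_of_maps_to (s := SF) (t := Sk) (g := fun w => und KK w)
      (fun w hw => (hund w).2 hw)]
    refine Finset.prod_congr rfl fun v hv => ?_
    have hS : ∀ w, w ∈ SF.filter (fun w => und KK w = v) ↔ und KK w = v := by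
      intro w
      rw [Finset.mem_filter]
      refine ⟨fun h => h.2, fun h => ⟨?_, h⟩⟩
      rw [← hund, h]
      exact hv
    obtain ⟨f, hf, he⟩ := h v _ hS
    rw [← map_prod, ← he, map_prod]
    refine Finset.prod_congr rfl fun w hw => ?_
    have h1 : dF w = dk v * f w := by
      have h2 := (hf w hw).2
      rw [(hdF w (Finset.mem_filter.1 hw).1).2, (hdk v hv).2, ← pow_mul] at h2
      exact Nat.pow_right_injective hp.two_le h2
    rw [h1, Polynomial.expand_mul]
  have key2 := congrArg (Polynomial.coeToPowerSeries.ringHom (R := ℤ)) key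
  simp only [map_prod, Polynomial.coeToPowerSeries.ringHom_apply] at key2
  rw [key2]
  exact LK

end CX
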