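import Pool.Agent.CX.Defs

/-!
# [CX-L12] the entire L-function of the product

PROOF. Induction on a finite set of indices: `LSeriesSummable` and value of `LSeries` of `LCW` products: the coefficients of `W` as complex numbers are `LCW F W` (`CMT.LCW_apply`), the `L`-series of a Dirichlet convolution of two summable series is the product (`LSeriesSummable.mul`/`LSeries_mul'`, `ArithmeticFunction.LSeries_mul`, `LSeriesSummable_mul` in Mathlib, NumberTheory/LSeries/Convolution.lean);
the empty product is the constant `1` (`LSeries` of `1 : ArithmeticFunction ℂ`). Differentiability: `Differentiable.finset_prod`. Similar: `TTS`/`QTF` assembly (`grep -rn IsEntireLSeries`).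
-/

set_option autoImplicit false

open NumberField IsDedekindDomain
open scoped Classical ComplexConjugate

namespace CX

open CM27 CMT NAB CF JD
open CU (la om eE)

theorem L12_one (s : ℂ) : LSeriesHasSum (fun k => (1 : ArithmeticFunction ℂ) k) s 1 := by
  have h : (fun k => (1 : ArithmeticFunction ℂ) k) = LSeries.delta := by
    funext k
    simp [ArithmeticFunction.one_apply, LSeries.delta]
  rw [h, LSeriesHasSum]
  have h2 : LSeries.term LSeries.delta s = fun n => if n = 1 then 1 else 0 := by
    funext n
    exact LSeries.term_delta s n
  rw [h2]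
  exact hasSum_ite_eq 1 1

theorem entire_of_lcw {F : Type} [Field F] [NumberField F] {ι : Type} [Fintype ι] (W : WeierstrassCurve F) (V : ι → WeierstrassCurve KK)
    (h : LCW F W = ∏ i, LCW KK (V i)) (Λ : ι → ℂ → ℂ) (hΛ : ∀ i, SBSD2.IsEntireLSeries (V i) (Λ i)) :
    SBSD2.IsEntireLSeries W (fun s => ∏ i, Λ i s) := by
  refine ⟨?_, fun s hs => ?_⟩
  · exact Differentiable.fun_finsetProd fun i _ => (hΛ i).1
  · have key : ∀ t : Finset ι, LSeriesHasSum (fun k => (∏ i ∈ t, LCW KK (V i)) k) s
        (∏ i ∈ t, Λ i s) := by
      intro t
      induction t using Finset.induction_on with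
      | empty =>
        simp only [Finset.prod_empty]
        exact L12_one s
      | insert i t hi ih =>
        rw [Finset.prod_insert hi, Finset.prod_insert hi]
        refine ArithmeticFunction.LSeriesHasSum_mul ?_ ih
        obtain ⟨h1, h2⟩ := (hΛ i).2 s hs
        rw [h2]
        exact h1.LSeriesHasSum
    have h1 := key Finset.univ
    rw [← h] at h1
    exact ⟨h1.LSeriesSummable, h1.LSeries_eq.symm⟩

end CX
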