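import Pool.Agent.CX.L0

/-!
# [CX-L2] the local polynomial at a place of additive reduction

PROOF. `loc_form`: `D = c⁶ π^i D'` in the completion with `1 ≤ i ≤ 5` (`i ≠ 0` since `6 ∤ od v D`), `(ED D).baseChange = C • (ED (π^i D')).map` (`six_smul`, `JD.ED_map`), and `ISO.ISOb_add` (ISO/Loc.lean) with `hu = min_i`, `Δ = -432 (π^i D')²` not a unit, `c₄ = 0`.
-/

set_option autoImplicit false

open NumberField IsDedekindDomain
open scoped Classical ComplexConjugate

namespace CX

open CM27 CMT NAB CF JD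
open CU (la om eE)

theorem bad_poly {k : Type} [Field k] [NumberField k] (v : HeightOneSpectrum (𝓞 k)) (h6 : (6 : 𝓞 k) ∉ v.asIdeal) {D : k} (hD : D ≠ 0)
    (h : ¬ (6 : ℤ) ∣ TWR.od v D) :
    ((ED D).baseChange (v.adicCompletion k)).localPolynomial (v.adicCompletionIntegers k) = 1 := by
  obtain ⟨π, D', i, c, j, hπ, hD', hi, hc, he, -, hod⟩ := loc_form v h6 hD
  have hi0 : i ≠ 0 := by
    rintro rfl
    apply h
    rw [hod]
    exact ⟨-j, by push_cast; ring⟩
  obtain ⟨C, -, hC⟩ := six_smul c (algebraMap (v.adicCompletionIntegers k) (v.adicCompletion k) (π ^ i * D')) hc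
  have hbc : (ED D).baseChange (v.adicCompletion k) =
      C • (ED (π ^ i * D')).map (algebraMap (v.adicCompletionIntegers k) (v.adicCompletion k)) := by
    rw [ED_map, ← hC, WeierstrassCurve.baseChange, ED_map, he]
  rw [hbc]
  refine ISO.ISOb_add (v.adicCompletionIntegers k) (ED (π ^ i * D')) ?_ ?_ ?_ C
  · exact fun T hT => min_i (v.adicCompletionIntegers k) (v.adicCompletion k) (six_unit v h6) π D' hπ hD' i hi T hT
  · intro hΔ
    rw [ED_Δ] at hΔ
    refine hπ.not_isUnit (isUnit_of_dvd_unit ?_ hΔ)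
    refine Dvd.dvd.mul_left ?_ _
    exact Dvd.dvd.pow (Dvd.dvd.mul_right (dvd_pow_self π hi0) D') two_ne_zero
  · rw [ED_c₄]
    exact not_isUnit_zero

end CX
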