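import Pool.Agent.CX.L3

/-!
# [CX-L3s] existence and uniqueness of the Frobenius number and of the power residue symbols

PROOF. `exists_fr`: `exists_unit_rep` with `j = 6`: `D = c⁶ D'`; `exists_below`; in the field `𝓞 k / v` of `q ≡ 1 mod 6` elements (`nv_mod6`) `D' ^ ((q-1)/2) = ± 1` and `(4 D') ^ ((q-1)/3)` is a cube root of unity, i.e. the class of `e ζ`, `ζ ∈ {1, om, om²}` (`TH.b1b_roots`, `e om ≢ 1`). `exists_sy` similarly. `sy_unique`: if `t = u^l t' = u'^l t''` then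
`t'' = (u/u')^l t'`, `y = u / u'` has valuation 1 at `v`, `y = a / b`, `a, b ∈ 𝓞 k ∖ v`, `b^l t'' = a^l t'`, and `a^(q-1) ≡ 1 mod v`: `e z ≡ e z'`; `z, z'` are `l`-th roots of unity and `v ∤ l`: `z = z'` (`e (1 - om)`, `e 2` are not in `v` since `6 ∉ v`; TH/P1, P2 have this for `l = 3`). `sy_mul`, `sy_pow` (`t = (t / (a/b))^l ..`: `t^l = (t)^l * 1`), `sy_dvd`: directly.
-/

set_option autoImplicit false

open NumberField IsDedekindDomain
open scoped Classical ComplexConjugate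

namespace CX

open CM27 CMT NAB CF JD
open CU (la om eE)

section
variable {k : Type} [Field k] [NumberField k] (e : Eis →+* 𝓞 k) (v : HeightOneSpectrum (𝓞 k)) (h6 : (6 : 𝓞 k) ∉ v.asIdeal)

include h6 in
theorem l3s_two : (2 : 𝓞 k) ∉ v.asIdeal := by
  intro h
  apply h6
  have h1 : (6 : 𝓞 k) = 3 * 2 := by norm_num
  rw [h1]
  exact Ideal.mul_mem_left _ _ h

include h6 in
theorem l3s_three : (3 : 𝓞 k) ∉ v.asIdeal := by
  intro h
  apply h6
  have h1 : (6 : 𝓞 k) = 2 * 3 := by norm_num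
  rw [h1]
  exact Ideal.mul_mem_left _ _ h

include e h6 in
theorem l3s_div {l : ℕ} (hl : l = 2 ∨ l = 3) : l * ((TH.nv v - 1) / l) = TH.nv v - 1 := by
  have h := nv_mod6 e v h6
  rcases hl with rfl | rfl <;> omega

include h6 in
theorem l3s_pow2 {a : 𝓞 k} (ha : a ∉ v.asIdeal) :
    ∃ s : Eis, (s = 1 ∨ s = -1) ∧ a ^ ((TH.nv v - 1) / 2) - e s ∈ v.asIdeal := by
  have h1 := TH.p1_pow v ha
  have hd := l3s_div e v h6 (Or.inl rfl)
  rw [← hd, mul_comm, pow_mul] at h1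
  generalize a ^ ((TH.nv v - 1) / 2) = b at h1 ⊢
  have h2 : b ^ 2 - 1 = (b - e 1) * (b - e (-1)) := by
    rw [map_neg, map_one]
    ring
  rw [h2] at h1
  rcases v.isPrime.mem_or_mem h1 with h4 | h4
  · exact ⟨1, Or.inl rfl, h4⟩
  · exact ⟨-1, Or.inr rfl, h4⟩

include h6 in
theorem l3s_inj {l : ℕ} (hl : l = 2 ∨ l = 3) {z z' : Eis} (hz : z ^ l = 1) (hz' : z' ^ l = 1)
    (h : e z - e z' ∈ v.asIdeal) : z = z' := by
  rcases hl with rfl | rfl
  · have := CM27.eis_isDomain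
    have h2 := l3s_two v h6
    have key : ∀ z : Eis, z ^ 2 = 1 → z = 1 ∨ z = -1 := by
      intro z hz
      have h1 : (z - 1) * (z + 1) = 0 := by linear_combination hz
      rcases mul_eq_zero.1 h1 with h2 | h2
      · exact Or.inl (sub_eq_zero.1 h2)
      · exact Or.inr (eq_neg_of_add_eq_zero_left h2)
    rcases key z hz with rfl | rfl <;> rcases key z' hz' with rfl | rfl
    · rfl
    · exfalso
      apply h2
      rw [map_neg, map_one] at h
      have : (2 : 𝓞 k) = 1 - -1 := by ring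
      rw [this]
      exact h
    · exfalso
      apply h2
      rw [map_neg, map_one] at h
      have : (2 : 𝓞 k) = -(-1 - 1) := by ring
      rw [this]
      exact Ideal.neg_mem_iff _ |>.2 h
    · rfl
  · exact TH.e_inj_mod e v (l3s_three v h6) hz hz' h

theorem l3s_tne {l : ℕ} {t : k} {z : Eis} (h : Sy l e v t z) : t ≠ 0 := by
  obtain ⟨-, t', u, hu, ht', ht, -⟩ := h
  have h0 : (t' : k) ≠ 0 := by
    rw [RingOfIntegers.coe_ne_zero_iff]
    rintro rfl
    exact ht' (Ideal.zero_mem _)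
  rw [ht]
  exact mul_ne_zero (pow_ne_zero _ hu) h0

include h6

theorem exists_fr {D : k} (hD : D ≠ 0) (h : (6 : ℤ) ∣ TWR.od v D) : ∃ x : Eis, Fr e v D x := by
  obtain ⟨D', c, hc, hD', hDc⟩ := exists_unit_rep v (j := 6) (by norm_num) hD h
  obtain ⟨b, f, hp, hb, -, hbv, hf, hn⟩ := exists_below e v h6
  obtain ⟨s, hs, hsm⟩ := l3s_pow2 e v h6 hD'
  have h4 : 4 * D' ∉ v.asIdeal := by
    intro h
    rcases v.isPrime.mem_or_mem h with h1 | h1
    · have h2 : (4 : 𝓞 k) = 2 ^ 2 := by norm_num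
      rw [h2] at h1
      exact l3s_two v h6 (v.isPrime.mem_of_pow_mem _ h1)
    · exact hD' h1
  obtain ⟨ζ, hζ, hζm⟩ := TH.exists_zeta e v (l3s_three v h6) h4
  exact ⟨s * ζ * b ^ f, b, s, ζ, f, D', c, hp, hb, hbv, hf, hn, hc, hDc, hD', hs, hζ, hsm, hζm, rfl⟩

theorem exists_sy {l : ℕ} (hl : l = 2 ∨ l = 3) {t : k} (ht : t ≠ 0) (h : (l : ℤ) ∣ TWR.od v t) : ∃ z : Eis, Sy l e v t z := by
  have hl0 : 0 < l := by rcases hl with rfl | rfl <;> norm_num
  obtain ⟨t', u, hu, ht', htu⟩ := exists_unit_rep v hl0 ht h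
  rcases hl with rfl | rfl
  · obtain ⟨s, hs, hsm⟩ := l3s_pow2 e v h6 ht'
    refine ⟨s, ?_, t', u, hu, ht', htu, hsm⟩
    rcases hs with rfl | rfl
    · exact one_pow 2
    · exact neg_one_sq
  · obtain ⟨ζ, hζ, hζm⟩ := TH.exists_zeta e v (l3s_three v h6) ht'
    exact ⟨ζ, hζ, t', u, hu, ht', htu, hζm⟩

theorem sy_unique {l : ℕ} (hl : l = 2 ∨ l = 3) {t : k} {z z' : Eis} (h : Sy l e v t z) (h' : Sy l e v t z') : z = z' := by
  have ht0 := l3s_tne e v h
  obtain ⟨hz, t', u, hu, ht', htu, hm⟩ := h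
  obtain ⟨hz', t'', u', hu', ht'', htu', hm'⟩ := h'
  have hl0 : l ≠ 0 := by rcases hl with rfl | rfl <;> norm_num
  have h0 : (t' : k) ≠ 0 := by
    rw [RingOfIntegers.coe_ne_zero_iff]
    rintro rfl
    exact ht' (Ideal.zero_mem _)
  have hul : u ^ l ≠ 0 := pow_ne_zero _ hu
  have hul' : u' ^ l ≠ 0 := pow_ne_zero _ hu'
  have hy : (t'' : k) = (u / u') ^ l * t' := by
    rw [div_pow]
    field_simp
    rw [← htu, mul_comm, ← htu']
  have hc1 : v.valuation k (u / u') = 1 := by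
    have e1 : v.valuation k ((u / u') ^ l) = 1 := by
      have e2 : (u / u') ^ l = (t'' : k) / t' := by
        rw [hy, mul_div_cancel_right₀ _ h0]
      rw [e2, map_div₀, NAB.val_unit t' v ht', NAB.val_unit t'' v ht'', div_one]
    rw [map_pow] at e1
    exact (pow_eq_one_iff_of_nonneg zero_le hl0).1 e1
  obtain ⟨p, q, hp, hq, hpq⟩ := TH.p1_frac_unit v hc1
  have h4 : t'' * q ^ l = t' * p ^ l := by
    apply RingOfIntegers.ext
    change (t'' : k) * (q : k) ^ l = (t' : k) * (p : k) ^ l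
    rw [hpq, hy]
    ring
  have hdiv := l3s_div e v h6 hl
  obtain ⟨m, hmm⟩ : ∃ m, m = (TH.nv v - 1) / l := ⟨_, rfl⟩
  rw [← hmm] at hdiv hm hm'
  have hpp := TH.p1_pow v hp
  have hqq := TH.p1_pow v hq
  rw [← hdiv, pow_mul] at hpp hqq
  have h5 : t'' ^ m * (q ^ l) ^ m = t' ^ m * (p ^ l) ^ m := by
    rw [← mul_pow, ← mul_pow, h4]
  have h7 : t'' ^ m - t' ^ m ∈ v.asIdeal := by
    have e1 : t'' ^ m - t' ^ m = t' ^ m * ((p ^ l) ^ m - 1) - t'' ^ m * ((q ^ l) ^ m - 1) := by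
      linear_combination h5
    rw [e1]
    exact Ideal.sub_mem _ (Ideal.mul_mem_left _ _ hpp) (Ideal.mul_mem_left _ _ hqq)
  apply l3s_inj e v h6 hl hz hz'
  have e1 : e z - e z' = (t'' ^ m - e z') - (t' ^ m - e z) - (t'' ^ m - t' ^ m) := by ring
  rw [e1]
  exact Ideal.sub_mem _ (Ideal.sub_mem _ hm' hm) h7

theorem sy_mul {l : ℕ} (hl : l = 2 ∨ l = 3) {t t' : k} {z z' : Eis} (h : Sy l e v t z) (h' : Sy l e v t' z') :
    Sy l e v (t * t') (z * z') := by
  obtain ⟨hz, a, u, hu, ha, htu, hm⟩ := h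
  obtain ⟨hz', a', u', hu', ha', htu', hm'⟩ := h'
  refine ⟨by rw [mul_pow, hz, hz', one_mul], a * a', u * u', mul_ne_zero hu hu', ?_, ?_, ?_⟩
  · intro h
    rcases v.isPrime.mem_or_mem h with h1 | h1
    · exact ha h1
    · exact ha' h1
  · change t * t' = (u * u') ^ l * ((a : k) * (a' : k))
    rw [htu, htu']
    ring
  · have e1 : (a * a') ^ ((TH.nv v - 1) / l) - e (z * z') =
        a ^ ((TH.nv v - 1) / l) * (a' ^ ((TH.nv v - 1) / l) - e z') + (a ^ ((TH.nv v - 1) / l) - e z) * e z' := by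
      rw [mul_pow, map_mul]
      ring
    rw [e1]
    exact Ideal.add_mem _ (Ideal.mul_mem_left _ _ hm') (Ideal.mul_mem_right _ _ hm)

theorem sy_pow {l : ℕ} (hl : l = 2 ∨ l = 3) {t : k} (ht : t ≠ 0) : Sy l e v (t ^ l) 1 := by
  refine ⟨one_pow l, 1, t, ht, ?_, ?_, ?_⟩
  · intro h
    exact v.isPrime.ne_top ((Ideal.eq_top_iff_one _).2 h)
  · change t ^ l = t ^ l * (1 : k)
    rw [mul_one]
  · rw [one_pow, map_one, sub_self]
    exact Ideal.zero_mem _

theorem sy_dvd {l : ℕ} (hl : l = 2 ∨ l = 3) {t : k} {z : Eis} (h : Sy l e v t z) : t ≠ 0 ∧ (l : ℤ) ∣ TWR.od v t := by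
  refine ⟨l3s_tne e v h, ?_⟩
  obtain ⟨hz, a, u, hu, ha, htu, hm⟩ := h
  have h0 : (a : k) ≠ 0 := by
    rw [RingOfIntegers.coe_ne_zero_iff]
    rintro rfl
    exact ha (Ideal.zero_mem _)
  have h1 : TWR.od v (a : k) = 0 := by
    rw [TWR.od, NAB.val_unit a v ha, WithZero.log_one]
  rw [htu, TWR.od_mul v (pow_ne_zero _ hu) h0, TWR.od_pow, h1, add_zero]
  exact dvd_mul_right _ _
end

end CX
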