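import Pool.Agent.CX.L3

/-!
# [CX-L4] the Frobenius number of a twist

PROOF. `fr_six`: replace `c` by `c * y`. `fr_twist`: `D = c⁶ D'`, `t = u^l t'`: `D t^m = (c u)⁶ (D' t'^m)` (`l m = 6`), `q = nv v ≡ 1 mod 6` (`nv_mod6`).
`l = 2`, `m = 3`: `(D' t'^3)^((q-1)/2) ≡ s z^3 = s z` (`z = ± 1`), `(4 D' t'^3)^((q-1)/3) ≡ ζ t'^(q-1) ≡ ζ`: new `s z`, `ζ`. `l = 3`, `m = 2`: `(D' t'²)^((q-1)/2) ≡ s t'^(q-1) ≡ s`, `(4 D' t'²)^((q-1)/3) ≡ ζ z²`.
In both cases the new number is `z^m x` (`z^3 = z` for `z = ± 1`). `t'^(q-1) ≡ 1 mod v` for `t' ∉ v`: Fermat in `𝓞 k / v`. `z = ± 1` from `z² = 1`: `Eis` is a domain (`CM27.eis_isDomain`).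
-/

set_option autoImplicit false

open NumberField IsDedekindDomain
open scoped Classical ComplexConjugate

namespace CX

open CM27 CMT NAB CF JD
open CU (la om eE)

section
variable {k : Type} [Field k] [NumberField k] (e : Eis →+* 𝓞 k) (v : HeightOneSpectrum (𝓞 k)) (h6 : (6 : 𝓞 k) ∉ v.asIdeal)

private theorem l4_six_aux {D y : k} (hy : y ≠ 0) {x : Eis} (h : Fr e v D x) : Fr e v (D * y ^ 6) x := by
  obtain ⟨b, s, ζ, f, D', c, h1, h2, h3, h4, h5, h7, h8, h9, h10, h11, h12, h13, h14⟩ := h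
  refine ⟨b, s, ζ, f, D', c * y, h1, h2, h3, h4, h5, mul_ne_zero h7 hy, ?_, h9, h10, h11, h12, h13, h14⟩
  rw [h8]; ring

private theorem l4_mk {a b : 𝓞 k} (h : a - b ∈ v.asIdeal) :
    Ideal.Quotient.mk v.asIdeal a = Ideal.Quotient.mk v.asIdeal b :=
  Ideal.Quotient.eq.mpr h

include h6

theorem fr_six {D y : k} (hy : y ≠ 0) {x : Eis} : Fr e v (D * y ^ 6) x ↔ Fr e v D x := by
  constructor
  · intro h
    have h1 := l4_six_aux e v (inv_ne_zero hy) h
    have h2 : D * y ^ 6 * y⁻¹ ^ 6 = D := by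
      rw [mul_assoc, ← mul_pow, mul_inv_cancel₀ hy, one_pow, mul_one]
    rw [h2] at h1
    exact h1
  · intro h
    exact l4_six_aux e v hy h

theorem fr_twist {l m : ℕ} (hl : l = 2 ∨ l = 3) (hm : l * m = 6) {D t : k} {x z : Eis} (h : Fr e v D x) (ht : Sy l e v t z) :
    Fr e v (D * t ^ m) (z ^ m * x) := by
  have hdom := eis_isDomain
  obtain ⟨b, s, ζ, f, D', c, h1, h2, h3, h4, h5, h7, h8, h9, h10, h11, h12, h13, h14⟩ := h
  obtain ⟨hz, t', u, hu, ht', htu, hsy⟩ := ht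
  have hq : TH.nv v % 6 = 1 := nv_mod6 e v h6
  obtain ⟨r, hr⟩ : ∃ r, TH.nv v = 6 * r + 1 := ⟨TH.nv v / 6, by omega⟩
  have hr1 : (TH.nv v - 1) / 2 = 3 * r := by omega
  have hr2 : (TH.nv v - 1) / 3 = 2 * r := by omega
  have hfer : t' ^ (6 * r) - 1 ∈ v.asIdeal := by
    have h := TH.pow_nv_sub_one v ht'
    rw [hr, Nat.add_sub_cancel] at h
    exact h
  rw [hr1] at h12
  rw [hr2] at h13
  have hfer' := l4_mk v hfer
  have h12' := l4_mk v h12
  have h13' := l4_mk v h13
  rw [map_pow, map_one] at hfer'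
  rw [map_pow] at h12'
  rw [map_pow, map_mul] at h13'
  have hprime := v.isPrime
  rcases hl with rfl | rfl
  · have hm3 : m = 3 := by omega
    subst hm3
    have hz1 : z = 1 ∨ z = -1 := by
      have h0 : (z - 1) * (z + 1) = 0 := by linear_combination hz
      rcases mul_eq_zero.mp h0 with h | h
      · left; linear_combination h
      · right; linear_combination h
    have hsy' : t' ^ (3 * r) - e z ∈ v.asIdeal := by
      rw [hr1] at hsy; exact hsy
    have hsy2 := l4_mk v hsy'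
    rw [map_pow] at hsy2
    refine ⟨b, s * z ^ 3, ζ, f, D' * t' ^ 3, c * u, h1, h2, h3, h4, h5, mul_ne_zero h7 hu, ?_, ?_, ?_, h11, ?_, ?_, ?_⟩
    · rw [h8, htu]; push_cast; ring
    · intro hmem
      rcases hprime.mem_or_mem hmem with h | h
      · exact h9 h
      · exact ht' (hprime.mem_of_pow_mem 3 h)
    · rcases h10 with rfl | rfl <;> rcases hz1 with rfl | rfl
      · left; ring
      · right; ring
      · right; ring
      · left; ring
    · rw [hr1]
      apply Ideal.Quotient.eq.mp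
      rw [map_pow, map_mul, map_pow, mul_pow, h12', ← pow_mul, mul_comm 3 (3 * r), pow_mul, hsy2, map_mul, map_pow,
        map_mul, map_pow]
    · rw [hr2]
      apply Ideal.Quotient.eq.mp
      rw [map_pow, map_mul, map_mul, map_pow, ← mul_assoc, mul_pow, h13', ← pow_mul,
        show 3 * (2 * r) = 6 * r by ring, hfer', mul_one]
    · rw [h14]; ring
  · have hm2 : m = 2 := by omega
    subst hm2
    have hsy' : t' ^ (2 * r) - e z ∈ v.asIdeal := by
      rw [hr2] at hsy; exact hsy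
    have hsy2 := l4_mk v hsy'
    rw [map_pow] at hsy2
    refine ⟨b, s, ζ * z ^ 2, f, D' * t' ^ 2, c * u, h1, h2, h3, h4, h5, mul_ne_zero h7 hu, ?_, ?_, h10, ?_, ?_, ?_, ?_⟩
    · rw [h8, htu]; push_cast; ring
    · intro hmem
      rcases hprime.mem_or_mem hmem with h | h
      · exact h9 h
      · exact ht' (hprime.mem_of_pow_mem 2 h)
    · rw [mul_pow, h11, ← pow_mul, mul_comm 2 3, pow_mul, hz, one_pow, one_mul]
    · rw [hr1]
      apply Ideal.Quotient.eq.mp
      rw [map_pow, map_mul, map_pow, mul_pow, h12', ← pow_mul,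
        show 2 * (3 * r) = 6 * r by ring, hfer', mul_one]
    · rw [hr2]
      apply Ideal.Quotient.eq.mp
      rw [map_pow, map_mul, map_mul, map_pow, ← mul_assoc, mul_pow, h13', ← pow_mul, mul_comm 2 (2 * r), pow_mul, hsy2,
        map_mul, map_pow, map_mul, map_pow]
    · rw [h14]; ring
end

end CX
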