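import Pool.Agent.CX.L3

/-!
# [CX-L5] the Frobenius number over an extension

PROOF. `Fr eK v D x` with `D = c⁶ D'`, `D' ∈ 𝓞 KK`, `Nv = N(b)^f₀`. Over `F`: `algebraMap D = (algebraMap c)⁶ (algebraMap D')`, `algebraMap D' ∉ w` (`NAB.mem_und`), `eO F b = algebraMap (eK b) ∈ w`, `Nw = Nv^f = N(b)^(f₀ f)`; with `q = Nv`: `D'^((q^f-1)/2) = (D'^((q-1)/2))^((q^f-1)/(q-1))` and
`(q^f-1)/(q-1) = 1 + q + ... + q^(f-1) ≡ f mod 2` (`q` odd), `mod 3` (`q ≡ 1 mod 3`), so the symbols are `s^f`, `ζ^f` (`TH.b1d_pow` in TH/B1d.lean is this computation), `x^f = s^f ζ^f b^(f₀ f)`.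
-/

set_option autoImplicit false

open NumberField IsDedekindDomain
open scoped Classical ComplexConjugate

namespace CX

open CM27 CMT NAB CF JD
open CU (la om eE)

theorem fr_up {F : Type} [Field F] [NumberField F] [Algebra KK F] (w : HeightOneSpectrum (𝓞 F))
    (h6 : (6 : 𝓞 KK) ∉ (und KK w).asIdeal) {f : ℕ} (hf : 0 < f)
    (hn : TH.nv w = TH.nv (und KK w) ^ f) {D : KK} {x : Eis} (h : Fr eK (und KK w) D x) :
    Fr (eO F) w (algebraMap KK F D) (x ^ f) := by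
  obtain ⟨b, s, ζ, f0, D', c, h1, h2, h3, h4, h5, h7, h8, h9, h10, h11, h12, h13, h14⟩ := h
  have hq : TH.nv (und KK w) % 6 = 1 := nv_mod6 eK (und KK w) h6
  have hmem : ∀ a : 𝓞 KK, algebraMap (𝓞 KK) (𝓞 F) a ∈ w.asIdeal ↔ a ∈ (und KK w).asIdeal := fun a => (NAB.mem_und w a).symm
  have hcoe : ∀ a : 𝓞 KK, ((algebraMap (𝓞 KK) (𝓞 F) a : 𝓞 F) : F) = algebraMap KK F (a : KK) := fun a =>
    (IsScalarTower.algebraMap_apply (𝓞 KK) (𝓞 F) F a).symm.trans (IsScalarTower.algebraMap_apply (𝓞 KK) KK F a)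
  have key : ∀ (m : ℕ) (a : 𝓞 KK) (t : Eis), 0 < m → m ∣ 6 → t ^ m = 1 → a ^ ((TH.nv (und KK w) - 1) / m) - eK t ∈ (und KK w).asIdeal →
      (algebraMap (𝓞 KK) (𝓞 F) a) ^ ((TH.nv w - 1) / m) - eO F (t ^ f) ∈ w.asIdeal := by
    intro m a t hm hm6 ht hat
    have hmq : m ∣ TH.nv (und KK w) - 1 := dvd_trans hm6 (by omega)
    have e1 : (Ideal.Quotient.mk (und KK w).asIdeal a) ^ ((TH.nv (und KK w) - 1) / m) = Ideal.Quotient.mk (und KK w).asIdeal (eK t) := by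
      rw [← map_pow]
      exact Ideal.Quotient.eq.mpr hat
    have e2 := (TH.b1d_pow (Ideal.Quotient.mk (und KK w).asIdeal a) (Ideal.Quotient.mk (und KK w).asIdeal (eK t))
      (TH.nv (und KK w)) m (by omega) hm hmq e1 (by rw [← map_pow, ← map_pow, ht, map_one, map_one]) f).2
    rw [← hn, ← map_pow, ← map_pow, ← map_pow] at e2
    have e3 := (hmem _).mpr (Ideal.Quotient.eq.mp e2)
    rw [map_sub, map_pow] at e3
    exact e3
  refine ⟨b, s ^ f, ζ ^ f, f0 * f, algebraMap (𝓞 KK) (𝓞 F) D', algebraMap KK F c, h1, h2, ?_, Nat.mul_pos h4 hf, ?_, ?_, ?_, ?_, ?_, ?_, ?_, ?_, ?_⟩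
  · exact (hmem _).mpr h3
  · rw [hn, h5, pow_mul]
  · exact (map_ne_zero (algebraMap KK F)).mpr h7
  · rw [hcoe, h8, map_mul, map_pow]
  · exact fun hh => h9 ((hmem _).mp hh)
  · rcases h10 with rfl | rfl
    · left; exact one_pow f
    · exact neg_one_pow_eq_or Eis f
  · rw [← pow_mul, mul_comm, pow_mul, h11, one_pow]
  · refine key 2 D' s (by norm_num) (by norm_num) ?_ h12
    rcases h10 with rfl | rfl
    · exact one_pow 2
    · exact neg_one_sq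
  · have h13' := key 3 (4 * D') ζ (by norm_num) (by norm_num) h11 h13
    rw [map_mul] at h13'
    have e4 : algebraMap (𝓞 KK) (𝓞 F) 4 = 4 := map_ofNat _ 4
    rw [e4] at h13'
    exact h13'
  · rw [h14, mul_pow, mul_pow, ← pow_mul]

end CX
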