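import Pool.Agent.CX.L6
import Pool.Agent.CX.L3s

/-!
# [CX-L7b] the decomposition group fixes the split characters; lower bounds for e and f

PROOF. `sy_fix`: `d_χ = u^l t'` (`u ∈ KK`, `t' ∈ 𝓞 KK ∖ v`), `t'^((q-1)/l) ≡ 1 mod v`: `t'` is an `l`-th power modulo `v` (cyclic group `(𝓞 KK / v)ˣ` of order `q - 1`, `TH.p17_cube` in TH/P17.lean for `l = 3`): `b ∈ 𝓞 KK`, `b^l ≡ t' mod v`. `y = δ_χ / u ∈ 𝓞 F` (`y^l = t'`), `y^l ≡ b^l mod w`, so `y ≡ jF(ζ) b mod w`
for an `l`-th root of unity `ζ ∈ Eis` (`∏_ζ (y - ζ b) = y^l - b^l ∈ w`). `σ` preserves `w` and fixes `ζ b`: `σ y ≡ ζ b ≡ y mod w`; `σ y = z y` (`kum_act`), `(z - 1) y ∈ w`, `y ∉ w`, so `eO F z - 1 ∈ w`, and `z = 1` since `w ∤ l`.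
`e_dvd`: `l od_w(δ_χ) = od_w(jF d_χ) = ε od_v(d_χ)`, so `l ∣ ε od_v(d_χ)`, `l` prime. `f_dvd`: `y` as above, `y ∉ w`, `y^(Nw - 1) ≡ 1 mod w`, `Nw = q^f`; `y^(q^f - 1) = t'^((q^f-1)/l) = (t'^((q-1)/l))^((q^f-1)/(q-1)) ≡ z^(1 + q + ... + q^(f-1)) = z^f` (`q ≡ 1 mod l`), so `z^f = 1` (`v ∤ l`).
Here the action of `σ` on prime ideals is spelled out: `∀ a : 𝓞 F, a ∈ w → σ a ∈ w` with `galRestrict` or simply elements of `F`: see the statement.
-/

set_option autoImplicit false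

open NumberField IsDedekindDomain
open scoped Classical ComplexConjugate

namespace CX

open CM27 CMT NAB CF JD
open CU (la om eE)

/-- in a finite field with `l ∣ q - 1`, `x ^ ((q - 1) / l) = 1` implies that `x` is an `l`-th power -/
theorem l7b_pow {k : Type} [Field k] [Fintype k] {l : ℕ} (hl : 0 < l) (hd : l ∣ Fintype.card k - 1) (x : k) (hx0 : x ≠ 0)
    (hx : x ^ ((Fintype.card k - 1) / l) = 1) : ∃ b : k, b ^ l = x := by
  obtain ⟨g, hg⟩ := IsCyclic.exists_generator (α := kˣ)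
  obtain ⟨m, hm⟩ := hd
  have hcard : Fintype.card kˣ = l * m := by rw [Fintype.card_units, hm]
  have hcp : 0 < Fintype.card kˣ := Fintype.card_pos
  have hm0 : 0 < m := by
    rcases Nat.eq_zero_or_pos m with h | h
    · rw [hcard, h, mul_zero] at hcp; omega
    · exact h
  have hord : orderOf g = l * m := by
    rw [orderOf_eq_card_of_forall_mem_zpowers hg, Nat.card_eq_fintype_card, hcard]
  rw [hm, Nat.mul_div_cancel_left _ hl] at hx
  set X : kˣ := Units.mk0 x hx0 with hX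
  obtain ⟨n, hn⟩ := (mem_powers_iff_mem_zpowers.mpr (hg X))
  have hn' : g ^ n = X := hn
  have hXm : X ^ m = 1 := by
    ext
    rw [Units.val_pow_eq_pow_val, hX, Units.val_mk0, hx, Units.val_one]
  rw [← hn', ← pow_mul] at hXm
  have h1 := orderOf_dvd_of_pow_eq_one hXm
  rw [hord] at h1
  have h2 : l ∣ n := Nat.dvd_of_mul_dvd_mul_right hm0 h1
  obtain ⟨j, rfl⟩ := h2
  refine ⟨((g ^ j : kˣ) : k), ?_⟩
  rw [← Units.val_pow_eq_pow_val, ← pow_mul, mul_comm j l, hn', hX, Units.val_mk0]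

/-- an `l`-th root of unity congruent to one modulo a prime which does not divide `6` is one -/
theorem l7b_one {k : Type} [Field k] [NumberField k] (e : Eis →+* 𝓞 k) (v : HeightOneSpectrum (𝓞 k)) (h6 : (6 : 𝓞 k) ∉ v.asIdeal)
    {l : ℕ} (hl : l = 2 ∨ l = 3) {z : Eis} (hz : z ^ l = 1) (h : e z - 1 ∈ v.asIdeal) : z = 1 := by
  have hdom : IsDomain Eis := eis_isDomain
  by_contra hne
  apply h6
  have hne' : z - 1 ≠ 0 := sub_ne_zero.mpr hne
  rcases hl with rfl | rfl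
  · have h1 : (z - 1) * (z + 1) = 0 := by linear_combination hz
    have h2 : z + 1 = 0 := (mul_eq_zero.mp h1).resolve_left hne'
    have h3 : (2 : Eis) = -(z - 1) := by linear_combination h2
    have h4 : (6 : 𝓞 k) = -3 * (e z - 1) := by
      have := congrArg e h3
      rw [map_neg, map_sub, map_one, map_ofNat] at this
      linear_combination 3 * this
    rw [h4]
    exact Ideal.mul_mem_left _ _ h
  · have h1 : (z - 1) * (z ^ 2 + z + 1) = 0 := by linear_combination hz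
    have h2 : z ^ 2 + z + 1 = 0 := (mul_eq_zero.mp h1).resolve_left hne'
    have h3 : (3 : Eis) = -(z - 1) * (z + 2) := by linear_combination h2
    have h4 : (6 : 𝓞 k) = -2 * (e z + 2) * (e z - 1) := by
      have := congrArg e h3
      rw [map_mul, map_neg, map_sub, map_add, map_one, map_ofNat, map_ofNat] at this
      linear_combination 2 * this
    rw [h4]
    exact Ideal.mul_mem_left _ _ h

section
variable {F : Type} [Field F] [NumberField F] [Algebra KK F] {l n : ℕ} [NeZero l] {d : Fin n → Eis} {δ : Fin n → F}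
  (hl : l = 2 ∨ l = 3) (hK : Kum l n d δ) (w : HeightOneSpectrum (𝓞 F)) (h6 : (6 : 𝓞 KK) ∉ (und KK w).asIdeal)
include hl hK h6

omit [NeZero l] in
/-- the integral root -/
theorem l7b_root (χ : Fin n → ZMod l) {t' : 𝓞 KK} {u : KK} (hu : u ≠ 0) (ht : t' ∉ (und KK w).asIdeal)
    (h : jK (dx d χ) = u ^ l * (t' : KK)) : ∃ y : 𝓞 F, y ^ l = algebraMap (𝓞 KK) (𝓞 F) t' ∧ y ∉ w.asIdeal ∧
      (y : F) * algebraMap KK F u = dl δ χ := by
  have hl0 : 0 < l := by rcases hl with rfl | rfl <;> norm_num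
  have huF : algebraMap KK F u ≠ 0 := fun h => hu ((map_eq_zero_iff _ (algebraMap KK F).injective).mp h)
  have h1 : (dl δ χ / algebraMap KK F u) ^ l = ((algebraMap (𝓞 KK) (𝓞 F) t' : 𝓞 F) : F) := by
    rw [div_pow, dl_pow hK χ, jF_apply, h, map_mul, map_pow, mul_comm, mul_div_assoc, div_self (pow_ne_zero _ huF), mul_one]
    exact (IsScalarTower.algebraMap_apply (𝓞 KK) KK F t').symm.trans (IsScalarTower.algebraMap_apply (𝓞 KK) (𝓞 F) F t')
  have hint : IsIntegral ℤ (dl δ χ / algebraMap KK F u) := by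
    apply IsIntegral.of_pow hl0
    rw [h1]
    exact RingOfIntegers.isIntegral_coe _
  obtain ⟨y, hy⟩ : ∃ y : 𝓞 F, (y : F) = dl δ χ / algebraMap KK F u := ⟨⟨_, hint⟩, rfl⟩
  have h2 : y ^ l = algebraMap (𝓞 KK) (𝓞 F) t' := by
    apply RingOfIntegers.ext
    change (y : F) ^ l = _
    rw [hy]
    exact h1
  refine ⟨y, h2, ?_, ?_⟩
  · intro hyw
    apply ht
    rw [mem_und, ← h2]
    exact Ideal.pow_mem_of_mem _ hyw _ hl0
  · rw [hy]
    exact div_mul_cancel₀ _ huF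

theorem sy_fix (χ : Fin n → ZMod l) (h : Sy l eK (und KK w) (jK (dx d χ)) 1) (σ : F ≃ₐ[KK] F)
    (hσ : ∀ x : F, w.valuation F x < 1 → w.valuation F (σ x) < 1) : σ (dl δ χ) = dl δ χ := by
  have hl0 : 0 < l := by rcases hl with rfl | rfl <;> norm_num
  have hdom : IsDomain Eis := eis_isDomain
  obtain ⟨-, t', u, hu, ht, htu, h1⟩ := h
  rw [map_one] at h1
  obtain ⟨y, hy1, hy2, hy3⟩ := l7b_root hl hK w h6 χ hu ht htu
  set v := und KK w with hv
  -- an `l`-th root modulo `v`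
  have hmod := nv_mod6 eK v h6
  have hdvd : l ∣ TH.nv v - 1 := by rcases hl with rfl | rfl <;> omega
  obtain ⟨b, hb⟩ : ∃ b : 𝓞 KK, b ^ l - t' ∈ v.asIdeal := by
    have hmax : v.asIdeal.IsMaximal := v.isMaximal
    let _ : Field (𝓞 KK ⧸ v.asIdeal) := Ideal.Quotient.field v.asIdeal
    have hfin : Finite (𝓞 KK ⧸ v.asIdeal) := Ideal.finiteQuotientOfFreeOfNeBot _ v.ne_bot
    let _ : Fintype (𝓞 KK ⧸ v.asIdeal) := Fintype.ofFinite _
    have hc : Fintype.card (𝓞 KK ⧸ v.asIdeal) = TH.nv v := by rw [TH.nv, Nat.card_eq_fintype_card]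
    have h2 : (Ideal.Quotient.mk v.asIdeal t') ^ ((Fintype.card (𝓞 KK ⧸ v.asIdeal) - 1) / l) = 1 := by
      rw [hc, ← map_pow, ← map_one (Ideal.Quotient.mk v.asIdeal)]
      exact Ideal.Quotient.eq.mpr h1
    have h3 : Ideal.Quotient.mk v.asIdeal t' ≠ 0 := fun h => ht (Ideal.Quotient.eq_zero_iff_mem.mp h)
    obtain ⟨β, hβ⟩ := l7b_pow hl0 (by rw [hc]; exact hdvd) _ h3 h2
    obtain ⟨b, rfl⟩ := Ideal.Quotient.mk_surjective β
    exact ⟨b, Ideal.Quotient.eq.mp (by rw [map_pow]; exact hβ)⟩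
  set B := algebraMap (𝓞 KK) (𝓞 F) b with hB
  have h2 : y ^ l - B ^ l ∈ w.asIdeal := by
    have h3 : algebraMap (𝓞 KK) (𝓞 F) (b ^ l - t') ∈ w.asIdeal := (mem_und w _).mp hb
    rw [map_sub, map_pow, ← hy1] at h3
    have h4 := w.asIdeal.neg_mem h3
    rwa [neg_sub] at h4
  obtain ⟨z, hz, hzy⟩ : ∃ z : Eis, z ^ l = 1 ∧ y - eO F z * B ∈ w.asIdeal := by
    rcases hl with rfl | rfl
    · have h3 : (y - eO F 1 * B) * (y - eO F (-1) * B) ∈ w.asIdeal := by
        have : (y - eO F 1 * B) * (y - eO F (-1) * B) = y ^ 2 - B ^ 2 := by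
          rw [map_neg, map_one]; ring
        rwa [this]
      rcases w.isPrime.mem_or_mem h3 with h4 | h4
      · exact ⟨1, one_pow _, h4⟩
      · exact ⟨-1, by norm_num, h4⟩
    · have hom : eO F om ^ 2 + eO F om + 1 = 0 := by
        rw [← map_pow, ← map_add, ← map_one (eO F), ← map_add, show (om : Eis) ^ 2 + om + 1 = 0 by decide, map_zero]
      have hom3 : eO F om ^ 3 = 1 := by linear_combination (eO F om - 1) * hom
      have h3 : (y - eO F 1 * B) * ((y - eO F om * B) * (y - eO F (om ^ 2) * B)) ∈ w.asIdeal := by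
        have : (y - eO F 1 * B) * ((y - eO F om * B) * (y - eO F (om ^ 2) * B)) = y ^ 3 - B ^ 3 := by
          rw [map_pow, map_one]
          linear_combination (-(y ^ 2 * B) + y * B ^ 2 * eO F om) * hom + (y * B ^ 2 * 0 - B ^ 3) * hom3
        rwa [this]
      have hom3' : (om : Eis) ^ 3 = 1 := by decide
      rcases w.isPrime.mem_or_mem h3 with h4 | h4
      · exact ⟨1, one_pow _, h4⟩
      · rcases w.isPrime.mem_or_mem h4 with h5 | h5
        · exact ⟨om, hom3', h5⟩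
        · exact ⟨om ^ 2, by rw [← pow_mul, mul_comm, pow_mul, hom3', one_pow], h5⟩
  obtain ⟨z1, hz1, hσδ⟩ := kum_act hl hK σ χ
  have huF : algebraMap KK F u ≠ 0 := fun h => hu ((map_eq_zero_iff _ (algebraMap KK F).injective).mp h)
  have hσy : σ (y : F) = jF F z1 * (y : F) := by
    apply mul_right_cancel₀ huF
    have h3 := congrArg σ hy3
    rw [map_mul, σ.commutes, hσδ, ← hy3] at h3
    rw [h3]; ring
  have h3 : w.valuation F (((y - eO F z * B : 𝓞 F) : 𝓞 F) : F) < 1 := (val_lt_iff _ w).2 hzy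
  have h4 := hσ _ h3
  have e1 : (((y - eO F z * B : 𝓞 F) : 𝓞 F) : F) = (y : F) - algebraMap KK F (jK z * (b : KK)) := by
    have e3 : ((B : 𝓞 F) : F) = algebraMap KK F (b : KK) :=
      ((IsScalarTower.algebraMap_apply (𝓞 KK) KK F b).symm.trans (IsScalarTower.algebraMap_apply (𝓞 KK) (𝓞 F) F b)).symm
    change (y : F) - ((eO F z : 𝓞 F) : F) * (B : F) = _
    rw [e3, eO_coe, jF_apply, map_mul]
  have h5 : w.valuation F (σ (((y - eO F z * B : 𝓞 F) : 𝓞 F) : F) - (((y - eO F z * B : 𝓞 F) : 𝓞 F) : F)) < 1 :=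
    lt_of_le_of_lt (Valuation.map_sub _ _ _) (max_lt h4 h3)
  have e2 : σ (((y - eO F z * B : 𝓞 F) : 𝓞 F) : F) - (((y - eO F z * B : 𝓞 F) : 𝓞 F) : F) = (((eO F z1 - 1) * y : 𝓞 F) : F) := by
    have e4 : (((eO F z1 - 1) * y : 𝓞 F) : F) = (jF F z1 - 1) * (y : F) := by
      change (((eO F z1 : 𝓞 F) : F) - 1) * (y : F) = _
      rw [eO_coe]
    rw [e1, map_sub, σ.commutes, hσy, e4]
    ring
  rw [e2, val_lt_iff] at h5
  have h7 : eO F z1 - 1 ∈ w.asIdeal := (w.isPrime.mem_or_mem h5).resolve_right hy2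
  have h8 : eK z1 - 1 ∈ v.asIdeal := by
    rw [hv, mem_und, map_sub, map_one]
    exact h7
  have h9 : z1 = 1 := l7b_one eK v h6 hl hz1 h8
  rw [hσδ, h9, map_one, one_mul]

theorem e_dvd (ε : ℤ) (he : ∀ x : KK, x ≠ 0 → TWR.od w (algebraMap KK F x) = ε * TWR.od (und KK w) x) (χ : Fin n → ZMod l)
    (h : ¬ (l : ℤ) ∣ TWR.od (und KK w) (jK (dx d χ))) : (l : ℤ) ∣ ε := by
  have hlp : l.Prime := by rcases hl with rfl | rfl <;> norm_num
  have hne : jK (dx d χ) ≠ 0 := by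
    intro h0
    apply h
    rw [h0, TWR.od, map_zero, WithZero.log_zero]
    exact dvd_zero _
  have h1 := he _ hne
  rw [← jF_apply, ← dl_pow hK χ, TWR.od_pow] at h1
  have h2 : (l : ℤ) ∣ ε * TWR.od (und KK w) (jK (dx d χ)) := by
    rw [← h1]; exact dvd_mul_right _ _
  exact ((Nat.prime_iff_prime_int.mp hlp).dvd_or_dvd h2).resolve_right h

theorem f_dvd (f : ℕ) (hf : TH.nv w = TH.nv (und KK w) ^ f) (χ : Fin n → ZMod l) (z : Eis) (h : Sy l eK (und KK w) (jK (dx d χ)) z) :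
    z ^ f = 1 := by
  have hl0 : 0 < l := by rcases hl with rfl | rfl <;> norm_num
  obtain ⟨hz, t', u, hu, ht, htu, h1⟩ := h
  obtain ⟨y, hy1, hy2, hy3⟩ := l7b_root hl hK w h6 χ hu ht htu
  set v := und KK w with hv
  have hmod := nv_mod6 eK v h6
  set q := TH.nv v with hq
  have hq1 : 1 ≤ q := by omega
  obtain ⟨m, hm⟩ : l ∣ q - 1 := by rcases hl with rfl | rfl <;> omega
  set S := ∑ i ∈ Finset.range f, q ^ i with hS
  have hgeom : q ^ f - 1 = l * (m * S) := by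
    have h2 : (q - 1) * S = q ^ f - 1 := by
      rw [mul_comm]
      exact geom_sum_mul_of_one_le hq1 f
    rw [← h2, hm]; ring
  have h2 := TH.pow_nv_sub_one w hy2
  rw [hf, hgeom, pow_mul, hy1, pow_mul] at h2
  have h3 : (algebraMap (𝓞 KK) (𝓞 F) t') ^ m - eO F z ∈ w.asIdeal := by
    rw [hm, Nat.mul_div_cancel_left _ hl0] at h1
    have h4 := (mem_und w _).mp h1
    rwa [map_sub, map_pow] at h4
  have h4 : ((algebraMap (𝓞 KK) (𝓞 F) t') ^ m) ^ S - (eO F z) ^ S ∈ w.asIdeal := by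
    obtain ⟨c, hc⟩ := sub_dvd_pow_sub_pow ((algebraMap (𝓞 KK) (𝓞 F) t') ^ m) (eO F z) S
    rw [hc]
    exact Ideal.mul_mem_right _ _ h3
  have h5 : (eO F z) ^ S - 1 ∈ w.asIdeal := by
    have := w.asIdeal.sub_mem h2 h4
    have e1 : ((algebraMap (𝓞 KK) (𝓞 F) t') ^ m) ^ S - 1 - (((algebraMap (𝓞 KK) (𝓞 F) t') ^ m) ^ S - (eO F z) ^ S) = (eO F z) ^ S - 1 := by ring
    rwa [e1] at this
  have h7 : eK (z ^ S) - 1 ∈ v.asIdeal := by
    rw [hv, mem_und, map_sub, map_one, map_pow, map_pow]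
    exact h5
  have h8 : z ^ S = 1 := l7b_one eK v h6 hl (by rw [← pow_mul, mul_comm, pow_mul, hz, one_pow]) h7
  have hSf : S % l = f % l := by
    rw [hS, Finset.sum_nat_mod]
    have hqi : ∀ i ∈ Finset.range f, q ^ i % l = 1 % l := by
      intro i _
      rw [Nat.pow_mod]
      have : q % l = 1 % l := by rcases hl with rfl | rfl <;> omega
      rw [this, ← Nat.pow_mod, one_pow]
    rw [Finset.sum_congr rfl hqi, ← Finset.sum_nat_mod]
    simp
  have h9 : z ^ f = z ^ S := by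
    rw [← Nat.mod_add_div f l, ← Nat.mod_add_div S l, pow_add, pow_add, pow_mul, pow_mul z l, hz, one_pow, one_pow, hSf]
  rw [h9, h8]
end

end CX
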