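import Pool.Agent.CX.L7a
import Pool.Agent.CX.L7b
import Pool.Agent.CX.L7c

/-!
# [CX-L7] the decomposition of the places and the values of the symbols

PROOF. `efg` gives `e, f, g`, `g e f = l^n`. `B = {χ | Sy 1}`, `H = {χ | l ∣ od v (d_χ)}` are subgroups of `A = Fin n → ZMod l` (`dx_add`, `sy_mul`, `sy_pow`, `exists_sy`, `sy_unique`, `TWR.od_mul`, `TWR.od_pow`). `A ⧸ H` embeds in `ZMod l` by `od v (d_χ) mod l`, so `[A : H] = 1` or `l`; `H ⧸ B` embeds in the `l`-th roots of unity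
(a set of `l` elements), so `[H : B] = 1` or `l`. For `w` over `v` (`NAB.exists_above`) the stabilizer fixes the `δ_χ`, `χ ∈ B` (`sy_fix`), so (`kum_fix`) `e f #B ≤ l^n`, i.e. `e f ≤ [A : H] [H : B]`. If `[A : H] = l` then `l ∣ e` (`e_dvd`), if `[H : B] = l` then some symbol is `z ≠ 1`, `z^l = 1`, `z^f = 1` (`f_dvd`) so `l ∣ f` (`l` prime).
So `[A : H] ≤ e`, `[H : B] ≤ f`, hence equality: `e = [A : H]`, `f = [H : B]`, `#B = l^n / (e f) = g`. For `z^f = 1`: if `f = 1`, `z = 1` and the set is `B`; if `f = l` the symbols of `H` take all `l` values (a nontrivial homomorphism to a group of prime order `l`; the `l`-th roots of unity of `Eis` are the powers of any `z₀ ≠ 1`)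
and the set is a coset of `B`, of `g` elements. `e = l` iff some `l ∤ od v (d_i)`: if all `l ∣ od v (d_i)` then `H = A`; `d_i = dx (single i 1)` (`l > 1`).
-/

set_option autoImplicit false

open NumberField IsDedekindDomain
open scoped Classical ComplexConjugate

namespace CX

open CM27 CMT NAB CF JD
open CU (la om eE)

private theorem l7_card {G M : Type} [AddCommGroup G] [AddCommGroup M] (φ : G →+ M) :
    Nat.card G = Nat.card φ.range * Nat.card φ.ker := by
  rw [AddSubgroup.card_eq_card_quotient_mul_card_addSubgroup φ.ker,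
    Nat.card_congr (QuotientAddGroup.quotientKerEquivRange φ).toEquiv]

private theorem l7_dich {G M : Type} [AddCommGroup G] [AddCommGroup M] [Finite M] (φ : G →+ M) {l : ℕ} (hl : l.Prime)
    (hM : ∀ m : M, l • m = 0) (hc : Nat.card M ≤ l) :
    ((∀ x, φ x = 0) ∧ Nat.card G = 1 * Nat.card φ.ker) ∨
      (Function.Surjective φ ∧ (∃ x, φ x ≠ 0) ∧ Nat.card G = l * Nat.card φ.ker) := by
  have := Fact.mk hl
  by_cases h : ∀ x, φ x = 0
  · left
    refine ⟨h, ?_⟩
    have h1 : φ.ker = ⊤ := by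
      rw [eq_top_iff]
      intro x _
      exact h x
    rw [one_mul, h1, AddSubgroup.card_top]
  · right
    push Not at h
    obtain ⟨x, hx⟩ := h
    have h1 : addOrderOf (⟨φ x, ⟨x, rfl⟩⟩ : φ.range) = l := by
      apply addOrderOf_eq_prime
      · apply Subtype.ext
        exact hM (φ x)
      · intro h2
        exact hx (congrArg Subtype.val h2)
    have h2 : l ∣ Nat.card φ.range := by
      rw [← h1]
      exact addOrderOf_dvd_natCard _
    have h3 : l ≤ Nat.card φ.range := Nat.le_of_dvd Nat.card_pos h2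
    have h4 : Nat.card φ.range ≤ Nat.card M := Nat.card_le_card_of_injective _ Subtype.val_injective
    have h5 : φ.range = ⊤ := AddSubgroup.eq_top_of_card_eq _ (le_antisymm h4 (hc.trans h3))
    refine ⟨AddMonoidHom.range_eq_top.mp h5, ⟨x, hx⟩, ?_⟩
    rw [l7_card φ, le_antisymm (h4.trans hc) h3]

theorem place_count {F : Type} [Field F] [NumberField F] [Algebra KK F] {l n : ℕ} [NeZero l] {d : Fin n → Eis} {δ : Fin n → F}
    (hl : l = 2 ∨ l = 3) (hK : Kum l n d δ) (v : HeightOneSpectrum (𝓞 KK)) (h6 : (6 : 𝓞 KK) ∉ v.asIdeal) :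
    ∃ e f g : ℕ, (e = 1 ∨ e = l) ∧ (f = 1 ∨ f = l) ∧ 0 < g ∧ g * (e * f) = l ^ n ∧
      (e = l ↔ ∃ i, ¬ (l : ℤ) ∣ TWR.od v (jK (d i))) ∧
      {w : HeightOneSpectrum (𝓞 F) | und KK w = v}.ncard = g ∧
      (∀ w : HeightOneSpectrum (𝓞 F), und KK w = v → TH.nv w = TH.nv v ^ f ∧
        (∀ x : KK, x ≠ 0 → TWR.od w (algebraMap KK F x) = e * TWR.od v x) ∧
        (v.asIdeal.map (algebraMap (𝓞 KK) (𝓞 F)) ≤ w.asIdeal ^ 2 ↔ e = l)) ∧
      (∀ z : Eis, z ^ f = 1 → {χ : Fin n → ZMod l | Sy l eK v (jK (dx d χ)) z}.ncard = g) ∧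
      ∀ (χ : Fin n → ZMod l) (z : Eis), Sy l eK v (jK (dx d χ)) z → z ^ f = 1 := by
  have hdom := eis_isDomain
  have hgal := kum_galois hl hK
  obtain ⟨w, hw⟩ := exists_above (F := F) v
  obtain ⟨e, f, g, he, hf, hg, hgef, hcard, -, hall⟩ := efg (F := F) v
  obtain ⟨hnv, hod, hram, hstab⟩ := hall w hw
  have h6w : (6 : 𝓞 KK) ∉ (und KK w).asIdeal := by rw [hw]; exact h6
  have hlp : l.Prime := by
    rcases hl with rfl | rfl
    · exact Nat.prime_two
    · exact Nat.prime_three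
  have hl1 : 1 < l := hlp.one_lt
  have hl0 : 0 < l := by omega
  have hjne : ∀ χ : Fin n → ZMod l, jK (dx d χ) ≠ 0 := fun χ h => dx_ne hK χ (jK_inj (h.trans (map_zero _).symm))
  have hadd : ∀ χ χ' : Fin n → ZMod l, ∃ c : KK, c ≠ 0 ∧ jK (dx d χ) * jK (dx d χ') = jK (dx d (χ + χ')) * c ^ l := by
    intro χ χ'
    obtain ⟨c, hc, h1, -⟩ := dx_add hK χ χ'
    refine ⟨jK c, fun h => hc (jK_inj (h.trans (map_zero _).symm)), ?_⟩
    rw [← map_mul, h1, map_mul, map_pow]
  have hod1 : TWR.od v (1 : KK) = 0 := by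
    have h1 := TWR.od_pow v (1 : KK) 0
    rw [pow_zero] at h1
    rw [h1]; simp
  -- the order modulo l
  let φ : (Fin n → ZMod l) →+ ZMod l :=
    { toFun := fun χ => ((TWR.od v (jK (dx d χ)) : ℤ) : ZMod l)
      map_zero' := by rw [dx_zero, map_one, hod1, Int.cast_zero]
      map_add' := by
        intro χ χ'
        obtain ⟨c, hc, h1⟩ := hadd χ χ'
        have h2 := congrArg (TWR.od v) h1
        rw [TWR.od_mul v (hjne χ) (hjne χ'), TWR.od_mul v (hjne _) (pow_ne_zero _ hc), TWR.od_pow] at h2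
        rw [← Int.cast_add, h2, Int.cast_add, Int.cast_mul, Int.cast_natCast, ZMod.natCast_self, zero_mul, add_zero] }
  have hφ : ∀ χ, φ χ = 0 ↔ (l : ℤ) ∣ TWR.od v (jK (dx d χ)) := fun χ => CharP.intCast_eq_zero_iff (ZMod l) l _
  have hz : ∀ χ : φ.ker, ∃ z, Sy l eK v (jK (dx d χ.1)) z := fun χ => exists_sy eK v h6 hl (hjne _) ((hφ _).1 χ.2)
  choose zz hzz using hz
  have hzadd : ∀ χ χ' : φ.ker, zz (χ + χ') = zz χ * zz χ' := by
    intro χ χ'
    obtain ⟨c, hc, h1⟩ := hadd χ.1 χ'.1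
    have h2 := sy_mul eK v h6 hl (hzz χ) (hzz χ')
    have h3 := sy_mul eK v h6 hl (hzz (χ + χ')) (sy_pow eK v h6 hl hc)
    have h4 : jK (dx d (χ + χ' : φ.ker).1) * c ^ l = jK (dx d χ.1) * jK (dx d χ'.1) := h1.symm
    rw [h4] at h3
    rw [← sy_unique eK v h6 hl h3 h2, mul_one]
  have hzzero : zz 0 = 1 := by
    have h1 := sy_pow eK v h6 hl (one_ne_zero (α := KK))
    have h2 := hzz 0
    have h3 : jK (dx d ((0 : φ.ker) : Fin n → ZMod l)) = 1 := by
      change jK (dx d (0 : Fin n → ZMod l)) = 1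
      rw [dx_zero, map_one]
    rw [h3] at h2
    rw [one_pow] at h1
    exact sy_unique eK v h6 hl h2 h1
  let ψ : φ.ker →+ Additive (rootsOfUnity l Eis) :=
    { toFun := fun χ => Additive.ofMul (rootsOfUnity.mkOfPowEq (zz χ) (hzz χ).1)
      map_zero' := by
        apply Additive.toMul.injective
        apply Subtype.ext
        apply Units.ext
        exact hzzero
      map_add' := by
        intro χ χ'
        apply Additive.toMul.injective
        apply Subtype.ext
        apply Units.ext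
        exact hzadd χ χ' }
  have hψ : ∀ χ, ψ χ = 0 ↔ zz χ = 1 := by
    intro χ
    constructor
    · intro h
      exact congrArg (fun x : Additive (rootsOfUnity l Eis) => (((Additive.toMul x : rootsOfUnity l Eis) : Eisˣ) : Eis)) h
    · intro h
      apply Additive.toMul.injective
      apply Subtype.ext
      apply Units.ext
      exact h
  have hfin : Finite (Additive (rootsOfUnity l Eis)) := inferInstanceAs (Finite (rootsOfUnity l Eis))
  have d1 := l7_dich φ hlp (fun m => by rw [nsmul_eq_mul, ZMod.natCast_self, zero_mul]) (by rw [Nat.card_zmod])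
  have d2 := l7_dich ψ hlp (fun m => by
    apply Additive.toMul.injective
    apply Subtype.ext
    exact (Additive.toMul m).2) (card_rootsOfUnity (R := Eis) (k := l))
  -- the subgroup B
  let B : AddSubgroup (Fin n → ZMod l) := ψ.ker.map φ.ker.subtype
  have hB : ∀ χ, χ ∈ B ↔ Sy l eK v (jK (dx d χ)) 1 := by
    intro χ
    constructor
    · rintro ⟨x, hx, rfl⟩
      have h1 : zz x = 1 := (hψ x).1 hx
      have h2 := hzz x
      rw [h1] at h2
      exact h2
    · intro h
      have h1 := (sy_dvd eK v h6 hl h).2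
      have h2 : χ ∈ φ.ker := (hφ χ).2 h1
      exact ⟨⟨χ, h2⟩, (hψ _).2 (sy_unique eK v h6 hl (hzz ⟨χ, h2⟩) h), rfl⟩
  have hBcard : Nat.card ψ.ker = Nat.card B :=
    Nat.card_congr (ψ.ker.equivMapOfInjective φ.ker.subtype φ.ker.subtype_injective).toEquiv
  have hAcard : Nat.card (Fin n → ZMod l) = l ^ n := by
    rw [Nat.card_eq_fintype_card, Fintype.card_fun, ZMod.card, Fintype.card_fin]
  have hBpos : 0 < Nat.card B := Nat.card_pos
  rw [hAcard] at d1
  -- the stabilizer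
  have hstab2 : e * f * Nat.card B ≤ l ^ n := by
    refine le_trans (Nat.mul_le_mul_right _ ?_) (kum_fix hl hK B)
    rw [← hstab]
    refine Nat.card_le_card_of_injective (fun σ => ⟨σ.1, fun χ hχ => ?_⟩) ?_
    · have h1 := (hB χ).1 hχ
      rw [← hw] at h1
      exact sy_fix hl hK w h6w χ h1 σ.1 σ.2
    · intro σ τ h
      apply Subtype.ext
      exact congrArg (fun x => x.1) h
  have hfdvd : ∀ (χ : Fin n → ZMod l) (z : Eis), Sy l eK v (jK (dx d χ)) z → z ^ f = 1 := by
    intro χ z h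
    rw [← hw] at h hnv
    exact f_dvd hl hK w h6w f hnv χ z h
  have hedvd : ∀ χ : Fin n → ZMod l, ¬ (l : ℤ) ∣ TWR.od v (jK (dx d χ)) → l ∣ e := by
    intro χ h
    rw [← hw] at h hod
    have h1 := e_dvd hl hK w h6w (e : ℤ) hod χ h
    exact_mod_cast h1
  -- the index of the kernel of φ
  obtain ⟨a, ha, hA, hae, had⟩ : ∃ a : ℕ, (a = 1 ∨ a = l) ∧ l ^ n = a * Nat.card φ.ker ∧ a ≤ e ∧
      (a = l ↔ ∃ χ : Fin n → ZMod l, ¬ (l : ℤ) ∣ TWR.od v (jK (dx d χ))) := by
    rcases d1 with ⟨h1, h2⟩ | ⟨h1, ⟨x, hx⟩, h2⟩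
    · refine ⟨1, Or.inl rfl, h2, he, ⟨fun h => absurd h (by omega), ?_⟩⟩
      rintro ⟨χ, hχ⟩
      exact absurd ((hφ χ).1 (h1 χ)) hχ
    · have h3 : ¬ (l : ℤ) ∣ TWR.od v (jK (dx d x)) := fun h => hx ((hφ x).2 h)
      exact ⟨l, Or.inr rfl, h2, Nat.le_of_dvd he (hedvd x h3), ⟨fun _ => ⟨x, h3⟩, fun _ => rfl⟩⟩
  obtain ⟨b, hb, hbB, hbf, hbs⟩ : ∃ b : ℕ, (b = 1 ∨ b = l) ∧ Nat.card φ.ker = b * Nat.card B ∧ b ≤ f ∧
      (∀ z : Eis, z ^ b = 1 → ∃ χ : φ.ker, zz χ = z) := by
    rw [← hBcard]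
    rcases d2 with ⟨h1, h2⟩ | ⟨h1, ⟨x, hx⟩, h2⟩
    · refine ⟨1, Or.inl rfl, h2, hf, ?_⟩
      intro z hz
      rw [pow_one] at hz
      exact ⟨0, hzzero.trans hz.symm⟩
    · refine ⟨l, Or.inr rfl, h2, ?_, ?_⟩
      · have h3 : zz x ≠ 1 := fun h => hx ((hψ x).2 h)
        have h4 := hfdvd x.1 (zz x) (hzz x)
        have h5 : (zz x) ^ l = 1 := (hzz x).1
        have := Fact.mk hlp
        have h6 : orderOf (zz x) = l := orderOf_eq_prime h5 h3
        have h7 : l ∣ f := by
          rw [← h6]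
          exact orderOf_dvd_of_pow_eq_one h4
        exact Nat.le_of_dvd hf h7
      · intro z hz
        obtain ⟨χ, hχ⟩ := h1 (Additive.ofMul (rootsOfUnity.mkOfPowEq z hz))
        exact ⟨χ, congrArg (fun x : Additive (rootsOfUnity l Eis) => (((Additive.toMul x : rootsOfUnity l Eis) : Eisˣ) : Eis)) hχ⟩
  have hef : e * f ≤ a * b := by
    have h1 : e * f * Nat.card B ≤ a * b * Nat.card B := by
      calc e * f * Nat.card B ≤ l ^ n := hstab2
        _ = a * b * Nat.card B := by rw [hA, hbB]; ring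
    exact Nat.le_of_mul_le_mul_right h1 hBpos
  have hapos : 0 < a := by rcases ha with rfl | rfl <;> omega
  have hbpos : 0 < b := by rcases hb with rfl | rfl <;> omega
  have hea : e = a := by
    refine le_antisymm ?_ hae
    by_contra h
    push Not at h
    have h1 : a * b < e * f := Nat.mul_lt_mul_of_lt_of_le h hbf hf
    omega
  have hfb : f = b := by
    refine le_antisymm ?_ hbf
    by_contra h
    push Not at h
    have h1 : a * b < e * f := Nat.mul_lt_mul_of_le_of_lt hae h he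
    omega
  subst hea hfb
  have hgB : Nat.card B = g := by
    have h1 : g * (e * f) = Nat.card B * (e * f) := by
      rw [hgef, hK.rank, hA, hbB]; ring
    exact (Nat.eq_of_mul_eq_mul_right (Nat.mul_pos he hf) h1).symm
  refine ⟨e, f, g, ha, hb, hg, by rw [hgef, hK.rank], ?_, hcard, ?_, ?_, hfdvd⟩
  · rw [had]
    constructor
    · rintro ⟨χ, hχ⟩
      by_contra hcon
      push Not at hcon
      apply hχ
      have h1 : dx d χ ≠ 0 ∧ (l : ℤ) ∣ TWR.od v (jK (dx d χ)) := by
        rw [dx]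
        refine Finset.prod_induction (fun i => d i ^ (χ i).val) (fun y : Eis => y ≠ 0 ∧ (l : ℤ) ∣ TWR.od v (jK y)) ?_ ?_ ?_
        · rintro x y ⟨hx, hx2⟩ ⟨hy, hy2⟩
          refine ⟨mul_ne_zero hx hy, ?_⟩
          rw [map_mul, TWR.od_mul v (fun h => hx (jK_inj (h.trans (map_zero _).symm)))
            (fun h => hy (jK_inj (h.trans (map_zero _).symm)))]
          exact dvd_add hx2 hy2
        · refine ⟨one_ne_zero, ?_⟩
          rw [map_one, hod1]
          exact dvd_zero _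
        · intro i _
          refine ⟨pow_ne_zero _ (hK.ne i), ?_⟩
          rw [map_pow, TWR.od_pow]
          exact Dvd.dvd.mul_left (hcon i) _
      exact h1.2
    · rintro ⟨i, hi⟩
      refine ⟨Pi.single i 1, ?_⟩
      have : Fact (1 < l) := ⟨hl1⟩
      rw [dx_single, ZMod.val_one, pow_one]
      exact hi
  · intro w' hw'
    obtain ⟨k1, k2, k3, -⟩ := hall w' hw'
    refine ⟨k1, k2, k3.trans ?_⟩
    rcases ha with h | h <;> omega
  · intro z hz
    obtain ⟨χ0, hχ0⟩ := hbs z hz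
    have h0 : Sy l eK v (jK (dx d χ0.1)) z := by
      have h1 := hzz χ0
      rw [hχ0] at h1
      exact h1
    have h1 : {χ : Fin n → ZMod l | Sy l eK v (jK (dx d χ)) z} = (fun x => χ0.1 + x) '' (B : Set (Fin n → ZMod l)) := by
      ext χ
      simp only [Set.mem_ofPred_eq, Set.mem_image, SetLike.mem_coe]
      constructor
      · intro h
        have h2 : χ ∈ φ.ker := (hφ χ).2 (sy_dvd eK v h6 hl h).2
        have h3 : zz ⟨χ, h2⟩ = z := sy_unique eK v h6 hl (hzz ⟨χ, h2⟩) h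
        refine ⟨χ - χ0.1, ?_, by abel⟩
        have h4 : (⟨χ, h2⟩ : φ.ker) = χ0 + (⟨χ, h2⟩ - χ0) := by abel
        have h5 := hzadd χ0 (⟨χ, h2⟩ - χ0)
        rw [← h4, h3, hχ0] at h5
        have h6' : z ≠ 0 := by
          rintro rfl
          rw [zero_pow (by omega)] at hz
          exact zero_ne_one hz
        have h7 : zz (⟨χ, h2⟩ - χ0) = 1 := (mul_left_cancel₀ h6' ((mul_one z).trans h5)).symm
        exact ⟨⟨χ, h2⟩ - χ0, (hψ _).2 h7, rfl⟩
      · rintro ⟨x, ⟨y, hy, rfl⟩, rfl⟩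
        have h2 : zz y = 1 := (hψ y).1 hy
        have h3 := hzadd χ0 y
        rw [h2, hχ0, mul_one] at h3
        have h4 := hzz (χ0 + y)
        rw [h3] at h4
        exact h4
    rw [h1, Set.ncard_image_of_injective _ (add_right_injective χ0.1)]
    exact hgB

end CX
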