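import Pool.Agent.CX.L6

/-!
# [CX-L7a] the automorphisms which fix the elements of a subgroup of characters

PROOF. Let `Z = {σ | ∀ χ ∈ B, σ δ_χ = δ_χ}`. For `σ ∈ Z` the map `χ ↦ z` with `σ δ_χ = z δ_χ`, `z ^ l = 1` (`kum_act`), is additive (`dx_add`: `δ_χ δ_χ' = δ_(χ+χ') c`, `c` fixed by `σ`), trivial on `B`, so with `emb` it defines an additive character of `(Fin n → ZMod l) ⧸ B` with values in `ℂ` (`AddChar`),
and `σ` is determined by it (`kum_ext`; `δ_i = δ_(single i 1)` up to: `dl δ (Pi.single i 1) = δ i` for `l > 1`). So `#Z ≤ #AddChar ((Fin n → ZMod l) ⧸ B) ℂ = #((Fin n → ZMod l) ⧸ B) = l^n / #B` (`AddChar.card_eq`; `AddSubgroup.card_eq_card_quotient_mul_card_addSubgroup`).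
-/

set_option autoImplicit false

open NumberField IsDedekindDomain
open scoped Classical ComplexConjugate

namespace CX

open CM27 CMT NAB CF JD
open CU (la om eE)

private theorem l7a_single {F : Type} [Field F] {l n : ℕ} (hl : 1 < l) (δ : Fin n → F) (i : Fin n) :
    dl δ (Pi.single i 1 : Fin n → ZMod l) = δ i := by
  have : Fact (1 < l) := ⟨hl⟩
  rw [dl, Finset.prod_eq_single i]
  · rw [Pi.single_eq_same, ZMod.val_one, pow_one]
  · intro j _ hj
    rw [Pi.single_eq_of_ne hj, ZMod.val_zero, pow_zero]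
  · intro h
    exact absurd (Finset.mem_univ i) h

theorem kum_fix {F : Type} [Field F] [NumberField F] [Algebra KK F] {l n : ℕ} [NeZero l] {d : Fin n → Eis} {δ : Fin n → F}
    (hl : l = 2 ∨ l = 3) (hK : Kum l n d δ) (B : AddSubgroup (Fin n → ZMod l)) :
    Nat.card {σ : F ≃ₐ[KK] F // ∀ χ ∈ B, σ (dl δ χ) = dl δ χ} * Nat.card B ≤ l ^ n := by
  have hlp : 1 < l := by rcases hl with rfl | rfl <;> norm_num
  choose Z hZ1 hZ2 using (fun (σ : F ≃ₐ[KK] F) (χ : Fin n → ZMod l) => kum_act hl hK σ χ)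
  have hne := fun χ : Fin n → ZMod l => dl_ne hl hK χ
  have huniq : ∀ (a b : Eis) (χ : Fin n → ZMod l), jF F a * dl δ χ = jF F b * dl δ χ → a = b :=
    fun a b χ h => jF_inj F (mul_right_cancel₀ (hne χ) h)
  have hadd : ∀ (σ : F ≃ₐ[KK] F) (χ χ' : Fin n → ZMod l), Z σ (χ + χ') = Z σ χ * Z σ χ' := by
    intro σ χ χ'
    obtain ⟨c, hc, h1, h2⟩ := dx_add hK χ χ'
    have h3 := congrArg σ h2
    rw [map_mul, map_mul, hZ2, hZ2, hZ2, jF_apply F c, AlgEquiv.commutes, ← jF_apply F c] at h3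
    have hc' : jF F c ≠ 0 := fun h => hc (jF_inj F (h.trans (map_zero _).symm))
    apply huniq _ _ (χ + χ')
    apply mul_right_cancel₀ hc'
    rw [map_mul]
    linear_combination (-1 : F) * h3 + jF F (Z σ χ) * jF F (Z σ χ') * h2
  let ι : Eis →+* ℂ := (algebraMap KK ℂ).comp jK
  have hι : Function.Injective ι := (algebraMap KK ℂ).injective.comp jK_inj
  have hz0 : ∀ σ : F ≃ₐ[KK] F, Z σ 0 = 1 := by
    intro σ
    have h1 := hadd σ 0 0
    rw [add_zero] at h1
    have h2 : Z σ 0 ^ l = 1 := hZ1 σ 0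
    have h3 : ι (Z σ 0) ≠ 0 := by
      intro h
      have h4 := congrArg ι h2
      rw [map_pow, h, map_one, zero_pow (by omega)] at h4
      exact zero_ne_one h4
    apply hι
    have h5 := congrArg ι h1
    rw [map_mul] at h5
    rw [map_one]
    exact (mul_left_cancel₀ h3 (h5.symm.trans (mul_one _).symm))
  let f : (F ≃ₐ[KK] F) → ((Fin n → ZMod l) →+ Additive ℂ) := fun σ =>
    { toFun := fun χ => Additive.ofMul (ι (Z σ χ))
      map_zero' := by rw [hz0, map_one]; rfl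
      map_add' := by intro χ χ'; rw [hadd, map_mul]; rfl }
  have hf : ∀ σ χ, f σ χ = Additive.ofMul (ι (Z σ χ)) := fun _ _ => rfl
  have hker : ∀ σ : {σ : F ≃ₐ[KK] F // ∀ χ ∈ B, σ (dl δ χ) = dl δ χ}, B ≤ (f σ.1).ker := by
    intro σ χ hχ
    rw [AddMonoidHom.mem_ker, hf]
    have h1 : Z σ.1 χ = 1 := by
      apply huniq _ _ χ
      rw [← hZ2, map_one, one_mul]
      exact σ.2 χ hχ
    rw [h1, map_one]; rfl
  let Φ : {σ : F ≃ₐ[KK] F // ∀ χ ∈ B, σ (dl δ χ) = dl δ χ} → AddChar ((Fin n → ZMod l) ⧸ B) ℂ := fun σ =>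
    AddChar.toAddMonoidHomEquiv.symm (QuotientAddGroup.lift B (f σ.1) (hker σ))
  have hΦ : Function.Injective Φ := by
    intro σ τ h
    have h1 := AddChar.toAddMonoidHomEquiv.symm.injective h
    apply Subtype.ext
    apply kum_ext hK
    intro i
    have h2 := DFunLike.congr_fun h1 (QuotientAddGroup.mk (Pi.single i 1 : Fin n → ZMod l))
    rw [QuotientAddGroup.lift_mk, QuotientAddGroup.lift_mk, hf, hf] at h2
    have h3 : Z σ.1 (Pi.single i 1) = Z τ.1 (Pi.single i 1) := hι (Additive.ofMul.injective h2)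
    have h4 := hZ2 σ.1 (Pi.single i 1)
    rw [h3, ← hZ2 τ.1 (Pi.single i 1), l7a_single hlp] at h4
    exact h4
  have : Fintype ((Fin n → ZMod l) ⧸ B) := Fintype.ofFinite _
  have h1 : Nat.card {σ : F ≃ₐ[KK] F // ∀ χ ∈ B, σ (dl δ χ) = dl δ χ} ≤ Nat.card ((Fin n → ZMod l) ⧸ B) := by
    have h2 := Nat.card_le_card_of_injective Φ hΦ
    rw [Nat.card_eq_fintype_card (α := AddChar ((Fin n → ZMod l) ⧸ B) ℂ), AddChar.card_eq, ← Nat.card_eq_fintype_card] at h2
    exact h2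
  have h2 := AddSubgroup.card_eq_card_quotient_mul_card_addSubgroup B
  have h3 : Nat.card (Fin n → ZMod l) = l ^ n := by
    rw [Nat.card_eq_fintype_card, Fintype.card_fun, ZMod.card, Fintype.card_fin]
  calc _ ≤ Nat.card ((Fin n → ZMod l) ⧸ B) * Nat.card B := Nat.mul_le_mul_right _ h1
    _ = l ^ n := by rw [← h2, h3]

end CX
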