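import Pool.Agent.CX.Defs

/-!
# [CX-L8] the algebraic identity of the local factors

PROOF. `prod_roots`: over `ℂ`, `Q(y) = 1 - (y + ȳ) X + y ȳ X² = (1 - y X)(1 - ȳ X)`. `f = 1`: `z = 1`. `f = l = 2`: the `z` with `z² = 1` are `± 1` (`Eis` is a domain), `z^3 = z`, `(1 - y X)(1 + y X) = 1 - y² X²`. `f = l = 3`: `z ∈ {1, om, om²}`, `z²` runs through the same set, `∏_j (1 - w^j y X) = 1 - y³ X³` (`w = emb om`,
`1 + w + w² = 0`: `CM27.w_sq`). The right side is `expand f` of `Q(y^f)`. `prod_fib`: group the factors by the value `z` of `c χ` (`Finset.prod_fiberwise_of_maps_to`, each `z` with `z^f = 1` has `g` preimages; the `χ` with `P χ = 1` outside); `c χ` is the symbol.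
-/

set_option autoImplicit false

open NumberField IsDedekindDomain
open scoped Classical ComplexConjugate

namespace CX

open CM27 CMT NAB CF JD
open CU (la om eE)

/-- the polynomial of the Frobenius number `x` -/
noncomputable def Q (x : Eis) : Polynomial ℂ :=
  1 - Polynomial.C (emb x + conj (emb x)) * Polynomial.X + Polynomial.C (emb x * conj (emb x)) * Polynomial.X ^ 2

theorem l8_rt2 (z : Eis) : z ^ 2 = 1 ↔ z = 1 ∨ z = -1 := by
  have : IsDomain Eis := CM27.eis_isDomain
  constructor
  · intro h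
    have h1 : (z - 1) * (z + 1) = 0 := by linear_combination h
    rcases mul_eq_zero.1 h1 with h2 | h2
    · exact Or.inl (sub_eq_zero.1 h2)
    · exact Or.inr (eq_neg_of_add_eq_zero_left h2)
  · rintro (rfl | rfl)
    · exact one_pow 2
    · exact neg_one_sq

theorem l8_om : om ^ 2 + om + 1 = 0 := by decide

theorem l8_rt3 (z : Eis) : z ^ 3 = 1 ↔ z = 1 ∨ z = om ∨ z = om ^ 2 := by
  have : IsDomain Eis := CM27.eis_isDomain
  have ho := l8_om
  constructor
  · intro h
    have h1 : (z - 1) * ((z - om) * (z - om ^ 2)) = 0 := by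
      linear_combination h + (z - 1) * (-z + om - 1) * ho
    rcases mul_eq_zero.1 h1 with h2 | h2
    · exact Or.inl (sub_eq_zero.1 h2)
    · rcases mul_eq_zero.1 h2 with h3 | h3
      · exact Or.inr (Or.inl (sub_eq_zero.1 h3))
      · exact Or.inr (Or.inr (sub_eq_zero.1 h3))
  · rintro (rfl | rfl | rfl) <;> decide

theorem l8_set {l f : ℕ} (hl : l = 2 ∨ l = 3) (hf : f = 1 ∨ f = l) : ∃ R : Finset Eis, ∀ z, z ∈ R ↔ z ^ f = 1 := by
  rcases hf with rfl | rfl
  · exact ⟨{1}, fun z => by rw [Finset.mem_singleton, pow_one]⟩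
  · rcases hl with rfl | rfl
    · exact ⟨{1, -1}, fun z => by rw [Finset.mem_insert, Finset.mem_singleton, l8_rt2]⟩
    · exact ⟨{1, om, om ^ 2}, fun z => by
        rw [Finset.mem_insert, Finset.mem_insert, Finset.mem_singleton, l8_rt3]⟩

theorem l8_cw : conj w = -1 - w := by
  apply Complex.ext
  · rw [Complex.conj_re, Complex.sub_re, Complex.neg_re, Complex.one_re, w_re]; norm_num
  · rw [Complex.conj_im, Complex.sub_im, Complex.neg_im, Complex.one_im]; ring

theorem l8_emb_om : emb om = w := by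
  rw [emb_apply]
  simp [om]

theorem prod_roots {l m f : ℕ} (hl : l = 2 ∨ l = 3) (hm : l * m = 6) (hf : f = 1 ∨ f = l) (x : Eis) (R : Finset Eis)
    (hR : ∀ z, z ∈ R ↔ z ^ f = 1) : ∏ z ∈ R, Q (z ^ m * x) = Polynomial.expand ℂ f (Q (x ^ f)) := by
  have hE : ∀ (f : ℕ) (y : Eis), Polynomial.expand ℂ f (Q y) =
      1 - Polynomial.C (emb y + conj (emb y)) * Polynomial.X ^ f + Polynomial.C (emb y * conj (emb y)) * (Polynomial.X ^ f) ^ 2 := by
    intro f y
    unfold Q
    simp only [map_sub, map_add, map_mul, map_one, map_pow, Polynomial.expand_C, Polynomial.expand_X]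
  rcases hf with rfl | rfl
  · have hR1 : R = {1} := by
      ext z
      rw [hR, pow_one, Finset.mem_singleton]
    rw [hR1, Finset.prod_singleton, one_pow, one_mul, pow_one, Polynomial.expand_one]
  · rcases hl with rfl | rfl
    · have hm3 : m = 3 := by omega
      subst hm3
      have hR1 : R = {1, -1} := by
        ext z
        rw [hR, l8_rt2, Finset.mem_insert, Finset.mem_singleton]
      rw [hR1, Finset.prod_pair (by decide), hE]
      unfold Q
      have e1 : ((1 : Eis) ^ 3 * x) = x := by rw [one_pow, one_mul]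
      have e2 : ((-1 : Eis) ^ 3 * x) = -x := by ring
      rw [e1, e2]
      simp only [map_neg, map_add, map_mul, map_pow]
      ring
    · have hm2 : m = 2 := by omega
      subst hm2
      have hR1 : R = {1, om, om ^ 2} := by
        ext z
        rw [hR, l8_rt3, Finset.mem_insert, Finset.mem_insert, Finset.mem_singleton]
      have n1 : (1 : Eis) ∉ ({om, om ^ 2} : Finset Eis) := by decide
      have n2 : om ∉ ({om ^ 2} : Finset Eis) := by decide
      rw [hR1, Finset.prod_insert n1, Finset.prod_insert n2, Finset.prod_singleton, hE]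
      unfold Q
      have e1 : ((1 : Eis) ^ 2 * x) = x := by rw [one_pow, one_mul]
      have e3 : ((om ^ 2) ^ 2 * x) = om * x := by
        have : (om ^ 2) ^ 2 = om := by decide
        rw [this]
      rw [e1, e3]
      simp only [map_add, map_mul, map_pow, l8_emb_om, l8_cw, map_sub, map_neg, map_one]
      have hw : (Polynomial.C w : Polynomial ℂ) * Polynomial.C w = -1 - Polynomial.C w := by
        rw [← Polynomial.C_mul, w_sq]
        simp only [map_sub, map_neg, map_one]
      generalize (Polynomial.C w : Polynomial ℂ) = W at hw ⊢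
      generalize (Polynomial.C (emb x) : Polynomial ℂ) = Y
      generalize (Polynomial.C (conj (emb x)) : Polynomial ℂ) = Z
      generalize (Polynomial.X : Polynomial ℂ) = X
      have f1 : (1 - (W ^ 2 * Y + (-1 - W) ^ 2 * Z) * X + W ^ 2 * Y * ((-1 - W) ^ 2 * Z) * X ^ 2) =
          1 - ((-1 - W) * Y + W * Z) * X + Y * Z * X ^ 2 := by
        linear_combination (-(Y + Z) * X + (W ^ 2 + W - 1) * (Y * Z * X ^ 2)) * hw
      have f2 : (1 - (W * Y + (-1 - W) * Z) * X + W * Y * ((-1 - W) * Z) * X ^ 2) =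
          1 - (W * Y + (-1 - W) * Z) * X + Y * Z * X ^ 2 := by
        linear_combination (-(Y * Z * X ^ 2)) * hw
      rw [f1, f2]
      linear_combination (-(1 - (Y + Z) * X + Y * Z * X ^ 2) * X ^ 2 * (Y - Z) ^ 2) * hw

theorem exists_roots {l f : ℕ} (hl : l = 2 ∨ l = 3) (hf : f = 1 ∨ f = l) : ∃ R : Finset Eis, ∀ z, z ∈ R ↔ z ^ f = 1 :=
  l8_set hl hf

theorem prod_fib {ι : Type} [Fintype ι] {l m f g : ℕ} (hl : l = 2 ∨ l = 3) (hm : l * m = 6) (hf : f = 1 ∨ f = l) (x : Eis)
    (P : ι → Polynomial ℂ) (S : ι → Eis → Prop) (hu : ∀ i z z', S i z → S i z' → z = z') (h1 : ∀ i z, S i z → z ^ f = 1)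
    (h2 : ∀ i z, S i z → P i = Q (z ^ m * x)) (h3 : ∀ i, (¬ ∃ z, S i z) → P i = 1) (h4 : ∀ z, z ^ f = 1 → {i | S i z}.ncard = g) :
    ∏ i, P i = (Polynomial.expand ℂ f (Q (x ^ f))) ^ g := by
  obtain ⟨R, hR⟩ := exists_roots hl hf
  rw [← prod_roots hl hm hf x R hR, ← Finset.prod_pow]
  have hc : ∏ i, P i = ∏ i ∈ Finset.univ.filter (fun i => ∃ z, S i z), P i := by
    symm
    apply Finset.prod_subset (Finset.filter_subset _ _)
    intro i _ hi
    apply h3
    intro hex
    exact hi (Finset.mem_filter.2 ⟨Finset.mem_univ i, hex⟩)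
  rw [hc]
  have hch : ∀ i, ∃ z, (∃ z, S i z) → S i z := by
    intro i
    by_cases hi : ∃ z, S i z
    · obtain ⟨z, hz⟩ := hi
      exact ⟨z, fun _ => hz⟩
    · exact ⟨0, fun h => absurd h hi⟩
  choose c hcS using hch
  rw [← Finset.prod_fiberwise_of_maps_to (s := Finset.univ.filter (fun i => ∃ z, S i z)) (t := R) (g := c)
    (fun i hi => (hR _).2 (h1 i _ (hcS i (Finset.mem_filter.1 hi).2)))]
  apply Finset.prod_congr rfl
  intro z hz
  have hz1 := (hR z).1 hz
  have hset : {i | S i z} = ((Finset.univ.filter (fun i => ∃ z, S i z)).filter (fun i => c i = z) : Finset ι) := by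
    ext i
    simp only [Set.mem_ofPred_eq, Finset.coe_filter, Finset.mem_filter, Finset.mem_univ, true_and]
    constructor
    · intro hi
      exact ⟨⟨z, hi⟩, hu i _ _ (hcS i ⟨z, hi⟩) hi⟩
    · rintro ⟨hi, rfl⟩
      exact hcS i hi
  have hcard := h4 z hz1
  rw [hset, Set.ncard_coe_finset] at hcard
  rw [← hcard]
  apply Finset.prod_eq_pow_card
  intro i hi
  rw [Finset.mem_filter, Finset.mem_filter] at hi
  have := hcS i hi.1.2
  rw [hi.2] at this
  exact h2 i z this

end CX
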