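import Pool.Agent.CX.L1
import Pool.Agent.CX.L2
import Pool.Agent.CX.L4
import Pool.Agent.CX.L5
import Pool.Agent.CX.L7
import Pool.Agent.CX.L8

/-!
# [CX-L9] the local identity at the places not above 6

PROOF. `place_count`: `e, f, g`; `f w := f`. It is enough to compare in `ℂ[X]` (`Polynomial.map_injective`).
CASE A: some `χ₀` with `6 ∣ od v (D d_χ₀^m)`. Put `D₀ = jK (D * dx d χ₀ ^ m)`, `exists_fr`: `Fr eK v D₀ x`. Left: for `w ∣ v`: `fr_up`: `Fr (eO F) w (algebraMap D₀) (x^f)`, and `algebraMap D₀ = jF D * (δ_χ₀)^6` (`dl_pow`, `l m = 6`), so `Fr (eO F) w (jF F D) (x^f)` (`fr_six`), `fr_poly`: the factor is `expand f (Q (x^f))` (`Q` of L8);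
there are `g` places. Right: `D d_χ^m = D₀ t^m` in `KK`, `t = d_χ / d_χ₀`. Let `S χ z := Sy l eK v (d_χ / d_χ₀) z`. If `S χ z` then `Fr eK v (D₀ t^m) (z^m x)` (`fr_twist`) and the factor is `Q (z^m x)` (`fr_poly`). If there is no `z` then (`exists_sy`) `l ∤ od v t`, `od v (D₀ t^m) = od v D₀ + m od v t` is not divisible by `6 = l m`, the factor is `1` (`bad_poly`).
`dx_add` for `χ - χ₀` and `χ₀`: `d_(χ-χ₀) d_χ₀ = d_χ c^l`, so `t c^l = d_(χ-χ₀)` and `Sy (t) z ↔ Sy (d_(χ-χ₀)) z` (`sy_mul`, `sy_pow`): so `{χ | S χ z}` has `g` elements for `z^f = 1` (translation by `χ₀`) and `S χ z → z^f = 1`. Now `prod_fib`.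
CASE B: `6 ∤ od v (D d_χ^m)` for all `χ`. The right side is `1` (`bad_poly`). `6 ∤ od w (jF D) = e a`, `a = od v (jK D)`: for `e = 1` take `χ = 0` (`dx_zero`); for `e = l`: if `6 = l m ∣ l a` then `m ∣ a`; some `i` with `l ∤ b = od v (d_i)`; there is `j : ZMod l` with `l ∣ a / m + j.val b`; `χ = single i j` (`dx_single`): `od v (D d_i^(j m)) = m (a / m + j.val b)` is divisible by `6`, contradiction. So the left factors are `1` (`bad_poly`).
-/

set_option autoImplicit false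

open NumberField IsDedekindDomain
open scoped Classical ComplexConjugate

namespace CX

open CM27 CMT NAB CF JD
open CU (la om eE)

theorem l9_Q {k : Type} [Field k] [NumberField k] (e : Eis →+* 𝓞 k) (v : HeightOneSpectrum (𝓞 k)) (h6 : (6 : 𝓞 k) ∉ v.asIdeal)
    {D : k} {x : Eis} (h : Fr e v D x) :
    Polynomial.map (Int.castRingHom ℂ) (((ED D).baseChange (v.adicCompletion k)).localPolynomial (v.adicCompletionIntegers k)) =
      Q x := by
  obtain ⟨a, c, h1, h2, h3⟩ := fr_poly e v h6 h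
  rw [h1, Q, ← h2, ← h3]
  simp

/-- the residue of the exponent -/
theorem l9_res {l : ℕ} (hl : l = 2 ∨ l = 3) [NeZero l] (a b : ℤ) (hb : ¬ (l : ℤ) ∣ b) : ∃ j : ZMod l, (l : ℤ) ∣ a + j.val * b := by
  have hp : Fact l.Prime := ⟨by rcases hl with rfl | rfl <;> norm_num⟩
  have hb' : (b : ZMod l) ≠ 0 := fun h => hb ((ZMod.intCast_zmod_eq_zero_iff_dvd b l).1 h)
  refine ⟨-(a : ZMod l) / (b : ZMod l), (ZMod.intCast_zmod_eq_zero_iff_dvd _ l).1 ?_⟩
  rw [Int.cast_add, Int.cast_mul, Int.cast_natCast, ZMod.natCast_val, ZMod.cast_id', id]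
  field_simp
  ring

section
variable {F : Type} [Field F] [NumberField F] [Algebra KK F] {l m n : ℕ} [NeZero l] {d : Fin n → Eis} {δ : Fin n → F} {D : Eis}

theorem l9_jK {a : Eis} (ha : a ≠ 0) : jK a ≠ 0 := fun h => ha (jK_inj (h.trans (map_zero jK).symm))

/-- case B -/
theorem l9_bad (hl : l = 2 ∨ l = 3) (hm : l * m = 6) (hD : D ≠ 0) (hK : Kum l n d δ) (v : HeightOneSpectrum (𝓞 KK))
    {e : ℕ} (he : e = 1 ∨ e = l) (hr : e = l ↔ ∃ i, ¬ (l : ℤ) ∣ TWR.od v (jK (d i)))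
    (hB : ∀ χ : Fin n → ZMod l, ¬ (6 : ℤ) ∣ TWR.od v (jK (D * dx d χ ^ m))) : ¬ (6 : ℤ) ∣ (e : ℤ) * TWR.od v (jK D) := by
  intro h
  rcases he with rfl | rfl
  · apply hB 0
    rw [dx_zero, one_pow, mul_one]
    rwa [Nat.cast_one, one_mul] at h
  · obtain ⟨i, hi⟩ := hr.1 rfl
    have hl0 : (e : ℤ) ≠ 0 := by exact_mod_cast NeZero.ne e
    have hm' : (6 : ℤ) = e * m := by exact_mod_cast hm.symm
    rw [hm'] at h
    obtain ⟨a, ha⟩ := (mul_dvd_mul_iff_left hl0).1 h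
    obtain ⟨j, hj⟩ := l9_res hl a _ hi
    apply hB (Pi.single i j)
    have hdi : d i ≠ 0 := hK.ne i
    rw [dx_single, map_mul, map_pow, map_pow, TWR.od_mul v (l9_jK hD) (pow_ne_zero _ (pow_ne_zero _ (l9_jK hdi))),
      TWR.od_pow, TWR.od_pow, ha, hm', mul_comm (e : ℤ) m, ← mul_add]
    exact mul_dvd_mul_left _ hj

theorem l9_shift (hl : l = 2 ∨ l = 3) (hK : Kum l n d δ) (v : HeightOneSpectrum (𝓞 KK)) (h6 : (6 : 𝓞 KK) ∉ v.asIdeal)
    (χ₀ χ : Fin n → ZMod l) (z : Eis) :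
    Sy l eK v (jK (dx d χ) / jK (dx d χ₀)) z ↔ Sy l eK v (jK (dx d (χ - χ₀))) z := by
  obtain ⟨c, hc, h1, -⟩ := dx_add hK (χ - χ₀) χ₀
  rw [sub_add_cancel] at h1
  have h0 : jK (dx d χ₀) ≠ 0 := l9_jK (dx_ne hK χ₀)
  have hc0 : jK c ≠ 0 := l9_jK hc
  have h2 : jK (dx d (χ - χ₀)) * jK (dx d χ₀) = jK (dx d χ) * jK c ^ l := by
    rw [← map_mul, h1, map_mul, map_pow]
  have h3 : jK (dx d χ) / jK (dx d χ₀) * jK c ^ l = jK (dx d (χ - χ₀)) := by
    rw [div_mul_eq_mul_div, ← h2, mul_div_assoc, div_self h0, mul_one]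
  have h4 : jK (dx d (χ - χ₀)) * (jK c)⁻¹ ^ l = jK (dx d χ) / jK (dx d χ₀) := by
    rw [← h3, mul_assoc, ← mul_pow, mul_inv_cancel₀ hc0, one_pow, mul_one]
  constructor
  · intro h
    have h5 := sy_mul eK v h6 hl h (sy_pow eK v h6 hl hc0)
    rwa [h3, mul_one] at h5
  · intro h
    have h5 := sy_mul eK v h6 hl h (sy_pow eK v h6 hl (inv_ne_zero hc0))
    rwa [h4, mul_one] at h5

end

theorem loc_ne6 {F : Type} [Field F] [NumberField F] [Algebra KK F] {l m n : ℕ} [NeZero l] {d : Fin n → Eis} {δ : Fin n → F} {D : Eis}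
    (hl : l = 2 ∨ l = 3) (hm : l * m = 6) (hD : D ≠ 0) (hK : Kum l n d δ) (v : HeightOneSpectrum (𝓞 KK)) (h6 : (6 : 𝓞 KK) ∉ v.asIdeal)
    (S : Finset (HeightOneSpectrum (𝓞 F))) (hS : ∀ w, w ∈ S ↔ und KK w = v) :
    ∃ f : HeightOneSpectrum (𝓞 F) → ℕ, (∀ w ∈ S, 0 < f w ∧ TH.nv w = TH.nv v ^ f w) ∧
    ∏ w ∈ S, Polynomial.expand ℤ (f w)
      (((ED (jF F D)).baseChange (w.adicCompletion F)).localPolynomial (w.adicCompletionIntegers F)) =
    ∏ χ : Fin n → ZMod l, ((ED (jK (D * dx d χ ^ m))).baseChange (v.adicCompletion KK)).localPolynomial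
      (v.adicCompletionIntegers KK) := by
  obtain ⟨e, f, g, he, hf, hg, -, hr, hcard, hw, hz, hz'⟩ := place_count hl hK v h6
  have hl0 : 0 < l := by rcases hl with rfl | rfl <;> norm_num
  have hf0 : 0 < f := by rcases hf with rfl | rfl <;> omega
  have hwS : ∀ w ∈ S, und KK w = v := fun w h => (hS w).1 h
  have h6w : ∀ w : HeightOneSpectrum (𝓞 F), w ∈ S → (6 : 𝓞 F) ∉ w.asIdeal := by
    intro w hw1 h
    apply h6
    rw [← hwS w hw1, mem_und, map_ofNat]
    exact h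
  have hdne : ∀ χ : Fin n → ZMod l, dx d χ ≠ 0 := fun χ => dx_ne hK χ
  have hdom := eis_isDomain
  have hne : ∀ χ : Fin n → ZMod l, jK (D * dx d χ ^ m) ≠ 0 := fun χ => l9_jK (mul_ne_zero hD (pow_ne_zero _ (hdne χ)))
  refine ⟨fun _ => f, fun w hw1 => ⟨hf0, (hw w (hwS w hw1)).1⟩, ?_⟩
  by_cases hA : ∃ χ₀ : Fin n → ZMod l, (6 : ℤ) ∣ TWR.od v (jK (D * dx d χ₀ ^ m))
  · obtain ⟨χ₀, hχ₀⟩ := hA
    obtain ⟨x, hx⟩ := exists_fr eK v h6 (hne χ₀) hχ₀
    apply Polynomial.map_injective (Int.castRingHom ℂ) Int.cast_injective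
    rw [Polynomial.map_prod, Polynomial.map_prod]
    -- the left side
    have hL : ∀ w ∈ S, Polynomial.map (Int.castRingHom ℂ) (Polynomial.expand ℤ f
        (((ED (jF F D)).baseChange (w.adicCompletion F)).localPolynomial (w.adicCompletionIntegers F))) =
        Polynomial.expand ℂ f (Q (x ^ f)) := by
      intro w hw1
      have h1 : Fr (eO F) w (algebraMap KK F (jK (D * dx d χ₀ ^ m))) (x ^ f) := by
        refine fr_up w (by rw [hwS w hw1]; exact h6) hf0 (by rw [hwS w hw1]; exact (hw w (hwS w hw1)).1) ?_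
        rw [hwS w hw1]
        exact hx
      have h2 : algebraMap KK F (jK (D * dx d χ₀ ^ m)) = jF F D * dl δ χ₀ ^ 6 := by
        have h3 : algebraMap KK F (jK (D * dx d χ₀ ^ m)) = jF F (D * dx d χ₀ ^ m) := rfl
        rw [h3, map_mul, map_pow, ← dl_pow hK χ₀, ← pow_mul, hm]
      rw [h2, fr_six (eO F) w (h6w w hw1) (dl_ne hl hK χ₀)] at h1
      rw [Polynomial.map_expand, l9_Q (eO F) w (h6w w hw1) h1]
    rw [Finset.prod_congr rfl hL, Finset.prod_const]
    have hSg : S.card = g := by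
      rw [← hcard, ← Set.ncard_coe_finset]
      congr 1
      ext w
      exact hS w
    rw [hSg]
    -- the right side
    symm
    refine prod_fib hl hm hf x _ (fun χ z => Sy l eK v (jK (dx d χ) / jK (dx d χ₀)) z)
      (fun χ z z' h h' => sy_unique eK v h6 hl h h')
      (fun χ z h => hz' (χ - χ₀) z ((l9_shift hl hK v h6 χ₀ χ z).1 h)) ?_ ?_ ?_
    · intro χ z h
      have h1 := fr_twist eK v h6 hl hm hx h
      have h2 : jK (D * dx d χ₀ ^ m) * (jK (dx d χ) / jK (dx d χ₀)) ^ m = jK (D * dx d χ ^ m) := by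
        have h0 := l9_jK (hdne χ₀)
        rw [map_mul, map_mul, map_pow, map_pow, div_pow]
        field_simp
      rw [h2] at h1
      exact l9_Q eK v h6 h1
    · intro χ h
      have h0 : jK (dx d χ) / jK (dx d χ₀) ≠ 0 := div_ne_zero (l9_jK (hdne χ)) (l9_jK (hdne χ₀))
      have h1 : ¬ (l : ℤ) ∣ TWR.od v (jK (dx d χ) / jK (dx d χ₀)) := fun h2 => h (exists_sy eK v h6 hl h0 h2)
      have h2 : jK (D * dx d χ ^ m) = jK (D * dx d χ₀ ^ m) * (jK (dx d χ) / jK (dx d χ₀)) ^ m := by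
        have h0 := l9_jK (hdne χ₀)
        rw [map_mul, map_mul, map_pow, map_pow, div_pow]
        field_simp
      have h3 : ¬ (6 : ℤ) ∣ TWR.od v (jK (D * dx d χ ^ m)) := by
        rw [h2, TWR.od_mul v (hne χ₀) (pow_ne_zero _ h0), TWR.od_pow]
        intro h4
        have h5 := (dvd_add_right hχ₀).1 h4
        have hm' : (6 : ℤ) = m * l := by
          rw [mul_comm]
          exact_mod_cast hm.symm
        rw [hm'] at h5
        have hm0 : (m : ℤ) ≠ 0 := by
          intro h6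
          rw [h6, zero_mul] at hm'
          norm_num at hm'
        exact h1 ((mul_dvd_mul_iff_left hm0).1 h5)
      rw [bad_poly v h6 (hne χ) h3, Polynomial.map_one]
    · intro z hz1
      rw [← hz z hz1]
      have h1 : {χ : Fin n → ZMod l | Sy l eK v (jK (dx d χ) / jK (dx d χ₀)) z} =
          (fun χ => χ + χ₀) '' {χ : Fin n → ZMod l | Sy l eK v (jK (dx d χ)) z} := by
        ext χ
        rw [Set.mem_ofPred_eq, l9_shift hl hK v h6 χ₀ χ z]
        constructor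
        · intro h
          exact ⟨χ - χ₀, h, sub_add_cancel _ _⟩
        · rintro ⟨χ', h, rfl⟩
          simp only [add_sub_cancel_right]
          exact h
      rw [h1]
      exact Set.ncard_image_of_injective _ (add_left_injective χ₀)
  · push Not at hA
    have hR : ∀ χ : Fin n → ZMod l, ((ED (jK (D * dx d χ ^ m))).baseChange (v.adicCompletion KK)).localPolynomial
        (v.adicCompletionIntegers KK) = 1 := fun χ => bad_poly v h6 (hne χ) (hA χ)
    rw [Finset.prod_eq_one fun χ _ => hR χ]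
    refine Finset.prod_eq_one fun w hw1 => ?_
    have hod : TWR.od w (jF F D) = e * TWR.od v (jK D) := (hw w (hwS w hw1)).2.1 (jK D) (l9_jK hD)
    have hD' : jF F D ≠ 0 := fun h => hD (jF_inj F (h.trans (map_zero (jF F)).symm))
    rw [bad_poly w (h6w w hw1) hD' (by rw [hod]; exact l9_bad hl hm hD hK v he hr hA), map_one]

end CX
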