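import Pool.Agent.CX.L0
import Pool.Agent.JG.SH
import Pool.Agent.JT.SH2
import Pool.Agent.JT.ST2

/-!
# [CX-M1] the Tamagawa numbers at the places not above 6

PROOF. `loc_form`, `six_smul`, `ISO.tamagawa_smul'`: `tam = tamagawa A (ED (π^i D'))`, and `D` is an `m`-th power in `K_v` iff `π^i D'` is. `i = 0`: good reduction, `tamagawa = 1` (`JD.tamagawa_good`), both sides false (`6 ∣ od`). `1 ≤ i ≤ 5`: `l = 3`, `m = 2`: if `i ∈ {2, 4}` and `D'` is a square modulo `π` then (Hensel, `2` is a unit; the library has it for `adicCompletionIntegers`, e.g. `JG`, `CU`) it is a square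
in `A`, `π^i D'` is a square and `3 ∣ tamagawa` (`JG.three_sq`, JG/SH.lean); otherwise `3 ∤ tamagawa` (`JG.tam_p'`, JG/ST.lean) and `π^i D'` is no square (odd valuation, or `D'` not a square mod `π`). `l = 2`, `m = 3`: the same with `JT.tam_p2` (JT/ST2.lean), cubes, `i = 3`, and the converse in JT/SH2.lean (`2 ∣ tamagawa` if `π^3 D' = y^3`).
-/

set_option autoImplicit false

open NumberField IsDedekindDomain
open scoped Classical ComplexConjugate

namespace CX

open CM27 CMT NAB CF JD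
open CU (la om eE)

/-- [M1] helper: Hensel for `X ^ m - c` -/
theorem m1_hens {k : Type} [Field k] [NumberField k] (v : HeightOneSpectrum (𝓞 k)) {m : ℕ} (hm0 : m ≠ 0)
    (hmu : IsUnit (m : v.adicCompletionIntegers k)) {π c x : v.adicCompletionIntegers k}
    (hπ : Irreducible π) (hc : IsUnit c) (h : π ∣ c - x ^ m) : ∃ y : v.adicCompletionIntegers k, y ^ m = c := by
  have hhens := CUD.c12a_hens k v
  have hπm : π ∈ IsLocalRing.maximalIdeal (v.adicCompletionIntegers k) := (IsLocalRing.mem_maximalIdeal _).2 hπ.not_isUnit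
  have hcx : c - x ^ m ∈ IsLocalRing.maximalIdeal (v.adicCompletionIntegers k) := Ideal.mem_of_dvd _ h hπm
  have hx : IsUnit x := by
    by_contra hx
    have h1 : x ^ m ∈ IsLocalRing.maximalIdeal (v.adicCompletionIntegers k) :=
      Ideal.pow_mem_of_mem _ ((IsLocalRing.mem_maximalIdeal _).2 hx) m (Nat.pos_of_ne_zero hm0)
    have h2 := Ideal.add_mem _ hcx h1
    rw [sub_add_cancel] at h2
    exact (IsLocalRing.mem_maximalIdeal _).1 h2 hc
  obtain ⟨s, hs, -⟩ := hhens.is_henselian (Polynomial.X ^ m - Polynomial.C c)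
    (Polynomial.monic_X_pow_sub_C c hm0) x (by
      have h4 : Polynomial.eval x (Polynomial.X ^ m - Polynomial.C c) = -(c - x ^ m) := by simp
      rw [h4]
      exact neg_mem hcx) (by
      have h4 : Polynomial.eval x (Polynomial.derivative (Polynomial.X ^ m - Polynomial.C c)) =
          (m : v.adicCompletionIntegers k) * x ^ (m - 1) := by
        rw [Polynomial.derivative_sub, Polynomial.derivative_C, sub_zero, Polynomial.derivative_X_pow, Polynomial.eval_mul,
          Polynomial.eval_C, Polynomial.eval_pow, Polynomial.eval_X]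
      rw [h4]
      exact hmu.mul (hx.pow _))
  refine ⟨s, ?_⟩
  rw [Polynomial.IsRoot.def, Polynomial.eval_sub, Polynomial.eval_pow, Polynomial.eval_X, Polynomial.eval_C] at hs
  exact sub_eq_zero.1 hs

/-- [M1] helper: powers -/
theorem m1_pow (A : Type) [CommRing A] [IsDomain A] [IsDiscreteValuationRing A] (K : Type) [Field K] [Algebra A K]
    [IsFractionRing A K] {m : ℕ} (hm0 : m ≠ 0) {π D' : A} (hπ : Irreducible π) (hD' : IsUnit D') (i : ℕ) :
    (∃ x : K, x ^ m = algebraMap A K (π ^ i * D')) ↔ ∃ n, i = n * m ∧ ∃ u : A, u ^ m = D' := by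
  constructor
  · rintro ⟨x, hx⟩
    obtain ⟨y, rfl⟩ : ∃ y : A, algebraMap A K y = x := by
      refine IsIntegrallyClosed.exists_algebraMap_eq_of_isIntegral_pow (n := m) (Nat.pos_of_ne_zero hm0) ?_
      rw [hx]
      exact isIntegral_algebraMap
    rw [← map_pow] at hx
    have h1 := IsFractionRing.injective A K hx
    have hy : y ≠ 0 := by
      rintro rfl
      rw [zero_pow hm0] at h1
      exact mul_ne_zero (pow_ne_zero _ hπ.ne_zero) hD'.ne_zero h1.symm
    obtain ⟨n, u, rfl⟩ := IsDiscreteValuationRing.eq_unit_mul_pow_irreducible hy hπ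
    obtain ⟨d, rfl⟩ := hD'
    have h2 : ((u ^ m : Aˣ) : A) * π ^ (n * m) = (d : A) * π ^ i := by
      rw [Units.val_pow_eq_pow_val, pow_mul, mul_comm (d : A), ← h1]
      ring
    refine ⟨n, (IsDiscreteValuationRing.unit_mul_pow_congr_pow hπ hπ _ _ _ _ h2).symm, u, ?_⟩
    rw [← IsDiscreteValuationRing.unit_mul_pow_congr_unit hπ _ _ _ _ h2, Units.val_pow_eq_pow_val]
  · rintro ⟨n, rfl, u, rfl⟩
    exact ⟨algebraMap A K (π ^ n * u), by rw [← map_pow, mul_pow, pow_mul]⟩

/-- [M1] helper -/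
theorem m1_ne {k : Type} [Field k] [NumberField k] (v : HeightOneSpectrum (𝓞 k)) (n : ℕ) [n.AtLeastTwo] :
    (OfNat.ofNat n : v.adicCompletion k) ≠ 0 := by
  rw [← map_ofNat (algebraMap k (v.adicCompletion k)) n]
  exact (_root_.map_ne_zero _).2 (OfNat.ofNat_ne_zero n)

/-- [M1] helper -/
theorem m1_tam {k : Type} [Field k] [NumberField k] (v : HeightOneSpectrum (𝓞 k)) {D : k} (hD : D ≠ 0)
    {c : v.adicCompletion k} (hc : c ≠ 0) {a : v.adicCompletionIntegers k}
    (h : algebraMap k (v.adicCompletion k) D = c ^ 6 * algebraMap (v.adicCompletionIntegers k) (v.adicCompletion k) a) :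
    SBSD.tam (ED D) v = SBSD.tamagawa (v.adicCompletionIntegers k)
      (ED (algebraMap (v.adicCompletionIntegers k) (v.adicCompletion k) a)) := by
  obtain ⟨C, -, hCeq⟩ := six_smul c (algebraMap (v.adicCompletionIntegers k) (v.adicCompletion k) a) hc
  unfold SBSD.tam
  rw [WeierstrassCurve.baseChange, ED_map, h, hCeq]
  refine ISO.tamagawa_smul' _ _ ?_ _
  rw [ED_Δ]
  have h1 : algebraMap k (v.adicCompletion k) D ≠ 0 := (_root_.map_ne_zero _).2 hD
  rw [h] at h1
  exact mul_ne_zero (neg_ne_zero.2 (m1_ne v 432)) (pow_ne_zero _ (right_ne_zero_of_mul h1))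

theorem tam_ne6 {k : Type} [Field k] [NumberField k] (v : HeightOneSpectrum (𝓞 k)) (h6 : (6 : 𝓞 k) ∉ v.asIdeal) {D : k} (hD : D ≠ 0)
    {l m : ℕ} (hl : l = 2 ∨ l = 3) (hm : l * m = 6) :
    l ∣ SBSD.tam (ED D) v ↔ ¬ (6 : ℤ) ∣ TWR.od v D ∧ ∃ x : v.adicCompletion k, x ^ m = algebraMap k (v.adicCompletion k) D := by
  obtain ⟨π, D', i, c, j, hπ, hD', hi, hc, hDeq, hvc, hod⟩ := loc_form v h6 hD
  have h6u := six_unit v h6
  have h3u : IsUnit (3 : v.adicCompletionIntegers k) := isUnit_of_dvd_unit ⟨2, by norm_num⟩ h6u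
  have h2u : IsUnit (2 : v.adicCompletionIntegers k) := isUnit_of_dvd_unit ⟨3, by norm_num⟩ h6u
  have hfin : Finite (IsLocalRing.ResidueField (v.adicCompletionIntegers k)) := (card_residue k v).2
  have hm0 : m ≠ 0 := by
    rintro rfl
    omega
  have hl0 : l ≠ 0 := by
    rintro rfl
    omega
  have hod' : (¬ (6 : ℤ) ∣ TWR.od v D) ↔ i ≠ 0 := by
    rw [hod]
    omega
  have hpw : (∃ x : v.adicCompletion k, x ^ m = algebraMap k (v.adicCompletion k) D) ↔
      ∃ n, i = n * m ∧ ∃ u : v.adicCompletionIntegers k, u ^ m = D' := by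
    rw [← m1_pow (v.adicCompletionIntegers k) (v.adicCompletion k) hm0 hπ hD' i, hDeq]
    have h6m : c ^ 6 = (c ^ l) ^ m := by rw [← pow_mul, hm]
    rw [h6m]
    have hcl : c ^ l ≠ 0 := pow_ne_zero _ hc
    constructor
    · rintro ⟨x, hx⟩
      refine ⟨x / c ^ l, ?_⟩
      rw [div_pow, hx, mul_div_cancel_left₀ _ (pow_ne_zero _ hcl)]
    · rintro ⟨x, hx⟩
      exact ⟨c ^ l * x, by rw [mul_pow, hx]⟩
  rw [hod', hpw, m1_tam v hD hc hDeq]
  have hu := min_i (v.adicCompletionIntegers k) (v.adicCompletion k) h6u π D' hπ hD' i hi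
  have h0 : π ^ i * D' ≠ 0 := mul_ne_zero (pow_ne_zero _ hπ.ne_zero) hD'.ne_zero
  rcases hl with rfl | rfl
  · obtain rfl : m = 3 := by omega
    constructor
    · intro h
      by_contra hcon
      refine (JT.tam_p2 (v.adicCompletionIntegers k) (v.adicCompletion k) h6u π D' hπ hD' i hi ?_).2 h
      rintro rfl x hx
      obtain ⟨y, hy⟩ := m1_hens v three_ne_zero h3u hπ hD' hx
      exact hcon ⟨three_ne_zero, 1, rfl, y, hy⟩
    · rintro ⟨hi0, n, rfl, u, rfl⟩
      have hn0 : n ≠ 0 := by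
        rintro rfl
        exact hi0 (zero_mul _)
      refine JT.even_root (v.adicCompletion k) hπ h0 (m1_ne v 6) hu (π ^ n * u) ?_
        ((dvd_pow_self π hn0).mul_right _)
      rw [mul_pow, pow_mul]
  · obtain rfl : m = 2 := by omega
    constructor
    · intro h
      by_contra hcon
      refine (JG.tam_p' (v.adicCompletionIntegers k) (v.adicCompletion k) h6u π D' hπ hD' i hi ?_).2 h
      rintro hi24 x hx
      obtain ⟨y, hy⟩ := m1_hens v two_ne_zero h2u hπ hD' hx
      rcases hi24 with rfl | rfl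
      · exact hcon ⟨two_ne_zero, 1, rfl, y, hy⟩
      · exact hcon ⟨four_ne_zero, 2, rfl, y, hy⟩
    · rintro ⟨hi0, n, rfl, u, rfl⟩
      refine JG.three_sq (v.adicCompletion k) hπ (Or.inl ((dvd_pow_self π hi0).mul_right _)) h0 (m1_ne v 2) hu
        (π ^ n * u) ?_
      rw [mul_pow, pow_mul]

end CX
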