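import Pool.Agent.CX.L3
import Pool.Agent.CX.L6
import Pool.Agent.CU.C12a

/-!
# [CX-M3a] powers in the extension and in the completions
-/

set_option autoImplicit false

open NumberField IsDedekindDomain
open scoped Classical ComplexConjugate

namespace CX

open CM27 CMT NAB CF JD
open CU (la om eE)

/-- powers in a finite field -/
theorem M3a_pow {K : Type*} [Field K] [Finite K] {m : ℕ} (hm0 : 0 < m) (hm : m ∣ Nat.card K - 1) {x : K}
    (hx : x ≠ 0) (h : x ^ ((Nat.card K - 1) / m) = 1) : ∃ y : K, y ^ m = x := by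
  obtain ⟨c, hc⟩ := hm
  have hcard : 1 < Nat.card K := Finite.one_lt_card
  have hc0 : 0 < c := by
    rcases Nat.eq_zero_or_pos c with h0 | h0
    · rw [h0, mul_zero] at hc
      omega
    · exact h0
  rw [hc, Nat.mul_div_cancel_left _ hm0] at h
  obtain ⟨g, hg⟩ := IsCyclic.exists_generator (α := Kˣ)
  have hord : orderOf g = m * c := by
    rw [orderOf_eq_card_of_forall_mem_zpowers hg, Nat.card_units, hc]
  obtain ⟨n, hn⟩ := mem_powers_iff_mem_zpowers.2 (hg (Units.mk0 x hx))
  have hn' : g ^ n = Units.mk0 x hx := hn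
  have h1 : g ^ (n * c) = 1 := by
    rw [pow_mul, hn']
    ext
    rw [Units.val_pow_eq_pow_val, Units.val_mk0, Units.val_one]
    exact h
  have h2 := orderOf_dvd_of_pow_eq_one h1
  rw [hord] at h2
  obtain ⟨l, rfl⟩ := Nat.dvd_of_mul_dvd_mul_right hc0 h2
  refine ⟨((g ^ l : Kˣ) : K), ?_⟩
  rw [← Units.val_pow_eq_pow_val, ← pow_mul, mul_comm l m, hn']
  rfl

/-- powers modulo a place -/
theorem M3a_pow_mod {k : Type} [Field k] [NumberField k] (v : HeightOneSpectrum (𝓞 k)) {m : ℕ} (hm0 : 0 < m)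
    (hm : m ∣ TH.nv v - 1) {a : 𝓞 k} (ha : a ∉ v.asIdeal) (h : a ^ ((TH.nv v - 1) / m) - 1 ∈ v.asIdeal) :
    ∃ b : 𝓞 k, b ^ m - a ∈ v.asIdeal := by
  have := finite_quot v
  have := v.isMaximal
  let : Field (𝓞 k ⧸ v.asIdeal) := Ideal.Quotient.field v.asIdeal
  obtain ⟨y, hy⟩ := M3a_pow (K := 𝓞 k ⧸ v.asIdeal) hm0 hm (x := Ideal.Quotient.mk v.asIdeal a)
    (by rw [Ne, Ideal.Quotient.eq_zero_iff_mem]; exact ha)
    (by
      rw [← Ideal.Quotient.eq_zero_iff_mem, map_sub, map_pow, map_one, sub_eq_zero] at h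
      exact h)
  obtain ⟨b, rfl⟩ := Ideal.Quotient.mk_surjective y
  refine ⟨b, ?_⟩
  rw [← Ideal.Quotient.eq_zero_iff_mem, map_sub, map_pow, hy, sub_self]

/-- Hensel's lemma for powers -/
theorem M3a_hensel {k : Type} [Field k] [NumberField k] (v : HeightOneSpectrum (𝓞 k)) {m : ℕ} (hm0 : 0 < m)
    (hm : ((m : ℕ) : 𝓞 k) ∉ v.asIdeal) {a b : 𝓞 k} (ha : a ∉ v.asIdeal) (h : b ^ m - a ∈ v.asIdeal) :
    ∃ y : v.adicCompletionIntegers k, y ^ m = algebraMap (𝓞 k) (v.adicCompletionIntegers k) a := by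
  have hhens := CUD.c12a_hens k v
  have hker := (CMT.residue_completion k v).2
  have hmem : ∀ c : 𝓞 k, c ∈ v.asIdeal ↔
      algebraMap (𝓞 k) (v.adicCompletionIntegers k) c ∈ IsLocalRing.maximalIdeal (v.adicCompletionIntegers k) := by
    intro c
    rw [← hker, RingHom.mem_ker, RingHom.comp_apply, IsLocalRing.residue_eq_zero_iff]
  have hunit : ∀ c : 𝓞 k, c ∉ v.asIdeal → IsUnit (algebraMap (𝓞 k) (v.adicCompletionIntegers k) c) := by
    intro c hc
    rw [hmem, IsLocalRing.mem_maximalIdeal, mem_nonunits_iff, not_not] at hc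
    exact hc
  have hb : b ∉ v.asIdeal := by
    intro hb
    apply ha
    have h1 := v.asIdeal.sub_mem (Ideal.pow_mem_of_mem _ hb m hm0) h
    rwa [sub_sub_cancel] at h1
  obtain ⟨y, hy, -⟩ := hhens.is_henselian
    (Polynomial.X ^ m - Polynomial.C (algebraMap (𝓞 k) (v.adicCompletionIntegers k) a))
    (Polynomial.monic_X_pow_sub_C _ hm0.ne') (algebraMap (𝓞 k) (v.adicCompletionIntegers k) b)
    (by
      have h4 : Polynomial.eval (algebraMap (𝓞 k) (v.adicCompletionIntegers k) b)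
          (Polynomial.X ^ m - Polynomial.C (algebraMap (𝓞 k) (v.adicCompletionIntegers k) a)) =
          algebraMap (𝓞 k) (v.adicCompletionIntegers k) (b ^ m - a) := by
        rw [map_sub, map_pow]; simp
      rw [h4]
      exact (hmem _).1 h)
    (by
      have h4 : Polynomial.eval (algebraMap (𝓞 k) (v.adicCompletionIntegers k) b)
          (Polynomial.derivative (Polynomial.X ^ m - Polynomial.C (algebraMap (𝓞 k) (v.adicCompletionIntegers k) a))) =
          algebraMap (𝓞 k) (v.adicCompletionIntegers k) ((m : ℕ) : 𝓞 k) *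
            (algebraMap (𝓞 k) (v.adicCompletionIntegers k) b) ^ (m - 1) := by
        rw [Polynomial.derivative_sub, Polynomial.derivative_X_pow, Polynomial.derivative_C, sub_zero,
          Polynomial.eval_mul, Polynomial.eval_C, Polynomial.eval_pow, Polynomial.eval_X, map_natCast]
      rw [h4]
      exact (hunit _ hm).mul ((hunit b hb).pow _))
  refine ⟨y, ?_⟩
  rw [Polynomial.IsRoot.def] at hy
  simp only [Polynomial.eval_sub, Polynomial.eval_pow, Polynomial.eval_X, Polynomial.eval_C] at hy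
  exact sub_eq_zero.1 hy

theorem M3a_geom (q f : ℕ) (hq : 0 < q) : q ^ f - 1 = (q - 1) * ∑ i ∈ Finset.range f, q ^ i := by
  obtain ⟨r, rfl⟩ : ∃ r, q = r + 1 := ⟨q - 1, by omega⟩
  have h2 : (∑ i ∈ Finset.range f, (r + 1) ^ i) * r + 1 = (r + 1) ^ f := by
    have := geom_sum_mul_add (r : ℕ) f
    linarith
  rw [Nat.add_sub_cancel, mul_comm, ← h2, Nat.add_sub_cancel]

section
variable {F : Type} [Field F] [NumberField F] [Algebra KK F] {l m n : ℕ} {d : Fin n → Eis} {δ : Fin n → F} {D : Eis}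

theorem M3a_lm (hl : l = 2 ∨ l = 3) (hm : l * m = 6) : (l = 2 ∧ m = 3) ∨ (l = 3 ∧ m = 2) := by
  rcases hl with rfl | rfl
  · left; exact ⟨rfl, by omega⟩
  · right; exact ⟨rfl, by omega⟩

theorem pow_down (hl : l = 2 ∨ l = 3) (hm : l * m = 6) (w : HeightOneSpectrum (𝓞 F)) (h6 : (6 : 𝓞 KK) ∉ (und KK w).asIdeal) (hD : D ≠ 0)
    {e f : ℕ} (he : e = 1 ∨ e = l) (hf : f = 1 ∨ f = l) (hn : TH.nv w = TH.nv (und KK w) ^ f)
    (ho : ∀ x : KK, x ≠ 0 → TWR.od w (algebraMap KK F x) = e * TWR.od (und KK w) x) (x : w.adicCompletion F)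
    (hx : x ^ m = algebraMap F (w.adicCompletion F) (jF F D)) :
    ∃ y : (und KK w).adicCompletion KK, y ^ m = algebraMap KK ((und KK w).adicCompletion KK) (jK D) := by
  have hlm := M3a_lm hl hm
  have hm0 : 0 < m := by rcases hlm with h | h <;> omega
  have hjD : jK D ≠ 0 := fun h => hD (jK_inj (h.trans (map_zero jK).symm))
  have hcop : Nat.Coprime m e := by
    rcases hlm with ⟨rfl, rfl⟩ | ⟨rfl, rfl⟩ <;> rcases he with rfl | rfl <;> decide
  -- the order
  have h1 : (m : ℤ) ∣ TWR.od (und KK w) (jK D) := by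
    have h2 : TWR.od w (algebraMap KK F (jK D)) = m * WithZero.log (Valued.v x : WithZero (Multiplicative ℤ)) := by
      have h3 := HeightOneSpectrum.valuedAdicCompletion_eq_valuation' w (jF F D)
      have h4 : Valued.v (x ^ m) = w.valuation F (jF F D) := by
        rw [hx]
        exact h3
      rw [map_pow] at h4
      rw [← jF_apply, TWR.od, ← h4, WithZero.log_pow, nsmul_eq_mul]
    rw [ho _ hjD] at h2
    have h3 : (m : ℤ) ∣ (e : ℤ) * TWR.od (und KK w) (jK D) := ⟨_, h2⟩
    exact (Int.isCoprime_iff_gcd_eq_one.2 (by simpa [Int.gcd_natCast_natCast] using hcop)).dvd_of_dvd_mul_left h3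
  obtain ⟨t', u, hu, ht', htu⟩ := exists_unit_rep (und KK w) hm0 hjD h1
  set T : 𝓞 F := algebraMap (𝓞 KK) (𝓞 F) t' with hT
  have hTw : T ∉ w.asIdeal := fun h => ht' ((mem_und w t').2 h)
  -- the unit y
  have hTF : (T : F) = algebraMap KK F (t' : KK) := by
    rw [hT]
    exact (IsScalarTower.algebraMap_apply (𝓞 KK) (𝓞 F) F t').symm.trans (IsScalarTower.algebraMap_apply (𝓞 KK) KK F t')
  set U : w.adicCompletion F := algebraMap F (w.adicCompletion F) (algebraMap KK F u) with hU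
  have hU0 : U ≠ 0 := by
    rw [hU, Ne, map_eq_zero, map_eq_zero]
    exact hu
  have hy : (x / U) ^ m = algebraMap F (w.adicCompletion F) (T : F) := by
    rw [div_pow, hx, div_eq_iff (pow_ne_zero _ hU0), hU, ← map_pow, ← map_pow, ← map_mul, jF_apply, htu, map_mul, hTF,
      mul_comm]
  have hyv : Valued.v (x / U) = (1 : WithZero (Multiplicative ℤ)) := by
    have h3 := HeightOneSpectrum.valuedAdicCompletion_eq_valuation' w (T : F)
    have h4 : Valued.v ((x / U) ^ m) = w.valuation F (T : F) := by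
      rw [hy]
      exact h3
    rw [val_unit T w hTw, map_pow] at h4
    exact (pow_eq_one_iff_of_nonneg zero_le hm0.ne').1 h4
  let Y : w.adicCompletionIntegers F := ⟨x / U, hyv.le⟩
  obtain ⟨b, hb⟩ := (CMT.residue_completion F w).1 (IsLocalRing.residue (w.adicCompletionIntegers F) Y)
  have hYm : Y ^ m = algebraMap (𝓞 F) (w.adicCompletionIntegers F) T := by
    apply Subtype.ext
    exact hy
  have hbm : b ^ m - T ∈ w.asIdeal := by
    rw [← (CMT.residue_completion F w).2, RingHom.mem_ker, map_sub, map_pow, hb, ← map_pow, hYm, RingHom.comp_apply, sub_self]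
  have hbw : b ∉ w.asIdeal := by
    intro h
    apply hTw
    have h3 := w.asIdeal.sub_mem (Ideal.pow_mem_of_mem _ h m hm0) hbm
    rwa [sub_sub_cancel] at h3
  -- the symbol
  have hq6 := nv_mod6 eK (und KK w) h6
  set q := TH.nv (und KK w) with hq
  have hmq : m ∣ q - 1 := by
    rcases hlm with ⟨-, rfl⟩ | ⟨-, rfl⟩ <;> omega
  obtain ⟨c, hc⟩ := hmq
  have hq0 : 0 < q := by omega
  set N := ∑ i ∈ Finset.range f, q ^ i with hN
  have hgeom : q ^ f - 1 = m * (c * N) := by
    rw [M3a_geom q f hq0, hc, mul_assoc]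
  have hNm : Nat.Coprime N m := by
    rcases hlm with ⟨rfl, rfl⟩ | ⟨rfl, rfl⟩
    · rcases hf with rfl | rfl
      · rw [hN]; simp
      · rw [hN]
        simp only [Finset.sum_range_succ, Finset.sum_range_zero, pow_zero, pow_one, zero_add]
        rw [Nat.coprime_comm, (Nat.Prime.coprime_iff_not_dvd Nat.prime_three)]
        omega
    · rcases hf with rfl | rfl
      · rw [hN]; simp
      · rw [hN]
        simp only [Finset.sum_range_succ, Finset.sum_range_zero, pow_zero, pow_one, zero_add]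
        rw [Nat.coprime_comm, (Nat.Prime.coprime_iff_not_dvd Nat.prime_two)]
        have : q ^ 2 % 2 = 1 := by
          rw [pow_two, Nat.mul_mod]
          have : q % 2 = 1 := by omega
          rw [this]
        omega
  have hz1 : t' ^ c - 1 ∈ (und KK w).asIdeal := by
    rw [mem_und, map_sub, map_pow, map_one, ← hT, ← Ideal.Quotient.eq_zero_iff_mem, map_sub, map_one, sub_eq_zero]
    have hzm : (Ideal.Quotient.mk w.asIdeal (T ^ c)) ^ m = 1 := by
      have h3 := TH.p1_pow (und KK w) ht'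
      rw [← hq, hc, mem_und, map_sub, map_pow, map_one, ← hT, ← Ideal.Quotient.eq_zero_iff_mem, map_sub, map_one, sub_eq_zero] at h3
      rw [← map_pow, ← pow_mul, mul_comm c m]
      exact h3
    have hzN : (Ideal.Quotient.mk w.asIdeal (T ^ c)) ^ N = 1 := by
      have h3 := TH.p1_pow w hbw
      rw [hn, hgeom, ← Ideal.Quotient.eq_zero_iff_mem, map_sub, map_one, sub_eq_zero, pow_mul, map_pow] at h3
      have h4 : Ideal.Quotient.mk w.asIdeal (b ^ m) = Ideal.Quotient.mk w.asIdeal T := by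
        rw [← sub_eq_zero, ← map_sub, Ideal.Quotient.eq_zero_iff_mem]
        exact hbm
      rw [h4, pow_mul] at h3
      rw [map_pow]
      exact h3
    have h5 := (pow_gcd_eq_one (a := Ideal.Quotient.mk w.asIdeal (T ^ c)) (m := N) (n := m)).2 ⟨hzN, hzm⟩
    rw [hNm, pow_one] at h5
    exact h5
  obtain ⟨b', hb'⟩ := M3a_pow_mod (und KK w) (m := m) hm0 ⟨c, by rw [← hq]; exact hc⟩ ht' (by
    rw [← hq, hc, Nat.mul_div_cancel_left _ hm0]
    exact hz1)
  have hmv : ((m : ℕ) : 𝓞 KK) ∉ (und KK w).asIdeal := by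
    intro h
    apply h6
    have h7 : (6 : 𝓞 KK) = (l : 𝓞 KK) * (m : 𝓞 KK) := by
      have : ((l * m : ℕ) : 𝓞 KK) = ((6 : ℕ) : 𝓞 KK) := by rw [hm]
      rw [Nat.cast_mul] at this
      rw [this]
      norm_num
    rw [h7]
    exact Ideal.mul_mem_left _ _ h
  obtain ⟨y, hy'⟩ := M3a_hensel (und KK w) hm0 hmv ht' hb'
  refine ⟨algebraMap KK ((und KK w).adicCompletion KK) u * (y : (und KK w).adicCompletion KK), ?_⟩
  have h8 : ((y : (und KK w).adicCompletion KK)) ^ m = algebraMap KK ((und KK w).adicCompletion KK) (t' : KK) := by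
    exact congrArg (fun z : (und KK w).adicCompletionIntegers KK => (z : (und KK w).adicCompletion KK)) hy'
  rw [mul_pow, h8, ← map_pow, ← map_mul, ← htu]

theorem no_pow (hl : l = 2 ∨ l = 3) (hm : l * m = 6) (hK : Kum l n d δ) (h : ∀ x : KK, x ^ m ≠ jK D) (x : F) : x ^ m ≠ jF F D := by
  intro hx
  have hlm := M3a_lm hl hm
  have hmp : m.Prime := by
    rcases hlm with ⟨-, rfl⟩ | ⟨-, rfl⟩
    · exact Nat.prime_three
    · exact Nat.prime_two
  have hirr := (X_pow_sub_C_irreducible_iff_of_prime hmp (a := jK D)).2 h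
  have haev : Polynomial.aeval x (Polynomial.X ^ m - Polynomial.C (jK D)) = 0 := by
    rw [map_sub, map_pow, Polynomial.aeval_X, Polynomial.aeval_C, hx, jF_apply, sub_self]
  have hmonic := Polynomial.monic_X_pow_sub_C (jK D) hmp.ne_zero
  have hmin := minpoly.eq_of_irreducible_of_monic hirr haev hmonic
  have hdeg := minpoly.degree_dvd (K := KK) (L := F) (x := x) ⟨_, hmonic, haev⟩
  rw [← hmin, Polynomial.natDegree_X_pow_sub_C, hK.rank] at hdeg
  have h2 := hmp.dvd_of_dvd_pow hdeg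
  rcases hlm with ⟨rfl, rfl⟩ | ⟨rfl, rfl⟩ <;> omega
end

end CX
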