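import Pool.Agent.CX.T2

/-!
# [CX-T3] local polynomial and Tamagawa number at the places over 6

PROOF. General lemma (`iso_poly`, `iso_tam`): let `ψ : A ≃+* A'` be an isomorphism of discrete valuation rings with fraction fields `L`, `L'`, compatible with an isomorphism `φ : L ≃+* L'`. Then `(W.map φ).localPolynomial A' = W.localPolynomial A` and `tamagawa A' (W.map φ) = tamagawa A W` (`W.Δ ≠ 0`).
`ISO.exists_model`: `W = C • I.map`, with `hu`; then `W.map φ = C' • (I.map ψ).map` and `hu'` transported (`IsMinimal` is transported: for a variable change `T'` over `L'` take `T = T'.map φ⁻¹`; or show directly that the transported pair satisfies the statement by `ISO.ISOa_u`: enough that `(I.map ψ).map` is minimal up to a unit change). For the local polynomial use the three cases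
`ISO.ISOb_good`, `ISO.ISOb_add`, `GE.localPoly_split/nonsplit` as in the proof of `ISO.localPoly_smul` (for `ED` curves only the first two cases occur, `c₄ = 0`: you may assume `W = ED (jK D)`, `D ≠ 0`, if this is simpler: state it so and tell helper71). For `tamagawa`: `VC63.tamagawa_smul I C hmin` (used in `ISO.tamagawa_smul'`) reduces to the index of the closure of `{P | NonsingularReduction}` for the integral model `I`,
which is transported by the bijection of the points induced by `φ` (`WeierstrassCurve.Affine.Point.map`, additive) and by `ψ` on the residue fields. `Nat.card` of the points over the residue fields: bijection induced by `ResidueField.mapEquiv ψ`. QTF/Q.lean or TK/C7.lean (`LCW_iso`) contain a transport along an isomorphism of number fields which may be copied.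
-/

set_option autoImplicit false

open NumberField IsDedekindDomain
open scoped Classical ComplexConjugate

namespace CX

open CM27 CMT NAB CF JD
open CU (la om eE)

section pt
open WeierstrassCurve.Affine WeierstrassCurve.Affine.Point

variable {L L' : Type} [Field L] [Field L'] (φ : L →+* L') (W : WeierstrassCurve L)

/-- the homomorphism of the groups of points induced by a homomorphism of fields -/
noncomputable def T3_pt : W.toAffine.Point →+ (W.map φ).toAffine.Point where
  toFun P := match P with
    | 0 => 0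
    | .some x y h => .some (φ x) (φ y) ((W.toAffine.map_nonsingular φ.injective x y).2 h)
  map_zero' := rfl
  map_add' := by
    rintro (_ | ⟨x₁, y₁, h₁⟩) (_ | ⟨x₂, y₂, h₂⟩)
    any_goals rfl
    by_cases hxy : x₁ = x₂ ∧ y₁ = W.toAffine.negY x₂ y₂
    · rw [add_of_Y_eq hxy.left hxy.right,
        add_of_Y_eq (congr_arg _ hxy.left) <| by rw [hxy.right, map_negY]]
    · simpa only [add_some hxy, ← map_addX, ← map_addY, ← map_slope] using!
        (add_some fun h ↦ hxy ⟨φ.injective h.1, φ.injective (W.toAffine.map_negY φ .. ▸ h).2⟩).symm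

theorem T3_pt_bij (hφ : Function.Surjective φ) : Function.Bijective (T3_pt φ W) := by
  constructor
  · rintro (_ | ⟨x₁, y₁, h₁⟩) (_ | ⟨x₂, y₂, h₂⟩) h
    any_goals contradiction
    · rfl
    · have h1 := WeierstrassCurve.Affine.Point.some.inj h
      simpa only [WeierstrassCurve.Affine.Point.some.injEq] using
        ⟨φ.injective h1.1, φ.injective h1.2⟩
  · rintro (_ | ⟨x, y, h⟩)
    · exact ⟨0, rfl⟩
    · obtain ⟨a, rfl⟩ := hφ x
      obtain ⟨b, rfl⟩ := hφ y
      exact ⟨.some a b ((W.toAffine.map_nonsingular φ.injective a b).1 h), rfl⟩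

theorem T3_card (hφ : Function.Surjective φ) :
    Nat.card (W.map φ).toAffine.Point = Nat.card W.toAffine.Point :=
  (Nat.card_congr (Equiv.ofBijective _ (T3_pt_bij φ W hφ))).symm
end pt

section gen
variable {A A' : Type} [CommRing A] [IsDomain A] [IsDiscreteValuationRing A] [CommRing A'] [IsDomain A']
  [IsDiscreteValuationRing A'] {L L' : Type} [Field L] [Field L'] [Algebra A L] [IsFractionRing A L]
  [Algebra A' L'] [IsFractionRing A' L'] (ψ : A ≃+* A') (φ : L ≃+* L')
  (hc : ∀ a : A, algebraMap A' L' (ψ a) = φ (algebraMap A L a))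
include hc

theorem T3_le (x : L) : (IsDiscreteValuationRing.maximalIdeal A').valuation L' (φ x) ≤ 1 ↔
    (IsDiscreteValuationRing.maximalIdeal A).valuation L x ≤ 1 := by
  constructor
  · intro h
    obtain ⟨a', ha'⟩ := IsDiscreteValuationRing.exists_lift_of_le_one h
    have h1 : x = algebraMap A L (ψ.symm a') := by
      apply φ.injective
      rw [← hc, ψ.apply_symm_apply, ha']
    rw [h1]
    exact (IsDiscreteValuationRing.maximalIdeal A).valuation_le_one _
  · intro h
    obtain ⟨a, rfl⟩ := IsDiscreteValuationRing.exists_lift_of_le_one h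
    rw [← hc]
    exact (IsDiscreteValuationRing.maximalIdeal A').valuation_le_one _

theorem T3_int (W : WeierstrassCurve L) (h : WeierstrassCurve.IsIntegral A' (W.map (φ : L →+* L'))) :
    WeierstrassCurve.IsIntegral A W := by
  obtain ⟨J', hJ⟩ := h.integral
  have key : ∀ (a : L) (a' : A'), (φ : L →+* L') a = algebraMap A' L' a' →
      a = algebraMap A L (ψ.symm a') := by
    intro a a' h
    apply φ.injective
    rw [← hc, ψ.apply_symm_apply]
    exact h
  refine ⟨⟨J'.map (ψ.symm : A' →+* A), ?_⟩⟩
  ext
  · exact key _ _ (congrArg WeierstrassCurve.a₁ hJ)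
  · exact key _ _ (congrArg WeierstrassCurve.a₂ hJ)
  · exact key _ _ (congrArg WeierstrassCurve.a₃ hJ)
  · exact key _ _ (congrArg WeierstrassCurve.a₄ hJ)
  · exact key _ _ (congrArg WeierstrassCurve.a₆ hJ)

theorem T3_map (I : WeierstrassCurve A) :
    (I.map (ψ : A →+* A')).map (algebraMap A' L') = (I.map (algebraMap A L)).map (φ : L →+* L') := by
  rw [WeierstrassCurve.map_map, WeierstrassCurve.map_map]
  congr 1
  ext a
  exact hc a

theorem T3_min (I : WeierstrassCurve A) (hΔ : I.Δ ≠ 0)
    (hu : ∀ T : WeierstrassCurve.VariableChange L, (T • I.map (algebraMap A L)).IsMinimal A →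
      (IsDiscreteValuationRing.maximalIdeal A).valuation L (T.u : L) = 1)
    (T' : WeierstrassCurve.VariableChange L')
    (hT' : (T' • (I.map (ψ : A →+* A')).map (algebraMap A' L')).IsMinimal A') :
    (IsDiscreteValuationRing.maximalIdeal A').valuation L' (T'.u : L') = 1 := by
  have hφu : ((φ : L →+* L').comp (φ.symm : L' →+* L)) = RingHom.id L' := by
    ext x
    exact φ.apply_symm_apply x
  obtain ⟨T, hT⟩ : ∃ T : WeierstrassCurve.VariableChange L, T.map (φ : L →+* L') = T' := by
    refine ⟨T'.map (φ.symm : L' →+* L), ?_⟩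
    rw [WeierstrassCurve.VariableChange.map_map, hφu, WeierstrassCurve.VariableChange.map_id]
  have hIm := T3_map ψ φ hc I
  have hΔL : (I.map (algebraMap A L)).Δ ≠ 0 := by
    rw [WeierstrassCurve.map_Δ]
    exact (map_ne_zero_iff _ (IsFractionRing.injective A L)).2 hΔ
  have hΔL' : ((I.map (ψ : A →+* A')).map (algebraMap A' L')).Δ ≠ 0 := by
    rw [hIm, WeierstrassCurve.map_Δ]
    exact (map_ne_zero_iff _ φ.injective).2 hΔL
  have hu0 : (IsDiscreteValuationRing.maximalIdeal A').valuation L' (T'.u : L') ≠ 0 := by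
    rw [Valuation.ne_zero_iff]
    exact Units.ne_zero _
  -- (i)
  have h1 : 1 ≤ (IsDiscreteValuationRing.maximalIdeal A').valuation L' ((T'.u⁻¹ : L'ˣ) : L') := by
    have hi : WeierstrassCurve.IsIntegral A' (T'⁻¹ • (T' • (I.map (ψ : A →+* A')).map (algebraMap A' L'))) := by
      rw [inv_smul_smul]
      exact ⟨⟨_, rfl⟩⟩
    have h2 := ISO.ISOa_le A' _ hT' T'⁻¹ hi
    rw [inv_smul_smul, WeierstrassCurve.variableChange_Δ, map_mul, map_pow] at h2
    by_contra h3
    have h4 : (IsDiscreteValuationRing.maximalIdeal A').valuation L' ((T'.u⁻¹ : L'ˣ) : L') ^ 12 < 1 :=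
      pow_lt_one₀ zero_le (not_le.1 h3) (by norm_num)
    have h5 : (IsDiscreteValuationRing.maximalIdeal A').valuation L'
        ((I.map (ψ : A →+* A')).map (algebraMap A' L')).Δ ≠ 0 := by
      rw [Valuation.ne_zero_iff]
      exact hΔL'
    have h6 := mul_lt_mul_of_pos_right h4 (zero_lt_iff.2 h5)
    rw [one_mul] at h6
    exact absurd h2 (not_le.2 h6)
  -- (ii)
  have h2 : (IsDiscreteValuationRing.maximalIdeal A').valuation L' ((T'.u⁻¹ : L'ˣ) : L') ≤ 1 := by
    obtain ⟨T₁, hT₁⟩ := (I.map (algebraMap A L)).exists_isMinimal A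
    have hu₁ := hu T₁ hT₁
    have hTi : WeierstrassCurve.IsIntegral A (T • I.map (algebraMap A L)) := by
      apply T3_int ψ φ hc
      rw [← WeierstrassCurve.map_variableChange, hT, ← hIm]
      exact inferInstance
    have e1 : T • I.map (algebraMap A L) = (T * T₁⁻¹) • (T₁ • I.map (algebraMap A L)) := by
      rw [mul_smul, inv_smul_smul]
    have h3 := ISO.ISOa_le A _ hT₁ (T * T₁⁻¹) (by rw [← e1]; exact hTi)
    rw [← e1, WeierstrassCurve.variableChange_Δ, WeierstrassCurve.variableChange_Δ, map_mul, map_mul,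
      map_pow, map_pow] at h3
    have hwΔ : (IsDiscreteValuationRing.maximalIdeal A).valuation L (I.map (algebraMap A L)).Δ ≠ 0 := by
      rw [Valuation.ne_zero_iff]
      exact hΔL
    have e2 : (IsDiscreteValuationRing.maximalIdeal A).valuation L ((T₁.u⁻¹ : Lˣ) : L) = 1 := by
      rw [Units.val_inv_eq_inv_val, map_inv₀, hu₁, inv_one]
    rw [e2, one_pow, one_mul] at h3
    have h4 : (IsDiscreteValuationRing.maximalIdeal A).valuation L ((T.u⁻¹ : Lˣ) : L) ≤ 1 := by
      by_contra h5
      have h6 : 1 < (IsDiscreteValuationRing.maximalIdeal A).valuation L ((T.u⁻¹ : Lˣ) : L) ^ 12 :=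
        one_lt_pow₀ (not_le.1 h5) (by norm_num)
      have h7 := mul_lt_mul_of_pos_right h6 (zero_lt_iff.2 hwΔ)
      rw [one_mul] at h7
      exact absurd h3 (not_le.2 h7)
    have e3 : ((T'.u⁻¹ : L'ˣ) : L') = φ ((T.u⁻¹ : Lˣ) : L) := by
      rw [← hT, Units.val_inv_eq_inv_val, Units.val_inv_eq_inv_val, map_inv₀]
      rfl
    rw [e3]
    exact (T3_le ψ φ hc _).2 h4
  have h3 := le_antisymm h2 h1
  rw [Units.val_inv_eq_inv_val, map_inv₀] at h3
  exact inv_eq_one.1 h3

theorem T3_poly (W : WeierstrassCurve L) (hΔ : W.Δ ≠ 0) (h4 : W.c₄ = 0) :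
    (W.map (φ : L →+* L')).localPolynomial A' = W.localPolynomial A := by
  obtain ⟨I, C, hI, hIΔ, hmin⟩ := ISO.exists_model A W hΔ
  have hmin' := T3_min ψ φ hc I hIΔ hmin
  have e1 : W.map (φ : L →+* L') = (C.map (φ : L →+* L')) •
      (I.map (ψ : A →+* A')).map (algebraMap A' L') := by
    rw [T3_map ψ φ hc, WeierstrassCurve.map_variableChange, ← hI]
  have h0 : W.localPolynomial A = (C • I.map (algebraMap A L)).localPolynomial A := by rw [← hI]
  have hI4 : I.c₄ = 0 := by
    rw [hI, WeierstrassCurve.variableChange_c₄, WeierstrassCurve.map_c₄] at h4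
    rcases mul_eq_zero.1 h4 with h5 | h5
    · exact absurd h5 (pow_ne_zero _ (Units.ne_zero _))
    · exact (map_eq_zero_iff _ (IsFractionRing.injective A L)).1 h5
  have hI4' : (I.map (ψ : A →+* A')).c₄ = 0 := by
    rw [WeierstrassCurve.map_c₄, hI4, map_zero]
  rw [e1, h0]
  by_cases hu : IsUnit I.Δ
  · have hu' : IsUnit (I.map (ψ : A →+* A')).Δ := by
      rw [WeierstrassCurve.map_Δ]
      exact hu.map _
    rw [ISO.ISOb_good A I hu, ISO.ISOb_good A' _ hu']
    have e2 : Nat.card (IsLocalRing.ResidueField A') = Nat.card (IsLocalRing.ResidueField A) :=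
      (Nat.card_congr (IsLocalRing.ResidueField.mapEquiv ψ).toEquiv).symm
    have e3 : Nat.card ((I.map (ψ : A →+* A')).map (IsLocalRing.residue A')).toAffine.Point =
        Nat.card (I.map (IsLocalRing.residue A)).toAffine.Point := by
      rw [← T3_card ((IsLocalRing.ResidueField.mapEquiv ψ : IsLocalRing.ResidueField A →+*
        IsLocalRing.ResidueField A')) (I.map (IsLocalRing.residue A))
        (IsLocalRing.ResidueField.mapEquiv ψ).surjective]
      rw [WeierstrassCurve.map_map, WeierstrassCurve.map_map]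
      rfl
    rw [e2, e3]
  · have hu' : ¬ IsUnit (I.map (ψ : A →+* A')).Δ := by
      rw [WeierstrassCurve.map_Δ]
      intro h
      exact hu ((MulEquiv.isUnit_map ψ).1 h)
    have n4 : ¬ IsUnit I.c₄ := by
      rw [hI4]
      exact not_isUnit_zero
    have n4' : ¬ IsUnit (I.map (ψ : A →+* A')).c₄ := by
      rw [hI4']
      exact not_isUnit_zero
    rw [ISO.ISOb_add A I hmin hu n4, ISO.ISOb_add A' _ hmin' hu' n4']

/-- the points of nonsingular reduction, the curve over the field as a free parameter -/
def T3_NRx (J : WeierstrassCurve A') (W₂ : WeierstrassCurve L') : W₂.toAffine.Point → Prop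
  | .zero => True
  | .some x y _ => ∀ a b : A', algebraMap A' L' a = x → algebraMap A' L' b = y →
      (J.map (IsLocalRing.residue A')).toAffine.Nonsingular (IsLocalRing.residue A' a)
        (IsLocalRing.residue A' b)

theorem T3_NR (I : WeierstrassCurve A) (P : (I.map (algebraMap A L)).toAffine.Point) :
    T3_NRx (I.map (ψ : A →+* A')) ((I.map (algebraMap A L)).map (φ : L →+* L'))
      (T3_pt (φ : L →+* L') (I.map (algebraMap A L)) P) ↔ VC63.NR I P := by
  have key : ∀ a b : A, ((I.map (ψ : A →+* A')).map (IsLocalRing.residue A')).toAffine.Nonsingular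
      (IsLocalRing.residue A' (ψ a)) (IsLocalRing.residue A' (ψ b)) ↔
      (I.map (IsLocalRing.residue A)).toAffine.Nonsingular (IsLocalRing.residue A a)
        (IsLocalRing.residue A b) := by
    intro a b
    have h1 := (I.map (IsLocalRing.residue A)).toAffine.map_nonsingular
      (f := (IsLocalRing.ResidueField.mapEquiv ψ : IsLocalRing.ResidueField A →+*
        IsLocalRing.ResidueField A')) (IsLocalRing.ResidueField.mapEquiv ψ).injective
      (IsLocalRing.residue A a) (IsLocalRing.residue A b)
    exact h1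
  rcases P with _ | ⟨x, y, h⟩
  · exact Iff.rfl
  · constructor
    · intro h1 a b ha hb
      refine (key a b).1 (h1 (ψ a) (ψ b) ?_ ?_)
      · rw [hc, ha]
        rfl
      · rw [hc, hb]
        rfl
    · intro h1 a' b' ha hb
      obtain ⟨a, rfl⟩ := ψ.surjective a'
      obtain ⟨b, rfl⟩ := ψ.surjective b'
      refine (key a b).2 (h1 a b ?_ ?_)
      · apply φ.injective
        rw [← hc]
        exact ha
      · apply φ.injective
        rw [← hc]
        exact hb

theorem T3_index (I : WeierstrassCurve A) :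
    (AddSubgroup.closure {P : ((I.map (ψ : A →+* A')).map (algebraMap A' L')).toAffine.Point |
      VC63.NR (I.map (ψ : A →+* A')) P}).index =
    (AddSubgroup.closure {P : (I.map (algebraMap A L)).toAffine.Point | VC63.NR I P}).index := by
  have h0 : ∀ W₂ : WeierstrassCurve L', W₂ = (I.map (algebraMap A L)).map (φ : L →+* L') →
      (AddSubgroup.closure {P : W₂.toAffine.Point | T3_NRx (I.map (ψ : A →+* A')) W₂ P}).index =
      (AddSubgroup.closure {P : (I.map (algebraMap A L)).toAffine.Point | VC63.NR I P}).index := by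
    rintro _ rfl
    let e : (I.map (algebraMap A L)).toAffine.Point ≃+
        ((I.map (algebraMap A L)).map (φ : L →+* L')).toAffine.Point :=
      AddEquiv.ofBijective (T3_pt (φ : L →+* L') (I.map (algebraMap A L)))
        (T3_pt_bij _ _ φ.surjective)
    have he : ∀ P, e P = T3_pt (φ : L →+* L') (I.map (algebraMap A L)) P := fun _ => rfl
    have h1 : (AddSubgroup.closure {P : (I.map (algebraMap A L)).toAffine.Point |
        VC63.NR I P}).map e.toAddMonoidHom =
        AddSubgroup.closure {P : ((I.map (algebraMap A L)).map (φ : L →+* L')).toAffine.Point |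
          T3_NRx (I.map (ψ : A →+* A')) ((I.map (algebraMap A L)).map (φ : L →+* L')) P} := by
      rw [AddMonoidHom.map_closure]
      congr 1
      ext Q
      constructor
      · rintro ⟨P, hP, rfl⟩
        exact (T3_NR ψ φ hc I P).2 hP
      · intro hQ
        obtain ⟨P, rfl⟩ := e.surjective Q
        exact ⟨P, (T3_NR ψ φ hc I P).1 hQ, rfl⟩
    rw [← h1]
    exact AddSubgroup.index_map_equiv _ e
  have h2 : {P : ((I.map (ψ : A →+* A')).map (algebraMap A' L')).toAffine.Point |
      VC63.NR (I.map (ψ : A →+* A')) P} =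
      {P | T3_NRx (I.map (ψ : A →+* A')) ((I.map (ψ : A →+* A')).map (algebraMap A' L')) P} := by
    ext P
    rcases P with _ | ⟨x, y, h⟩
    · exact Iff.rfl
    · exact Iff.rfl
  rw [h2]
  exact h0 _ (T3_map ψ φ hc I)

theorem T3_tam (W : WeierstrassCurve L) (hΔ : W.Δ ≠ 0) :
    SBSD.tamagawa A' (W.map (φ : L →+* L')) = SBSD.tamagawa A W := by
  obtain ⟨I, C, hI, hIΔ, hmin⟩ := ISO.exists_model A W hΔ
  have hmin' := T3_min ψ φ hc I hIΔ hmin
  have e1 : W.map (φ : L →+* L') = (C.map (φ : L →+* L')) •
      (I.map (ψ : A →+* A')).map (algebraMap A' L') := by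
    rw [T3_map ψ φ hc, WeierstrassCurve.map_variableChange, ← hI]
  have h0 : SBSD.tamagawa A W = SBSD.tamagawa A (C • I.map (algebraMap A L)) := by rw [← hI]
  rw [e1, h0, VC63.tamagawa_smul I _ hmin, VC63.tamagawa_smul _ _ hmin', T3_index ψ φ hc I]
end gen

section
variable {F : Type} [Field F] [NumberField F] [Algebra KK F] {v : HeightOneSpectrum (𝓞 KK)} {w : HeightOneSpectrum (𝓞 F)}
  {φ : v.adicCompletion KK →+* w.adicCompletion F} (h : Below v w φ) (hs : Function.Surjective φ)
include h hs

omit h hs in
theorem T3_Δ (D : Eis) (hD : D ≠ 0) : ((ED (jK D)).baseChange (v.adicCompletion KK)).Δ ≠ 0 := by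
  have h2 : (ED (jK D)).baseChange (v.adicCompletion KK) =
    ED (algebraMap KK (v.adicCompletion KK) (jK D)) := ED_map _ _
  rw [h2, ED_Δ]
  have h3 : algebraMap KK (v.adicCompletion KK) (jK D) ≠ 0 := by
    rw [map_ne_zero, Ne, map_eq_zero_iff _ jK_inj]
    exact hD
  have h4 : CharZero (v.adicCompletion KK) := charZero_of_injective_algebraMap (algebraMap KK (v.adicCompletion KK)).injective
  exact mul_ne_zero (by norm_num) (pow_ne_zero _ h3)

theorem T3_data : ∃ (ψ : v.adicCompletionIntegers KK ≃+* w.adicCompletionIntegers F)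
    (e : v.adicCompletion KK ≃+* w.adicCompletion F), (∀ x, e x = φ x) ∧
      ∀ a : v.adicCompletionIntegers KK, algebraMap (w.adicCompletionIntegers F) (w.adicCompletion F) (ψ a) =
        e (algebraMap (v.adicCompletionIntegers KK) (v.adicCompletion KK) a) := by
  obtain ⟨ψ, hψ⟩ := tr_ring h hs
  exact ⟨ψ, RingEquiv.ofBijective φ ⟨φ.injective, hs⟩, fun _ => rfl, hψ⟩

theorem T3_curve (D : Eis) (e : v.adicCompletion KK ≃+* w.adicCompletion F) (he : ∀ x, e x = φ x) :
    (ED (jF F D)).baseChange (w.adicCompletion F) =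
      ((ED (jK D)).baseChange (v.adicCompletion KK)).map (e : v.adicCompletion KK →+* w.adicCompletion F) := by
  have h1 : (ED (jF F D)).baseChange (w.adicCompletion F) =
    ED (algebraMap F (w.adicCompletion F) (jF F D)) := ED_map _ _
  have h2 : (ED (jK D)).baseChange (v.adicCompletion KK) =
    ED (algebraMap KK (v.adicCompletion KK) (jK D)) := ED_map _ _
  rw [h1, h2, ED_map]
  congr 1
  exact ((he _).trans (h.comm (jK D))).symm

theorem tr_poly {D : Eis} (hD : D ≠ 0) :
    ((ED (jF F D)).baseChange (w.adicCompletion F)).localPolynomial (w.adicCompletionIntegers F) =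
      ((ED (jK D)).baseChange (v.adicCompletion KK)).localPolynomial (v.adicCompletionIntegers KK) := by
  obtain ⟨ψ, e, he, hc⟩ := T3_data h hs
  have h2 : (ED (jK D)).baseChange (v.adicCompletion KK) =
    ED (algebraMap KK (v.adicCompletion KK) (jK D)) := ED_map _ _
  rw [T3_curve h hs D e he]
  refine T3_poly ψ e hc _ ?_ ?_
  · exact T3_Δ D hD
  · rw [h2, ED_c₄]

theorem tr_tam {D : Eis} (hD : D ≠ 0) : SBSD.tam (ED (jF F D)) w = SBSD.tam (ED (jK D)) v := by
  obtain ⟨ψ, e, he, hc⟩ := T3_data h hs
  show SBSD.tamagawa (w.adicCompletionIntegers F) ((ED (jF F D)).baseChange (w.adicCompletion F)) =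
    SBSD.tamagawa (v.adicCompletionIntegers KK) ((ED (jK D)).baseChange (v.adicCompletion KK))
  rw [T3_curve h hs D e he]
  exact T3_tam ψ e hc _ (T3_Δ D hD)
end

end CX
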