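import Pool.Agent.CX.M1
import Pool.Agent.CX.M2
import Pool.Agent.CX.M3a
import Pool.Agent.CX.T7
import Pool.Agent.CX.L7
import Pool.Agent.CX.T3
import Pool.Agent.CX.T6

/-!
# [CX-M3] the twists and the base change satisfy the hypotheses

PROOF. `pl_twist`: no point: `noPt_iff` over `KK` (`jK om`): if `D d_χ^m = x^m` then `D = (x / d_χ)^m`, against `hD.prim`. Tamagawa at `v ∋ 6`: `six_twist`. At `v ∌ 6`: if `l ∣ tam` then (`tam_ne6`) `6 ∤ od v (D d_χ^m)` and `D d_χ^m`, so `D`, is an `m`-th power in `K_v`. If some `eE (d_i) ∈ v`: `hD.npt`. Otherwise `od v (d_χ) = 0`, `6 ∤ od v D`, and `l ∣ tam (ED D) v` (`tam_ne6`) against the hypothesis.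
`pl_up`: no point: `noPt_iff` over `F`, `no_pow`. Tamagawa at `w ∋ 6`: `tr_tam` (`JD.exists_Below`, `surj_six`, `tr_und`). At `w ∌ 6`: if `l ∣ tam` then `6 ∤ od w D = e od v D` and `D` is an `m`-th power in `F_w`, so in `K_v` (`pow_down`, `place_count`); if some `eE (d_i) ∈ v`: `hD.npt`; otherwise all `od v (d_i) = 0`, `e = 1` (`place_count`), `6 ∤ od v D`, `tam_ne6` against the hypothesis.
(`(ED (jK D)).baseChange K_v = ED (algebraMap (jK D))`: `JD.ED_map`.)
-/

set_option autoImplicit false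

open NumberField IsDedekindDomain
open scoped Classical ComplexConjugate

namespace CX

open CM27 CMT NAB CF JD
open CU (la om eE)

private theorem M3_om {L : Type} [Field L] (f : Eis →+* L) : ∃ o : L, o ^ 2 + o + 1 = 0 := by
  refine ⟨f om, ?_⟩
  have h2 : (om ^ 2 + om + 1 : Eis) = 0 := by decide
  rw [← map_pow, ← map_add, ← map_one f, ← map_add, h2, map_zero]

private theorem M3_notMem {n l : ℕ} {d : Fin n → Eis} (v : HeightOneSpectrum (𝓞 KK))
    (h : ∀ i, eE (d i) ∉ v.asIdeal) (χ : Fin n → ZMod l) : eE (dx d χ) ∉ v.asIdeal := by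
  intro h1
  unfold dx at h1
  rw [map_prod] at h1
  obtain ⟨i, _, hi⟩ := (v.isPrime.prod_mem_iff).1 h1
  rw [map_pow] at hi
  exact h i (v.isPrime.mem_of_pow_mem _ hi)

private theorem M3_od {v : HeightOneSpectrum (𝓞 KK)} {a : Eis} (h : eE a ∉ v.asIdeal) :
    TWR.od v (jK a) = 0 := by
  rw [jK_apply, TWR.od, val_unit _ v h, WithZero.log_one]

private theorem M3_jK {a : Eis} (h : a ≠ 0) : jK a ≠ 0 := fun h0 => h ((map_eq_zero_iff _ jK_inj).1 h0)

section
variable {F : Type} [Field F] [NumberField F] [Algebra KK F] {l m n : ℕ} [NeZero l] {d : Fin n → Eis} {δ : Fin n → F} {D : Eis}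

omit [NeZero l] in
private theorem M3_nopow (hD : Dat l m D d) (x : KK) : x ^ m ≠ jK D :=
  (noPt_iff (M3_jK hD.ne0) (M3_om jK) hD.lm.2 hD.lm.1).1 hD.prim x

private theorem M3_ne (hD : Dat l m D d) (hK : Kum l n d δ) (χ : Fin n → ZMod l) : D * dx d χ ^ m ≠ 0 := by
  intro h0
  have h1 : jK (D * dx d χ ^ m) = 0 := by rw [h0, map_zero]
  rw [map_mul, map_pow] at h1
  exact mul_ne_zero (M3_jK hD.ne0) (pow_ne_zero _ (M3_jK (dx_ne hK χ))) h1

theorem np_twist (hD : Dat l m D d) (hK : Kum l n d δ) (χ : Fin n → ZMod l) : Np l (ED (jK (D * dx d χ ^ m))) := by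
  have hd0 : dx d χ ≠ 0 := dx_ne hK χ
  unfold Np
  rw [noPt_iff (M3_jK (M3_ne hD hK χ)) (M3_om jK) hD.lm.2 hD.lm.1]
  intro x hx
  apply M3_nopow hD (x / jK (dx d χ))
  rw [div_pow, hx, map_mul, map_pow, mul_div_cancel_right₀]
  exact pow_ne_zero _ (M3_jK hd0)

/-- The Tamagawa numbers of a twist are divisible by `l` at the same places. -/
theorem tam_twist (hD : Dat l m D d) (hK : Kum l n d δ) (χ : Fin n → ZMod l) (v : HeightOneSpectrum (𝓞 KK)) :
    l ∣ SBSD.tam (ED (jK (D * dx d χ ^ m))) v ↔ l ∣ SBSD.tam (ED (jK D)) v := by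
  have hd0 : dx d χ ≠ 0 := dx_ne hK χ
  have hne := M3_ne hD hK χ
  by_cases h6 : (6 : 𝓞 KK) ∈ v.asIdeal
  · rw [(six_twist hD.toDat0 v h6 χ).1]
  · rw [tam_ne6 v h6 (M3_jK hne) hD.lm.2 hD.lm.1, tam_ne6 v h6 (M3_jK hD.ne0) hD.lm.2 hD.lm.1]
    have hinj : Function.Injective (algebraMap KK (v.adicCompletion KK)) :=
      (algebraMap KK (v.adicCompletion KK)).injective
    have hc0 : algebraMap KK (v.adicCompletion KK) (jK (dx d χ)) ≠ 0 :=
      fun h0 => M3_jK hd0 ((map_eq_zero_iff _ hinj).1 h0)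
    by_cases hi : ∃ i, eE (d i) ∈ v.asIdeal
    · obtain ⟨i, hi⟩ := hi
      have hn := hD.npt v i hi
      constructor
      · rintro ⟨-, x, hx⟩
        exfalso
        apply hn (x / algebraMap KK (v.adicCompletion KK) (jK (dx d χ)))
        rw [div_pow, hx, map_mul, map_mul, map_pow, map_pow, mul_div_cancel_right₀]
        exact pow_ne_zero _ hc0
      · rintro ⟨-, x, hx⟩
        exact absurd hx (hn x)
    · push Not at hi
      have h2 : TWR.od v (jK (D * dx d χ ^ m)) = TWR.od v (jK D) := by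
        rw [map_mul, map_pow, TWR.od_mul v (M3_jK hD.ne0) (pow_ne_zero _ (M3_jK hd0)),
          TWR.od_pow, M3_od (M3_notMem v hi χ), mul_zero, add_zero]
      rw [h2]
      refine and_congr_right fun _ => ?_
      constructor
      · rintro ⟨x, hx⟩
        refine ⟨x / algebraMap KK (v.adicCompletion KK) (jK (dx d χ)), ?_⟩
        rw [div_pow, hx, map_mul, map_mul, map_pow, map_pow, mul_div_cancel_right₀]
        exact pow_ne_zero _ hc0
      · rintro ⟨x, hx⟩
        refine ⟨x * algebraMap KK (v.adicCompletion KK) (jK (dx d χ)), ?_⟩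
        rw [mul_pow, hx, map_mul, map_mul, map_pow, map_pow]

theorem tp_twist (hD : Dat l m D d) (hK : Kum l n d δ) (χ : Fin n → ZMod l) :
    Tp l (ED (jK (D * dx d χ ^ m))) ↔ Tp l (ED (jK D)) :=
  forall_congr' fun v => not_congr (tam_twist hD hK χ v)

theorem pl_twist (hD : Dat l m D d) (hT : Tp l (ED (jK D))) (hK : Kum l n d δ) (χ : Fin n → ZMod l) :
    PL l (ED (jK (D * dx d χ ^ m))) :=
  ⟨np_twist hD hK χ, (tp_twist hD hK χ).2 hT⟩

theorem np_up (hD : Dat l m D d) (hK : Kum l n d δ) : Np l (ED (jF F D)) := by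
  have hjF : jF F D ≠ 0 := fun h0 => hD.ne0 ((map_eq_zero_iff _ (jF_inj F)).1 h0)
  unfold Np
  rw [noPt_iff hjF (M3_om (jF F)) hD.lm.2 hD.lm.1]
  exact fun x => no_pow hD.lm.2 hD.lm.1 hK (M3_nopow hD) x

/-- The Tamagawa numbers over `F` are divisible by `l` at the places over those where the Tamagawa numbers over `K` are divisible by `l`. -/
theorem tam_up (hD : Dat l m D d) (hK : Kum l n d δ) (w : HeightOneSpectrum (𝓞 F)) :
    l ∣ SBSD.tam (ED (jF F D)) w ↔ l ∣ SBSD.tam (ED (jK D)) (und KK w) := by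
  have hjF : jF F D ≠ 0 := fun h0 => hD.ne0 ((map_eq_zero_iff _ (jF_inj F)).1 h0)
  obtain ⟨v, φ, hB⟩ := JD.exists_Below w
  have hv := tr_und hB
  subst hv
  by_cases h6 : (6 : 𝓞 F) ∈ w.asIdeal
  · have hs := surj_six hD.toDat0 hK (und KK w) w h6 φ hB
    rw [tr_tam hB hs hD.ne0]
  · have h6' : (6 : 𝓞 KK) ∉ (und KK w).asIdeal := by
      rw [mem_und, map_ofNat]
      exact h6
    rw [tam_ne6 w h6 hjF hD.lm.2 hD.lm.1, tam_ne6 (und KK w) h6' (M3_jK hD.ne0) hD.lm.2 hD.lm.1]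
    obtain ⟨e, f, g, he, hf, _, _, hel, _, hw, _, _⟩ := place_count hD.lm.2 hK (und KK w) h6'
    obtain ⟨hn, ho, _⟩ := hw w rfl
    have hodd : (¬ ∃ i, eE (d i) ∈ (und KK w).asIdeal) → TWR.od w (jF F D) = TWR.od (und KK w) (jK D) := by
      intro hi
      push Not at hi
      have he1 : e = 1 := by
        rcases he with he | he
        · exact he
        · exfalso
          obtain ⟨i, hi'⟩ := hel.1 he
          rw [M3_od (hi i)] at hi'
          exact hi' (dvd_zero _)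
      have := ho (jK D) (M3_jK hD.ne0)
      rw [he1, Nat.cast_one, one_mul] at this
      exact this
    constructor
    · rintro ⟨h1, x, hx⟩
      obtain ⟨y, hy⟩ := pow_down hD.lm.2 hD.lm.1 w h6' hD.ne0 he hf hn ho x hx
      have hi : ¬ ∃ i, eE (d i) ∈ (und KK w).asIdeal := by
        rintro ⟨i, hi⟩
        exact hD.npt (und KK w) i hi _ hy
      rw [hodd hi] at h1
      exact ⟨h1, y, hy⟩
    · rintro ⟨h1, y, hy⟩
      have hi : ¬ ∃ i, eE (d i) ∈ (und KK w).asIdeal := by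
        rintro ⟨i, hi⟩
        exact hD.npt (und KK w) i hi _ hy
      rw [hodd hi]
      refine ⟨h1, φ y, ?_⟩
      rw [← map_pow, hy, hB.comm]
      rfl

theorem tp_up (hD : Dat l m D d) (hK : Kum l n d δ) : Tp l (ED (jF F D)) ↔ Tp l (ED (jK D)) := by
  constructor
  · intro h v hv
    obtain ⟨w, hw⟩ := exists_above (F := F) v
    exact h w ((tam_up hD hK w).2 (by rw [hw]; exact hv))
  · intro h w hw
    exact h (und KK w) ((tam_up hD hK w).1 hw)

theorem pl_up (hD : Dat l m D d) (hT : Tp l (ED (jK D))) (hK : Kum l n d δ) : PL l (ED (jF F D)) :=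
  ⟨np_up hD hK, (tp_up hD hK).2 hT⟩
end

end CX
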