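import Pool.Agent.CX.Z5
import Pool.Agent.CX.L7a
import Pool.Agent.CUL.X1
import Pool.Agent.Q3.QR1

/-!
# [CX-P1] a nice extension different from `ℚ(ω)` exists only if the curve has no point of order `l`

PROOF. `JZR.model`: `E ≅ ED (jK D)`, `D` sixth-power-free (`nice_smul`, `np_smul`: see `mainT` in Z5); `exists_kum`: `F = K(δ₁, …, δₙ)`, `δᵢ ^ l = dᵢ`, `[F : K] = l ^ n`, the `dᵢ` free of `l`-th powers; `n ≠ 0` since `[F : K] ≠ 1`.
Case 1: some `dᵢ` has a prime divisor `q`, `v = (q)` (`CU.pl`, `CU.mem_iff`). `kum_ramified`: a ramified `P` over `v`, so `hN.ramified` gives `NoPt l E v`; a point `P` of order `l` of `E` over `K` gives one over `K_v` (the map of points `WeierstrassCurve.Affine.Point.map` is injective and additive), so `Np l E`.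
Case 2: `d₀` is a unit of `Eis`: `d₀ = ± ω ^ k`. `kum_split` (`hN.split`) at the place `v` over `2` (for `l = 2`) resp. over `λ` (for `l = 3`): `d₀ = c ^ l` in `K_v`. `c` is integral; choose `a : 𝓞 KK` (density) with `c ≡ a` modulo `4` resp. `λ ^ 4`: so `4 ∣ a ^ 2 - d₀` resp. `λ ^ 4 ∣ a ^ 3 - d₀` in `Eis`.
`l = 2`: `ω ^ k = (ω ^ (2 k)) ^ 2` is a square and `- ω ^ k` is not a square modulo `4` (for `a` prime to `2`: `a ^ 2 ≡ ω ^ j mod 4`; a finite check modulo `4`). So `d₀ = y ^ 2`, `y ∈ Eis`. `l = 3`: the cubes of the `a` prime to `λ` are `± 1` modulo `λ ^ 3`, so `d₀ = ± 1 = (± 1) ^ 3`.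
`d₀ = y ^ l` contradicts `[F : K] = l ^ n`: `δ₀ ^ l = (jF y) ^ l`, so `δ₀ = jF (z y)` (`root_eis`): `F` is generated by the `n - 1` other `δᵢ`, of degree at most `l ^ (n - 1)`. Or: the automorphisms fix `δ₀`, but `kum_card` says there are `l ^ n` of them and an automorphism is determined by the `n`-tuple of the roots of unity `σ δᵢ / δᵢ` (`kum_ext`, `kum_act`).
-/

set_option autoImplicit false

open NumberField IsDedekindDomain
open scoped Classical ComplexConjugate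

namespace CX

open CM27 CMT NAB CF JD
open CU (la om eE)

/-- at a prime which splits completely the `dᵢ` are `l`-th powers modulo all powers of the prime -/
theorem p1_congr {F : Type} [Field F] [NumberField F] [Algebra KK F] {l n : ℕ} {d : Fin n → Eis} {δ : Fin n → F}
    (hl : l = 2 ∨ l = 3) (hK : Kum l n d δ) (v : HeightOneSpectrum (𝓞 KK))
    (hv : (v.asIdeal.primesOver (𝓞 F)).ncard = Module.finrank KK F) (i : Fin n) (j : ℕ) :
    ∃ b : Eis, eE (b ^ l - d i) ∈ v.asIdeal ^ j := by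
  have hl0 : 0 < l := by rcases hl with rfl | rfl <;> norm_num
  have hgal := kum_galois hl hK
  obtain ⟨e, f, g, he0, hf0, hg0, hefg, -, hg, hw⟩ := efg (F := F) v
  have h1 : e * f = 1 := by
    have h2 : g * (e * f) = g * 1 := by rw [hefg, mul_one, ← hv, hg]
    exact Nat.eq_of_mul_eq_mul_left hg0 h2
  have he1 : e = 1 := Nat.eq_one_of_mul_eq_one_right h1
  have hf1 : f = 1 := Nat.eq_one_of_mul_eq_one_left h1
  subst he1 hf1
  obtain ⟨w, rfl⟩ := NAB.exists_above (k := KK) (F := F) v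
  obtain ⟨hnv, hod, -, -⟩ := hw w rfl
  rw [pow_one] at hnv
  have hod' : ∀ x : KK, x ≠ 0 → TWR.od w (algebraMap KK F x) = TWR.od (und KK w) x := by
    intro x hx
    rw [hod x hx]
    push_cast
    ring
  have hint : IsIntegral ℤ (δ i) := by
    apply IsIntegral.of_pow hl0
    rw [hK.pow i, ← eO_coe]
    exact RingOfIntegers.isIntegral_coe _
  obtain ⟨a, ha⟩ : ∃ a : 𝓞 F, (a : F) = δ i := ⟨⟨_, hint⟩, rfl⟩
  have ha2 : a ^ l = algebraMap (𝓞 KK) (𝓞 F) (eE (d i)) := by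
    apply RingOfIntegers.ext
    change (a : F) ^ l = _
    rw [ha, hK.pow i, k3a_coe, jF_apply, jK_apply]
  obtain ⟨b, hb⟩ := k3a_dense w hod' hnv a j
  obtain ⟨b, rfl⟩ := eE.surjective b
  refine ⟨b, ?_⟩
  rw [← k3a_und_mem w hod', map_sub, map_sub, map_pow, map_pow, ← ha2]
  obtain ⟨c, hc⟩ := sub_dvd_pow_sub_pow a (algebraMap (𝓞 KK) (𝓞 F) (eE b)) l
  have h4 : a ^ l - algebraMap (𝓞 KK) (𝓞 F) (eE b) ^ l ∈ w.asIdeal ^ j := by
    rw [hc]
    exact Ideal.mul_mem_right _ _ hb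
  have h5 := (w.asIdeal ^ j).neg_mem h4
  rwa [neg_sub] at h5

/-- in `Eis` -/
theorem p1_dvd (b : Eis) (hb : Prime b) (a : Eis) (j : ℕ) (h : eE a ∈ (CU.pl b hb).asIdeal ^ j) : b ^ j ∣ a := by
  have h1 : (CU.pl b hb).asIdeal = Ideal.span {eE b} := rfl
  rw [h1, Ideal.span_singleton_pow, Ideal.mem_span_singleton, ← map_pow] at h
  obtain ⟨c, hc⟩ := h
  obtain ⟨c', rfl⟩ := eE.surjective c
  rw [← map_mul] at hc
  exact ⟨c', eE.injective hc⟩

theorem p1_not2 (b c : Eis) (hc : c ^ 2 * c = 1) : ¬ (4 : Eis) ∣ b ^ 2 + c := by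
  intro h
  have h1 : (4 : Eis) ∣ (b * c) ^ 2 + 1 := by
    have h2 := h.mul_right (c ^ 2)
    have h3 : (b ^ 2 + c) * c ^ 2 = (b * c) ^ 2 + 1 := by linear_combination hc
    rwa [h3] at h2
  obtain ⟨⟨x, y⟩, hx⟩ : ∃ a : Eis, a = b * c := ⟨_, rfl⟩
  rw [← hx] at h1
  obtain ⟨⟨s, t⟩, hst⟩ := h1
  have h4 : (4 : Eis) = ⟨4, 0⟩ := rfl
  have h5 : (1 : Eis) = ⟨1, 0⟩ := rfl
  rw [h4, h5, pow_two] at hst
  have e1 := congrArg QuadraticAlgebra.re hst
  have e2 := congrArg QuadraticAlgebra.im hst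
  simp only [QuadraticAlgebra.re_add, QuadraticAlgebra.im_add, QuadraticAlgebra.re_mul, QuadraticAlgebra.im_mul] at e1 e2
  have e3 : y * y = 2 * (x * y) - 4 * t := by linarith
  have e4 : x * x = 4 * s + y * y - 1 := by linarith
  obtain ⟨z, hz⟩ : (2 : ℤ) ∣ y := by
    have h6 : (2 : ℤ) ∣ y * y := ⟨x * y - 2 * t, by linarith⟩
    rcases Int.prime_two.dvd_or_dvd h6 with h7 | h7 <;> exact h7
  rcases Int.even_or_odd' x with ⟨k, hk | hk⟩
  · rw [hk, hz] at e4
    have h6 : 4 * (k * k) = 4 * s + 4 * (z * z) - 1 := by linarith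
    omega
  · rw [hk, hz] at e4
    have h6 : 4 * (k * k) + 4 * k + 1 = 4 * s + 4 * (z * z) - 1 := by linarith
    omega

/-- the unit `d` -/
theorem p1_two (b d : Eis) (hd : IsUnit d) (h : (2 : Eis) ^ 2 ∣ b ^ 2 - d) : ∃ y : Eis, y ^ 2 = d := by
  have h22 : (2 : Eis) ^ 2 = 4 := by decide
  rw [h22] at h
  rcases CUL.unit_cases hd with rfl | rfl | rfl | rfl | rfl | rfl
  · exact ⟨1, by decide⟩
  · rw [sub_neg_eq_add] at h
    exact absurd h (p1_not2 b 1 (by decide))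
  · exact ⟨om ^ 2, by decide⟩
  · rw [sub_neg_eq_add] at h
    exact absurd h (p1_not2 b om (by decide))
  · exact ⟨om, by decide⟩
  · rw [sub_neg_eq_add] at h
    exact absurd h (p1_not2 b (om ^ 2) (by decide))

theorem p1_three (b d : Eis) (hd : IsUnit d) (h : la ^ 2 ∣ b ^ 3 - d) : ∃ y : Eis, y ^ 3 = d := by
  have h3 : ∀ d : Eis, la ^ 2 ∣ b ^ 3 - d → (3 : ℤ) ∣ d.im := by
    intro d h
    obtain ⟨⟨x, y⟩, hx⟩ : ∃ a : Eis, a = b := ⟨_, rfl⟩
    rw [← hx] at h
    obtain ⟨⟨s, t⟩, hst⟩ := h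
    have h4 : (la : Eis) ^ 2 = ⟨0, -3⟩ := by decide
    have h5 : d = (⟨x, y⟩ : Eis) ^ 3 - la ^ 2 * ⟨s, t⟩ := by rw [← hst]; ring
    rw [h4, pow_succ, pow_two] at h5
    have e2 := congrArg QuadraticAlgebra.im h5
    simp only [QuadraticAlgebra.im_sub, QuadraticAlgebra.re_mul, QuadraticAlgebra.im_mul] at e2
    rw [e2]
    exact ⟨x * x * y - x * y * y + (s - t), by ring⟩
  have h4 := h3 d h
  rcases CUL.unit_cases hd with rfl | rfl | rfl | rfl | rfl | rfl
  · exact ⟨1, by decide⟩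
  · exact ⟨-1, by decide⟩
  · exact absurd h4 (by decide)
  · exact absurd h4 (by decide)
  · exact absurd h4 (by decide)
  · exact absurd h4 (by decide)

/-- `dᵢ` is not an `l`-th power -/
theorem p1_npow {F : Type} [Field F] [NumberField F] [Algebra KK F] {l n : ℕ} {d : Fin n → Eis} {δ : Fin n → F}
    (hl : l = 2 ∨ l = 3) (hK : Kum l n d δ) (i : Fin n) (y : Eis) (hy : y ^ l = d i) : False := by
  have hdom : IsDomain Eis := eis_isDomain
  have hlp : l.Prime := by rcases hl with rfl | rfl <;> norm_num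
  have hl1 : 1 < l := hlp.one_lt
  have : NeZero l := ⟨hlp.ne_zero⟩
  have : Fact (1 < l) := ⟨hl1⟩
  have hy0 : y ≠ 0 := by
    rintro rfl
    rw [zero_pow hlp.ne_zero] at hy
    exact hK.ne i hy.symm
  have hyF : jF F y ≠ 0 := fun h0 => hy0 (jF_inj F (h0.trans (map_zero _).symm))
  obtain ⟨z, hz, hz2⟩ : ∃ z : Eis, z ^ l = 1 ∧ δ i / jF F y = jF F z := by
    refine root_eis hl ?_
    rw [div_pow, hK.pow i, ← map_pow, hy]
    refine div_self fun h0 => hK.ne i (jF_inj F (h0.trans (map_zero _).symm))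
  have hδ : δ i = jF F (z * y) := by rw [map_mul, ← hz2, div_mul_cancel₀ _ hyF]
  have hfix : ∀ σ : F ≃ₐ[KK] F, σ (δ i) = δ i := by
    intro σ
    rw [hδ, jF_apply]
    exact σ.commutes _
  have h1 := kum_fix hl hK (AddSubgroup.zmultiples (Pi.single i 1 : Fin n → ZMod l))
  have hall : ∀ (σ : F ≃ₐ[KK] F), ∀ χ ∈ AddSubgroup.zmultiples (Pi.single i 1 : Fin n → ZMod l), σ (dl δ χ) = dl δ χ := by
    intro σ χ hχ
    obtain ⟨k, rfl⟩ := AddSubgroup.mem_zmultiples_iff.1 hχ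
    have h2 : ∀ j, j ≠ i → (k • (Pi.single i 1 : Fin n → ZMod l)) j = 0 := by
      intro j hj
      rw [Pi.smul_apply, Pi.single_eq_of_ne hj, smul_zero]
    have h3 : dl δ (k • (Pi.single i 1 : Fin n → ZMod l)) = δ i ^ ((k • (Pi.single i 1 : Fin n → ZMod l)) i).val := by
      rw [dl, Finset.prod_eq_single i]
      · intro j _ hj
        rw [h2 j hj, ZMod.val_zero, pow_zero]
      · intro h
        exact absurd (Finset.mem_univ i) h
    rw [h3, map_pow, hfix]
  have hcard : Nat.card {σ : F ≃ₐ[KK] F // ∀ χ ∈ AddSubgroup.zmultiples (Pi.single i 1 : Fin n → ZMod l), σ (dl δ χ) = dl δ χ} = l ^ n := by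
    rw [← kum_card hl hK]
    exact Nat.card_congr (Equiv.subtypeUnivEquiv hall)
  rw [hcard] at h1
  have h2 : Nat.card (AddSubgroup.zmultiples (Pi.single i 1 : Fin n → ZMod l)) ≤ 1 := by
    have h3 : 0 < l ^ n := pow_pos hlp.pos n
    by_contra h4
    push Not at h4
    nlinarith
  have h3 : Nat.card (AddSubgroup.zmultiples (Pi.single i 1 : Fin n → ZMod l)) = 1 := by
    have h4 : 0 < Nat.card (AddSubgroup.zmultiples (Pi.single i 1 : Fin n → ZMod l)) := Nat.card_pos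
    omega
  have h4 := AddSubgroup.card_eq_one.1 h3
  have h5 : (Pi.single i 1 : Fin n → ZMod l) = 0 := AddSubgroup.zmultiples_eq_bot.1 h4
  have h6 := congrFun h5 i
  rw [Pi.single_eq_same] at h6
  exact one_ne_zero h6

theorem np_of_nice {l : ℕ} (hl : l = 2 ∨ l = 3) (E : WeierstrassCurve KK) [E.IsElliptic] (hj : E.j = 0) (F : Type) [Field F]
    [NumberField F] [Algebra KK F] (hN : Nice l E F) (hF : Module.finrank KK F ≠ 1) : Np l E := by
  have hdom : IsDomain Eis := eis_isDomain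
  have hpid : IsPrincipalIdealRing Eis := eis_pid
  obtain ⟨D, ⟨hD1, C, hC⟩, -⟩ := JZR.model E hj
  have hD0 : D ≠ 0 := hD1.1
  obtain ⟨m, hm⟩ : ∃ m, l * m = 6 := by
    rcases hl with rfl | rfl
    · exact ⟨3, rfl⟩
    · exact ⟨2, rfl⟩
  rw [← np_smul E C l, hC]
  have hN' : Nice l (ED (jK D)) F := by
    rw [← hC]
    exact (nice_smul C).2 hN
  obtain ⟨n, d, δ, hK, hf⟩ := exists_kum hl hN'.galois hN'.comm hN'.exponent
  have hn : 0 < n := by
    rcases Nat.eq_zero_or_pos n with rfl | h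
    · exact absurd (by rw [hK.rank, pow_zero]) hF
    · exact h
  obtain ⟨i⟩ : Nonempty (Fin n) := ⟨⟨0, hn⟩⟩
  by_cases hu : IsUnit (d i)
  · exfalso
    have h6 : ∀ (b : Eis) (hb : Prime b), b ∣ 6 → (6 : 𝓞 KK) ∈ (CU.pl b hb).asIdeal := by
      intro b hb hb6
      have h1 : (CU.pl b hb).asIdeal = Ideal.span {eE b} := rfl
      have h2 := (CU.mem_iff h1 6).2 hb6
      rwa [map_ofNat] at h2
    rcases hl with rfl | rfl
    · have h1 := hN'.split (CU.pl 2 Q3.prime_two) (h6 2 _ (by exact ⟨3, by decide⟩))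
      obtain ⟨b, hb⟩ := p1_congr (Or.inl rfl) hK _ h1 i 2
      obtain ⟨y, hy⟩ := p1_two b (d i) hu (p1_dvd 2 _ _ 2 hb)
      exact p1_npow (Or.inl rfl) hK i y hy
    · have h1 := hN'.split (CU.pl la CU.la_prime) (h6 la _ (by exact ⟨2 * la * -(om ^ 2), by decide⟩))
      obtain ⟨b, hb⟩ := p1_congr (Or.inr rfl) hK _ h1 i 2
      obtain ⟨y, hy⟩ := p1_three b (d i) hu (p1_dvd la _ _ 2 hb)
      exact p1_npow (Or.inr rfl) hK i y hy
  · obtain ⟨q, hq, hqd⟩ := WfDvdMonoid.exists_irreducible_factor hu (hK.ne i)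
    have hqp : Prime q := hq.prime
    have hv : eE (d i) ∈ (CU.pl q hqp).asIdeal := (CU.mem_iff (v := CU.pl q hqp) rfl (d i)).2 hqd
    obtain ⟨P, hP⟩ := kum_ramified hl hK hf _ i hv
    have h1 := hN'.ramified _ P hP
    set v := CU.pl q hqp with hvdef
    have hinj : Function.Injective (algebraMap KK (v.adicCompletion KK)) :=
      (algebraMap KK (v.adicCompletion KK)).injective
    have hch : CharZero (v.adicCompletion KK) := charZero_of_injective_algebraMap hinj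
    have hjD0 : jK D ≠ 0 := fun h0 => hD0 (jK_inj (h0.trans (map_zero _).symm))
    have hD0' : algebraMap KK (v.adicCompletion KK) (jK D) ≠ 0 := fun h0 =>
      hjD0 ((map_eq_zero_iff _ hinj).1 h0)
    have ho : ∀ (L : Type) [Field L] (f : KK →+* L), ∃ o : L, o ^ 2 + o + 1 = 0 := by
      intro L _ f
      refine ⟨f (jK om), ?_⟩
      have h2 : (om ^ 2 + om + 1 : Eis) = 0 := by
        decide
      rw [← map_pow, ← map_add, ← map_pow, ← map_add, ← map_one f,
        ← map_one jK, ← map_add, ← map_add, h2, map_zero, map_zero]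
    have h2 : ∀ x : v.adicCompletion KK, x ^ m ≠ algebraMap KK (v.adicCompletion KK) (jK D) := by
      refine (noPt_iff hD0' (ho _ (algebraMap KK (v.adicCompletion KK))) hl hm).1 ?_
      unfold NoPt at h1
      unfold WeierstrassCurve.baseChange at h1
      rw [ED_map] at h1
      exact h1
    unfold Np
    rw [noPt_iff hjD0 (ho KK (RingHom.id KK)) hl hm]
    intro x hx
    refine h2 (algebraMap KK (v.adicCompletion KK) x) ?_
    rw [← map_pow, hx]

end CX
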