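import Pool.Agent.CX.M1
import Pool.Agent.ISO.Per

/-!
# [CX-P2] the Tamagawa numbers are finite and almost all of them are `1`

PROOF. `tam_one_fin`: for `v ∤ 6 D` (all but finitely many `v`) `6 D` is a unit in the integers of `K_v` and `JD.tamagawa_good` (JD/S3.lean) gives `1` (see M1: `(ED (jK D)).baseChange K_v = ED (algebraMap (jK D))`, `JD.ED_map`). 
`tam_not_zero`: we may take `D` sixth-power-free? (the statement is for `Sf D`). `v ∤ 6`: `tam_ne6` for `l = 2` and `l = 3`: if `tam = 0` then `2` and `3` divide it, so `6 ∤ od v D` and `D` is a cube and a square in `K_v`, so `D = x ^ 3 = y ^ 2`, `D = (y / x) ^ 6`... and `6 ∣ od v D`, a contradiction.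
`v ∣ 2`, `v = (2)`: `D = 2 ^ k D'`, `D'` odd, `k ≤ 5`. `JT.tam_two2` (JT/ST2.lean) or `JG.tam_two'` (JG/ST.lean) give `tam ≠ 0`, except in the cases (`k = 4`, `D'` a square modulo `4`: good reduction, `tam = 1`, see the proof that the Tamagawa numbers are odd for `JT.Cl2` at `2`, JT/FT.lean and the files imported by it) and `k = 3`, `2 ∣ D' - 1` (use `JG.tam_two'`: no condition for `k = 3`) and `k = 2`, `4 ∣ D' - y ^ 2 - 2` (use `JG.tam_two'`: `D'` is no square modulo `8`: otherwise `x ^ 2 ≡ y ^ 2 + 2 mod 4` with odd `x`, `y`, impossible since the odd squares are `1, ω, ω²` modulo `4`).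
`v = (λ)`: `D = λ ^ k D'`: `JT.tam_la2` or `JG.tam_la'`: for `k = 0` either no `λ ^ 4 ∣ D' - η` (`tam_la2`) or `D' ≡ η mod λ ^ 4` and then no `λ ^ 3 ∣ D' - η' - λ ^ 2` (`tam_la'`); `k = 3`: if no `λ ^ 3 ∣ D' - η`: `tam_la2`; otherwise good reduction, `tam = 1` (see the proof for `JT.Cl2` at `λ`); `k = 1, 2, 4, 5`: `tam_la2`.
-/

set_option autoImplicit false

open NumberField IsDedekindDomain
open scoped Classical ComplexConjugate

namespace CX

open CM27 CMT NAB CF JD
open CU (la om eE)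

/-- [P2] helper: finitely many classes -/
theorem p2_index {G : Type*} [AddCommGroup G] (S : Set G) {α : Type*} [Finite α] (f : G → α)
    (h : ∀ P Q : G, P ∉ S → Q ∉ S → f P = f Q → P - Q ∈ S) : (AddSubgroup.closure S).index ≠ 0 := by
  set H := AddSubgroup.closure S with hH
  have hsub : ∀ x ∈ S, x ∈ H := fun x hx => AddSubgroup.subset_closure hx
  have hout : ∀ q : G ⧸ H, q ≠ 0 → q.out ∉ S := by
    intro q hq hS
    apply hq
    rw [← QuotientAddGroup.out_eq' q, QuotientAddGroup.eq_zero_iff]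
    exact hsub _ hS
  have hinj : Function.Injective
      (fun q : G ⧸ H => if q = 0 then (none : Option α) else some (f q.out)) := by
    intro q q' hqq
    by_cases hq : q = 0
    · by_cases hq' : q' = 0
      · rw [hq, hq']
      · simp [hq, hq'] at hqq
    · by_cases hq' : q' = 0
      · simp [hq, hq'] at hqq
      · simp only [hq, hq', if_false, Option.some.injEq] at hqq
        have h3 := hsub _ (h _ _ (hout q hq) (hout q' hq') hqq)
        rw [← QuotientAddGroup.eq_zero_iff, QuotientAddGroup.mk_sub, QuotientAddGroup.out_eq',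
          QuotientAddGroup.out_eq'] at h3
        exact sub_eq_zero.mp h3
  have hfin : Finite (G ⧸ H) := Finite.of_injective _ hinj
  have hidx : H.index = Nat.card (G ⧸ H) := rfl
  rw [hidx]
  exact Nat.card_pos.ne'

/-- [P2] helper: the discriminant in terms of the partial derivatives at a point -/
theorem p2_disc {A : Type} [CommRing A] (I : WeierstrassCurve A) {a b d : A} (he : I.toAffine.Equation a b)
    (hp : d ∣ 2 * b + I.a₁ * a + I.a₃) (hq : d ∣ 3 * a ^ 2 + 2 * I.a₂ * a + I.a₄ - I.a₁ * b) : d ∣ I.Δ := by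
  obtain ⟨p, hp⟩ := hp
  obtain ⟨q, hq⟩ := hq
  rw [WeierstrassCurve.Affine.equation_iff] at he
  have h : I.Δ = -(I.a₁ ^ 2 + 4 * (I.a₂ + 3 * a)) ^ 2 * (-I.a₁ * (d * p) * (d * q) + (I.a₂ + 3 * a) * (d * p) ^ 2 - (d * q) ^ 2) -
      8 * (2 * (d * q) + I.a₁ * (d * p)) ^ 3 - 27 * (d * p) ^ 4 +
      9 * (I.a₁ ^ 2 + 4 * (I.a₂ + 3 * a)) * (2 * (d * q) + I.a₁ * (d * p)) * (d * p) ^ 2 := by
    rw [← hp, ← hq]
    have h6 : I.a₆ = b ^ 2 + I.a₁ * a * b + I.a₃ * b - (a ^ 3 + I.a₂ * a ^ 2 + I.a₄ * a) := by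
      linear_combination -he
    rw [WeierstrassCurve.Δ, WeierstrassCurve.b₂, WeierstrassCurve.b₄, WeierstrassCurve.b₆, WeierstrassCurve.b₈, h6]
    ring
  rw [h]
  exact ⟨-(I.a₁ ^ 2 + 4 * (I.a₂ + 3 * a)) ^ 2 * (-I.a₁ * p * (d * q) + (I.a₂ + 3 * a) * (d * p * p) - (d * q * q)) -
      8 * ((2 * q + I.a₁ * p) * (2 * (d * q) + I.a₁ * (d * p)) ^ 2) - 27 * (p * (d * p) ^ 3) +
      9 * (I.a₁ ^ 2 + 4 * (I.a₂ + 3 * a)) * (2 * q + I.a₁ * p) * (d * p) ^ 2, by ring⟩

/-- [P2] helper -/
theorem p2_not {A : Type} [CommRing A] [IsDomain A] (I : WeierstrassCurve A) (hΔ : I.Δ ≠ 0) {π : A} (hπ : ¬ IsUnit π) {a b : A}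
    (he : I.toAffine.Equation a b)
    (hp : π * I.Δ ∣ 2 * b + I.a₁ * a + I.a₃) (hq : π * I.Δ ∣ 3 * a ^ 2 + 2 * I.a₂ * a + I.a₄ - I.a₁ * b) : False := by
  obtain ⟨c, hc⟩ := p2_disc I he hp hq
  apply hπ
  refine IsUnit.of_mul_eq_one c ?_
  apply mul_right_cancel₀ hΔ
  linear_combination -hc

section
variable (A : Type) [CommRing A] [IsDomain A] [IsDiscreteValuationRing A] (K : Type) [Field K]
  [Algebra A K] [IsFractionRing A K]

/-- [P2] helper -/
theorem p2_some {F : Type} [Field F] {W : WeierstrassCurve.Affine F} {x y x' y' : F} (h : W.Nonsingular x y)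
    (hx : x = x') (hy : y = y') : ∃ h' : W.Nonsingular x' y',
      (WeierstrassCurve.Affine.Point.some _ _ h : W.Point) = .some _ _ h' := by
  subst hx hy
  exact ⟨h, rfl⟩

/-- [P2] helper: two integral points which are near to each other -/
theorem p2_sub (I : WeierstrassCurve A) (hΔ : I.Δ ≠ 0) {π : A} (hπ : ¬ IsUnit π) {a b a' b' : A}
    (hs : π * I.Δ ∣ a - a') (ht : π * I.Δ ∣ b - b')
    (h₁ : (I.map (algebraMap A K)).toAffine.Nonsingular (algebraMap A K a) (algebraMap A K b))
    (h₂ : (I.map (algebraMap A K)).toAffine.Nonsingular (algebraMap A K a') (algebraMap A K b')) :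
    VC63.NR I ((.some _ _ h₁ : (I.map (algebraMap A K)).toAffine.Point) - .some _ _ h₂) := by
  have hinj : Function.Injective (algebraMap A K) := IsFractionRing.injective A K
  have he : I.toAffine.Equation a b := (WeierstrassCurve.Affine.map_equation _ hinj a b).1 h₁.1
  have he' : I.toAffine.Equation a' b' := (WeierstrassCurve.Affine.map_equation _ hinj a' b').1 h₂.1
  have hE := (WeierstrassCurve.Affine.equation_iff _ _).1 he
  have hE' := (WeierstrassCurve.Affine.equation_iff _ _).1 he'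
  have hnot := p2_not I hΔ hπ he
  have hnY : ∀ x y : A, (I.map (algebraMap A K)).toAffine.negY (algebraMap A K x) (algebraMap A K y) =
      algebraMap A K (-y - I.a₁ * x - I.a₃) := by
    intro x y
    simp [WeierstrassCurve.Affine.negY]
  -- the negative of the second point
  obtain ⟨h₃, h6⟩ := p2_some ((WeierstrassCurve.Affine.nonsingular_neg _ _).2 h₂) rfl (hnY a' b')
  have h7 : -(.some _ _ h₂ : (I.map (algebraMap A K)).toAffine.Point) = .some _ _ h₃ := by
    rw [← h6]
    rfl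
  by_cases hab : a = a' ∧ b = b'
  · obtain ⟨rfl, rfl⟩ := hab
    rw [sub_self]
    exact trivial
  -- the new point
  have hxy : ¬ (algebraMap A K a = algebraMap A K a' ∧ algebraMap A K b =
      (I.map (algebraMap A K)).toAffine.negY (algebraMap A K a') (algebraMap A K (-b' - I.a₁ * a' - I.a₃))) := by
    rintro ⟨h1, h2⟩
    rw [hnY] at h2
    refine hab ⟨hinj h1, ?_⟩
    have h3 := hinj h2
    rw [h3]
    ring
  rw [sub_eq_add_neg, h7, WeierstrassCurve.Affine.Point.add_some hxy]
  intro c e hc he3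
  exfalso
  -- the slope is integral
  set sl := (I.map (algebraMap A K)).toAffine.slope (algebraMap A K a) (algebraMap A K a') (algebraMap A K b)
    (algebraMap A K (-b' - I.a₁ * a' - I.a₃)) with hsl
  obtain ⟨l, hl⟩ : ∃ l : A, algebraMap A K l = sl := by
    refine VC63.root2 I.a₁ (-(I.a₂ + a + a' + c)) sl ?_
    rw [WeierstrassCurve.Affine.addX] at hc
    simp only [WeierstrassCurve.map_a₁, WeierstrassCurve.map_a₂] at hc
    simp only [map_neg, map_add]
    linear_combination -hc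
  by_cases hx : a = a'
  · subst hx
    have hb : b ≠ b' := fun h => hab ⟨rfl, h⟩
    -- the second point is the negative of the first
    have hbb : b + b' + I.a₁ * a + I.a₃ = 0 := by
      refine (mul_eq_zero.1 ?_).resolve_left (sub_ne_zero.2 hb)
      linear_combination hE - hE'
    have hy : algebraMap A K b ≠ (I.map (algebraMap A K)).toAffine.negY (algebraMap A K a)
        (algebraMap A K (-b' - I.a₁ * a - I.a₃)) := fun h => hxy ⟨rfl, h⟩
    have h8 := WeierstrassCurve.Affine.slope_of_Y_ne (W := (I.map (algebraMap A K)).toAffine) rfl hy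
    rw [← hsl, ← hl, hnY] at h8
    have h9 : algebraMap A K b - algebraMap A K (-b - I.a₁ * a - I.a₃) ≠ 0 := by
      rw [← map_sub]
      refine (map_ne_zero_iff _ hinj).2 ?_
      have h10 : b - (-b - I.a₁ * a - I.a₃) = b - b' := by linear_combination hbb
      rw [h10]
      exact sub_ne_zero.2 hb
    rw [eq_div_iff h9] at h8
    simp only [WeierstrassCurve.map_a₁, WeierstrassCurve.map_a₂, WeierstrassCurve.map_a₄] at h8
    have h11 : l * (b - (-b - I.a₁ * a - I.a₃)) = 3 * a ^ 2 + 2 * I.a₂ * a + I.a₄ - I.a₁ * b := by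
      apply hinj
      simp only [map_mul, map_sub, map_add, map_pow, map_ofNat] at h8 ⊢
      exact h8
    have hp : π * I.Δ ∣ 2 * b + I.a₁ * a + I.a₃ := by
      have h10 : 2 * b + I.a₁ * a + I.a₃ = b - b' := by linear_combination hbb
      rw [h10]
      exact ht
    refine hnot hp ?_
    rw [← h11]
    refine Dvd.dvd.mul_left ?_ l
    have h10 : b - (-b - I.a₁ * a - I.a₃) = 2 * b + I.a₁ * a + I.a₃ := by ring
    rw [h10]
    exact hp
  · have hx' : algebraMap A K a ≠ algebraMap A K a' := fun h => hx (hinj h)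
    have h8 := WeierstrassCurve.Affine.slope_of_X_ne (W := (I.map (algebraMap A K)).toAffine)
      (y₁ := algebraMap A K b) (y₂ := algebraMap A K (-b' - I.a₁ * a' - I.a₃)) hx'
    rw [← hsl, ← hl, eq_div_iff (sub_ne_zero.2 hx'), ← map_sub, ← map_sub, ← map_mul] at h8
    have h9 := hinj h8
    have h10 : (b - b') * l = a ^ 2 + a * a' + a' ^ 2 + I.a₂ * (a + a') + I.a₄ - I.a₁ * b := by
      apply mul_right_cancel₀ (sub_ne_zero.2 hx)
      linear_combination (b - b') * h9 + hE - hE'
    obtain ⟨s, hs⟩ := hs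
    obtain ⟨t, ht⟩ := ht
    refine hnot ⟨l * s + t + I.a₁ * s, ?_⟩ ⟨t * l + s * (2 * a + a' + I.a₂), ?_⟩
    · linear_combination -h9 + (l + I.a₁) * hs + ht
    · linear_combination -h10 + l * ht + (2 * a + a' + I.a₂) * hs

/-- [P2] helper: the index is finite -/
theorem p2_idx [Finite (IsLocalRing.ResidueField A)] (I : WeierstrassCurve A) (hΔ : I.Δ ≠ 0) :
    (AddSubgroup.closure {P : (I.map (algebraMap A K)).toAffine.Point | VC63.NR I P}).index ≠ 0 := by
  obtain ⟨π, hπ⟩ := IsDiscreteValuationRing.exists_irreducible A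
  have hd0 : π * I.Δ ≠ 0 := mul_ne_zero hπ.ne_zero hΔ
  have hfin : Finite (A ⧸ Ideal.span {π * I.Δ}) := by
    have hI : Ideal.span {π * I.Δ} ≠ ⊥ := by
      rw [Ne, Ideal.span_singleton_eq_bot]
      exact hd0
    obtain ⟨k, hk⟩ := IsDiscreteValuationRing.ideal_eq_span_pow_irreducible hI hπ
    rw [IsLocalRing.finite_quotient_iff]
    refine ⟨k, ?_⟩
    rw [hk, hπ.maximalIdeal_eq, Ideal.span_singleton_pow]
  let Sg : (I.map (algebraMap A K)).toAffine.Point → Prop := fun P =>
    ∃ c : A × A, ∃ hn : (I.map (algebraMap A K)).toAffine.Nonsingular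
      (algebraMap A K c.1) (algebraMap A K c.2), P = .some _ _ hn
  have hSg : ∀ P : (I.map (algebraMap A K)).toAffine.Point, ¬ VC63.NR I P → Sg P := by
    intro P hP
    match P, hP with
    | .zero, hP => exact absurd trivial hP
    | .some x y h, hP =>
      simp only [VC63.NR] at hP
      push Not at hP
      obtain ⟨a, b, ha, hb, -⟩ := hP
      subst ha hb
      exact ⟨(a, b), h, rfl⟩
  let f : (I.map (algebraMap A K)).toAffine.Point → (A ⧸ Ideal.span {π * I.Δ}) × (A ⧸ Ideal.span {π * I.Δ}) := fun P =>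
    if h : Sg P then (Ideal.Quotient.mk _ h.choose.1, Ideal.Quotient.mk _ h.choose.2) else 0
  refine p2_index {P : (I.map (algebraMap A K)).toAffine.Point | VC63.NR I P} f ?_
  intro P Q hP hQ hf
  have hS1 : Sg P := hSg P hP
  have hS2 : Sg Q := hSg Q hQ
  have e1 : f P = (Ideal.Quotient.mk _ hS1.choose.1, Ideal.Quotient.mk _ hS1.choose.2) := dif_pos hS1
  have e2 : f Q = (Ideal.Quotient.mk _ hS2.choose.1, Ideal.Quotient.mk _ hS2.choose.2) := dif_pos hS2
  rw [e1, e2, Prod.mk.injEq, Ideal.Quotient.eq, Ideal.mem_span_singleton, Ideal.Quotient.eq, Ideal.mem_span_singleton] at hf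
  obtain ⟨h₁, hP1⟩ := hS1.choose_spec
  obtain ⟨h₂, hQ1⟩ := hS2.choose_spec
  have h7 := p2_sub A K I hΔ hπ.not_isUnit hf.1 hf.2 h₁ h₂
  rw [← hP1, ← hQ1] at h7
  exact h7

/-- [P2] the Tamagawa number of a Weierstrass curve over the fraction field of a discrete valuation ring with finite
residue field is finite -/
theorem p2_tam [Finite (IsLocalRing.ResidueField A)] (W : WeierstrassCurve K) (hΔ : W.Δ ≠ 0) : SBSD.tamagawa A W ≠ 0 := by
  obtain ⟨I, C₀, hI, hIΔ, hmin⟩ := ISO.exists_model A W hΔ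
  have h0 : SBSD.tamagawa A W = SBSD.tamagawa A (C₀ • I.map (algebraMap A K)) := by rw [← hI]
  rw [h0, VC63.tamagawa_smul I _ hmin]
  exact p2_idx A K I hIΔ

end

theorem p2_delta {D : KK} (hD : D ≠ 0) : (ED D).Δ ≠ 0 := by
  rw [ED_Δ]
  exact mul_ne_zero (by norm_num) (pow_ne_zero 2 hD)

theorem p2_unit (v : HeightOneSpectrum (𝓞 KK)) {x : KK} (h : ‖algebraMap KK (v.adicCompletion KK) x‖ = 1) :
    ∃ y : v.adicCompletionIntegers KK, IsUnit y ∧
      algebraMap (v.adicCompletionIntegers KK) (v.adicCompletion KK) y = algebraMap KK (v.adicCompletion KK) x := by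
  have h1 : Valued.v (algebraMap KK (v.adicCompletion KK) x) = 1 :=
    le_antisymm (Valued.toNormedField.norm_le_one_iff.1 h.le) (Valued.toNormedField.one_le_norm_iff.1 h.ge)
  exact ⟨⟨_, h1.le⟩, HeightOneSpectrum.adicCompletionIntegers.isUnit_iff_valued_eq_one.2 h1, rfl⟩

theorem tam_one_fin {D : Eis} (hD : D ≠ 0) : {v : HeightOneSpectrum (𝓞 KK) | SBSD.tam (ED (jK D)) v ≠ 1}.Finite := by
  have hD' : jK D ≠ 0 := (map_ne_zero_iff _ jK_inj).2 hD
  refine ((ISO.isod_unit (jK D) hD').union (ISO.isod_unit (6 : KK) (by norm_num))).subset fun v hv => ?_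
  by_contra hcon
  simp only [Set.mem_union, Set.mem_ofPred_eq, not_or, not_not] at hcon
  obtain ⟨h1, h2⟩ := hcon
  apply hv
  obtain ⟨y, hy, hy'⟩ := p2_unit v h1
  obtain ⟨z, hz, hz'⟩ := p2_unit v h2
  have hz6 : z = 6 := by
    apply IsFractionRing.injective (v.adicCompletionIntegers KK) (v.adicCompletion KK)
    rw [hz', map_ofNat, map_ofNat]
  unfold SBSD.tam
  rw [WeierstrassCurve.baseChange, ED_map, ← hy']
  refine JD.tamagawa_good (v.adicCompletionIntegers KK) (v.adicCompletion KK) y ?_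
  rw [← hz6]
  exact hz.mul hy

theorem tam_not_zero {D : Eis} (hD : Sf D) (v : HeightOneSpectrum (𝓞 KK)) : SBSD.tam (ED (jK D)) v ≠ 0 := by
  have hD' : jK D ≠ 0 := (map_ne_zero_iff _ jK_inj).2 hD.1
  have hfin : Finite (IsLocalRing.ResidueField (v.adicCompletionIntegers KK)) := (card_residue KK v).2
  exact p2_tam _ _ _ (ISO.isoc_delta _ (p2_delta hD'))

end CX
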