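import Pool.Agent.CX.Z5

/-!
# [CX-P3] from the quotient form to the product form
-/

set_option autoImplicit false

open NumberField IsDedekindDomain
open scoped Classical ComplexConjugate

namespace CX

theorem p3_finprod {ι : Type*} {f : ι → ℕ} (hfin : {i | f i ≠ 1}.Finite) (h0 : ∀ i, f i ≠ 0) :
    ∏ᶠ i, f i ≠ 0 ∧ ∀ l : ℕ, l.Prime → (l ∣ ∏ᶠ i, f i ↔ ∃ i, l ∣ f i) := by
  have h1 : Function.mulSupport f ⊆ (hfin.toFinset : Set ι) := by
    intro i hi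
    rw [Set.Finite.coe_toFinset]
    exact hi
  rw [finprod_eq_prod_of_mulSupport_subset f h1]
  refine ⟨Finset.prod_ne_zero_iff.2 fun i _ => h0 i, fun l hl => ?_⟩
  rw [Prime.dvd_finsetProd_iff hl.prime]
  constructor
  · rintro ⟨i, _, hi⟩
    exact ⟨i, hi⟩
  · rintro ⟨i, hi⟩
    refine ⟨i, ?_, hi⟩
    rw [Set.Finite.mem_toFinset]
    intro h2
    rw [h2] at hi
    exact hl.one_lt.ne' (Nat.dvd_one.1 hi)

theorem mt_of_ml {l : ℕ} [hp : Fact l.Prime] {K : Type} [Field K] [NumberField K] {W : WeierstrassCurve K} (h : ML l W)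
    (hfin : {v : HeightOneSpectrum (𝓞 K) | SBSD.tam W v ≠ 1}.Finite) (h0 : ∀ v : HeightOneSpectrum (𝓞 K), SBSD.tam W v ≠ 0) :
    MT l W := by
  obtain ⟨hE, Λ, hΛ, q, hq, hq0, hiff⟩ := h
  obtain ⟨hc0, hcl⟩ := p3_finprod hfin h0
  set c := ∏ᶠ v : HeightOneSpectrum (𝓞 K), SBSD.tam W v with hc
  have hcQ : (c : ℚ) ≠ 0 := by exact_mod_cast hc0
  have hcC : (c : ℂ) ≠ 0 := by exact_mod_cast hc0
  have hc1 : 0 ≤ padicValRat l (c : ℚ) := by
    rw [padicValRat.of_nat]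
    positivity
  have hcu : padicValRat l (c : ℚ) = 0 ↔ ∀ v : HeightOneSpectrum (𝓞 K), ¬ l ∣ SBSD.tam W v := by
    rw [padicValRat.of_nat]
    have h2 : ((padicValNat l c : ℕ) : ℤ) = 0 ↔ ¬ l ∣ c := by
      rw [Nat.cast_eq_zero, padicValNat.eq_zero_iff]
      constructor
      · rintro (h3 | h3 | h3)
        · exact absurd h3 hp.out.one_lt.ne'
        · exact absurd h3 hc0
        · exact h3
      · exact fun h3 => Or.inr (Or.inr h3)
    rw [h2, hcl l hp.out]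
    push Not
    exact Iff.rfl
  refine ⟨hE, Λ, hΛ, q * (c : ℚ), ?_, ?_, ?_⟩
  · have h1 : SBSD2.bsdQuotient W (Λ 1) = Λ 1 * (√|(discr K : ℝ)| : ℝ) *
        (Nat.card (AddCommGroup.torsion W.toAffine.Point) : ℂ) ^ 2 / ((SBSD.period W : ℂ) * (c : ℂ)) := rfl
    rw [h1] at hq
    push_cast
    rw [← hq]
    by_cases hΩ : (SBSD.period W : ℂ) = 0
    · rw [hΩ]
      simp
    · field_simp
  · by_cases h1 : q = 0
    · rw [h1]
      simp
    · rw [padicValRat.mul h1 hcQ]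
      exact add_nonneg hq0 hc1
  · rw [← and_assoc, ← hiff, ← hcu]
    constructor
    · rintro ⟨h1, h2⟩
      have hq1 : q ≠ 0 := fun h => h1 (by rw [h, zero_mul])
      rw [padicValRat.mul hq1 hcQ] at h2
      exact ⟨⟨hq1, by omega⟩, by omega⟩
    · rintro ⟨⟨h1, h2⟩, h3⟩
      refine ⟨mul_ne_zero h1 hcQ, ?_⟩
      rw [padicValRat.mul h1 hcQ, h2, h3, add_zero]

end CX
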