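import Pool.Agent.CX.Z5
import Pool.Agent.EQV.All3
import Pool.Agent.CUZ.V3
import Pool.Agent.UNI.C

/-!
# [CX-P4] the curves with a point of order `l`
-/

set_option autoImplicit false

open NumberField IsDedekindDomain
open scoped Classical ComplexConjugate

namespace CX

open CM27 CMT NAB CF JD

theorem p4_r : ∃ r : KK, r ^ 2 = -3 := by
  refine ⟨jK (1 + 2 * CU.om), ?_⟩
  have h : ((1 + 2 * CU.om) ^ 2 : Eis) = -3 := by decide
  rw [← map_pow, h, map_neg, map_ofNat]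

theorem p4_W {K : Type} [Field K] {t x : K} (ht : t ≠ 0) :
    CU.W (t ^ 3 * x) = (⟨(Units.mk0 t ht)⁻¹, 0, 0, 0⟩ : WeierstrassCurve.VariableChange K) • CU.W x := by
  ext <;> simp [CU.W, WeierstrassCurve.variableChange_a₁, WeierstrassCurve.variableChange_a₂,
    WeierstrassCurve.variableChange_a₃, WeierstrassCurve.variableChange_a₄, WeierstrassCurve.variableChange_a₆]

/-- a point of order three -/
theorem p4_three (E : WeierstrassCurve KK) [E.IsElliptic] (hj : E.j = 0) (hP : ¬ Np 3 E) : ML 3 E := by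
  unfold Np at hP
  push Not at hP
  obtain ⟨P, hP, h0⟩ := hP
  obtain ⟨s, hs0, hs⟩ := UNI.three_square p4_r E hj P h0 hP
  obtain ⟨C, D, hD, rfl⟩ := UNI.exists_WD E hj hs0 hs
  obtain ⟨t, α, ht, hα, hc, rfl⟩ := UNI.cubefree D hD
  have h1 : ML 3 (CU.W ((CU.eE α : 𝓞 KK) : KK)) := CUE.modThree_all α hα hc
  have h2 : (CU.W ((CU.eE α : 𝓞 KK) : KK)).Δ ≠ 0 := by
    have h3 := h1.1
    exact h3.isUnit.ne_zero
  rw [p4_W ht, smul_smul]
  exact (ml_smul _ _ h2 3).2 h1

theorem p4_two {K : Type} [Field K] [NumberField K] {E : WeierstrassCurve K} (hP : ¬ Np 2 E) : Q3.HasTwo E := by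
  unfold Np at hP
  push Not at hP
  obtain ⟨P, hP, h0⟩ := hP
  exact ⟨P, h0, by rw [← two_nsmul]; exact hP⟩

theorem ml_of_pt {l : ℕ} (hl : l = 2 ∨ l = 3) (E : WeierstrassCurve KK) [E.IsElliptic] (hj : E.j = 0) (hP : ¬ Np l E) : ML l E := by
  rcases hl with rfl | rfl
  · exact EQV.three_all E hj (p4_two hP)
  · exact p4_three E hj hP

end CX
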