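import Pool.Agent.CX.T2

/-!
# [CX-T1] the completions over 6 do not change

PROOF. `v = und KK w` (from `h.comm`, `h.int`: see `tr_und` in T2, or repeat its argument: `v(x) ≤ 1 → w(x) ≤ 1` for `x ∈ KK`, so the maximal ideal of `v` and the ideal `v'` under `w` agree), so `6 ∈ v`, and `hD.loc`: `c_i ∈ K_v`, `c_i^l = d_i`. In `F_w`: `(δ_i / φ c_i)^l = 1` (`h.comm`), so `δ_i = φ (z) φ(c_i)` for an `l`-th root of unity `z ∈ Eis` (the root of unity argument
in the field `F_w`: `x^l = 1 → x ∈ {± 1}` or `{1, ω, ω²}`). So the subfield `φ(K_v) ∩ F` of `F` contains `KK` and all `δ_i`, it is `F` (`hK.top`; the intermediate field `{x : F | ∃ y, φ y = algebraMap F (F_w) x}`). The image of `φ` is closed: `φ` is continuous (`h.int` + linearity: `v(x) ≤ v(π^j) → w(φ x) ≤ w(φ π^j)`) and a uniform embedding (also `v(x) > 1 → w(φ x) > 1` as `φ` is injective: `v(π) < 1 → w(φ π) < 1`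
because `π ∈ KK` can be taken in the ideal under `w`), so its image is complete; it contains the dense `F` (`HeightOneSpectrum.denseRange_algebraMap F w`), so `φ` is surjective. (helper45's CXS.S7 has a lemma of this kind; JD/L0.lean and CU for density.)
-/

set_option autoImplicit false

open NumberField IsDedekindDomain
open scoped Classical ComplexConjugate

namespace CX

open CM27 CMT NAB CF JD
open CU (la om eE)

section gen

variable {F : Type} [Field F] [Valued F (WithZero (Multiplicative ℤ))]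

theorem T1_lt (γ : WithZero (Multiplicative ℤ)) (h : γ ≠ 0) : ∃ n : ℕ, WithZero.exp (-(n : ℤ)) < γ := by
  obtain ⟨n, hn⟩ := exists_pow_lt₀ (a := (WithZero.exp (-1 : ℤ) : WithZero (Multiplicative ℤ))) (by
    rw [← WithZero.exp_zero, WithZero.exp_lt_exp]; norm_num) (Units.mk0 γ h)
  refine ⟨n, ?_⟩
  rw [← WithZero.exp_nsmul] at hn
  simpa using hn

theorem T1_A (γ : (MonoidWithZeroHom.ValueGroup₀ (.ofClass (Valued.v : Valuation F (WithZero (Multiplicative ℤ)))))ˣ) :
    ∃ n : ℕ, ∀ x : F, Valued.v x ≤ (WithZero.exp (-(n : ℤ)) : WithZero (Multiplicative ℤ)) → Valued.v.restrict x < γ.1 := by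
  obtain ⟨n, hn⟩ := T1_lt (MonoidWithZeroHom.ValueGroup₀.embedding γ.1) (by
    rw [Ne, map_eq_zero]
    exact γ.ne_zero)
  refine ⟨n, fun x hx => ?_⟩
  rw [Valuation.restrict_lt_iff_lt_embedding]
  exact hx.trans_lt hn

theorem T1_B (hs : ∀ g : WithZero (Multiplicative ℤ), ∃ x : F, Valued.v x = g) (n : ℕ) :
    ∃ γ : (MonoidWithZeroHom.ValueGroup₀ (.ofClass (Valued.v : Valuation F (WithZero (Multiplicative ℤ)))))ˣ,
      ∀ x : F, Valued.v.restrict x < γ.1 → Valued.v x ≤ (WithZero.exp (-(n : ℤ)) : WithZero (Multiplicative ℤ)) := by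
  obtain ⟨x0, h0⟩ := hs (WithZero.exp (-(n : ℤ)))
  have hx0 : Valued.v.restrict x0 ≠ 0 := by
    rw [Ne, Valuation.restrict_eq_zero_iff, h0]
    exact WithZero.exp_ne_zero
  refine ⟨Units.mk0 _ hx0, fun x hx => ?_⟩
  rw [Units.val_mk0, Valuation.restrict_lt_iff, h0] at hx
  exact hx.le

end gen

/-- an isometry of valued fields with dense image from a complete field is surjective -/
theorem T1_surj {F F' : Type} [Field F] [Field F'] [Valued F (WithZero (Multiplicative ℤ))] [Valued F' (WithZero (Multiplicative ℤ))]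
    [CompleteSpace F] [T0Space F'] (φ : F →+* F') (hφ : ∀ x, Valued.v (φ x) = (Valued.v x : WithZero (Multiplicative ℤ)))
    (hs : ∀ g : WithZero (Multiplicative ℤ), ∃ x : F, Valued.v x = g) {A : Type} (f : A → F') (hf : DenseRange f)
    (hd : ∀ a : A, ∃ x : F, φ x = f a) : Function.Surjective φ := by
  have hs' : ∀ g : WithZero (Multiplicative ℤ), ∃ x : F', Valued.v x = g := fun g => by
    obtain ⟨x, hx⟩ := hs g
    exact ⟨φ x, by rw [hφ, hx]⟩
  have hui : IsUniformInducing φ := by
    rw [Filter.HasBasis.isUniformInducing_iff (Valued.hasBasis_uniformity F _) (Valued.hasBasis_uniformity F' _)]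
    constructor
    · intro γ' _
      obtain ⟨n, hn⟩ := T1_A γ'
      obtain ⟨γ, hγ⟩ := T1_B hs n
      refine ⟨γ, trivial, fun x y hxy => ?_⟩
      apply hn
      show Valued.v (φ y - φ x) ≤ _
      rw [← map_sub, hφ]
      exact hγ _ hxy
    · intro γ _
      obtain ⟨n, hn⟩ := T1_A γ
      obtain ⟨γ', hγ⟩ := T1_B hs' n
      refine ⟨γ', trivial, fun x y hxy => ?_⟩
      apply hn
      show Valued.v (y - x) ≤ _
      rw [← hφ, map_sub]
      exact hγ _ hxy
  have hcl : IsClosed (Set.range φ) := hui.isComplete_range.isClosed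
  intro y
  have hy : y ∈ closure (Set.range φ) := by
    have h1 : Set.range f ⊆ Set.range φ := by
      rintro _ ⟨a, rfl⟩
      exact hd a
    exact closure_mono h1 (hf y)
  rw [hcl.closure_eq] at hy
  exact hy

/-- roots of unity -/
theorem T1_root {L : Type} [Field L] {l : ℕ} (hl : l = 2 ∨ l = 3) (x y z : L) (hz : z ^ 2 + z + 1 = 0)
    (h : x ^ l = y ^ l) : x = y ∨ x = -y ∨ x = z * y ∨ x = z ^ 2 * y := by
  rcases hl with rfl | rfl
  · rcases sq_eq_sq_iff_eq_or_eq_neg.1 h with h1 | h1
    · exact Or.inl h1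
    · exact Or.inr (Or.inl h1)
  · have h1 : (x - y) * ((x - z * y) * (x - z ^ 2 * y)) = 0 := by
      have h3 : z ^ 3 = 1 := by linear_combination (z - 1) * hz
      have : (x - y) * ((x - z * y) * (x - z ^ 2 * y)) = x ^ 3 - y ^ 3 := by
        linear_combination (-x ^ 2 * y + x * y ^ 2) * hz + (x * y ^ 2 - y ^ 3) * h3
      rw [this, h, sub_self]
    rcases mul_eq_zero.1 h1 with h2 | h2
    · exact Or.inl (sub_eq_zero.1 h2)
    rcases mul_eq_zero.1 h2 with h2 | h2
    · exact Or.inr (Or.inr (Or.inl (sub_eq_zero.1 h2)))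
    · exact Or.inr (Or.inr (Or.inr (sub_eq_zero.1 h2)))

theorem T1_om : (om : Eis) ^ 2 + om + 1 = 0 := by decide

section
variable {F : Type} [Field F] [NumberField F] [Algebra KK F] {v : HeightOneSpectrum (𝓞 KK)} {w : HeightOneSpectrum (𝓞 F)}
  {φ : v.adicCompletion KK →+* w.adicCompletion F}

/-- if the image contains `F`, the homomorphism is an isometry -/
theorem T1_val (h : Below v w φ) (hF : ∀ x : F, ∃ y, φ y = algebraMap F (w.adicCompletion F) x)
    (x : v.adicCompletion KK) : (Valued.v (φ x) : WithZero (Multiplicative ℤ)) = Valued.v x := by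
  obtain ⟨e, he⟩ := T2_pow h
  have he1 : e = 1 := by
    obtain ⟨π, hπ⟩ := w.valuation_exists_uniformizer F
    obtain ⟨y, hy⟩ := hF π
    have h3 := HeightOneSpectrum.valuedAdicCompletion_eq_valuation' w π
    have h4 : (Valued.v (φ y) : WithZero (Multiplicative ℤ)) = WithZero.exp (-1 : ℤ) := by
      rw [hy]
      exact h3.trans hπ
    have h5 := he y
    rw [h4] at h5
    have hy0 : (Valued.v y : WithZero (Multiplicative ℤ)) ≠ 0 := by
      intro h0
      rw [h0] at h5
      rcases Nat.eq_zero_or_pos e with h6 | h6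
      · rw [h6, pow_zero, ← WithZero.exp_zero, WithZero.exp_inj] at h5
        norm_num at h5
      · rw [zero_pow h6.ne'] at h5
        exact WithZero.exp_ne_zero h5
    rw [← WithZero.exp_log hy0, ← WithZero.exp_nsmul, WithZero.exp_inj] at h5
    have h6 : (e : ℤ) ∣ 1 := by
      rw [nsmul_eq_mul] at h5
      refine ⟨-WithZero.log (Valued.v y), ?_⟩
      linarith
    have h7 := Int.natAbs_dvd_natAbs.2 h6
    simpa using h7
  rw [he x, he1, pow_one]

/-- if the image contains `F`, it is everything -/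
theorem T1_of_range (h : Below v w φ) (hF : ∀ x : F, ∃ y, φ y = algebraMap F (w.adicCompletion F) x) :
    Function.Surjective φ := by
  refine T1_surj φ (T1_val h hF) (fun g => ?_) (algebraMap F (w.adicCompletion F))
    (HeightOneSpectrum.denseRange_algebraMap F w) hF
  obtain ⟨k, hk⟩ := HeightOneSpectrum.valuation_surjective KK v g
  exact ⟨algebraMap KK (v.adicCompletion KK) k,
    (HeightOneSpectrum.valuedAdicCompletion_eq_valuation' v k).trans hk⟩
end

theorem surj_six {F : Type} [Field F] [NumberField F] [Algebra KK F] {l m n : ℕ} {d : Fin n → Eis} {δ : Fin n → F} {D : Eis}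
    (hD : Dat0 l m D d) (hK : Kum l n d δ) (v : HeightOneSpectrum (𝓞 KK)) (w : HeightOneSpectrum (𝓞 F))
    (h6 : (6 : 𝓞 F) ∈ w.asIdeal) (φ : v.adicCompletion KK →+* w.adicCompletion F) (h : Below v w φ) : Function.Surjective φ := by
  refine T1_of_range h fun x => ?_
  have hv6 : (6 : 𝓞 KK) ∈ v.asIdeal := by
    rw [← tr_und h, mem_und, map_ofNat]
    exact h6
  have hδ : ∀ i, ∃ y, φ y = algebraMap F (w.adicCompletion F) (δ i) := by
    intro i
    obtain ⟨c, hc⟩ := hD.loc v hv6 i
    have h1 : (algebraMap F (w.adicCompletion F) (δ i)) ^ l = (φ c) ^ l := by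
      rw [← map_pow, ← map_pow, hc, hK.pow, h.comm]
      rfl
    have h2 : (φ (algebraMap KK (v.adicCompletion KK) (jK om))) ^ 2 +
        φ (algebraMap KK (v.adicCompletion KK) (jK om)) + 1 = 0 := by
      have h3 := congrArg (fun t => φ (algebraMap KK (v.adicCompletion KK) (jK t))) T1_om
      simpa only [map_add, map_pow, map_one, map_zero] using h3
    rcases T1_root hD.lm.2 _ _ _ h2 h1 with h3 | h3 | h3 | h3
    · exact ⟨c, h3.symm⟩
    · exact ⟨-c, by rw [map_neg, h3]⟩
    · exact ⟨algebraMap KK (v.adicCompletion KK) (jK om) * c, by rw [map_mul, h3]⟩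
    · exact ⟨(algebraMap KK (v.adicCompletion KK) (jK om)) ^ 2 * c, by rw [map_mul, map_pow, h3]⟩
  have hx : x ∈ IntermediateField.adjoin KK (Set.range δ) := by
    rw [hK.top]
    exact IntermediateField.mem_top
  induction hx using IntermediateField.adjoin_induction with
  | mem x hx =>
    obtain ⟨i, rfl⟩ := hx
    exact hδ i
  | algebraMap x => exact ⟨algebraMap KK (v.adicCompletion KK) x, h.comm x⟩
  | add x y _ _ hx hy =>
    obtain ⟨a, ha⟩ := hx
    obtain ⟨b, hb⟩ := hy
    exact ⟨a + b, by rw [map_add, map_add, ha, hb]⟩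
  | inv x _ hx =>
    obtain ⟨a, ha⟩ := hx
    exact ⟨a⁻¹, by rw [map_inv₀, map_inv₀, ha]⟩
  | mul x y _ _ hx hy =>
    obtain ⟨a, ha⟩ := hx
    obtain ⟨b, hb⟩ := hy
    exact ⟨a * b, by rw [map_mul, map_mul, ha, hb]⟩

end CX
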