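import Pool.Agent.CX.L7

/-!
# [CX-U] the places which do not contain the `dᵢ` are unramified
-/

set_option autoImplicit false

open NumberField IsDedekindDomain
open scoped Classical ComplexConjugate

namespace CX

open CM27 CMT NAB CF JD
open CU (la om eE)

theorem u_od {v : HeightOneSpectrum (𝓞 KK)} {a : Eis} (h : eE a ∉ v.asIdeal) : TWR.od v (jK a) = 0 := by
  have h1 : v.valuation KK (jK a) = 1 := by
    refine le_antisymm (v.valuation_le_one (eE a)) (not_lt.1 fun h2 => h ?_)
    exact (v.valuation_lt_one_iff_mem (eE a)).1 h2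
  rw [TWR.od, h1, WithZero.log_one]

theorem unram {F : Type} [Field F] [NumberField F] [Algebra KK F] {l n : ℕ} [NeZero l] {d : Fin n → Eis} {δ : Fin n → F}
    (hl : l = 2 ∨ l = 3) (hK : Kum l n d δ) (w : HeightOneSpectrum (𝓞 F)) (h6 : (6 : 𝓞 KK) ∉ (und KK w).asIdeal)
    (h : ∀ i, eE (d i) ∉ (und KK w).asIdeal) (x : KK) : w.valuation F (algebraMap KK F x) = (und KK w).valuation KK x := by
  obtain ⟨e, f, g, he, -, -, -, hel, -, hw, -⟩ := place_count hl hK (und KK w) h6
  have he1 : e = 1 := by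
    refine he.resolve_right fun h1 => ?_
    obtain ⟨i, hi⟩ := hel.1 h1
    exact hi (by rw [u_od (h i)]; exact dvd_zero _)
  obtain ⟨-, h2, -⟩ := hw w rfl
  by_cases hx : x = 0
  · rw [hx, map_zero, map_zero, map_zero]
  · have hx' : algebraMap KK F x ≠ 0 := (map_ne_zero _).2 hx
    rw [TWR.val_eq_exp w hx', TWR.val_eq_exp (und KK w) hx, h2 x hx, he1, Nat.cast_one, one_mul]

end CX
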