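import Pool.Agent.CX.L6
import Pool.Agent.CX.T1
import Pool.Agent.CX.U
import Pool.Agent.CX.M3
import Pool.Agent.CXS.Z2

/-!
# [CX-S] Selmer groups: the hypothesis `H(l)` for the twists over `K` and for the curve over `F`
-/

set_option autoImplicit false

open NumberField IsDedekindDomain
open scoped Classical

namespace CX

open CM27 CMT NAB CF JD
open CU (la om eE)

section
variable {F : Type} [Field F] [NumberField F] [Algebra KK F] {l n : ℕ} [NeZero l] {d : Fin n → Eis} {δ : Fin n → F} {m : ℕ} {D : Eis}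

theorem s_hn (hD : Dat l m D d) (hK : Kum l n d δ) (χ : Fin n → ZMod l) : CXS.HN l (D * dx d χ ^ m) F := by
  intro v w φ hB
  by_cases h6 : (6 : 𝓞 F) ∈ w.asIdeal
  · exact Or.inl (surj_six hD.toDat0 hK v w h6 φ hB)
  have hund : und KK w = v := by
    have h1 := CXS.below_over hB
    exact HeightOneSpectrum.ext h1.over.symm
  have h6' : (6 : 𝓞 KK) ∉ v.asIdeal := by
    rw [← hund]
    intro h
    apply h6
    have h2 : algebraMap (𝓞 KK) (𝓞 F) 6 ∈ w.asIdeal := h
    rwa [map_ofNat] at h2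
  have hl0 : v.valuation KK (l : KK) = 1 := by
    have h2 : ((l : 𝓞 KK) : KK) = (l : KK) := map_natCast (algebraMap (𝓞 KK) KK) l
    rw [← h2]
    refine (HeightOneSpectrum.valuation_eq_one_iff_notMem v).2 fun h3 => h6' ?_
    have h4 : (6 : 𝓞 KK) = (l : 𝓞 KK) * (m : 𝓞 KK) := by
      rw [← Nat.cast_mul, hD.lm.1]
      norm_num
    rw [h4]
    exact Ideal.mul_mem_right _ _ h3
  refine Or.inr ⟨hl0, ?_⟩
  by_cases hd : ∃ i, eE (d i) ∈ v.asIdeal
  · obtain ⟨i, hi⟩ := hd
    left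
    intro x hx
    have hm : m = 5 - l := by
      have h1 := hD.lm.1
      rcases hD.lm.2 with rfl | rfl <;> omega
    have hc : algebraMap KK (v.adicCompletion KK) (jK (dx d χ)) ≠ 0 :=
      (map_ne_zero _).2 fun h0 => dx_ne hK χ (jK_inj (h0.trans (map_zero jK).symm))
    refine hD.npt v i hi (x / algebraMap KK (v.adicCompletion KK) (jK (dx d χ))) ?_
    rw [div_pow, hm, hx, map_mul, map_mul, map_pow, map_pow, hm]
    exact mul_div_cancel_right₀ _ (pow_ne_zero _ hc)
  · right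
    push Not at hd
    refine ⟨Valued.v, fun x => ?_⟩
    refine CXS.below_val hB (fun y => ?_) x
    have h1 := unram hD.lm.2 hK w (by rw [hund]; exact h6') (by rw [hund]; exact hd) y
    rw [hund] at h1
    exact h1

/-- [CX-S] -/
theorem sel_iff (hD : Dat l m D d) (hT : Tp l (ED (jK D))) (hK : Kum l n d δ) (χ : Fin n → ZMod l) :
    Fs l (ED (jK (D * dx d χ ^ m))) ↔ Fs l (ED (jF F D)) := by
  have hdom := eis_isDomain
  have hG : IsGalois KK F := kum_galois hD.lm.2 hK
  have h0 : D * dx d χ ^ m ≠ 0 := mul_ne_zero hD.ne0 (pow_ne_zero _ (dx_ne hK χ))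
  have h1 := CXS.fin_iff_any (N := F) hD.lm.2 h0 (pl_twist hD hT hK χ) hK.rank (s_hn hD hK χ)
  refine h1.symm.trans ?_
  -- `d_χ` is an `l`-th power in `F`
  obtain ⟨x, hx0, hx⟩ : ∃ x : F, x ≠ 0 ∧ jF F (dx d χ) = x ^ l := by
    have hδ : ∀ i, δ i ≠ 0 := by
      intro i h
      have h2 := hK.pow i
      rw [h, zero_pow (NeZero.ne l)] at h2
      exact hK.ne i (jF_inj F (h2.symm.trans (map_zero (jF F)).symm))
    refine ⟨∏ i, δ i ^ (χ i).val, Finset.prod_ne_zero_iff.2 fun i _ => pow_ne_zero _ (hδ i), ?_⟩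
    rw [dx, map_prod, ← Finset.prod_pow]
    refine Finset.prod_congr rfl fun i _ => ?_
    rw [map_pow, ← hK.pow i, ← pow_mul, ← pow_mul, mul_comm]
  have h2 : algebraMap KK F (jK (D * dx d χ ^ m)) = jF F D * x ^ 6 := by
    have h3 : algebraMap KK F (jK (D * dx d χ ^ m)) = jF F (D * dx d χ ^ m) := rfl
    rw [h3, map_mul, map_pow, hx, ← pow_mul, hD.lm.1]
  rw [h2]
  exact CXS.fin_six l (jF F D) x hx0

end

end CX
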