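import Pool.Agent.CX.L7
import Pool.Agent.TR.I1

/-!
# [CX-X1] infinitely many primes modulo which D is not a square / not a cube

PROOF. `M = KK(D^(1/m))` (`x1_field`, `Kum m 1`). If `D` is an `m`-th power modulo every prime of norm `> B`, then (`place_count`) every prime `q` of `𝓞 KK` not containing `P = 6 D B!` has two different primes `W1 q ≠ W2 q` above it, of the same norm (`x1_two`).
For a nonzero ideal `I = (y)` of `𝓞 KK` let `J I = (1 + P y)`, of norm at most `4 N(P) N(I)`, prime to `P`, and `J` is injective (`6 ∣ P`). The map `(I, I') ↦ ∏_{q ∣ J I} W1 q · ∏_{q ∣ J I'} W2 q` is injective (`x1_inj`), of norm `N(J I) N(J I')`,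
so `C^(-2 s) (∑_I N(I)^(-s))² ≤ ∑_{ideals of M} N^(-s)`; both sums times `s - 1` have finite positive limits (class number formula), a contradiction (`x1_contra`).
-/

set_option autoImplicit false

open NumberField IsDedekindDomain
open scoped Classical ComplexConjugate

namespace CX

open CM27 CMT NAB CF JD
open CU (la om eE)

section
variable (K : Type) [Field K] [NumberField K]

/-- the sum over the ideals -/
noncomputable def x1_z (s : ℝ) : ℝ := ∑' I : Ideal (𝓞 K), (Ideal.absNorm I : ℝ) ^ (-s)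

theorem x1_zeta {s : ℝ} (hs : 1 < s) : dedekindZeta K (s : ℂ) = ((x1_z K s : ℝ) : ℂ) := by
  have h1 := TR.lseries_idA K (fun _ => 1) 0 le_rfl (fun I => by rw [norm_one, Real.rpow_zero])
    (s := (s : ℂ)) (by rw [Complex.ofReal_re]; linarith)
  have h2 : dedekindZeta K (s : ℂ) = LSeries (TR.idA K (fun _ => 1)) (s : ℂ) := by
    unfold dedekindZeta
    refine LSeries_congr (fun {n} hn => ?_) _
    rw [TR.idA_apply, if_neg hn]
    have hfin := TR.i1_fin K n
    have : Fintype {I : Ideal (𝓞 K) // Ideal.absNorm I = n} := Fintype.ofFinite _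
    rw [finsum_eq_sum_of_fintype, Finset.sum_const, Finset.card_univ, Nat.card_eq_fintype_card, nsmul_eq_mul, mul_one]
  rw [h2, h1.2.2, x1_z, Complex.ofReal_tsum]
  refine tsum_congr fun I => ?_
  rw [one_mul, Complex.ofReal_cpow (Nat.cast_nonneg _)]
  push_cast
  rfl

theorem x1_tend : Filter.Tendsto (fun s : ℝ => (s - 1) * x1_z K s) (nhdsWithin 1 (Set.Ioi 1)) (nhds (dedekindZeta_residue K)) := by
  have h1 := tendsto_sub_one_mul_dedekindZeta_nhdsGT K
  have h2 : Filter.Tendsto (fun s : ℝ => (((s - 1) * x1_z K s : ℝ) : ℂ)) (nhdsWithin 1 (Set.Ioi 1)) (nhds ((dedekindZeta_residue K : ℝ) : ℂ)) := by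
    refine h1.congr' ?_
    filter_upwards [self_mem_nhdsWithin] with s hs
    rw [x1_zeta K hs]
    push_cast
    ring
  have h3 := (Complex.continuous_re.tendsto _).comp h2
  refine h3.congr (fun s => ?_)
  show Complex.re (((s - 1) * x1_z K s : ℝ) : ℂ) = _
  rw [Complex.ofReal_re]
end

/-- the analytic contradiction -/
theorem x1_contra (K M : Type) [Field K] [NumberField K] [Field M] [NumberField M] (C : ℝ) (hC : 0 < C)
    (T : {I : Ideal (𝓞 K) // I ≠ ⊥} × {I : Ideal (𝓞 K) // I ≠ ⊥} → Ideal (𝓞 M)) (hT : Function.Injective T)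
    (hpos : ∀ p, 0 < Ideal.absNorm (T p))
    (hN : ∀ p, (Ideal.absNorm (T p) : ℝ) ≤ (C * Ideal.absNorm p.1.1) * (C * Ideal.absNorm p.2.1)) : False := by
  have key : ∀ s : ℝ, 1 < s → C ^ (-s) * C ^ (-s) * (x1_z K s * x1_z K s) ≤ x1_z M s := by
    intro s hs
    have hsum := TR.summable_absNorm K hs
    have hsumM := TR.summable_absNorm M hs
    have hs0 : -s ≠ 0 := by linarith
    have hbot : ((Ideal.absNorm (⊥ : Ideal (𝓞 K)) : ℕ) : ℝ) ^ (-s) = 0 := by
      rw [Ideal.absNorm_bot, Nat.cast_zero, Real.zero_rpow hs0]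
    have hz : x1_z K s = ∑' I : {I : Ideal (𝓞 K) // I ≠ ⊥}, (Ideal.absNorm I.1 : ℝ) ^ (-s) := by
      refine (tsum_subtype_eq_of_support_subset (f := fun I : Ideal (𝓞 K) => (Ideal.absNorm I : ℝ) ^ (-s))
        (s := {I : Ideal (𝓞 K) | I ≠ ⊥}) ?_).symm
      intro I hI
      rw [Function.mem_support] at hI
      intro h
      apply hI
      rw [h]
      exact hbot
    have hsum' : Summable fun I : {I : Ideal (𝓞 K) // I ≠ ⊥} => (Ideal.absNorm I.1 : ℝ) ^ (-s) :=
      hsum.subtype _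
    have hprod : Summable fun p : {I : Ideal (𝓞 K) // I ≠ ⊥} × {I : Ideal (𝓞 K) // I ≠ ⊥} =>
        (Ideal.absNorm p.1.1 : ℝ) ^ (-s) * (Ideal.absNorm p.2.1 : ℝ) ^ (-s) :=
      hsum'.mul_of_nonneg hsum' (fun _ => Real.rpow_nonneg (Nat.cast_nonneg _) _) (fun _ => Real.rpow_nonneg (Nat.cast_nonneg _) _)
    have h1 : x1_z K s * x1_z K s = ∑' p : {I : Ideal (𝓞 K) // I ≠ ⊥} × {I : Ideal (𝓞 K) // I ≠ ⊥},
        (Ideal.absNorm p.1.1 : ℝ) ^ (-s) * (Ideal.absNorm p.2.1 : ℝ) ^ (-s) := by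
      rw [hz, hsum'.tsum_mul_tsum hsum' hprod]
    have h2 : ∀ p : {I : Ideal (𝓞 K) // I ≠ ⊥} × {I : Ideal (𝓞 K) // I ≠ ⊥},
        C ^ (-s) * C ^ (-s) * ((Ideal.absNorm p.1.1 : ℝ) ^ (-s) * (Ideal.absNorm p.2.1 : ℝ) ^ (-s)) ≤
          (Ideal.absNorm (T p) : ℝ) ^ (-s) := by
      intro p
      have h3 : C ^ (-s) * C ^ (-s) * ((Ideal.absNorm p.1.1 : ℝ) ^ (-s) * (Ideal.absNorm p.2.1 : ℝ) ^ (-s)) =
          ((C * Ideal.absNorm p.1.1) * (C * Ideal.absNorm p.2.1)) ^ (-s) := by
        rw [Real.mul_rpow (by positivity) (by positivity), Real.mul_rpow hC.le (by positivity), Real.mul_rpow hC.le (by positivity)]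
        ring
      rw [h3]
      exact Real.rpow_le_rpow_of_nonpos (by exact_mod_cast hpos p) (hN p) (by linarith)
    have hTs : Summable fun p => (Ideal.absNorm (T p) : ℝ) ^ (-s) := hsumM.comp_injective hT
    rw [h1, ← tsum_mul_left]
    refine (Summable.tsum_le_tsum h2 (hprod.mul_left _) hTs).trans ?_
    rw [x1_z]
    exact hTs.tsum_le_tsum_of_inj T hT (fun I _ => Real.rpow_nonneg (Nat.cast_nonneg _) _) (fun p => le_rfl) hsumM
  have hK := x1_tend K
  have hM := x1_tend M
  have hid : Filter.Tendsto (fun s : ℝ => s - 1) (nhdsWithin 1 (Set.Ioi 1)) (nhds 0) := by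
    have h1 : Filter.Tendsto (fun s : ℝ => s - 1) (nhds 1) (nhds (1 - 1)) := (continuous_id.sub continuous_const).tendsto 1
    rw [sub_self] at h1
    exact h1.mono_left nhdsWithin_le_nhds
  have hCt : Filter.Tendsto (fun s : ℝ => C ^ (-s)) (nhdsWithin 1 (Set.Ioi 1)) (nhds (C ^ (-(1 : ℝ)))) := by
    have h1 : Continuous (fun s : ℝ => C ^ (-s)) := Real.continuous_const_rpow hC.ne' |>.comp continuous_neg
    exact (h1.tendsto 1).mono_left nhdsWithin_le_nhds
  have hl := ((hCt.mul hCt).mul (hK.mul hK))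
  have hr := hid.mul hM
  have hle := le_of_tendsto_of_tendsto hl hr (by
    filter_upwards [self_mem_nhdsWithin] with s hs
    have hs' : 0 < s - 1 := sub_pos.mpr hs
    have h1 := mul_le_mul_of_nonneg_left (key s hs) (mul_pos hs' hs').le
    calc C ^ (-s) * C ^ (-s) * ((s - 1) * x1_z K s * ((s - 1) * x1_z K s))
        = (s - 1) * (s - 1) * (C ^ (-s) * C ^ (-s) * (x1_z K s * x1_z K s)) := by ring
      _ ≤ (s - 1) * (s - 1) * x1_z M s := h1
      _ = (s - 1) * ((s - 1) * x1_z M s) := by ring)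
  rw [zero_mul] at hle
  have h1 := dedekindZeta_residue_pos K
  have h2 : 0 < C ^ (-(1 : ℝ)) := Real.rpow_pos_of_pos hC _
  have h3 : 0 < C ^ (-(1 : ℝ)) * C ^ (-(1 : ℝ)) * (dedekindZeta_residue K * dedekindZeta_residue K) := by positivity
  linarith

/-- the ideals of the field above are determined by the two multisets -/
theorem x1_inj {A B : Type} [CommRing A] [IsDedekindDomain A] [CommRing B] [IsDedekindDomain B] (f : A →+* B)
    (W1 W2 : Ideal A → Ideal B) (s t s' t' : Multiset (Ideal A))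
    (hW : ∀ q, (q ∈ s ∨ q ∈ t ∨ q ∈ s' ∨ q ∈ t') → Prime (W1 q) ∧ Prime (W2 q) ∧ (W1 q).comap f = q ∧
      (W2 q).comap f = q ∧ W1 q ≠ W2 q)
    (h : (s.map W1).prod * (t.map W2).prod = (s'.map W1).prod * (t'.map W2).prod) : s = s' ∧ t = t' := by
  have h1 : ∀ (a b : Multiset (Ideal A)), (∀ q, (q ∈ a ∨ q ∈ b) → Prime (W1 q) ∧ Prime (W2 q)) →
      UniqueFactorizationMonoid.normalizedFactors ((a.map W1).prod * (b.map W2).prod) = a.map W1 + b.map W2 := by
    intro a b hab
    rw [← Multiset.prod_add]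
    apply UniqueFactorizationMonoid.normalizedFactors_prod_of_prime
    intro p hp
    rw [Multiset.mem_add, Multiset.mem_map, Multiset.mem_map] at hp
    rcases hp with ⟨q, hq, rfl⟩ | ⟨q, hq, rfl⟩
    · exact (hab q (Or.inl hq)).1
    · exact (hab q (Or.inr hq)).2
  have h2 : s.map W1 + t.map W2 = s'.map W1 + t'.map W2 := by
    rw [← h1 s t (fun q hq => by
        have := hW q (by tauto)
        exact ⟨this.1, this.2.1⟩), ← h1 s' t' (fun q hq => by
        have := hW q (by tauto)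
        exact ⟨this.1, this.2.1⟩), h]
  set pr : Ideal B → Prop := fun w => W1 (w.comap f) = w with hpr
  have h3 : ∀ (a b : Multiset (Ideal A)), (∀ q, (q ∈ a ∨ q ∈ b) → (W1 q).comap f = q ∧ (W2 q).comap f = q ∧ W1 q ≠ W2 q) →
      (a.map W1 + b.map W2).filter pr = a.map W1 ∧ (a.map W1 + b.map W2).filter (fun w => ¬ pr w) = b.map W2 ∧
      (a.map W1).map (Ideal.comap f) = a ∧ (b.map W2).map (Ideal.comap f) = b := by
    intro a b hab
    have ha : ∀ w ∈ a.map W1, pr w := by
      intro w hw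
      obtain ⟨q, hq, rfl⟩ := Multiset.mem_map.1 hw
      show W1 ((W1 q).comap f) = W1 q
      rw [(hab q (Or.inl hq)).1]
    have hb : ∀ w ∈ b.map W2, ¬ pr w := by
      intro w hw
      obtain ⟨q, hq, rfl⟩ := Multiset.mem_map.1 hw
      show ¬ W1 ((W2 q).comap f) = W2 q
      rw [(hab q (Or.inr hq)).2.1]
      exact (hab q (Or.inr hq)).2.2
    refine ⟨?_, ?_, ?_, ?_⟩
    · rw [Multiset.filter_add, Multiset.filter_eq_self.2 ha, Multiset.filter_eq_nil.2 hb, add_zero]
    · rw [Multiset.filter_add, Multiset.filter_eq_self.2 hb, Multiset.filter_eq_nil.2 (fun w hw h => h (ha w hw)), zero_add]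
    · rw [Multiset.map_map]
      conv_rhs => rw [← Multiset.map_id a]
      exact Multiset.map_congr rfl (fun q hq => (hab q (Or.inl hq)).1)
    · rw [Multiset.map_map]
      conv_rhs => rw [← Multiset.map_id b]
      exact Multiset.map_congr rfl (fun q hq => (hab q (Or.inr hq)).2.1)
  obtain ⟨a1, a2, a3, a4⟩ := h3 s t (fun q hq => (hW q (by tauto)).2.2)
  obtain ⟨b1, b2, b3, b4⟩ := h3 s' t' (fun q hq => (hW q (by tauto)).2.2)
  constructor
  · rw [← a3, ← b3, ← a1, ← b1, h2]
  · rw [← a4, ← b4, ← a2, ← b2, h2]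

theorem x1_unit {u : Eis} (hu : IsUnit u) (h : (6 : Eis) ∣ u - 1) : u = 1 := by
  obtain ⟨c, hc⟩ := h
  have e1 : (6 : Eis).re = 6 := by decide
  have e2 : (6 : Eis).im = 0 := by decide
  have e3 : (1 : Eis).re = 1 := by decide
  have e4 : (1 : Eis).im = 0 := by decide
  have hre : u.re - 1 = 6 * c.re := by
    have := congrArg QuadraticAlgebra.re hc
    rw [QuadraticAlgebra.re_sub, QuadraticAlgebra.re_mul, e1, e2, e3] at this
    linarith
  have him : u.im = 6 * c.im := by
    have := congrArg QuadraticAlgebra.im hc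
    rw [QuadraticAlgebra.im_sub, QuadraticAlgebra.im_mul, e1, e2, e4] at this
    linarith
  rcases (CU.unit_iff u).1 hu with h1 | h1 | h1 | h1 | h1 | h1
  · exact h1
  all_goals
    exfalso
    subst h1
    revert hre him
    first
    | (have e : (-1 : Eis).re = -1 := by decide
       rw [e]; omega)
    | (have e : (om : Eis).im = 1 := by decide
       rw [e]; omega)
    | (have e : (-om : Eis).im = -1 := by decide
       rw [e]; omega)
    | (have e : (om ^ 2 : Eis).im = -1 := by decide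
       rw [e]; omega)
    | (have e : (-om ^ 2 : Eis).im = 1 := by decide
       rw [e]; omega)

theorem x1_norm_le (P y : Eis) (hP : P ≠ 0) (hy : y ≠ 0) : (1 + P * y).norm ≤ 4 * P.norm * y.norm := by
  have hpos : ∀ a : Eis, a ≠ 0 → 1 ≤ a.norm := by
    intro a ha
    have h1 := norm_nonneg' a
    have h2 : a.norm ≠ 0 := by
      intro h
      apply ha
      have h3 := norm_emb_sq a
      rw [h, Int.cast_zero] at h3
      have h4 : ‖emb a‖ = 0 := by nlinarith [norm_nonneg (emb a)]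
      exact (map_eq_zero_iff emb emb_injective).1 (norm_eq_zero.1 h4)
    omega
  have h1 : (1 + P * y).norm ≤ 2 + 2 * (P * y).norm := by
    have h2 := norm_nonneg' (1 - P * y)
    rw [norm_eq] at h2 ⊢
    rw [norm_eq]
    simp only [QuadraticAlgebra.re_add, QuadraticAlgebra.im_add, QuadraticAlgebra.re_sub, QuadraticAlgebra.im_sub,
      QuadraticAlgebra.re_one, QuadraticAlgebra.im_one] at h2 ⊢
    nlinarith
  rw [map_mul] at h1
  have h2 := hpos P hP
  have h3 := hpos y hy
  nlinarith [mul_le_mul h2 h3 zero_le_one (by linarith)]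

theorem x1_core (M : Type) [Field M] [NumberField M] [Algebra KK M] (P : Eis) (hP : P ≠ 0) (h6 : (6 : Eis) ∣ P)
    (W1 W2 : Ideal (𝓞 KK) → Ideal (𝓞 M))
    (hW : ∀ q : Ideal (𝓞 KK), Prime q → eE P ∉ q → (Prime (W1 q) ∧ Prime (W2 q) ∧ (W1 q).comap (algebraMap (𝓞 KK) (𝓞 M)) = q ∧
      (W2 q).comap (algebraMap (𝓞 KK) (𝓞 M)) = q ∧ W1 q ≠ W2 q) ∧ Ideal.absNorm (W1 q) = Ideal.absNorm q ∧
      Ideal.absNorm (W2 q) = Ideal.absNorm q) : False := by
  have hdom : IsDomain Eis := eis_isDomain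
  have hpid : IsPrincipalIdealRing Eis := eis_pid
  have hpidK : IsPrincipalIdealRing (𝓞 KK) := IsPrincipalIdealRing.of_surjective eE.toRingHom eE.surjective
  -- generators
  have hgen : ∀ I : {I : Ideal (𝓞 KK) // I ≠ ⊥}, ∃ y : Eis, y ≠ 0 ∧ I.1 = Ideal.span {eE y} := by
    intro I
    obtain ⟨x, hx⟩ := (IsPrincipalIdealRing.principal I.1).principal
    obtain ⟨y, rfl⟩ := eE.surjective x
    refine ⟨y, ?_, hx⟩
    rintro rfl
    apply I.2
    rw [hx, map_zero]
    exact Ideal.span_singleton_eq_bot.2 rfl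
  choose y hy0 hy using hgen
  have hPu : ¬ IsUnit P := by
    intro hu
    have h1 := (isUnit_of_dvd_unit h6 hu)
    rcases (CU.unit_iff 6).1 h1 with h | h | h | h | h | h <;> revert h <;> decide
  have hz0 : ∀ I, 1 + P * y I ≠ 0 := by
    intro I h
    apply hPu
    exact IsUnit.of_mul_eq_one (-y I) (by linear_combination -h)
  set J : {I : Ideal (𝓞 KK) // I ≠ ⊥} → Ideal (𝓞 KK) := fun I => Ideal.span {eE (1 + P * y I)} with hJ
  have hJ0 : ∀ I, J I ≠ ⊥ := by
    intro I h
    have h1 := Ideal.span_singleton_eq_bot.1 h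
    exact hz0 I ((map_eq_zero_iff _ eE.injective).mp h1)
  have hJinj : Function.Injective J := by
    intro I I' h
    have h1 : Associated (eE (1 + P * y I)) (eE (1 + P * y I')) := Ideal.span_singleton_eq_span_singleton.1 h
    obtain ⟨u, hu⟩ := h1
    obtain ⟨ε, hε⟩ := eE.surjective (u : 𝓞 KK)
    have hεu : IsUnit ε := by
      have h2 : IsUnit (eE ε) := by rw [hε]; exact u.isUnit
      exact (MulEquiv.isUnit_map eE).1 h2
    have h3 : (1 + P * y I) * ε = 1 + P * y I' := by
      apply eE.injective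
      rw [map_mul, hε]
      exact hu
    have h4 : P ∣ ε - 1 := ⟨y I' - y I * ε, by linear_combination h3⟩
    have h5 : ε = 1 := x1_unit hεu (h6.trans h4)
    rw [h5, mul_one] at h3
    have h7 : y I = y I' := by
      have h8 : P * y I = P * y I' := by linear_combination h3
      exact mul_left_cancel₀ hP h8
    apply Subtype.ext
    rw [hy I, hy I', h7]
  have hJP : ∀ I, ∀ q ∈ UniqueFactorizationMonoid.normalizedFactors (J I), Prime q ∧ eE P ∉ q := by
    intro I q hq
    have hqp := UniqueFactorizationMonoid.prime_of_normalized_factor q hq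
    refine ⟨hqp, fun hPq => ?_⟩
    have h1 : J I ≤ q := Ideal.le_of_dvd (UniqueFactorizationMonoid.dvd_of_mem_normalizedFactors hq)
    have h2 : eE (1 + P * y I) ∈ q := h1 (Ideal.mem_span_singleton_self _)
    have h3 : (1 : 𝓞 KK) ∈ q := by
      have e : (1 : 𝓞 KK) = eE (1 + P * y I) - eE P * eE (y I) := by
        rw [map_add, map_mul, map_one]; ring
      rw [e]
      exact Ideal.sub_mem _ h2 (Ideal.mul_mem_right _ _ hPq)
    exact hqp.not_isUnit (by rw [Ideal.isUnit_iff]; exact (Ideal.eq_top_iff_one _).2 h3)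
  set T : {I : Ideal (𝓞 KK) // I ≠ ⊥} × {I : Ideal (𝓞 KK) // I ≠ ⊥} → Ideal (𝓞 M) := fun p =>
    ((UniqueFactorizationMonoid.normalizedFactors (J p.1)).map W1).prod *
      ((UniqueFactorizationMonoid.normalizedFactors (J p.2)).map W2).prod with hT
  have hTnorm : ∀ p, Ideal.absNorm (T p) = Ideal.absNorm (J p.1) * Ideal.absNorm (J p.2) := by
    intro p
    have h1 : ∀ (I) (W : Ideal (𝓞 KK) → Ideal (𝓞 M)), (∀ q, Prime q → eE P ∉ q → Ideal.absNorm (W q) = Ideal.absNorm q) →
        Ideal.absNorm ((UniqueFactorizationMonoid.normalizedFactors (J I)).map W).prod = Ideal.absNorm (J I) := by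
      intro I W hWW
      rw [map_multiset_prod, Multiset.map_map]
      have h2 : (UniqueFactorizationMonoid.normalizedFactors (J I)).map (Ideal.absNorm ∘ W) =
          (UniqueFactorizationMonoid.normalizedFactors (J I)).map Ideal.absNorm :=
        Multiset.map_congr rfl (fun q hq => hWW q (hJP I q hq).1 (hJP I q hq).2)
      rw [h2]
      have h3 := Ideal.prod_normalizedFactors_eq_self (hJ0 I)
      conv_rhs => rw [← h3]
      rw [map_multiset_prod]
    rw [hT]
    show Ideal.absNorm (_ * _) = _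
    rw [map_mul, h1 p.1 W1 (fun q hq hq' => (hW q hq hq').2.1), h1 p.2 W2 (fun q hq hq' => (hW q hq hq').2.2)]
  have hTinj : Function.Injective T := by
    intro p p' h
    have h1 := x1_inj (algebraMap (𝓞 KK) (𝓞 M)) W1 W2 _ _ _ _ (by
      rintro q (hq | hq | hq | hq)
      all_goals exact (hW q (hJP _ q hq).1 (hJP _ q hq).2).1) h
    have h2 : ∀ I I', UniqueFactorizationMonoid.normalizedFactors (J I) = UniqueFactorizationMonoid.normalizedFactors (J I') → I = I' := by
      intro I I' h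
      apply hJinj
      rw [← Ideal.prod_normalizedFactors_eq_self (hJ0 I), ← Ideal.prod_normalizedFactors_eq_self (hJ0 I'), h]
    exact Prod.ext (h2 _ _ h1.1) (h2 _ _ h1.2)
  have hnormJ : ∀ I, (Ideal.absNorm (J I) : ℝ) ≤ (4 * (P.norm : ℝ)) * Ideal.absNorm I.1 := by
    intro I
    have h1 := x1_norm_le P (y I) hP (hy0 I)
    have h2 : Ideal.absNorm I.1 = (y I).norm.natAbs := by
      conv_lhs => rw [hy I]
      exact CU.absNorm_span _
    have h3 : Ideal.absNorm (J I) = (1 + P * y I).norm.natAbs := CU.absNorm_span _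
    have h4 : ∀ a : Eis, ((a.norm.natAbs : ℕ) : ℝ) = (a.norm : ℝ) := by
      intro a
      rw [Nat.cast_natAbs, abs_of_nonneg (norm_nonneg' a)]
    rw [h2, h3, h4, h4]
    exact_mod_cast h1
  refine x1_contra KK M (4 * (P.norm : ℝ)) ?_ T hTinj ?_ ?_
  · have h1 : 0 < P.norm := by
      have h2 := norm_nonneg' P
      rcases h2.lt_or_eq with h3 | h3
      · exact h3
      · exfalso
        apply hP
        have h4 := norm_emb_sq P
        rw [← h3, Int.cast_zero] at h4
        have h5 : ‖emb P‖ = 0 := by nlinarith [norm_nonneg (emb P)]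
        exact (map_eq_zero_iff emb emb_injective).1 (norm_eq_zero.1 h5)
    have : (0 : ℝ) < P.norm := by exact_mod_cast h1
    linarith
  · intro p
    rw [hTnorm]
    have h1 : ∀ I, 0 < Ideal.absNorm (J I) := by
      intro I
      exact Nat.pos_of_ne_zero (fun h => hJ0 I (Ideal.absNorm_eq_zero_iff.1 h))
    exact Nat.mul_pos (h1 _) (h1 _)
  · intro p
    rw [hTnorm]
    push_cast
    exact mul_le_mul (hnormJ p.1) (hnormJ p.2) (Nat.cast_nonneg _) (le_trans (Nat.cast_nonneg _) (hnormJ p.1))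

theorem x1_noroot {m : ℕ} (hm : m = 2 ∨ m = 3) {D : Eis} (h : ∀ x : Eis, x ^ m ≠ D) (b : KK) : b ^ m ≠ jK D := by
  have hm0 : 0 < m := by rcases hm with rfl | rfl <;> norm_num
  intro hb
  have hint : IsIntegral ℤ b := by
    apply IsIntegral.of_pow hm0
    rw [hb, jK_apply]
    exact RingOfIntegers.isIntegral_coe _
  obtain ⟨a, ha⟩ : ∃ a : 𝓞 KK, (a : KK) = b := ⟨⟨b, hint⟩, rfl⟩
  obtain ⟨x, rfl⟩ := eE.surjective a
  apply h x
  apply eE.injective
  rw [map_pow]
  apply RingOfIntegers.ext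
  change ((eE x : 𝓞 KK) : KK) ^ m = _
  rw [ha, hb, jK_apply]

theorem x1_field {m : ℕ} (hm : m = 2 ∨ m = 3) {D : Eis} (hD : D ≠ 0) (h : ∀ x : Eis, x ^ m ≠ D) :
    ∃ (M : Type) (_ : Field M) (_ : NumberField M) (_ : Algebra KK M) (δ : Fin 1 → M), Kum m 1 (fun _ => D) δ := by
  have hmp : m.Prime := by rcases hm with rfl | rfl <;> norm_num
  have hirr : Irreducible (Polynomial.X ^ m - Polynomial.C (jK D) : Polynomial KK) :=
    X_pow_sub_C_irreducible_of_prime hmp (x1_noroot hm h)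
  have hfact : Fact (Irreducible (Polynomial.X ^ m - Polynomial.C (jK D) : Polynomial KK)) := ⟨hirr⟩
  have hchar : CharZero (AdjoinRoot (Polynomial.X ^ m - Polynomial.C (jK D) : Polynomial KK)) :=
    charZero_of_injective_algebraMap (algebraMap KK _).injective
  have hfin : FiniteDimensional KK (AdjoinRoot (Polynomial.X ^ m - Polynomial.C (jK D) : Polynomial KK)) :=
    (AdjoinRoot.powerBasis hirr.ne_zero).finite
  have htow : IsScalarTower ℚ KK (AdjoinRoot (Polynomial.X ^ m - Polynomial.C (jK D) : Polynomial KK)) :=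
    IsScalarTower.of_algebraMap_eq' (Subsingleton.elim _ _)
  have hfinQ : FiniteDimensional ℚ (AdjoinRoot (Polynomial.X ^ m - Polynomial.C (jK D) : Polynomial KK)) :=
    FiniteDimensional.trans ℚ KK _
  have hnf : NumberField (AdjoinRoot (Polynomial.X ^ m - Polynomial.C (jK D) : Polynomial KK)) := ⟨⟩
  refine ⟨AdjoinRoot (Polynomial.X ^ m - Polynomial.C (jK D) : Polynomial KK), inferInstance, hnf, inferInstance,
    fun _ => AdjoinRoot.root _, ?_, fun _ => hD, ?_, ?_⟩
  · intro i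
    have h1 := AdjoinRoot.eval₂_root (Polynomial.X ^ m - Polynomial.C (jK D) : Polynomial KK)
    rw [Polynomial.eval₂_sub, Polynomial.eval₂_pow, Polynomial.eval₂_X, Polynomial.eval₂_C, sub_eq_zero] at h1
    rw [jF_apply, h1]
    rfl
  · rw [Set.range_const, eq_top_iff]
    intro x _
    have h1 := AdjoinRoot.adjoinRoot_eq_top (f := (Polynomial.X ^ m - Polynomial.C (jK D) : Polynomial KK))
    have h2 : x ∈ Algebra.adjoin KK ({AdjoinRoot.root (Polynomial.X ^ m - Polynomial.C (jK D) : Polynomial KK)} : Set _) := by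
      rw [h1]
      exact Algebra.mem_top
    exact IntermediateField.algebra_adjoin_le_adjoin _ _ h2
  · rw [(AdjoinRoot.powerBasis hirr.ne_zero).finrank, AdjoinRoot.powerBasis_dim, Polynomial.natDegree_X_pow_sub_C, pow_one]

theorem x1_two {m : ℕ} [NeZero m] (hm : m = 2 ∨ m = 3) {M : Type} [Field M] [NumberField M] [Algebra KK M] {D : Eis} {δ : Fin 1 → M}
    (hK : Kum m 1 (fun _ => D) δ) (v : HeightOneSpectrum (𝓞 KK)) (h6 : (6 : 𝓞 KK) ∉ v.asIdeal) (hD : eE D ∉ v.asIdeal)
    (x : Eis) (hx : eE (x ^ m - D) ∈ v.asIdeal) :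
    ∃ w w' : HeightOneSpectrum (𝓞 M), w ≠ w' ∧ und KK w = v ∧ und KK w' = v ∧ TH.nv w = TH.nv v ∧ TH.nv w' = TH.nv v := by
  have hm1 : 1 < m := by rcases hm with rfl | rfl <;> norm_num
  obtain ⟨e, f, g, -, -, hg0, hefg, -, hcard, hw, hz, -⟩ := place_count hm hK v h6
  have hmod := nv_mod6 eK v h6
  obtain ⟨r, hr⟩ : m ∣ TH.nv v - 1 := by rcases hm with rfl | rfl <;> omega
  -- the class of `D`
  have hDx : Ideal.Quotient.mk v.asIdeal (eE D) = Ideal.Quotient.mk v.asIdeal (eE x) ^ m := by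
    rw [← map_pow, ← map_pow]
    symm
    rw [Ideal.Quotient.eq, ← map_sub]
    exact hx
  have hxv : eE x ∉ v.asIdeal := by
    intro h
    apply hD
    rw [← Ideal.Quotient.eq_zero_iff_mem] at h ⊢
    rw [hDx, h, zero_pow (by omega)]
  have hfer : Ideal.Quotient.mk v.asIdeal (eE x) ^ (TH.nv v - 1) = 1 := by
    rw [← map_pow, ← map_one (Ideal.Quotient.mk v.asIdeal), Ideal.Quotient.eq]
    exact TH.pow_nv_sub_one v hxv
  have hall : {χ : Fin 1 → ZMod m | Sy m eK v (jK (dx (fun _ => D) χ)) 1} = Set.univ := by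
    apply Set.eq_univ_of_forall
    intro χ
    refine ⟨one_pow _, eE (D ^ (χ 0).val), 1, one_ne_zero, ?_, ?_, ?_⟩
    · rw [map_pow]
      intro h
      exact hD (v.isPrime.mem_of_pow_mem _ h)
    · rw [one_pow, one_mul]
      show jK (∏ i : Fin 1, D ^ (χ i).val) = _
      rw [Fin.prod_univ_one, jK_apply]
    · rw [map_one, ← Ideal.Quotient.eq, map_pow, map_pow, map_pow, map_one, hr, Nat.mul_div_cancel_left _ (by omega : 0 < m), hDx, ← pow_mul, ← pow_mul]
      have e1 : m * ((χ 0).val * r) = (TH.nv v - 1) * (χ 0).val := by rw [hr]; ring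
      rw [e1, pow_mul, hfer, one_pow]
  have hgm : g = m := by
    have h1 := hz 1 (one_pow _)
    rw [hall, Set.ncard_univ] at h1
    rw [← h1]
    simp
  have hf1 : f = 1 := by
    rw [hgm, pow_one] at hefg
    have h1 : e * f = 1 := by
      have h2 : m * (e * f) = m * 1 := by rw [hefg, mul_one]
      exact Nat.eq_of_mul_eq_mul_left (by omega) h2
    exact Nat.eq_one_of_mul_eq_one_left h1
  have hlt : 1 < {w : HeightOneSpectrum (𝓞 M) | und KK w = v}.ncard := by rw [hcard, hgm]; exact hm1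
  have hfinset : {w : HeightOneSpectrum (𝓞 M) | und KK w = v}.Finite := Set.finite_of_ncard_pos (by omega)
  obtain ⟨w, w', h1, h2, h3⟩ := (Set.one_lt_ncard_iff hfinset).1 hlt
  refine ⟨w, w', h3, h1, h2, ?_, ?_⟩
  · rw [(hw w h1).1, hf1, pow_one]
  · rw [(hw w' h2).1, hf1, pow_one]

theorem inf_primes {m : ℕ} (hm : m = 2 ∨ m = 3) {D : Eis} (hD : D ≠ 0) (h : ∀ x : Eis, x ^ m ≠ D) (B : ℤ) :
    ∃ p : Eis, Prime p ∧ B < p.norm ∧ ∀ x : Eis, ¬ p ∣ x ^ m - D := by
  have hdom : IsDomain Eis := eis_isDomain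
  by_contra hcon
  push Not at hcon
  have hmz : NeZero m := ⟨by rcases hm with rfl | rfl <;> norm_num⟩
  obtain ⟨M, hMf, hMn, hMa, δ, hK⟩ := x1_field hm hD h
  set P : Eis := 6 * D * ((B.toNat.factorial : ℕ) : Eis) with hP
  have hfac : ((B.toNat.factorial : ℕ) : Eis) ≠ 0 := by
    intro h0
    have h1 := congrArg emb h0
    rw [map_natCast, map_zero] at h1
    exact Nat.factorial_ne_zero _ (by exact_mod_cast h1)
  have h60 : (6 : Eis) ≠ 0 := by decide
  have hP0 : P ≠ 0 := mul_ne_zero (mul_ne_zero h60 hD) hfac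
  have hex : ∀ q : Ideal (𝓞 KK), ∃ w w' : Ideal (𝓞 M), Prime q → eE P ∉ q → (Prime w ∧ Prime w' ∧
      w.comap (algebraMap (𝓞 KK) (𝓞 M)) = q ∧ w'.comap (algebraMap (𝓞 KK) (𝓞 M)) = q ∧ w ≠ w') ∧
      Ideal.absNorm w = Ideal.absNorm q ∧ Ideal.absNorm w' = Ideal.absNorm q := by
    intro q
    by_cases hq : Prime q ∧ eE P ∉ q
    · obtain ⟨hqp, hqP⟩ := hq
      set v : HeightOneSpectrum (𝓞 KK) := ⟨q, Ideal.isPrime_of_prime hqp, hqp.ne_zero⟩ with hv
      have h6 : (6 : 𝓞 KK) ∉ v.asIdeal := by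
        intro h6
        apply hqP
        rw [hP, map_mul, map_mul, map_ofNat]
        exact Ideal.mul_mem_right _ _ (Ideal.mul_mem_right _ _ h6)
      have hDv : eE D ∉ v.asIdeal := by
        intro h6
        apply hqP
        rw [hP, map_mul, map_mul]
        exact Ideal.mul_mem_right _ _ (Ideal.mul_mem_left _ _ h6)
      obtain ⟨p, hp, hvp⟩ := CU.gen v
      have hnorm : Ideal.absNorm q = p.norm.natAbs := by
        have h1 : q = Ideal.span {eE p} := hvp
        rw [h1]
        exact CU.absNorm_span p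
      have hB : B < p.norm := by
        by_contra hle
        push Not at hle
        apply hqP
        have h1 : ((Ideal.absNorm q : ℕ) : 𝓞 KK) ∈ q := Ideal.absNorm_mem q
        have h2 : Ideal.absNorm q ∣ B.toNat.factorial := by
          apply Nat.dvd_factorial
          · rw [Nat.pos_iff_ne_zero, Ne, Ideal.absNorm_eq_zero_iff]
            exact hqp.ne_zero
          · rw [hnorm]
            have h3 := norm_nonneg' p
            omega
        obtain ⟨c, hc⟩ := h2
        rw [hP, map_mul, map_natCast, hc, Nat.cast_mul]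
        exact Ideal.mul_mem_left _ _ (Ideal.mul_mem_right _ _ h1)
      obtain ⟨x, hx⟩ := hcon p hp hB
      have hx' : eE (x ^ m - D) ∈ v.asIdeal := (CU.mem_iff hvp _).2 hx
      obtain ⟨w, w', h1, h2, h3, h4, h5⟩ := x1_two hm hK v h6 hDv x hx'
      refine ⟨w.asIdeal, w'.asIdeal, fun _ _ => ⟨⟨?_, ?_, ?_, ?_, ?_⟩, ?_, ?_⟩⟩
      · exact Ideal.prime_of_isPrime w.ne_bot w.isPrime
      · exact Ideal.prime_of_isPrime w'.ne_bot w'.isPrime
      · exact congrArg HeightOneSpectrum.asIdeal h2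
      · exact congrArg HeightOneSpectrum.asIdeal h3
      · exact fun h => h1 (HeightOneSpectrum.ext h)
      · rw [Ideal.absNorm_apply, Ideal.absNorm_apply, Submodule.cardQuot_apply, Submodule.cardQuot_apply]
        exact h4
      · rw [Ideal.absNorm_apply, Ideal.absNorm_apply, Submodule.cardQuot_apply, Submodule.cardQuot_apply]
        exact h5
    · exact ⟨⊥, ⊥, fun h1 h2 => absurd ⟨h1, h2⟩ hq⟩
  choose W1 W2 hW using hex
  exact x1_core M P hP0 ⟨D * ((B.toNat.factorial : ℕ) : Eis), by rw [hP]; ring⟩ W1 W2 (fun q hq hq' => hW q hq hq')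

end CX
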