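import Pool.Agent.CX.Defs
import Pool.Agent.JD.E1
import Pool.Agent.P7B.C3

/-!
# [CX-X2] local powers over 6; pairs of primes

PROOF. `loc_pow`: `a ≡ b^l mod 6^3`, `b` prime to 6: `a / b^l = 1 + 216 t` in `O_v`, and it is an `l`-th power by Hensel (`l = 2`: `X² - u` at `X = 1`: `|f(1)| = |216 t| < |2|² = |f'(1)|²`; `l = 3`: `|216 t| < |3|²`; Mathlib: `hensels_lemma`-type for `IsAdicComplete`/`HenselianLocalRing` of `adicCompletionIntegers`, or a library lemma on squares and cubes near 1 (JG, JT, CU: `cube_near`, `sq_near`)).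
`pairs`: from `hinf` the set of the primes with the property `P` (not dividing 6, norm `> B`) is infinite; pigeonhole on the classes modulo `216` (finite quotient of `Eis`): some class contains infinitely many elements; choose `2 n` of them, pairwise not associated (each has only 6 associates).
-/

set_option autoImplicit false

open NumberField IsDedekindDomain
open scoped Classical ComplexConjugate

namespace CX

open CM27 CMT NAB CF JD
open CU (la om eE)

theorem X2_val_le (v : HeightOneSpectrum (𝓞 KK)) (a : Eis) :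
    Valued.v (algebraMap KK (v.adicCompletion KK) (jK a)) ≤ (1 : WithZero (Multiplicative ℤ)) := by
  have h5 := HeightOneSpectrum.valuedAdicCompletion_eq_valuation' (K := KK) v (jK a)
  exact (le_of_eq h5).trans (v.valuation_le_one _)

theorem X2_val_lt (v : HeightOneSpectrum (𝓞 KK)) (a : Eis) (h : eE a ∈ v.asIdeal) :
    Valued.v (algebraMap KK (v.adicCompletion KK) (jK a)) < (1 : WithZero (Multiplicative ℤ)) := by
  have h5 := HeightOneSpectrum.valuedAdicCompletion_eq_valuation' (K := KK) v (jK a)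
  exact (le_of_eq h5).trans_lt ((v.valuation_lt_one_iff_mem _).2 h)

theorem X2_val_one (v : HeightOneSpectrum (𝓞 KK)) (a : Eis) (h : eE a ∉ v.asIdeal) :
    Valued.v (algebraMap KK (v.adicCompletion KK) (jK a)) = (1 : WithZero (Multiplicative ℤ)) := by
  refine le_antisymm (X2_val_le v a) (not_lt.1 fun hlt => h ?_)
  have h5 := HeightOneSpectrum.valuedAdicCompletion_eq_valuation' (K := KK) v (jK a)
  exact (v.valuation_lt_one_iff_mem _).1 ((le_of_eq h5.symm).trans_lt hlt)

theorem loc_pow {l : ℕ} (hl : l = 2 ∨ l = 3) (a b : Eis) (h : (216 : Eis) ∣ a - b ^ l) (v : HeightOneSpectrum (𝓞 KK)) (h6 : (6 : 𝓞 KK) ∈ v.asIdeal)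
    (hb : eE b ∉ v.asIdeal) : ∃ c : v.adicCompletion KK, c ^ l = algebraMap KK (v.adicCompletion KK) (jK a) := by
  obtain ⟨t, ht⟩ := h
  set φ : Eis →+* v.adicCompletion KK := (algebraMap KK (v.adicCompletion KK)).comp jK with hφ
  have hφa : ∀ x : Eis, φ x = algebraMap KK (v.adicCompletion KK) (jK x) := fun x => rfl
  have hA : φ a = φ b ^ l + 216 * φ t := by
    have e : a = b ^ l + 216 * t := by rw [← ht]; ring
    rw [e, map_add, map_mul, map_pow, map_ofNat]
  have hB1 : Valued.v (φ b) = (1 : WithZero (Multiplicative ℤ)) := X2_val_one v b hb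
  have hB0 : φ b ≠ 0 := by
    intro h0
    rw [h0, map_zero] at hB1
    exact zero_ne_one hB1
  have h66 : Valued.v (6 : v.adicCompletion KK) < (1 : WithZero (Multiplicative ℤ)) := by
    have h1 := X2_val_lt v 6 (by rw [map_ofNat]; exact h6)
    rwa [map_ofNat, map_ofNat] at h1
  set z : v.adicCompletion KK := φ t / φ b ^ l with hz
  have hz1 : Valued.v z ≤ (1 : WithZero (Multiplicative ℤ)) := by
    rw [hz, map_div₀, map_pow, hB1, one_pow, div_one]
    exact X2_val_le v t
  have hA2 : φ a = φ b ^ l * (1 + 216 * z) := by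
    rw [hA, hz]
    field_simp
  suffices hs : ∃ x : v.adicCompletion KK, x ^ l = 1 + 216 * z by
    obtain ⟨x, hx⟩ := hs
    exact ⟨φ b * x, by rw [mul_pow, hx, ← hφa, hA2]⟩
  rcases hl with rfl | rfl
  · obtain ⟨s, hs⟩ := P7B.c3_hensel v (54 * z) (by
      have e : 54 * z = 6 * (φ 9 * z) := by rw [map_ofNat]; ring
      rw [e, map_mul, map_mul]
      calc _ ≤ Valued.v (6 : v.adicCompletion KK) * (1 * 1) := by
            exact mul_le_mul' le_rfl (mul_le_mul' (X2_val_le v 9) hz1)
        _ < 1 := by rw [mul_one, mul_one]; exact h66)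
    exact ⟨1 + 2 * s, by linear_combination 4 * hs⟩
  · set θ : v.adicCompletion KK := φ (1 + 2 * om) with hθ
    have hθ2 : θ ^ 2 = -3 := by
      have e : (1 + 2 * om : Eis) ^ 2 = -3 := by
        decide
      rw [hθ, ← map_pow, e, map_neg, map_ofNat]
    have hθ1 : Valued.v θ ≤ (1 : WithZero (Multiplicative ℤ)) := X2_val_le v _
    obtain ⟨m, hm, -⟩ := JD.hensel3 v (p := -θ) (q := -1) (t := -(24 * θ * z)) (x₀ := 0)
      (by rw [Valuation.map_neg]; exact hθ1) (by rw [Valuation.map_neg, map_one])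
      (by
        have e : -(24 * θ * z) = -(φ 24 * (θ * z)) := by rw [map_ofNat]; ring
        rw [e, Valuation.map_neg, map_mul, map_mul]
        exact (mul_le_mul' (X2_val_le v 24) (mul_le_mul' hθ1 hz1)).trans (by simp))
      (by rw [map_zero]; exact zero_le)
      (by
        have e : (0 : v.adicCompletion KK) ^ 3 + -θ * 0 ^ 2 + -1 * 0 + -(24 * θ * z) = -(6 * (φ 4 * (θ * z))) := by
          rw [map_ofNat]; ring
        rw [e, Valuation.map_neg, map_mul, map_mul, map_mul]
        calc _ ≤ Valued.v (6 : v.adicCompletion KK) * (1 * (1 * 1)) := by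
              exact mul_le_mul' le_rfl (mul_le_mul' (X2_val_le v 4) (mul_le_mul' hθ1 hz1))
          _ < 1 := by simpa using h66)
      (by
        have e : 3 * (0 : v.adicCompletion KK) ^ 2 + 2 * -θ * 0 + -1 = -1 := by ring
        rw [e, Valuation.map_neg, map_one])
    refine ⟨1 + θ * m, ?_⟩
    have h3 : θ ^ 3 = -3 * θ := by
      have : θ ^ 3 = θ ^ 2 * θ := by ring
      rw [this, hθ2]
    have e : (1 + θ * m) ^ 3 = 1 + 3 * θ * m + 3 * θ ^ 2 * m ^ 2 + θ ^ 3 * m ^ 3 := by ring
    rw [e, h3, hθ2]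
    linear_combination (-3 * θ) * hm - (3 * m ^ 2 + 72 * z) * hθ2

theorem X2_norm_nonneg (x : Eis) : 0 ≤ x.norm := by
  have : x.norm = x.re ^ 2 - x.re * x.im + x.im ^ 2 := by
    rw [QuadraticAlgebra.norm_def]
    ring
  rw [this]
  nlinarith [sq_nonneg (2 * x.re - x.im), sq_nonneg x.im]

theorem X2_norm_assoc {x y : Eis} (h : Associated x y) : x.norm = y.norm := by
  obtain ⟨u, rfl⟩ := h
  have h1 : IsUnit (QuadraticAlgebra.norm (u : Eis)) := u.isUnit.map QuadraticAlgebra.norm
  rw [Int.isUnit_iff] at h1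
  have h2 := X2_norm_nonneg (u : Eis)
  rcases h1 with h1 | h1
  · rw [map_mul, h1, mul_one]
  · omega

theorem pairs (P : Eis → Prop) (hinf : ∀ B : ℤ, ∃ p : Eis, Prime p ∧ B < p.norm ∧ P p) (n : ℕ) (B : ℤ) :
    ∃ p q : Fin n → Eis, (∀ i, Prime (p i) ∧ Prime (q i) ∧ P (p i) ∧ P (q i) ∧ B < (p i).norm ∧ B < (q i).norm ∧ (216 : Eis) ∣ p i - q i) ∧
      (∀ i j, ¬ Associated (p i) (q j)) ∧ (∀ i j, i ≠ j → ¬ Associated (p i) (p j) ∧ ¬ Associated (q i) (q j)) := by
  choose f hf1 hf2 hf3 using hinf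
  let s : ℕ → Eis := fun k => Nat.rec (f B) (fun _ x => f (max B x.norm)) k
  have hs0 : ∀ k, Prime (s k) ∧ B < (s k).norm ∧ P (s k) := by
    intro k
    cases k with
    | zero => exact ⟨hf1 B, hf2 B, hf3 B⟩
    | succ k => exact ⟨hf1 _, (le_max_left _ _).trans_lt (hf2 _), hf3 _⟩
  have hs1 : StrictMono fun k => (s k).norm := by
    refine strictMono_nat_of_lt_succ fun k => ?_
    exact (le_max_right B _).trans_lt (hf2 (max B (s k).norm))
  let g : ℕ → ZMod 216 × ZMod 216 := fun k => (((s k).re : ZMod 216), ((s k).im : ZMod 216))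
  obtain ⟨c, hc⟩ := Finite.exists_infinite_fiber g
  have hcinf : (g ⁻¹' {c}).Infinite := Set.infinite_coe_iff.1 hc
  let e : ℕ ↪ ↥(g ⁻¹' {c}) := hcinf.natEmbedding
  have hinj : ∀ i j : ℕ, Associated (s (e i)) (s (e j)) → i = j := by
    intro i j h
    have h1 := hs1.injective (X2_norm_assoc h)
    exact e.injective (Subtype.ext h1)
  have hdvd : ∀ i j : ℕ, (216 : Eis) ∣ s (e i) - s (e j) := by
    intro i j
    have h1 : g (e i) = g (e j) := (e i).2.trans (e j).2.symm
    have h2 : (((s (e i)).re : ℤ) : ZMod 216) = ((s (e j)).re : ZMod 216) := congrArg Prod.fst h1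
    have h3 : (((s (e i)).im : ℤ) : ZMod 216) = ((s (e j)).im : ZMod 216) := congrArg Prod.snd h1
    obtain ⟨x, hx⟩ := (ZMod.intCast_eq_intCast_iff_dvd_sub _ _ 216).1 h2.symm
    obtain ⟨y, hy⟩ := (ZMod.intCast_eq_intCast_iff_dvd_sub _ _ 216).1 h3.symm
    refine ⟨⟨x, y⟩, ?_⟩
    have e1 : (216 : Eis) = ⟨216, 0⟩ := rfl
    rw [e1]
    ext
    · simp only [QuadraticAlgebra.re_sub, QuadraticAlgebra.re_mul]
      push_cast at hx
      linarith
    · simp only [QuadraticAlgebra.im_sub, QuadraticAlgebra.im_mul]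
      push_cast at hy
      linarith
  refine ⟨fun i => s (e (2 * i)), fun i => s (e (2 * i + 1)), fun i => ⟨(hs0 _).1, (hs0 _).1, (hs0 _).2.2, (hs0 _).2.2, (hs0 _).2.1, (hs0 _).2.1,
    hdvd _ _⟩, fun i j h => ?_, fun i j hij => ⟨fun h => hij ?_, fun h => hij ?_⟩⟩
  · have := hinj _ _ h
    omega
  · have := hinj _ _ h
    exact Fin.ext (by omega)
  · have := hinj _ _ h
    exact Fin.ext (by omega)

end CX
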