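import Pool.Agent.CX.L7

/-!
# [CX-X3] construction of the field

PROOF. Induction on `n`. `n = 0`: `F = KK`. Step: `M` for the first `n` generators (`Fin.init`), `Kum l n`. `X^l - d_n` is irreducible over `M`: otherwise (`X_pow_sub_C_irreducible_iff_of_prime`) `y^l = d_n` with `y ∈ M`; let `v = (p_n)`, `6 ∉ v`, `od v (d_i) = 0` for `i < n` (hypothesis `hp`), so `e = 1` at `v` (`place_count` for `M`), and `l od w (y) = od w (d_n) = od v (d_n) = -1`, a contradiction.
`F = AdjoinRoot (X^l - d_n)` over `M` (a number field; `Algebra KK F` through `M`, `IsScalarTower`), `δ` the images and the root (`Fin.snoc`); `adjoin = ⊤`, degree `l^(n+1)` (`Module.finrank_mul_finrank`).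
-/

set_option autoImplicit false

open NumberField IsDedekindDomain
open scoped Classical ComplexConjugate

namespace CX

open CM27 CMT NAB CF JD
open CU (la om eE)

/-- the last generator is not an `l`-th power in the field of the others -/
theorem x3_not_pow {l : ℕ} [NeZero l] (hl : l = 2 ∨ l = 3) {n : ℕ} {d : Fin n → Eis} {M : Type} [Field M] [NumberField M] [Algebra KK M]
    {δ : Fin n → M} (hK : Kum l n d δ) (v : HeightOneSpectrum (𝓞 KK)) (h6 : (6 : 𝓞 KK) ∉ v.asIdeal)
    (h2 : ∀ j, TWR.od v (jK (d j)) = 0) {a : Eis} (ha : a ≠ 0) (h1 : TWR.od v (jK a) = -1) (y : M) : y ^ l ≠ jF M a := by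
  intro hy
  obtain ⟨e, f, g, he, -, hg, -, hel, hcard, hw, -⟩ := place_count hl hK v h6
  have he1 : e = 1 := by
    rcases he with h | h
    · exact h
    · exfalso
      obtain ⟨i, hi⟩ := hel.1 h
      apply hi
      rw [h2 i]
      exact dvd_zero _
  have hne : {w : HeightOneSpectrum (𝓞 M) | und KK w = v}.Nonempty := by
    apply Set.nonempty_of_ncard_ne_zero
    omega
  obtain ⟨w, hwv⟩ := hne
  obtain ⟨-, hod, -⟩ := hw w hwv
  have ha0 : jK a ≠ 0 := by
    intro h
    exact ha (jK_inj (by rw [h, map_zero]))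
  have h3 := hod (jK a) ha0
  rw [he1, h1] at h3
  have h4 : TWR.od w (y ^ l) = TWR.od w (algebraMap KK M (jK a)) := by rw [hy, jF_apply]
  rw [TWR.od_pow, h3] at h4
  have h5 : (l : ℤ) ∣ 1 := ⟨-TWR.od w y, by push_cast at h4 ⊢; linarith⟩
  have h6 : l = 1 := by
    have := Int.le_of_dvd one_pos h5
    omega
  omega

/-- adjunction of one root -/
theorem x3_step {l : ℕ} (hl : l = 2 ∨ l = 3) {n : ℕ} {d : Fin (n + 1) → Eis} (h0 : ∀ i, d i ≠ 0) {M : Type} [Field M] [NumberField M] [Algebra KK M]
    {δ : Fin n → M} (hK : Kum l n (fun i => d i.castSucc) δ) (ha : ∀ y : M, y ^ l ≠ jF M (d (Fin.last n))) :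
    ∃ (F : Type) (_ : Field F) (_ : NumberField F) (_ : Algebra KK F) (δ : Fin (n + 1) → F), Kum l (n + 1) d δ := by
  have hlp : l.Prime := by
    rcases hl with rfl | rfl
    · exact Nat.prime_two
    · exact Nat.prime_three
  set a : M := jF M (d (Fin.last n)) with hadef
  have hirr : Irreducible (Polynomial.X ^ l - Polynomial.C a) := X_pow_sub_C_irreducible_of_prime hlp ha
  have hmon : (Polynomial.X ^ l - Polynomial.C a).Monic := Polynomial.monic_X_pow_sub_C a hlp.ne_zero
  have : Fact (Irreducible (Polynomial.X ^ l - Polynomial.C a)) := ⟨hirr⟩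
  let F := AdjoinRoot (Polynomial.X ^ l - Polynomial.C a)
  have hfin : Module.Finite M F := (AdjoinRoot.powerBasis hirr.ne_zero).finite
  have hNF : NumberField F := NumberField.of_module_finite M F
  have htow : IsScalarTower KK M F := inferInstance
  have hpos : 0 < Module.finrank KK M := by
    rw [hK.rank]
    exact pow_pos hlp.pos n
  have hfinM : Module.Finite KK M := Module.finite_of_finrank_pos hpos
  refine ⟨F, inferInstance, hNF, inferInstance, Fin.snoc (fun i => algebraMap M F (δ i)) (AdjoinRoot.root _), ?_, h0, ?_, ?_⟩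
  · intro i
    refine Fin.lastCases ?_ (fun i => ?_) i
    · rw [Fin.snoc_last, jF_apply, IsScalarTower.algebraMap_apply KK M F, ← jF_apply]
      have h1 := AdjoinRoot.eval₂_root (Polynomial.X ^ l - Polynomial.C a)
      rw [Polynomial.eval₂_sub, Polynomial.eval₂_X_pow, Polynomial.eval₂_C, sub_eq_zero] at h1
      exact h1
    · rw [Fin.snoc_castSucc, ← map_pow, hK.pow i, jF_apply, jF_apply, ← IsScalarTower.algebraMap_apply KK M F]
  · rw [eq_top_iff]
    set S : IntermediateField KK F := IntermediateField.adjoin KK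
      (Set.range (Fin.snoc (fun i => algebraMap M F (δ i)) (AdjoinRoot.root _) : Fin (n + 1) → F)) with hS
    have hroot : AdjoinRoot.root (Polynomial.X ^ l - Polynomial.C a) ∈ S := by
      apply IntermediateField.subset_adjoin
      exact ⟨Fin.last n, Fin.snoc_last _ _⟩
    have hM : ∀ x : M, algebraMap M F x ∈ S := by
      intro x
      have hx : x ∈ IntermediateField.adjoin KK (Set.range δ) := by
        rw [hK.top]
        exact IntermediateField.mem_top
      induction hx using IntermediateField.adjoin_induction with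
      | mem y hy =>
        obtain ⟨i, rfl⟩ := hy
        apply IntermediateField.subset_adjoin
        exact ⟨i.castSucc, Fin.snoc_castSucc _ _ _⟩
      | algebraMap y =>
        rw [← IsScalarTower.algebraMap_apply KK M F]
        exact S.algebraMap_mem y
      | add y z _ _ hy hz =>
        rw [map_add]
        exact S.add_mem hy hz
      | inv y _ hy =>
        rw [map_inv₀]
        exact S.inv_mem hy
      | mul y z _ _ hy hz =>
        rw [map_mul]
        exact S.mul_mem hy hz
    intro x hxt
    clear hxt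
    induction x using AdjoinRoot.induction_on with
    | ih p =>
      induction p using Polynomial.induction_on' with
      | add p q hp hq =>
        rw [map_add]
        exact S.add_mem hp hq
      | monomial k c =>
        rw [← Polynomial.C_mul_X_pow_eq_monomial, map_mul, map_pow, AdjoinRoot.mk_X, AdjoinRoot.mk_C]
        exact S.mul_mem (hM c) (pow_mem hroot k)
  · have h1 : Module.finrank M F = l := by
      rw [(AdjoinRoot.powerBasis hirr.ne_zero).finrank, AdjoinRoot.powerBasis_dim]
      exact Polynomial.natDegree_X_pow_sub_C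
    rw [← Module.finrank_mul_finrank KK M F, hK.rank, h1, pow_succ]

theorem exists_field {l : ℕ} (hl : l = 2 ∨ l = 3) (n : ℕ) (d : Fin n → Eis) (h0 : ∀ i, d i ≠ 0) (v : Fin n → HeightOneSpectrum (𝓞 KK))
    (h6 : ∀ i, (6 : 𝓞 KK) ∉ (v i).asIdeal) (h1 : ∀ i, TWR.od (v i) (jK (d i)) = -1) (h2 : ∀ i j, i ≠ j → TWR.od (v i) (jK (d j)) = 0) :
    ∃ (F : Type) (_ : Field F) (_ : NumberField F) (_ : Algebra KK F) (δ : Fin n → F), Kum l n d δ := by
  have : NeZero l := ⟨by omega⟩
  induction n with
  | zero =>
    refine ⟨KK, inferInstance, inferInstance, Algebra.id KK, Fin.elim0, ?_, ?_, ?_, ?_⟩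
    · intro i
      exact Fin.elim0 i
    · intro i
      exact Fin.elim0 i
    · rw [eq_top_iff]
      intro x _
      exact (IntermediateField.adjoin KK (Set.range (Fin.elim0 : Fin 0 → KK))).algebraMap_mem x
    · rw [pow_zero]
      exact Module.finrank_self KK
  | succ n ih =>
    obtain ⟨M, hM1, hM2, hM3, δ, hK⟩ := ih (fun i => d i.castSucc) (fun i => h0 _) (fun i => v i.castSucc) (fun i => h6 _)
      (fun i => h1 _) (fun i j hij => h2 _ _ (fun h => hij (Fin.castSucc_injective n h)))
    refine x3_step hl h0 hK ?_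
    exact x3_not_pow hl hK (v (Fin.last n)) (h6 _) (fun j => h2 _ _ (Fin.castSucc_lt_last j).ne') (h0 _) (h1 _)

end CX
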