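import Pool.Agent.CX.X4a
import Pool.Agent.CX.X1
import Pool.Agent.CX.X2
import Pool.Agent.CX.X3
import Pool.Agent.JG.SP

/-!
# [CX-X4] existence of nice fields

PROOF. `hP.1` and `noPt_iff` over `KK`: `D` is not an `m`-th power in `KK`, so not in `Eis`; `inf_primes` gives primes of large norm modulo which `D` is not an `m`-th power; `pairs` with `P p := ∀ x, ¬ p ∣ x^m - D` and the bound `max B 100` (so the primes do not divide 6): `d_i = p_i q_i^(l-1)`; `cop`; `loc`: `loc_pow` with `b = p_i` (`216 ∣ p q^(l-1) - p^l`); `npt`: `v ∋ eE (d_i)` is `(p_i)` or `(q_i)`; if `x^m = D` in `K_v`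
then `x ∈ O_v`, `x ≡ a mod v`, `a ∈ Eis` (`JG.spa_approx`/`JG.approxG`), `p ∣ a^m - D`, a contradiction. So `Dat`; `exists_field` with `v_i = (p_i)` (`od (d_i) = -1`, `od (d_j) = 0` for `j ≠ i`: pairwise not associated); `nice_of_dat`; `disc_ge` with `v_0 = (p_0)`, `nv v_0 = norm p_0 > B`.
-/

set_option autoImplicit false

open NumberField IsDedekindDomain
open scoped Classical ComplexConjugate

namespace CX

open CM27 CMT NAB CF JD
open CU (la om eE)

theorem X4_eq {p : Eis} (hp : Prime p) {v : HeightOneSpectrum (𝓞 KK)} (h : eE p ∈ v.asIdeal) : v.asIdeal = Ideal.span {eE p} :=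
  ((CU.pl p hp).isMaximal.eq_of_le v.isPrime.ne_top
    ((Ideal.span_singleton_le_iff_mem (I := v.asIdeal) (x := eE p)).2 h)).symm

theorem X4_six {p : Eis} (hn : 100 < p.norm) : ¬ p ∣ 6 := by
  intro h
  have h1 : p.norm ∣ (6 : Eis).norm := map_dvd QuadraticAlgebra.norm h
  have h2 : (6 : Eis).norm = 36 := by decide
  rw [h2] at h1
  have := Int.le_of_dvd (by norm_num) h1
  omega

theorem X4_six' {p : Eis} (hp : Prime p) (hn : 100 < p.norm) {v : HeightOneSpectrum (𝓞 KK)} (h6 : (6 : 𝓞 KK) ∈ v.asIdeal) :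
    eE p ∉ v.asIdeal := by
  intro h
  rw [← map_ofNat eE 6] at h6
  exact X4_six hn ((CU.mem_iff (X4_eq hp h) 6).1 h6)

theorem X4_npt {m : ℕ} (hm : m ≠ 0) {p D : Eis} (hp : Prime p) (hP : ∀ x : Eis, ¬ p ∣ x ^ m - D) {v : HeightOneSpectrum (𝓞 KK)}
    (hv : v.asIdeal = Ideal.span {eE p}) (x : v.adicCompletion KK) : x ^ m ≠ algebraMap KK (v.adicCompletion KK) (jK D) := by
  intro h
  have h1 : algebraMap (v.adicCompletionIntegers KK) (v.adicCompletion KK) (CU.t5b_lo v D) =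
    algebraMap KK (v.adicCompletion KK) (jK D) := rfl
  have hx : (Valued.v x : WithZero (Multiplicative ℤ)) ≤ 1 := by
    by_contra h2
    rw [not_le] at h2
    have h3 := one_lt_pow₀ h2 hm
    rw [← map_pow, h, ← h1] at h3
    exact absurd (CU.t5b_lo v D).2 (not_le.2 h3)
  obtain ⟨a, y, hy⟩ := JG.spa_approx hp hv ⟨x, hx⟩
  have h4 : (⟨x, hx⟩ : v.adicCompletionIntegers KK) ^ m = CU.t5b_lo v D := Subtype.ext h
  have h5 : CU.t5b_lo v p ∣ CU.t5b_lo v (a ^ m - D) := by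
    rw [map_sub, map_pow, ← h4, ← neg_sub, dvd_neg]
    have h6 : CU.t5b_lo v p ∣ (⟨x, hx⟩ : v.adicCompletionIntegers KK) - CU.t5b_lo v a := ⟨y, by
      rw [hy]
      ring⟩
    exact h6.trans (sub_dvd_pow_sub_pow _ _ m)
  by_cases hd : p ∣ a ^ m - D
  · exact hP a hd
  · exact CU.t5b_dvd hp hv _ hd h5

theorem X4_od_self {p : Eis} (hp : Prime p) : TWR.od (CU.pl p hp) (jK p) = -1 := by
  rw [TWR.od, jK_apply]
  rw [HeightOneSpectrum.valuation_of_algebraMap (K := KK) (CU.pl p hp) (eE p),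
    HeightOneSpectrum.intValuation_singleton _ ((map_ne_zero_iff eE eE.injective).2 hp.ne_zero) rfl]
  exact WithZero.log_exp _

theorem X4_od_zero {p a : Eis} (hp : Prime p) (h : ¬ p ∣ a) : TWR.od (CU.pl p hp) (jK a) = 0 := by
  rw [jK_apply, TWR.od, val_unit _ _ (fun h' => h ((CU.mem_iff rfl a).1 h')), WithZero.log_one]

theorem X4_od {p a b : Eis} (hp : Prime p) (ha : a ≠ 0) (hb : Prime b) (hpb : ¬ Associated p b) (k : ℕ) :
    TWR.od (CU.pl p hp) (jK (a * b ^ k)) = TWR.od (CU.pl p hp) (jK a) := by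
  have := CM27.eis_isDomain
  have h0 : ¬ p ∣ b := fun h => hpb ((hp.dvd_prime_iff_associated hb).1 h)
  rw [map_mul, map_pow, TWR.od_mul _ ((map_ne_zero_iff _ jK_inj).2 ha)
    (pow_ne_zero _ ((map_ne_zero_iff _ jK_inj).2 hb.ne_zero)), TWR.od_pow, X4_od_zero hp h0, mul_zero, add_zero]

theorem X4_mem {p q : Eis} (k : ℕ) {v : HeightOneSpectrum (𝓞 KK)} (h : eE (p * q ^ k) ∈ v.asIdeal) :
    eE p ∈ v.asIdeal ∨ eE q ∈ v.asIdeal := by
  rw [map_mul, map_pow] at h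
  rcases v.isPrime.mem_or_mem h with h | h
  · exact Or.inl h
  · exact Or.inr (v.isPrime.mem_of_pow_mem _ h)

theorem exists_nice {l m : ℕ} (hl : l = 2 ∨ l = 3) (hm : l * m = 6) {D : Eis} (hD : D ≠ 0) (hP : Np l (ED (jK D))) (n : ℕ) (hn : 0 < n) (B : ℕ) :
    ∃ (F : Type) (_ : Field F) (_ : NumberField F) (_ : Algebra KK F), Nice l (ED (jK D)) F ∧ Module.finrank KK F = l ^ n ∧
      B < (discr F).natAbs := by
  have := CM27.eis_isDomain
  have hm0 : m = 2 ∨ m = 3 := by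
    rcases hl with rfl | rfl
    · right
      omega
    · left
      omega
  have hm1 : m ≠ 0 := by
    rcases hm0 with rfl | rfl
    · exact two_ne_zero
    · exact three_ne_zero
  have hpow : ∀ x : Eis, x ^ m ≠ D := by
    have ho : ∃ o : KK, o ^ 2 + o + 1 = 0 := ⟨jK om, by
      rw [← map_pow, ← map_add, ← map_one jK, ← map_add, show om ^ 2 + om + 1 = 0 by decide, map_zero]⟩
    have h1 := (noPt_iff ((map_ne_zero_iff _ jK_inj).2 hD) ho hl hm).1 hP
    intro x hx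
    apply h1 (jK x)
    rw [← map_pow, hx]
  obtain ⟨p, q, h1, h2, h3⟩ := pairs (fun p => ∀ x : Eis, ¬ p ∣ x ^ m - D) (fun B => inf_primes hm0 hD hpow B) n
    (max (B : ℤ) 100)
  have hp : ∀ i, Prime (p i) := fun i => (h1 i).1
  have hq : ∀ i, Prime (q i) := fun i => (h1 i).2.1
  have hpP : ∀ i (x : Eis), ¬ p i ∣ x ^ m - D := fun i => (h1 i).2.2.1
  have hqP : ∀ i (x : Eis), ¬ q i ∣ x ^ m - D := fun i => (h1 i).2.2.2.1
  have hpB : ∀ i, max (B : ℤ) 100 < (p i).norm := fun i => (h1 i).2.2.2.2.1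
  have hqB : ∀ i, max (B : ℤ) 100 < (q i).norm := fun i => (h1 i).2.2.2.2.2.1
  have hpq : ∀ i, (216 : Eis) ∣ p i - q i := fun i => (h1 i).2.2.2.2.2.2
  have hp100 : ∀ i, 100 < (p i).norm := fun i => lt_of_le_of_lt (le_max_right _ _) (hpB i)
  have hq100 : ∀ i, 100 < (q i).norm := fun i => lt_of_le_of_lt (le_max_right _ _) (hqB i)
  have h216 : ∀ i, (216 : Eis) ∣ p i * q i ^ (l - 1) - p i ^ l := by
    intro i
    have e : p i * q i ^ (l - 1) - p i ^ l = -(p i * (p i ^ (l - 1) - q i ^ (l - 1))) := by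
      rcases hl with rfl | rfl
      · ring
      · ring
    rw [e, dvd_neg]
    exact ((hpq i).trans (sub_dvd_pow_sub_pow _ _ _)).mul_left _
  have hDat : Dat l m D (fun i => p i * q i ^ (l - 1)) := by
    refine ⟨⟨⟨hm, hl⟩, hD, ?_, ?_⟩, hP, ?_⟩
    · intro v h6 i h
      rcases X4_mem _ h with h | h
      · exact X4_six' (hp i) (hp100 i) h6 h
      · exact X4_six' (hq i) (hq100 i) h6 h
    · intro v h6 i
      exact loc_pow hl _ (p i) (h216 i) v h6 (X4_six' (hp i) (hp100 i) h6)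
    · intro v i h
      rcases X4_mem _ h with h | h
      · exact X4_npt hm1 (hp i) (hpP i) (X4_eq (hp i) h)
      · exact X4_npt hm1 (hq i) (hqP i) (X4_eq (hq i) h)
  have hv6 : ∀ i, (6 : 𝓞 KK) ∉ (CU.pl (p i) (hp i)).asIdeal := by
    intro i h
    rw [← map_ofNat eE 6] at h
    exact X4_six (hp100 i) ((CU.mem_iff rfl 6).1 h)
  have hod1 : ∀ i, TWR.od (CU.pl (p i) (hp i)) (jK (p i * q i ^ (l - 1))) = -1 := by
    intro i
    rw [X4_od (hp i) (hp i).ne_zero (hq i) (h2 i i), X4_od_self]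
  have hod2 : ∀ i j, i ≠ j → TWR.od (CU.pl (p i) (hp i)) (jK (p j * q j ^ (l - 1))) = 0 := by
    intro i j hij
    rw [X4_od (hp i) (hp j).ne_zero (hq j) (h2 i j)]
    exact X4_od_zero (hp i) fun h => (h3 i j hij).1 (((hp i).dvd_prime_iff_associated (hp j)).1 h)
  obtain ⟨F, i1, i2, i3, δ, hK⟩ := exists_field hl n (fun i => p i * q i ^ (l - 1))
    (fun i => mul_ne_zero (hp i).ne_zero (pow_ne_zero _ (hq i).ne_zero)) (fun i => CU.pl (p i) (hp i)) hv6 hod1 hod2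
  have hl0 : NeZero l := ⟨by
    rcases hl with rfl | rfl
    · exact two_ne_zero
    · exact three_ne_zero⟩
  refine ⟨F, i1, i2, i3, nice_of_dat hDat hK, hK.rank, ?_⟩
  have h4 := disc_ge hl hK (CU.pl (p ⟨0, hn⟩) (hp ⟨0, hn⟩)) (hv6 _) ⟨0, hn⟩ (by
    rw [hod1]
    rcases hl with rfl | rfl
    · decide
    · decide)
  have h5 : TH.nv (CU.pl (p ⟨0, hn⟩) (hp ⟨0, hn⟩)) = (p ⟨0, hn⟩).norm.natAbs := CU.card_quot rfl
  have h6 := lt_of_le_of_lt (le_max_left _ _) (hpB ⟨0, hn⟩)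
  omega

end CX
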