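import Pool.Agent.CX.T6
import Pool.Agent.CX.L7
import Pool.Agent.CX.M2

/-!
# [CX-X4a] the field of the data is nice; lower bound for the discriminant

PROOF. `nice_of_dat`: `kum_galois`; commutative and exponent `l`: `kum_ext`, `kum_act` (`σ δ_i = z_i δ_i`, `δ_i = dl δ (single i 1)`, `z_i ∈ Eis` fixed by the group, `z_i^l = 1`). `split`: `count_six`, `hK.rank`. `ramified`: `v.map ≤ P²`, `und KK P = v` (maximality of `v`); `6 ∉ v` (`six_unram`); `place_count`: `e = l`, some `l ∤ od v (d_i)`, so `od v (d_i) ≠ 0`, `eE (d_i) ∈ v`; `hD.npt`,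
`noPt_iff` over `K_v` (`JD.ED_map`). `disc_ge`: `place_count`: `e = l`, so `v.map ≤ w²` for a `w` over `v`; `w` is ramified, so it divides the different ideal of `𝓞 F / 𝓞 KK` (Mathlib `dvd_differentIdeal_iff`, `not_dvd_differentIdeal_iff`, the link between `IsUnramifiedAt` and `map ≤ w²` as in row D2), `absNorm w = nv w ≥ nv v` divides `absNorm (different)`, which divides `discr F`
(`NumberField.natAbs_discr_eq_absNorm_differentIdeal_mul_natAbs_discr_pow`), and `discr F ≠ 0`.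
-/

set_option autoImplicit false

open NumberField IsDedekindDomain
open scoped Classical ComplexConjugate

namespace CX

open CM27 CMT NAB CF JD
open CU (la om eE)

section
variable {F : Type} [Field F] [NumberField F] [Algebra KK F] {l m n : ℕ} [NeZero l] {d : Fin n → Eis} {δ : Fin n → F} {D : Eis}

omit [NumberField F] [Algebra KK F] in
theorem X4a_one (hl : l = 2 ∨ l = 3) (δ : Fin n → F) (i : Fin n) : dl δ (Pi.single i (1 : ZMod l)) = δ i := by
  unfold dl
  rw [Finset.prod_eq_single i]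
  · have h1 : (1 : ZMod l).val = 1 := by
      rcases hl with rfl | rfl
      · exact ZMod.val_one 2
      · exact ZMod.val_one 3
    rw [Pi.single_eq_same, h1, pow_one]
  · intro j _ hj
    rw [Pi.single_eq_of_ne hj, ZMod.val_zero, pow_zero]
  · intro h
    exact absurd (Finset.mem_univ i) h

theorem X4a_act (hl : l = 2 ∨ l = 3) (hK : Kum l n d δ) (σ : F ≃ₐ[KK] F) (i : Fin n) :
    ∃ z : Eis, z ^ l = 1 ∧ σ (δ i) = jF F z * δ i := by
  obtain ⟨z, hz, h⟩ := kum_act hl hK σ (Pi.single i (1 : ZMod l))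
  rw [X4a_one hl] at h
  exact ⟨z, hz, h⟩

omit [NumberField F] in
theorem X4a_fix (σ : F ≃ₐ[KK] F) (z : Eis) : σ (jF F z) = jF F z := by
  rw [jF_apply]
  exact σ.commutes _

omit [NumberField F] in
theorem X4a_pow (σ : F ≃ₐ[KK] F) (x : F) (z : Eis) (h : σ x = jF F z * x) (k : ℕ) : (σ ^ k) x = jF F z ^ k * x := by
  induction k with
  | zero => rw [pow_zero, pow_zero, one_mul, AlgEquiv.one_apply]
  | succ k ih =>
    rw [pow_succ', AlgEquiv.mul_apply, ih, map_mul, map_pow, X4a_fix, h]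
    ring

theorem X4a_und (v : HeightOneSpectrum (𝓞 KK)) (P : HeightOneSpectrum (𝓞 F))
    (h : v.asIdeal.map (algebraMap (𝓞 KK) (𝓞 F)) ≤ P.asIdeal) : und KK P = v := by
  apply HeightOneSpectrum.ext
  refine (v.isMaximal.eq_of_le (und KK P).isPrime.ne_top ?_).symm
  intro x hx
  rw [mem_und]
  exact h (Ideal.mem_map_of_mem _ hx)

omit [NeZero l] in
theorem X4a_npt (v : HeightOneSpectrum (𝓞 KK)) (hD0 : D ≠ 0) (hl : l = 2 ∨ l = 3) (hm : l * m = 6)
    (h : ∀ x : v.adicCompletion KK, x ^ m ≠ algebraMap KK (v.adicCompletion KK) (jK D)) : NoPt l (ED (jK D)) v := by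
  have e : (ED (jK D)).baseChange (v.adicCompletion KK) = ED (algebraMap KK (v.adicCompletion KK) (jK D)) := ED_map _ _
  unfold NoPt
  rw [e]
  have hne : algebraMap KK (v.adicCompletion KK) (jK D) ≠ 0 := by
    rw [Ne, map_eq_zero_iff _ (algebraMap KK (v.adicCompletion KK)).injective, map_eq_zero_iff _ jK_inj]
    exact hD0
  have hch : CharZero (v.adicCompletion KK) := charZero_of_injective_algebraMap (algebraMap KK (v.adicCompletion KK)).injective
  refine (noPt_iff hne ⟨algebraMap KK (v.adicCompletion KK) (jK om), ?_⟩ hl hm).2 h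
  rw [← map_pow, ← map_pow, ← map_add, ← map_add, ← map_one (algebraMap KK (v.adicCompletion KK)), ← map_one jK, ← map_add, ← map_add,
    show om ^ 2 + om + 1 = 0 by decide, map_zero, map_zero]

theorem nice_of_dat (hD : Dat l m D d) (hK : Kum l n d δ) : Nice l (ED (jK D)) F := by
  have hl := hD.lm.2
  refine ⟨kum_galois hl hK, fun σ τ => kum_ext hK _ _ fun i => ?_, fun σ => kum_ext hK _ _ fun i => ?_, fun v h6 => ?_,
    fun v P h => ?_⟩
  · obtain ⟨z, _, hz⟩ := X4a_act hl hK σ i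
    obtain ⟨z', _, hz'⟩ := X4a_act hl hK τ i
    rw [AlgEquiv.mul_apply, AlgEquiv.mul_apply, hz', hz, map_mul, map_mul, X4a_fix, X4a_fix, hz, hz']
    ring
  · obtain ⟨z, h1, hz⟩ := X4a_act hl hK σ i
    rw [X4a_pow σ _ z hz, ← map_pow, h1, map_one, one_mul, AlgEquiv.one_apply]
  · rw [hK.rank]
    exact (count_six hD.toDat0 hK v h6).2
  · have hu : und KK P = v := X4a_und v P (h.trans (Ideal.pow_le_self two_ne_zero))
    have h6 : (6 : 𝓞 KK) ∉ v.asIdeal := fun h6 => six_unram hD.toDat0 hK v h6 P hu h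
    obtain ⟨e, f, g, _, _, _, _, hel, _, hw, _, _⟩ := place_count hl hK v h6
    obtain ⟨i, hi⟩ := hel.1 ((hw P hu).2.2.1 h)
    refine X4a_npt v hD.ne0 hl hD.lm.1 (hD.npt v i ?_)
    by_contra hne
    apply hi
    rw [jK_apply, TWR.od, val_unit _ v hne, WithZero.log_one]
    exact dvd_zero _

theorem disc_ge (hl : l = 2 ∨ l = 3) (hK : Kum l n d δ) (v : HeightOneSpectrum (𝓞 KK)) (h6 : (6 : 𝓞 KK) ∉ v.asIdeal) (i : Fin n)
    (h : ¬ (l : ℤ) ∣ TWR.od v (jK (d i))) : TH.nv v ≤ (discr F).natAbs := by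
  obtain ⟨e, f, g, _, hf, _, _, hel, _, hw, _, _⟩ := place_count hl hK v h6
  have he : e = l := hel.2 ⟨i, h⟩
  obtain ⟨w, hwv⟩ := exists_above (k := KK) (F := F) v
  obtain ⟨hn, _, hram⟩ := hw w hwv
  have hr := hram.2 he
  have := v.isMaximal
  have h1 := pow_sub_one_dvd_differentIdeal_aux (𝓞 KK) KK F (p := v.asIdeal) w.asIdeal (e := 2) two_ne_zero v.ne_bot
    (Ideal.dvd_iff_le.2 hr)
  rw [show 2 - 1 = 1 from rfl, pow_one] at h1
  have h2 : Ideal.absNorm w.asIdeal ∣ (discr F).natAbs := by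
    rw [natAbs_discr_eq_absNorm_differentIdeal_mul_natAbs_discr_pow KK (𝓞 KK) F (𝓞 F)]
    exact (map_dvd Ideal.absNorm h1).mul_right _
  have h3 : TH.nv w ≤ (discr F).natAbs := by
    rw [TH.nv, ← absNorm_eq_card]
    exact Nat.le_of_dvd (Int.natAbs_pos.2 (discr_ne_zero F)) h2
  have h4 : 0 < TH.nv v := lt_trans zero_lt_one (card_pos_quot v)
  refine le_trans ?_ h3
  rw [hn]
  refine Nat.le_self_pow ?_ _
  rcases hf with rfl | rfl
  · exact one_ne_zero
  · exact NeZero.ne _
end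

end CX
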