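import Pool.Agent.CX.Z4
import Pool.Agent.J2F.M

/-!
# [CX-Z1] the final statements
-/

set_option autoImplicit false

open NumberField IsDedekindDomain
open scoped Classical ComplexConjugate

namespace CX

open CM27 CMT NAB CF JD

theorem allV {l : ℕ} (hl : l = 2 ∨ l = 3) : AllV l := by
  intro D hD h
  rcases hl with rfl | rfl
  · have h1 : JT.Cl2 D := (J2F.primeTwo_iff hD).2 h
    exact lv_two h1 (J2L.lval2 h1)
  · have h1 : JG.ClG D := (J2F.primeThree_iff hD).2 h
    exact lv_three h1 (JGL.lvalG D h1)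

/-- **The conjecture modulo `l` over the nice extensions.** -/
theorem modL_ext {l : ℕ} (hl : l = 2 ∨ l = 3) (E : WeierstrassCurve KK) [E.IsElliptic] (hj : E.j = 0) (hP : J2F.PrimeL l E)
    (F : Type) [Field F] [NumberField F] [Algebra KK F] (hN : Nice l E F) :
    J2F.ModL l (E.baseChange F) ∧
      ((Finite (E.baseChange F).toAffine.Point ∧ ∀ x : SBSD.Sha (E.baseChange F), l • x = 0 → x = 0) ↔
        (Finite E.toAffine.Point ∧ ∀ x : SBSD.Sha E, l • x = 0 → x = 0)) :=
  main hl (allV hl) E hj hP F hN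

/-- **Existence of nice extensions.** -/
theorem nice_exists {l : ℕ} (hl : l = 2 ∨ l = 3) (E : WeierstrassCurve KK) [E.IsElliptic] (hj : E.j = 0) (hP : J2F.PrimeL l E) (n : ℕ)
    (hn : 0 < n) (B : ℕ) : ∃ (F : Type) (_ : Field F) (_ : NumberField F) (_ : Algebra KK F), Nice l E F ∧
      Module.finrank KK F = l ^ n ∧ B < (discr F).natAbs :=
  exists_nice_all hl E hj hP n hn B

end CX
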