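import Pool.Agent.CX.Defs
import Pool.Agent.JT.ZT
import Pool.Agent.JG.ZG
import Pool.Agent.JT.FT

/-!
# [CX-Z1a] the values over `ℚ(ω)`
-/

set_option autoImplicit false

open NumberField IsDedekindDomain
open scoped Classical ComplexConjugate

namespace CX

open CM27 CMT NAB CF JD
open CU (la om eE)

theorem z1_disc : (√|(discr KK : ℝ)| : ℝ) = √3 := by
  rw [CU.abs_discr_KK]

theorem z1_val {A k X : ℝ} {q : ℚ} {a : ℂ} (h : a = (((q : ℝ) * k / X : ℝ) : ℂ) * (A : ℂ) ^ 2) :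
    a * (√|(discr KK : ℝ)| : ℝ) = q * ((√3 * A ^ 2 / X * k : ℝ) : ℂ) := by
  rw [h, z1_disc]
  push_cast
  ring

theorem lv_two {D : Eis} (hD : JT.Cl2 D) (hL : JT.LVal2 D) : LV 2 (ED (jK D)) := by
  obtain ⟨p₂, pl, hp2, hpl, Φ, hΦ, hs, q, hq, hv, hu⟩ := hL
  refine ⟨fun s => Φ s * conj (Φ (conj s)), JT.entire_2 hD hp2 hpl Φ hΦ hs, q, ?_, ?_, ?_⟩
  · simp only [map_one]
    rw [JT.period_2 hD (JT.cl2_ne hD)]
    exact z1_val hq
  · rcases hv with h | h
    · rw [h]; simp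
    · exact h
  · rw [hu]
    exact JT.uc_iff2 hD

theorem lv_three {D : Eis} (hD : JG.ClG D) (hL : JG.LValG D) : LV 3 (ED (jK D)) := by
  obtain ⟨p₂, pl, hp2, hpl, Φ, hΦ, hs, q, hq, hv, hu⟩ := hL
  refine ⟨fun s => Φ s * conj (Φ (conj s)), JG.entire_G hD hp2 hpl Φ hΦ hs, q, ?_, ?_, ?_⟩
  · simp only [map_one]
    rw [JG.period_G hD (JG.nz hD)]
    exact z1_val hq
  · rcases hv with h | h
    · rw [h]; simp
    · exact h
  · rw [hu]
    exact JG.uc_iffG hD

section
variable {K : Type} [Field K] [NumberField K] (W : WeierstrassCurve K) (hΔ : W.Δ ≠ 0) (C : WeierstrassCurve.VariableChange K)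

theorem fs_smul (l : ℕ) : Fs l (C • W) ↔ Fs l W := by
  unfold Fs
  rw [(ISO.pts W C).1, ISO.sha_smul W C l]

include hΔ

theorem lv_smul (l : ℕ) : LV l (C • W) ↔ LV l W := by
  unfold LV
  simp only [ISO.entire_smul W hΔ C, ISO.period_smul W hΔ C, fs_smul W C l]

theorem pl_smul (l : ℕ) : PL l (C • W) ↔ PL l W := by
  have e := VC63.vcEquiv W C
  unfold PL
  refine and_congr ?_ (forall_congr' fun v => by rw [ISO.tam_smul W hΔ C v])
  constructor
  · intro h P hP
    have h1 := h (e.symm P) (by rw [← map_nsmul, hP, map_zero])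
    have h2 := congrArg e h1
    rwa [e.apply_symm_apply, map_zero] at h2
  · intro h P hP
    have h1 := h (e P) (by rw [← map_nsmul, hP, map_zero])
    have h2 := congrArg e.symm h1
    rwa [e.symm_apply_apply, map_zero] at h2
end

end CX
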