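import Pool.Agent.CX.L9
import Pool.Agent.CX.L10
import Pool.Agent.CX.L11
import Pool.Agent.CX.L12
import Pool.Agent.CX.D3

/-!
# [CX-Z2] the conjecture modulo `l` over `F` (without torsion and Tamagawa numbers)
-/

set_option autoImplicit false

open NumberField IsDedekindDomain
open scoped Classical ComplexConjugate

namespace CX

open CM27 CMT NAB CF JD
open CU (la om eE)

section
variable {F : Type} [Field F] [NumberField F] [Algebra KK F] {l m n : ℕ} [NeZero l] {d : Fin n → Eis} {δ : Fin n → F} {D : Eis}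

theorem lcw_eq (hD : Dat0 l m D d) (hK : Kum l n d δ) :
    LCW F (ED (jF F D)) = ∏ χ : Fin n → ZMod l, LCW KK (ED (jK (D * dx d χ ^ m))) := by
  refine lcw_of_loc _ _ fun v S hS => ?_
  by_cases h6 : (6 : 𝓞 KK) ∈ v.asIdeal
  · exact loc_six hD hK v h6 S hS
  · exact loc_ne6 hD.lm.2 hD.lm.1 hD.ne0 hK v h6 S hS

theorem z2_prod {p : ℕ} [Fact p.Prime] {ι : Type} [Fintype ι] (q : ι → ℚ) (h0 : ∀ i, q i ≠ 0) :
    padicValRat p (∏ i, q i) = ∑ i, padicValRat p (q i) := by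
  have key : ∀ S : Finset ι, padicValRat p (∏ i ∈ S, q i) = ∑ i ∈ S, padicValRat p (q i) := by
    intro S
    induction S using Finset.induction_on with
    | empty => simp
    | insert a S ha ih =>
      rw [Finset.prod_insert ha, Finset.sum_insert ha, padicValRat.mul (h0 a) (Finset.prod_ne_zero_iff.2 fun i _ => h0 i), ih]
  exact key Finset.univ

theorem la_F (hD : Dat0 l m D d) (hK : Kum l n d δ) {A : (Fin n → ZMod l) → Prop} {B : Prop}
    (hlv : ∀ χ : Fin n → ZMod l, LA l (ED (jK (D * dx d χ ^ m))) (A χ))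
    (hsel : ∀ χ : Fin n → ZMod l, A χ ↔ B) : LA l (ED (jF F D)) B := by
  have hp : Fact l.Prime := by
    rcases hD.lm.2 with h | h
    · exact ⟨h ▸ Nat.prime_two⟩
    · exact ⟨h ▸ Nat.prime_three⟩
  choose Λ hΛ q hq hq0 hiff using hlv
  obtain ⟨ρ, hρ, hρ0, hper⟩ := period_all hD hK
  have hcard : Fintype.card (Fin n → ZMod l) = l ^ n := by
    rw [Fintype.card_fun, ZMod.card, Fintype.card_fin]
  have hdK : (√|(discr KK : ℝ)| : ℝ) ≠ 0 := by
    have h1 : (discr KK : ℝ) ≠ 0 := by exact_mod_cast NumberField.discr_ne_zero KK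
    exact Real.sqrt_ne_zero'.2 (abs_pos.2 h1)
  have hdC : ((√|(discr KK : ℝ)| : ℝ) : ℂ) ^ (l ^ n) ≠ 0 := pow_ne_zero _ (by exact_mod_cast hdK)
  refine ⟨fun s => ∏ χ, Λ χ s, entire_of_lcw _ _ (lcw_eq hD hK) Λ hΛ, ρ * ∏ χ, q χ, ?_, ?_, ?_⟩
  · have h1 : (∏ χ, Λ χ 1) * ((√|(discr KK : ℝ)| : ℝ) : ℂ) ^ (l ^ n) =
        (∏ χ, (q χ : ℂ)) * ∏ χ : Fin n → ZMod l, (SBSD.period (ED (jK (D * dx d χ ^ m))) : ℂ) := by
      rw [← Finset.prod_mul_distrib, ← Finset.prod_congr rfl fun χ _ => hq χ, Finset.prod_mul_distrib, Finset.prod_const,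
        Finset.card_univ, hcard]
    have h2 : ((√|(discr F : ℝ)| : ℝ) : ℂ) * ∏ χ : Fin n → ZMod l, (SBSD.period (ED (jK (D * dx d χ ^ m))) : ℂ) =
        (ρ : ℂ) * ((√|(discr KK : ℝ)| : ℝ) : ℂ) ^ (l ^ n) * (SBSD.period (ED (jF F D)) : ℂ) := by
      have h3 := congrArg (fun x : ℝ => (x : ℂ)) hper
      push_cast at h3
      exact h3
    apply mul_right_cancel₀ hdC
    push_cast
    linear_combination ((√|(discr F : ℝ)| : ℝ) : ℂ) * h1 + (∏ χ, (q χ : ℂ)) * h2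
  · by_cases h0 : ∀ χ, q χ ≠ 0
    · rw [padicValRat.mul hρ.ne' (Finset.prod_ne_zero_iff.2 fun i _ => h0 i), hρ0, zero_add, z2_prod q h0]
      exact Finset.sum_nonneg fun i _ => hq0 i
    · push Not at h0
      obtain ⟨χ, h0⟩ := h0
      rw [Finset.prod_eq_zero (Finset.mem_univ χ) h0, mul_zero]
      simp
  · constructor
    · rintro ⟨h1, h2⟩
      have h0 : ∀ χ, q χ ≠ 0 := fun χ h => h1 (by rw [Finset.prod_eq_zero (Finset.mem_univ χ) h, mul_zero])
      rw [padicValRat.mul hρ.ne' (Finset.prod_ne_zero_iff.2 fun i _ => h0 i), hρ0, zero_add, z2_prod q h0] at h2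
      have h3 := (Finset.sum_eq_zero_iff_of_nonneg fun i _ => hq0 i).1 h2
      exact (hsel 0).1 ((hiff 0).1 ⟨h0 0, h3 0 (Finset.mem_univ 0)⟩)
    · intro h
      have h1 : ∀ χ, q χ ≠ 0 ∧ padicValRat l (q χ) = 0 := fun χ => (hiff χ).2 ((hsel χ).2 h)
      refine ⟨mul_ne_zero hρ.ne' (Finset.prod_ne_zero_iff.2 fun i _ => (h1 i).1), ?_⟩
      rw [padicValRat.mul hρ.ne' (Finset.prod_ne_zero_iff.2 fun i _ => (h1 i).1), hρ0, zero_add, z2_prod q fun i => (h1 i).1]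
      exact Finset.sum_eq_zero fun i _ => (h1 i).2

theorem lv_F (hD : Dat0 l m D d) (hK : Kum l n d δ) (hlv : ∀ χ : Fin n → ZMod l, LV l (ED (jK (D * dx d χ ^ m))))
    (hsel : ∀ χ : Fin n → ZMod l, Fs l (ED (jK (D * dx d χ ^ m))) ↔ Fs l (ED (jF F D))) : LV l (ED (jF F D)) :=
  la_F hD hK hlv hsel
end

end CX
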