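import Pool.Agent.CX.Defs

/-!
# [CX-Z3] from the value to the quotient
-/

set_option autoImplicit false

open NumberField IsDedekindDomain
open scoped Classical ComplexConjugate

namespace CX

/-- the conjecture modulo `l` (this is `J2F.ModL`) -/
def ML (l : ℕ) {K : Type} [Field K] [NumberField K] (W : WeierstrassCurve K) : Prop :=
  W.IsElliptic ∧ ∃ L : ℂ → ℂ, SBSD2.IsEntireLSeries W L ∧
    ∃ q : ℚ, SBSD2.bsdQuotient W (L 1) = q ∧ 0 ≤ padicValRat l q ∧
      ((q ≠ 0 ∧ padicValRat l q = 0) ↔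
        (Finite W.toAffine.Point ∧ ∀ x : SBSD.Sha W, l • x = 0 → x = 0))

section
variable {l : ℕ} [hp : Fact l.Prime]

theorem z3_nat {m : ℕ} (h : ¬ l ∣ m) : padicValRat l (m : ℚ) = 0 := by
  rw [padicValRat.of_nat, padicValNat.eq_zero_of_not_dvd h]
  rfl

theorem z3_tam {L : Type} [Field L] [NumberField L] {W : WeierstrassCurve L}
    (h : ∀ v : HeightOneSpectrum (𝓞 L), ¬ l ∣ SBSD.tam W v) : ¬ l ∣ ∏ᶠ v : HeightOneSpectrum (𝓞 L), SBSD.tam W v := by
  refine finprod_induction (fun n : ℕ => ¬ l ∣ n) ?_ ?_ h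
  · exact hp.out.one_lt.ne' ∘ Nat.dvd_one.1
  · intro a b ha hb hab
    rcases hp.out.dvd_mul.1 hab with h1 | h1
    · exact ha h1
    · exact hb h1

theorem z3_tors {L : Type} [Field L] [NumberField L] {W : WeierstrassCurve L} (h : ∀ P : W.toAffine.Point, l • P = 0 → P = 0)
    (h0 : Nat.card (AddCommGroup.torsion W.toAffine.Point) ≠ 0) : ¬ l ∣ Nat.card (AddCommGroup.torsion W.toAffine.Point) := by
  intro hl
  have : Finite (AddCommGroup.torsion W.toAffine.Point) := Nat.finite_of_card_ne_zero h0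
  obtain ⟨P, hP⟩ := exists_prime_addOrderOf_dvd_card' (G := AddCommGroup.torsion W.toAffine.Point) l hl
  have h1 : l • P = 0 := by rw [← hP]; exact addOrderOf_nsmul_eq_zero P
  have h2 : l • (P : W.toAffine.Point) = 0 := by
    rw [← AddSubgroup.coe_nsmul, h1]
    rfl
  have h3 : P = 0 := Subtype.ext (h _ h2)
  rw [h3, addOrderOf_zero] at hP
  exact hp.out.one_lt.ne hP

theorem ml_of_lv {L : Type} [Field L] [NumberField L] {W : WeierstrassCurve L} (hE : W.IsElliptic) (hΩ : SBSD.period W ≠ 0)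
    (hP : PL l W) (h : LV l W) : ML l W := by
  obtain ⟨Λ, hΛ, q, hq, hq0, hiff⟩ := h
  set t := Nat.card (AddCommGroup.torsion W.toAffine.Point) with ht
  set c := ∏ᶠ v : HeightOneSpectrum (𝓞 L), SBSD.tam W v with hc
  have hcl : ¬ l ∣ c := z3_tam hP.2
  have hc0 : (c : ℚ) ≠ 0 := by
    intro h0
    apply hcl
    have h1 : c = 0 := by exact_mod_cast h0
    rw [h1]
    exact dvd_zero l
  have hΩC : (SBSD.period W : ℂ) ≠ 0 := by exact_mod_cast hΩ
  have hcC : (c : ℂ) ≠ 0 := by exact_mod_cast hc0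
  refine ⟨hE, Λ, hΛ, q * (t : ℚ) ^ 2 / c, ?_, ?_, ?_⟩
  · have h1 : SBSD2.bsdQuotient W (Λ 1) = Λ 1 * (√|(discr L : ℝ)| : ℝ) * (t : ℂ) ^ 2 / ((SBSD.period W : ℂ) * (c : ℂ)) := rfl
    rw [h1, hq]
    push_cast
    field_simp
  · by_cases h1 : q = 0
    · rw [h1]; simp
    by_cases h2 : t = 0
    · rw [h2]; simp
    have h2' : (t : ℚ) ≠ 0 := by exact_mod_cast h2
    rw [padicValRat.div (mul_ne_zero h1 (pow_ne_zero _ h2')) hc0, padicValRat.mul h1 (pow_ne_zero _ h2'),
      padicValRat.pow, z3_nat hcl, z3_nat (z3_tors hP.1 h2)]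
    simpa using hq0
  · by_cases h2 : t = 0
    · rw [h2]
      constructor
      · rintro ⟨h3, -⟩
        exact absurd (by simp) h3
      · rintro ⟨h3, -⟩
        exfalso
        have h4 : Nat.card (AddCommGroup.torsion W.toAffine.Point) ≠ 0 := Nat.card_ne_zero.2 ⟨inferInstance, inferInstance⟩
        exact h4 h2
    · have h2' : (t : ℚ) ≠ 0 := by exact_mod_cast h2
      by_cases h1 : q = 0
      · have h3 : ¬ Fs l W := fun h => (hiff.2 h).1 h1
        rw [h1]
        constructor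
        · rintro ⟨h4, -⟩
          exact absurd (by simp) h4
        · intro h4
          exact absurd h4 h3
      · rw [padicValRat.div (mul_ne_zero h1 (pow_ne_zero _ h2')) hc0, padicValRat.mul h1 (pow_ne_zero _ h2'),
          padicValRat.pow, z3_nat hcl, z3_nat (z3_tors hP.1 h2)]
        have h5 : q * (t : ℚ) ^ 2 / c ≠ 0 := div_ne_zero (mul_ne_zero h1 (pow_ne_zero _ h2')) hc0
        constructor
        · rintro ⟨-, h4⟩
          exact hiff.1 ⟨h1, by simpa using h4⟩
        · intro h4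
          refine ⟨h5, ?_⟩
          have := (hiff.2 h4).2
          simpa using this
end

end CX
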