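import Pool.Agent.CX.Z1a
import Pool.Agent.CX.Z2
import Pool.Agent.CX.Z3
import Pool.Agent.CX.S
import Pool.Agent.CX.K3
import Pool.Agent.CX.X4
import Pool.Agent.JZR.Model

/-!
# [CX-Z4] the conjecture modulo `l` over the nice extensions, given the values over `ℚ(ω)`; existence of nice extensions
-/

set_option autoImplicit false

open NumberField IsDedekindDomain
open scoped Classical ComplexConjugate

namespace CX

open CM27 CMT NAB CF JD
open CU (la om eE)

/-- the values of all curves `y² = x³ + D` over `ℚ(ω)` -/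
def AllV (l : ℕ) : Prop := ∀ D : Eis, Sf D → PL l (ED (jK D)) → LV l (ED (jK D))

theorem z4_ne {F : Type} [Field F] [NumberField F] [Algebra KK F] {D : Eis} (hD : D ≠ 0) : (ED (jF F D)).Δ ≠ 0 := by
  rw [ED_Δ]
  have h1 : jF F D ≠ 0 := fun h => hD (jF_inj F (h.trans (map_zero (jF F)).symm))
  exact mul_ne_zero (by norm_num) (pow_ne_zero _ h1)

theorem z4_neK {D : Eis} (hD : D ≠ 0) : (ED (jK D)).Δ ≠ 0 := by
  rw [ED_Δ]
  have h1 : jK D ≠ 0 := fun h => hD (jK_inj (h.trans (map_zero jK).symm))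
  exact mul_ne_zero (by norm_num) (pow_ne_zero _ h1)

theorem lv_any {l : ℕ} (hV : AllV l) {D : Eis} (hD : D ≠ 0) (h : PL l (ED (jK D))) : LV l (ED (jK D)) := by
  obtain ⟨hE, hj⟩ := JZR.model_j D hD
  obtain ⟨D₀, ⟨h1, C, hC⟩, -⟩ := JZR.model (ED (jK D)) hj
  have hΔ := z4_neK hD
  rw [← lv_smul _ hΔ C l, hC]
  exact hV D₀ h1 (by rw [← hC]; exact (pl_smul _ hΔ C l).2 h)

theorem main_ED {l : ℕ} (hV : AllV l) {F : Type} [Field F] [NumberField F] [Algebra KK F] {m n : ℕ} [NeZero l] {d : Fin n → Eis}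
    {δ : Fin n → F} {D : Eis} (hD : Dat l m D d) (hT : Tp l (ED (jK D))) (hK : Kum l n d δ) :
    ML l (ED (jF F D)) ∧ (Fs l (ED (jF F D)) ↔ Fs l (ED (jK D))) := by
  have hp : Fact l.Prime := by
    rcases hD.lm.2 with h | h
    · exact ⟨h ▸ Nat.prime_two⟩
    · exact ⟨h ▸ Nat.prime_three⟩
  have hD0 : D ≠ 0 := hD.ne0
  have hdom := eis_isDomain
  have hlv : ∀ χ : Fin n → ZMod l, LV l (ED (jK (D * dx d χ ^ m))) := fun χ =>
    lv_any hV (mul_ne_zero hD0 (pow_ne_zero _ (dx_ne hK χ))) (pl_twist hD hT hK χ)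
  have hsel := sel_iff hD hT hK
  have hΩ : SBSD.period (ED (jF F D)) ≠ 0 := by
    obtain ⟨r, hr, h1⟩ := per_F hD.toDat0 hK
    rw [h1]
    have h4 : (0 : ℝ) < ‖emb (4 * D)‖ :=
      norm_pos_iff.2 ((map_ne_zero_iff emb emb_injective).2 (mul_ne_zero (by decide) hD0))
    have h5 : (0 : ℝ) < ‖emb (4 * D)‖ ^ ((1 : ℝ) / 3) := Real.rpow_pos_of_pos h4 _
    have h6 := Om_pos
    have h7 := kap6_pos hD0
    have h8 : (r : ℝ) ≠ 0 := by exact_mod_cast hr.1.ne'
    refine mul_ne_zero (pow_ne_zero _ ?_) h8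
    positivity
  refine ⟨ml_of_lv ⟨isUnit_iff_ne_zero.2 (z4_ne hD0)⟩ hΩ (pl_up hD hT hK) (lv_F hD.toDat0 hK hlv hsel), ?_⟩
  have h0 := hsel 0
  rw [dx_zero, one_pow, mul_one] at h0
  exact h0.symm

section
variable {K : Type} [Field K] [NumberField K] (W : WeierstrassCurve K) (C : WeierstrassCurve.VariableChange K)

theorem noPt_smul (l : ℕ) (v : HeightOneSpectrum (𝓞 K)) : NoPt l (C • W) v ↔ NoPt l W v := by
  unfold NoPt
  rw [ISO.bc_smul]
  have e := VC63.vcEquiv (W.baseChange (v.adicCompletion K)) (C.map (algebraMap K (v.adicCompletion K)))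
  constructor
  · intro h P hP
    have h1 := h (e.symm P) (by rw [← map_nsmul, hP, map_zero])
    have h2 := congrArg e h1
    rwa [e.apply_symm_apply, map_zero] at h2
  · intro h P hP
    have h1 := h (e P) (by rw [← map_nsmul, hP, map_zero])
    have h2 := congrArg e.symm h1
    rwa [e.symm_apply_apply, map_zero] at h2

theorem ml_smul (hΔ : W.Δ ≠ 0) (l : ℕ) : ML l (C • W) ↔ ML l W := by
  unfold ML
  simp only [ISO.isoi_isElliptic, ISO.entire_smul W hΔ C, ISO.bsd_smul W hΔ C, (ISO.pts W C).1, ISO.sha_smul W C l]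
end

theorem nice_smul {l : ℕ} {E : WeierstrassCurve KK} (C : WeierstrassCurve.VariableChange KK) {F : Type} [Field F] [NumberField F] [Algebra KK F] :
    Nice l (C • E) F ↔ Nice l E F := by
  constructor
  · intro h
    exact ⟨h.galois, h.comm, h.exponent, h.split, fun v P hP => (noPt_smul E C l v).1 (h.ramified v P hP)⟩
  · intro h
    exact ⟨h.galois, h.comm, h.exponent, h.split, fun v P hP => (noPt_smul E C l v).2 (h.ramified v P hP)⟩

/-- **The conjecture modulo `l` over the nice extensions.** -/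
theorem main {l : ℕ} (hl : l = 2 ∨ l = 3) (hV : AllV l) (E : WeierstrassCurve KK) [E.IsElliptic] (hj : E.j = 0) (hP : PL l E)
    (F : Type) [Field F] [NumberField F] [Algebra KK F] (hN : Nice l E F) :
    ML l (E.baseChange F) ∧ (Fs l (E.baseChange F) ↔ Fs l E) := by
  obtain ⟨D, ⟨h1, C, hC⟩, -⟩ := JZR.model E hj
  have hΔ : E.Δ ≠ 0 := E.isUnit_Δ.ne_zero
  have hΔF : (E.baseChange F).Δ ≠ 0 := ISO.isoc_delta E hΔ
  obtain ⟨m, hm⟩ : ∃ m, l * m = 6 := by
    rcases hl with rfl | rfl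
    · exact ⟨3, rfl⟩
    · exact ⟨2, rfl⟩
  have : NeZero l := ⟨by rcases hl with rfl | rfl <;> norm_num⟩
  have hP' : PL l (ED (jK D)) := by
    rw [← hC]
    exact (pl_smul E hΔ C l).2 hP
  have hN' : Nice l (ED (jK D)) F := by
    rw [← hC]
    exact (nice_smul C).2 hN
  obtain ⟨n, d, δ, hK, hf⟩ := exists_kum hl hN.galois hN.comm hN.exponent
  have hD := dat_of_nice hl hK hm h1.1 hP'.1 hN' hf
  obtain ⟨h2, h3⟩ := main_ED hV hD hP'.2 hK
  have e1 : ED (jF F D) = C.map (algebraMap KK F) • E.baseChange F := by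
    rw [← ISO.bc_smul, hC]
    exact (ED_map (algebraMap KK F) (jK D)).symm
  rw [e1, ml_smul _ _ hΔF] at h2
  rw [e1, fs_smul, ← hC, fs_smul] at h3
  exact ⟨h2, h3⟩

/-- **Existence of nice extensions.** -/
theorem exists_nice_all {l : ℕ} (hl : l = 2 ∨ l = 3) (E : WeierstrassCurve KK) [E.IsElliptic] (hj : E.j = 0) (hP : PL l E) (n : ℕ)
    (hn : 0 < n) (B : ℕ) : ∃ (F : Type) (_ : Field F) (_ : NumberField F) (_ : Algebra KK F), Nice l E F ∧
      Module.finrank KK F = l ^ n ∧ B < (discr F).natAbs := by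
  obtain ⟨D, ⟨h1, C, hC⟩, -⟩ := JZR.model E hj
  have hΔ : E.Δ ≠ 0 := E.isUnit_Δ.ne_zero
  obtain ⟨m, hm⟩ : ∃ m, l * m = 6 := by
    rcases hl with rfl | rfl
    · exact ⟨3, rfl⟩
    · exact ⟨2, rfl⟩
  have hP' : PL l (ED (jK D)) := by
    rw [← hC]
    exact (pl_smul E hΔ C l).2 hP
  obtain ⟨F, i1, i2, i3, h2, h3, h4⟩ := exists_nice hl hm h1.1 hP'.1 n hn B
  refine ⟨F, i1, i2, i3, ?_, h3, h4⟩
  rw [← hC] at h2
  exact (nice_smul C).1 h2

end CX
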