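import Pool.Agent.CX.Z4

/-!
# [CX-Z5] the product form: no hypothesis on the Tamagawa numbers
-/

set_option autoImplicit false

open NumberField IsDedekindDomain
open scoped Classical ComplexConjugate

namespace CX

open CM27 CMT NAB CF JD
open CU (la om eE)

/-- `E(K)` is finite, `Ш` has no element of order `l`, the Tamagawa numbers are prime to `l`. -/
def FT (l : ℕ) {L : Type} [Field L] [NumberField L] (W : WeierstrassCurve L) : Prop := Fs l W ∧ Tp l W

/-- the values of all curves `y² = x³ + D` over `ℚ(ω)` without points of order `l` -/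
def AllT (l : ℕ) : Prop := ∀ D : Eis, Sf D → Np l (ED (jK D)) → LA l (ED (jK D)) (FT l (ED (jK D)))

/-- the values if `l` divides a Tamagawa number -/
def AllZ (l : ℕ) : Prop := ∀ D : Eis, Sf D → Np l (ED (jK D)) → ¬ Tp l (ED (jK D)) → LA l (ED (jK D)) False

theorem allT_of {l : ℕ} (hV : AllV l) (hZ : AllZ l) : AllT l := by
  intro D hD hN
  by_cases hT : Tp l (ED (jK D))
  · have h1 : LA l (ED (jK D)) (Fs l (ED (jK D))) := hV D hD ⟨hN, hT⟩
    obtain ⟨Λ, hΛ, q, hq, h0, hiff⟩ := h1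
    exact ⟨Λ, hΛ, q, hq, h0, hiff.trans ⟨fun h => ⟨h, hT⟩, fun h => h.1⟩⟩
  · obtain ⟨Λ, hΛ, q, hq, h0, hiff⟩ := hZ D hD hN hT
    exact ⟨Λ, hΛ, q, hq, h0, hiff.trans ⟨False.elim, fun h => hT h.2⟩⟩

section
variable {K : Type} [Field K] [NumberField K] (W : WeierstrassCurve K) (hΔ : W.Δ ≠ 0) (C : WeierstrassCurve.VariableChange K)

omit [NumberField K] in
theorem np_smul (l : ℕ) : Np l (C • W) ↔ Np l W := by
  have e := VC63.vcEquiv W C
  unfold Np
  constructor
  · intro h P hP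
    have h1 := h (e.symm P) (by rw [← map_nsmul, hP, map_zero])
    have h2 := congrArg e h1
    rwa [e.apply_symm_apply, map_zero] at h2
  · intro h P hP
    have h1 := h (e P) (by rw [← map_nsmul, hP, map_zero])
    have h2 := congrArg e.symm h1
    rwa [e.symm_apply_apply, map_zero] at h2

include hΔ

theorem tp_smul (l : ℕ) : Tp l (C • W) ↔ Tp l W :=
  forall_congr' fun v => by rw [ISO.tam_smul W hΔ C v]

theorem ft_smul (l : ℕ) : FT l (C • W) ↔ FT l W := and_congr (fs_smul W C l) (tp_smul W hΔ C l)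

theorem la_smul (l : ℕ) (A : Prop) : LA l (C • W) A ↔ LA l W A := by
  unfold LA
  simp only [ISO.entire_smul W hΔ C, ISO.period_smul W hΔ C]
end

theorem lt_any {l : ℕ} (hV : AllT l) {D : Eis} (hD : D ≠ 0) (h : Np l (ED (jK D))) :
    LA l (ED (jK D)) (FT l (ED (jK D))) := by
  obtain ⟨hE, hj⟩ := JZR.model_j D hD
  obtain ⟨D₀, ⟨h1, C, hC⟩, -⟩ := JZR.model (ED (jK D)) hj
  have hΔ := z4_neK hD
  rw [← la_smul _ hΔ C l, ← ft_smul _ hΔ C l, hC]
  exact hV D₀ h1 (by rw [← hC]; exact (np_smul _ C l).2 h)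

/-- the conjecture modulo `l` in the product form -/
def MT (l : ℕ) {K : Type} [Field K] [NumberField K] (W : WeierstrassCurve K) : Prop :=
  W.IsElliptic ∧ ∃ L : ℂ → ℂ, SBSD2.IsEntireLSeries W L ∧
    ∃ p : ℚ, L 1 * (√|(discr K : ℝ)| : ℝ) * (Nat.card (AddCommGroup.torsion W.toAffine.Point) : ℂ) ^ 2 / (SBSD.period W : ℂ) = p ∧
      0 ≤ padicValRat l p ∧
      ((p ≠ 0 ∧ padicValRat l p = 0) ↔
        (Finite W.toAffine.Point ∧ (∀ x : SBSD.Sha W, l • x = 0 → x = 0) ∧ ∀ v : HeightOneSpectrum (𝓞 K), ¬ l ∣ SBSD.tam W v))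

theorem mt_of_la {l : ℕ} [hp : Fact l.Prime] {L : Type} [Field L] [NumberField L] {W : WeierstrassCurve L} (hE : W.IsElliptic)
    (hΩ : SBSD.period W ≠ 0) (hP : Np l W) (h : LA l W (FT l W)) : MT l W := by
  obtain ⟨Λ, hΛ, q, hq, hq0, hiff⟩ := h
  have hiff' : (q ≠ 0 ∧ padicValRat l q = 0) ↔
      (Finite W.toAffine.Point ∧ (∀ x : SBSD.Sha W, l • x = 0 → x = 0) ∧ ∀ v : HeightOneSpectrum (𝓞 L), ¬ l ∣ SBSD.tam W v) :=
    hiff.trans and_assoc
  set t := Nat.card (AddCommGroup.torsion W.toAffine.Point) with ht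
  have hΩC : (SBSD.period W : ℂ) ≠ 0 := by exact_mod_cast hΩ
  refine ⟨hE, Λ, hΛ, q * (t : ℚ) ^ 2, ?_, ?_, ?_⟩
  · rw [hq]
    push_cast
    field_simp
    rw [ht]
  · by_cases h1 : q = 0
    · rw [h1]; simp
    by_cases h2 : t = 0
    · rw [h2]; simp
    have h2' : (t : ℚ) ≠ 0 := by exact_mod_cast h2
    rw [padicValRat.mul h1 (pow_ne_zero _ h2'), padicValRat.pow, z3_nat (z3_tors hP h2)]
    simpa using hq0
  · by_cases h2 : t = 0
    · rw [h2]
      constructor
      · rintro ⟨h3, -⟩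
        exact absurd (by simp) h3
      · rintro ⟨h3, -⟩
        exfalso
        have h4 : Nat.card (AddCommGroup.torsion W.toAffine.Point) ≠ 0 := Nat.card_ne_zero.2 ⟨inferInstance, inferInstance⟩
        exact h4 h2
    · have h2' : (t : ℚ) ≠ 0 := by exact_mod_cast h2
      rw [← hiff']
      by_cases h1 : q = 0
      · rw [h1]
        constructor
        · rintro ⟨h4, -⟩
          exact absurd (by simp) h4
        · rintro ⟨h4, -⟩
          exact absurd rfl h4
      · rw [padicValRat.mul h1 (pow_ne_zero _ h2'), padicValRat.pow, z3_nat (z3_tors hP h2)]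
        constructor
        · rintro ⟨-, h4⟩
          exact ⟨h1, by simpa using h4⟩
        · rintro ⟨-, h4⟩
          exact ⟨mul_ne_zero h1 (pow_ne_zero _ h2'), by simpa using h4⟩

theorem mt_smul {K : Type} [Field K] [NumberField K] (W : WeierstrassCurve K) (C : WeierstrassCurve.VariableChange K)
    (hΔ : W.Δ ≠ 0) (l : ℕ) : MT l (C • W) ↔ MT l W := by
  unfold MT
  simp only [ISO.isoi_isElliptic, ISO.entire_smul W hΔ C, ISO.period_smul W hΔ C, (ISO.pts W C).1, (ISO.pts W C).2,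
    ISO.sha_smul W C l, ISO.tam_smul W hΔ C]

theorem period_ne {F : Type} [Field F] [NumberField F] [Algebra KK F] {l m n : ℕ} [NeZero l] {d : Fin n → Eis}
    {δ : Fin n → F} {D : Eis} (hD : Dat l m D d) (hK : Kum l n d δ) : SBSD.period (ED (jF F D)) ≠ 0 := by
  have hdom := eis_isDomain
  obtain ⟨r, hr, h1⟩ := per_F hD.toDat0 hK
  rw [h1]
  have h4 : (0 : ℝ) < ‖emb (4 * D)‖ :=
    norm_pos_iff.2 ((map_ne_zero_iff emb emb_injective).2 (mul_ne_zero (by decide) hD.ne0))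
  have h5 : (0 : ℝ) < ‖emb (4 * D)‖ ^ ((1 : ℝ) / 3) := Real.rpow_pos_of_pos h4 _
  have h6 := Om_pos
  have h7 := kap6_pos hD.ne0
  have h8 : (r : ℝ) ≠ 0 := by exact_mod_cast hr.1.ne'
  refine mul_ne_zero (pow_ne_zero _ ?_) h8
  positivity

theorem mainT_ED {l : ℕ} (hV : AllT l) {F : Type} [Field F] [NumberField F] [Algebra KK F] {m n : ℕ} [NeZero l] {d : Fin n → Eis}
    {δ : Fin n → F} {D : Eis} (hD : Dat l m D d) (hK : Kum l n d δ) :
    MT l (ED (jF F D)) ∧ (FT l (ED (jF F D)) ↔ FT l (ED (jK D))) := by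
  have hp : Fact l.Prime := by
    rcases hD.lm.2 with h | h
    · exact ⟨h ▸ Nat.prime_two⟩
    · exact ⟨h ▸ Nat.prime_three⟩
  have hD0 : D ≠ 0 := hD.ne0
  have hdom := eis_isDomain
  have hlv : ∀ χ : Fin n → ZMod l, LA l (ED (jK (D * dx d χ ^ m))) (FT l (ED (jK (D * dx d χ ^ m)))) := fun χ =>
    lt_any hV (mul_ne_zero hD0 (pow_ne_zero _ (dx_ne hK χ))) (np_twist hD hK χ)
  have hsel : ∀ χ : Fin n → ZMod l, FT l (ED (jK (D * dx d χ ^ m))) ↔ FT l (ED (jF F D)) := by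
    intro χ
    unfold FT
    rw [tp_twist hD hK χ, tp_up hD hK]
    by_cases hT : Tp l (ED (jK D))
    · rw [sel_iff hD hT hK χ]
    · exact ⟨fun h => absurd h.2 hT, fun h => absurd h.2 hT⟩
  refine ⟨mt_of_la ⟨isUnit_iff_ne_zero.2 (z4_ne hD0)⟩ (period_ne hD hK) (np_up hD hK) (la_F hD.toDat0 hK hlv hsel), ?_⟩
  have h0 := hsel 0
  rw [dx_zero, one_pow, mul_one] at h0
  exact h0.symm

/-- **The conjecture modulo `l` in the product form over the nice extensions.** -/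
theorem mainT {l : ℕ} (hl : l = 2 ∨ l = 3) (hV : AllT l) (E : WeierstrassCurve KK) [E.IsElliptic] (hj : E.j = 0) (hP : Np l E)
    (F : Type) [Field F] [NumberField F] [Algebra KK F] (hN : Nice l E F) :
    MT l (E.baseChange F) ∧ (FT l (E.baseChange F) ↔ FT l E) := by
  obtain ⟨D, ⟨h1, C, hC⟩, -⟩ := JZR.model E hj
  have hΔ : E.Δ ≠ 0 := E.isUnit_Δ.ne_zero
  have hΔF : (E.baseChange F).Δ ≠ 0 := ISO.isoc_delta E hΔ
  obtain ⟨m, hm⟩ : ∃ m, l * m = 6 := by
    rcases hl with rfl | rfl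
    · exact ⟨3, rfl⟩
    · exact ⟨2, rfl⟩
  have : NeZero l := ⟨by rcases hl with rfl | rfl <;> norm_num⟩
  have hP' : Np l (ED (jK D)) := by
    rw [← hC]
    exact (np_smul E C l).2 hP
  have hN' : Nice l (ED (jK D)) F := by
    rw [← hC]
    exact (nice_smul C).2 hN
  obtain ⟨n, d, δ, hK, hf⟩ := exists_kum hl hN.galois hN.comm hN.exponent
  have hD := dat_of_nice hl hK hm h1.1 hP' hN' hf
  obtain ⟨h2, h3⟩ := mainT_ED hV hD hK
  have e1 : ED (jF F D) = C.map (algebraMap KK F) • E.baseChange F := by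
    rw [← ISO.bc_smul, hC]
    exact (ED_map (algebraMap KK F) (jK D)).symm
  rw [e1, mt_smul _ _ hΔF] at h2
  rw [e1, ft_smul _ hΔF, ← hC, ft_smul _ hΔ] at h3
  exact ⟨h2, h3⟩

/-- **Existence of nice extensions.** -/
theorem exists_nice_np {l : ℕ} (hl : l = 2 ∨ l = 3) (E : WeierstrassCurve KK) [E.IsElliptic] (hj : E.j = 0) (hP : Np l E) (n : ℕ)
    (hn : 0 < n) (B : ℕ) : ∃ (F : Type) (_ : Field F) (_ : NumberField F) (_ : Algebra KK F), Nice l E F ∧
      Module.finrank KK F = l ^ n ∧ B < (discr F).natAbs := by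
  obtain ⟨D, ⟨h1, C, hC⟩, -⟩ := JZR.model E hj
  obtain ⟨m, hm⟩ : ∃ m, l * m = 6 := by
    rcases hl with rfl | rfl
    · exact ⟨3, rfl⟩
    · exact ⟨2, rfl⟩
  have hP' : Np l (ED (jK D)) := by
    rw [← hC]
    exact (np_smul E C l).2 hP
  obtain ⟨F, i1, i2, i3, h2, h3, h4⟩ := exists_nice hl hm h1.1 hP' n hn B
  refine ⟨F, i1, i2, i3, ?_, h3, h4⟩
  rw [← hC] at h2
  exact (nice_smul C).1 h2

theorem ns_alg (x : 𝓞 KK) : (@algebraMap (𝓞 KK) (𝓞 KK) _ _ (NumberField.inst_ringOfIntegersAlgebra KK KK)) x = x := by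
  apply RingOfIntegers.ext
  rfl

/-- The field `K` itself. -/
theorem nice_self {l : ℕ} (E : WeierstrassCurve KK) : Nice l E KK := by
  have hid : ∀ I : Ideal (𝓞 KK), I.map (@algebraMap (𝓞 KK) (𝓞 KK) _ _ (NumberField.inst_ringOfIntegersAlgebra KK KK)) = I := by
    intro I
    have h : (@algebraMap (𝓞 KK) (𝓞 KK) _ _ (NumberField.inst_ringOfIntegersAlgebra KK KK)) = RingHom.id _ := RingHom.ext ns_alg
    rw [h, Ideal.map_id]
  refine ⟨inferInstance, ?_, ?_, ?_, ?_⟩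
  · intro σ τ
    exact Subsingleton.elim _ _
  · intro σ
    exact Subsingleton.elim _ _
  · intro v _
    rw [Module.finrank_self]
    refine Set.ncard_eq_one.2 ⟨v.asIdeal, ?_⟩
    ext P
    rw [Set.mem_singleton_iff]
    constructor
    · rintro ⟨h2, h3⟩
      have h4 := h3.over
      rw [h4]
      ext x
      rw [Ideal.mem_comap]
      exact iff_of_eq (congrArg (fun y => y ∈ P) (ns_alg x)).symm
    · rintro rfl
      refine ⟨v.isPrime, ⟨?_⟩⟩
      ext x
      rw [Ideal.mem_comap]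
      exact iff_of_eq (congrArg (fun y => y ∈ v.asIdeal) (ns_alg x)).symm
  · intro v P h
    exfalso
    have h1 := (hid v.asIdeal).symm.le.trans h
    have h2 : v.asIdeal ≤ P.asIdeal := h1.trans (Ideal.pow_le_self two_ne_zero)
    have h3 : v.asIdeal = P.asIdeal := v.isMaximal.eq_of_le P.isPrime.ne_top h2
    rw [h3] at h1
    have h4 : P.asIdeal = P.asIdeal ^ 2 := le_antisymm h1 (Ideal.pow_le_self two_ne_zero)
    have h5 : P.asIdeal ^ 1 = P.asIdeal ^ 2 := by rw [pow_one]; exact h4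
    have h6 := Ideal.pow_right_strictAnti P.asIdeal P.ne_bot P.isPrime.ne_top |>.injective h5
    omega
end CX
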