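import Pool.Agent.CX.Z5
import Pool.Agent.CX.P1
import Pool.Agent.CX.P2
import Pool.Agent.CX.P3

/-!
# [CX-Z6] the product form for all curves, given the values over `ℚ(ω)`
-/

set_option autoImplicit false

open NumberField IsDedekindDomain
open scoped Classical ComplexConjugate

namespace CX

open CM27 CMT NAB CF JD

theorem z6_bc (E : WeierstrassCurve KK) : E.baseChange KK = E := by
  unfold WeierstrassCurve.baseChange
  rw [Algebra.algebraMap_self]
  exact WeierstrassCurve.map_id E

/-- The product form over `ℚ(ω)`. -/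
theorem modT_of {l : ℕ} (hl : l = 2 ∨ l = 3) (hV : AllT l)
    (hpt : ∀ (E : WeierstrassCurve KK) [E.IsElliptic], E.j = 0 → ¬ Np l E → ML l E)
    (E : WeierstrassCurve KK) [E.IsElliptic] (hj : E.j = 0) : MT l E := by
  have hp : Fact l.Prime := by
    rcases hl with h | h
    · exact ⟨h ▸ Nat.prime_two⟩
    · exact ⟨h ▸ Nat.prime_three⟩
  by_cases hP : Np l E
  · have h1 := (mainT hl hV E hj hP KK (nice_self E)).1
    rwa [z6_bc] at h1
  · have h1 := hpt E hj hP
    obtain ⟨D, ⟨hD, C, hC⟩, -⟩ := JZR.model E hj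
    have hΔ : E.Δ ≠ 0 := E.isUnit_Δ.ne_zero
    refine mt_of_ml h1 ?_ ?_
    · have h2 := tam_one_fin hD.1
      rw [← hC] at h2
      simpa only [ISO.tam_smul E hΔ C] using h2
    · intro v
      have h2 := tam_not_zero hD v
      rwa [← hC, ISO.tam_smul E hΔ C] at h2

/-- The product form over the nice extensions. -/
theorem modT_ext_of {l : ℕ} (hl : l = 2 ∨ l = 3) (hV : AllT l) (E : WeierstrassCurve KK) [E.IsElliptic] (hj : E.j = 0)
    (F : Type) [Field F] [NumberField F] [Algebra KK F] (hN : Nice l E F) (hF : Module.finrank KK F ≠ 1) :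
    MT l (E.baseChange F) ∧ (FT l (E.baseChange F) ↔ FT l E) :=
  mainT hl hV E hj (np_of_nice hl E hj F hN hF) F hN

end CX
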