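import Pool.Agent.CX.Z6
import Pool.Agent.CX.Z1
import Pool.Agent.CX.P4
import Pool.Agent.JGS.Fin
import Pool.Agent.J2S.Fin

/-!
# [CX-Z7] the product form for all curves
-/

set_option autoImplicit false

open NumberField IsDedekindDomain
open scoped Classical ComplexConjugate

namespace CX

open CM27 CMT NAB CF JD

theorem z7_la {l : ℕ} {W : WeierstrassCurve KK} (h : ∃ Λ : ℂ → ℂ, SBSD2.IsEntireLSeries W Λ ∧
    ∃ q : ℚ, Λ 1 * (√|(discr KK : ℝ)| : ℝ) = q * SBSD.period W ∧ (q = 0 ∨ 0 < padicValRat l q)) : LA l W False := by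
  obtain ⟨Λ, hΛ, q, hq, h⟩ := h
  refine ⟨Λ, hΛ, q, hq, ?_, ?_⟩
  · rcases h with h | h
    · rw [h]; simp
    · exact h.le
  · refine ⟨fun h1 => ?_, False.elim⟩
    rcases h with h | h
    · exact h1.1 h
    · exact h.ne' h1.2

theorem z7_npow {l m : ℕ} (hl : l = 2 ∨ l = 3) (hm : l * m = 6) {D : Eis} (hD : D ≠ 0) (h : Np l (ED (jK D))) (x : Eis) : x ^ m ≠ D := by
  have ho : ∃ o : KK, o ^ 2 + o + 1 = 0 := ⟨jK CU.om, by
    rw [← map_pow, ← map_add, ← map_one jK, ← map_add, show CU.om ^ 2 + CU.om + 1 = 0 by decide, map_zero]⟩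
  have hD' : jK D ≠ 0 := fun h0 => hD (jK_inj (h0.trans (map_zero jK).symm))
  have h1 := (noPt_iff hD' ho hl hm).1 h
  intro hx
  apply h1 (jK x)
  rw [← map_pow, hx]

/-- [CX] the values if `l` divides a Tamagawa number -/
theorem allZ {l : ℕ} (hl : l = 2 ∨ l = 3) : AllZ l := by
  intro D hD hN hT
  unfold Tp at hT
  push Not at hT
  obtain ⟨v, hv⟩ := hT
  rcases hl with rfl | rfl
  · refine z7_la (J2S.lvalT2 (D := D) hD ?_ v hv)
    rintro ⟨x, hx⟩
    exact z7_npow (m := 3) (Or.inl rfl) rfl hD.1 hN x hx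
  · refine z7_la (JGS.lvalT3 (D := D) hD ?_ v hv)
    rintro ⟨x, hx⟩
    exact z7_npow (m := 2) (Or.inr rfl) rfl hD.1 hN x (by rw [hx, pow_two])

theorem allT {l : ℕ} (hl : l = 2 ∨ l = 3) : AllT l := allT_of (allV hl) (allZ hl)

/-- **The conjecture modulo `l` (product form) for all curves.** -/
theorem modT {l : ℕ} (hl : l = 2 ∨ l = 3) (E : WeierstrassCurve KK) [E.IsElliptic] (hj : E.j = 0) : MT l E :=
  modT_of hl (allT hl) (fun E _ hj h => ml_of_pt hl E hj h) E hj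

/-- **The conjecture modulo `l` (product form) over the nice extensions.** -/
theorem modT_ext {l : ℕ} (hl : l = 2 ∨ l = 3) (E : WeierstrassCurve KK) [E.IsElliptic] (hj : E.j = 0)
    (F : Type) [Field F] [NumberField F] [Algebra KK F] (hN : Nice l E F) (hF : Module.finrank KK F ≠ 1) :
    MT l (E.baseChange F) ∧ (FT l (E.baseChange F) ↔ FT l E) :=
  modT_ext_of hl (allT hl) E hj F hN hF

end CX
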